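import Pool.Agent.EGU.Targets

set_option autoImplicit false

/-!
Target SEGA of the project EGU: the lex order and initial segments.
-/

namespace Pool.Agent.EGU

namespace SEGA_

variable {n : ℕ}

/-- the exponent as an element of the lex order -/
def tl (x : Fin n →₀ ℕ) : Lex (Fin n → ℕ) := toLex (x : Fin n → ℕ)

theorem lt_iff (x y : Fin n →₀ ℕ) : lexgt x y ↔ tl y < tl x := Iff.rfl

theorem tl_inj {x y : Fin n →₀ ℕ} (h : tl x = tl y) : x = y := by
  have h1 : (x : Fin n → ℕ) = y := toLex.injective h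
  exact DFunLike.coe_injective h1

theorem tri (x y : Fin n →₀ ℕ) (h : x ≠ y) : lexgt x y ∨ lexgt y x := by
  rw [lt_iff, lt_iff]
  rcases lt_trichotomy (tl x) (tl y) with h1 | h1 | h1
  · exact Or.inr h1
  · exact absurd (tl_inj h1) h
  · exact Or.inl h1

theorem irr (x : Fin n →₀ ℕ) : ¬ lexgt x x := by
  rw [lt_iff]
  exact lt_irrefl _

theorem tr (x y z : Fin n →₀ ℕ) (h1 : lexgt x y) (h2 : lexgt y z) : lexgt x z := by
  rw [lt_iff] at *
  exact h2.trans h1

theorem exi (a : Fin n → ℕ) (d : ℕ) (N : ℕ) (hN : N ≤ (Std a d).card) :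
    ∃ M, IsSeg a d M ∧ M.card = N := by
  classical
  induction N with
  | zero =>
    refine ⟨∅, ⟨Finset.empty_subset _, fun x hx => absurd hx (Finset.notMem_empty x)⟩, rfl⟩
  | succ N ih =>
    obtain ⟨M, ⟨hM1, hM2⟩, hM3⟩ := ih (by omega)
    have hne : (Std a d \ M).Nonempty := by
      rw [← Finset.card_pos, Finset.card_sdiff_of_subset hM1]
      omega
    obtain ⟨z, hz, hmax⟩ := Finset.exists_max_image (Std a d \ M) tl hne
    rw [Finset.mem_sdiff] at hz
    refine ⟨insert z M, ⟨Finset.insert_subset hz.1 hM1, ?_⟩, ?_⟩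
    · intro x hx y hy hlt
      rw [Finset.mem_insert] at hx ⊢
      rcases hx with hx | hx
      · subst hx
        right
        by_contra hcon
        have h1 := hmax y (Finset.mem_sdiff.2 ⟨hy, hcon⟩)
        rw [lt_iff] at hlt
        exact absurd hlt (not_lt.2 h1)
      · exact Or.inr (hM2 x hx y hy hlt)
    · rw [Finset.card_insert_of_notMem hz.2, hM3]

theorem nest (a : Fin n → ℕ) (d : ℕ) (M M' : Finset (Fin n →₀ ℕ)) (h : IsSeg a d M)
    (h' : IsSeg a d M') (hc : M.card ≤ M'.card) : M ⊆ M' := by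
  by_contra hcon
  rw [Finset.not_subset] at hcon
  obtain ⟨x, hx, hx'⟩ := hcon
  have hsub : M' ⊆ M := by
    intro y hy
    have hne : y ≠ x := by
      intro he
      rw [he] at hy
      exact hx' hy
    rcases tri y x hne with h1 | h1
    · exact h.2 x hx y (h'.1 hy) h1
    · exact absurd (h'.2 y hy x (h.1 hx) h1) hx'
  have heq := Finset.eq_of_subset_of_card_le hsub hc
  rw [heq] at hx'
  exact hx' hx

end SEGA_

theorem t_sega : T_SEGA := by
  intro n a d
  exact ⟨SEGA_.tri, SEGA_.irr, SEGA_.tr, SEGA_.exi a d, SEGA_.nest a d⟩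

end Pool.Agent.EGU
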