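import Pool.Agent.EGU.Targets

set_option autoImplicit false
open MvPolynomial

/-!
# ANN: the annihilator of one element
-/

namespace Pool.Agent.EGU

universe u

namespace ANN_

variable {K : Type u} [Field K] {n m : ℕ}

theorem mem_L (f : Fin m → R K n) (w : R K n) (p : Fin 1 → K) (l : R K n) :
    l ∈ L f (fun _ : Fin 1 => w) p ↔
      ∃ x : Fin 1 → R K n, x ∈ Sig f (fun _ : Fin 1 => w) ∧ p 0 • x 0 = l := by
  unfold L
  rw [Submodule.mem_map]
  simp

theorem mem_Sig (f : Fin m → R K n) (w : R K n) (x : Fin 1 → R K n) :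
    x ∈ Sig f (fun _ : Fin 1 => w) ↔ x 0 ∈ Ann1 f w := by
  constructor
  · intro h
    have h1 : (∀ k, x k ∈ Rd K n 1) ∧ ∑ k, x k * w ∈ J f := h
    refine ⟨h1.1 0, ?_⟩
    have h2 := h1.2
    rw [Fin.sum_univ_one] at h2
    exact h2
  · intro h
    have h1 : x 0 ∈ Rd K n 1 ∧ x 0 * w ∈ J f := h
    refine ⟨fun k => ?_, ?_⟩
    · rw [Subsingleton.elim k 0]
      exact h1.1
    · rw [Fin.sum_univ_one]
      exact h1.2

theorem L_eq (f : Fin m → R K n) (w : R K n) (p : Fin 1 → K) (hp : p ≠ 0) :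
    L f (fun _ : Fin 1 => w) p = Ann1 f w := by
  have hp0 : p 0 ≠ 0 := by
    intro h
    apply hp
    funext k
    rw [Subsingleton.elim k 0]
    exact h
  apply le_antisymm
  · intro l hl
    rw [mem_L] at hl
    obtain ⟨x, hx, rfl⟩ := hl
    rw [mem_Sig] at hx
    exact Submodule.smul_mem _ _ hx
  · intro l hl
    rw [mem_L]
    refine ⟨fun _ => (p 0)⁻¹ • l, ?_, ?_⟩
    · rw [mem_Sig]
      exact Submodule.smul_mem _ _ hl
    · rw [smul_smul, mul_inv_cancel₀ hp0, one_smul]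

theorem Wp_eq (f : Fin m → R K n) (d : ℕ) (w : R K n) :
    Wp f d (fun _ : Fin 1 => w) (fun _ => (1 : K)) = Jd f d := by
  unfold Wp
  rw [sup_eq_left, Submodule.span_le]
  rintro x ⟨c, hc, rfl⟩
  rw [Fin.sum_univ_one] at hc
  rw [Fin.sum_univ_one]
  have h0 : c 0 = 0 := by simpa using hc
  rw [h0, zero_smul]
  exact Submodule.zero_mem _

end ANN_

theorem t_ann (h_HYP : T_HYP.{u}) (h_L3 : T_L3.{u}) (h_UPL : T_UPL.{u}) : T_ANN.{u} := by
  intro K _ n m f a hf ha d w hw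
  constructor
  · have h1 := h_HYP K n m f a hf.hom d 1 (fun _ => w) (fun _ => hw) (fun _ => (1 : K))
      (by
        intro h
        have h2 := congrFun h 0
        simp at h2)
    rw [ANN_.Wp_eq, (h_UPL K n m f a hf.hom d (Jd f d) inf_le_left).2.2.1, ANN_.L_eq] at h1
    · exact h1
    · intro h
      have h2 := congrFun h 0
      simp at h2
  · intro hK hwJ
    obtain ⟨p, hp, h1⟩ := h_L3 K n m 1 d f a hf ha (fun _ => w) (fun _ => hw) ⟨0, hwJ⟩
    rw [ANN_.L_eq f w p hp] at h1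
    have h2 : d + 1 - 1 = d := by omega
    rw [h2] at h1
    omega

end Pool.Agent.EGU
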