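import Pool.Agent.EGU.Targets

set_option autoImplicit false
open MvPolynomial

/-!
Target BASE of the project EGU: the Koszul cohomology of the polynomial ring vanishes below the
rank.
-/

namespace Pool.Agent.EGU

universe u

namespace BASE_

variable {K : Type u} [Field K] {n s : ℕ}

theorem cob_mem (l : Fin s → R K n) (c : Finset (Fin s) → R K n) (U : Finset (Fin s)) :
    cob l c U ∈ Ideal.span (l '' (U : Set (Fin s))) := by
  unfold cob
  refine Ideal.sum_mem _ fun t ht => ?_
  refine Ideal.mul_mem_left _ _ (Ideal.mul_mem_right _ _ ?_)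
  exact Ideal.subset_span ⟨t, ht, rfl⟩

theorem sgsq (k : ℕ) : ((-1 : R K n) ^ k) * (-1) ^ k = 1 := by
  rw [← mul_pow]; simp

theorem exists_cob (l : Fin s → R K n) (U : Finset (Fin s)) (x : R K n)
    (hx : x ∈ Ideal.span (l '' (U : Set (Fin s)))) :
    ∃ b : Finset (Fin s) → R K n, cob l b U = x := by
  classical
  obtain ⟨g, hg⟩ := (Submodule.mem_span_image_finset_iff_exists_fun' (R K n)).1 hx
  refine ⟨fun V => ∑ t ∈ U \ V, (-1) ^ (U.filter (· < t)).card * g t, ?_⟩
  rw [← hg]
  unfold cob
  refine Finset.sum_congr rfl fun t ht => ?_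
  have h1 : U \ U.erase t = {t} := by
    ext u
    simp only [Finset.mem_sdiff, Finset.mem_erase, Finset.mem_singleton, not_and]
    constructor
    · rintro ⟨h2, h3⟩
      by_contra h4
      exact h3 h4 h2
    · rintro rfl
      exact ⟨ht, fun h => absurd rfl h⟩
  beta_reduce
  rw [h1, Finset.sum_singleton, smul_eq_mul]
  have h2 := sgsq (K := K) (n := n) (U.filter (· < t)).card
  calc (-1 : R K n) ^ (U.filter (· < t)).card *
        (l t * ((-1) ^ (U.filter (· < t)).card * g t))
      = ((-1 : R K n) ^ (U.filter (· < t)).card * (-1) ^ (U.filter (· < t)).card) *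
        (g t * l t) := by ring
    _ = g t * l t := by rw [h2, one_mul]

theorem part1 (h_CONE : T_CONE.{u}) (h_NZD : T_NZD.{u}) (l : Fin s → R K n)
    (hl : ∀ t, l t ∈ Rd K n 1) (U0 : Finset (Fin s))
    (hU0 : LinearIndepOn K l (U0 : Set (Fin s))) :
    ∀ U : Finset (Fin s), U ⊆ U0 → ∀ i, i < U.card → Ex (⊥ : Ideal (R K n)) l U i := by
  intro U
  induction U using Finset.induction_on with
  | empty =>
    intro _ i hi
    simp at hi
  | insert t0 U ht0 ih =>
    intro hsub i hi
    have hsub' : U ⊆ U0 := (Finset.subset_insert t0 U).trans hsub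
    rw [Finset.card_insert_of_notMem ht0] at hi
    refine h_CONE K n s l ⊥ U t0 i ht0 ?_ ?_
    · intro i' hi'
      exact ih hsub' i' (by omega)
    · intro c hc hb
      rcases Nat.lt_or_ge i U.card with hlt | hge
      · exact ih hsub' i hlt c hc
      · have hiU : i = U.card := by omega
        obtain ⟨b, hb⟩ := hb
        have h1 := hb U (Finset.Subset.refl U) hiU.symm
        rw [Ideal.mem_bot, sub_eq_zero] at h1
        have h2 : c U * l t0 ∈ Ideal.span (l '' (U : Set (Fin s))) := by
          rw [mul_comm, h1]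
          exact cob_mem l b U
        have h3 := h_NZD K n s l hl U t0 ht0
          (hU0.mono (by exact_mod_cast hsub)) (c U) h2
        obtain ⟨b', hb'⟩ := exists_cob l U (c U) h3
        refine ⟨b', fun T hT hTc => ?_⟩
        have hTU : T = U := Finset.eq_of_subset_of_card_le hT (by omega)
        rw [hTU, hb', sub_self]
        exact Ideal.zero_mem _

theorem part2 (h_CONE : T_CONE.{u}) (l : Fin s → R K n) (U0 : Finset (Fin s)) (r : ℕ)
    (h0 : ∀ i, i < r → Ex (⊥ : Ideal (R K n)) l U0 i) :
    ∀ V : Finset (Fin s), ∀ i, i < r → Ex (⊥ : Ideal (R K n)) l (U0 ∪ V) i := by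
  classical
  intro V
  induction V using Finset.induction_on with
  | empty =>
    intro i hi
    rw [Finset.union_empty]
    exact h0 i hi
  | insert t V _ ih =>
    intro i hi
    by_cases ht : t ∈ U0 ∪ V
    · have : U0 ∪ insert t V = U0 ∪ V := by
        rw [Finset.union_insert, Finset.insert_eq_of_mem ht]
      rw [this]
      exact ih i hi
    · rw [Finset.union_insert]
      refine h_CONE K n s l ⊥ (U0 ∪ V) t i ht ?_ ?_
      · intro i' hi'
        exact ih i' (by omega)
      · intro c hc _
        exact ih i hi c hc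

end BASE_

open BASE_ in
theorem t_base (h_CONE : T_CONE.{u}) (h_NZD : T_NZD.{u}) : T_BASE.{u} := by
  classical
  intro K _ n s l hl i hi
  obtain ⟨b, -, -, hspan, hind⟩ := exists_linearIndepOn_extension (K := K) (v := l)
    (linearIndepOn_empty K l) (Set.empty_subset (Set.univ : Set (Fin s)))
  set U0 : Finset (Fin s) := b.toFinset with hU0
  have hb : (U0 : Set (Fin s)) = b := by rw [hU0, Set.coe_toFinset]
  have hcard : rk l = U0.card := by
    unfold rk
    have h1 : Submodule.span K (Set.range l) = Submodule.span K (Set.range fun x : b => l x) := by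
      apply le_antisymm
      · refine Submodule.span_le.2 ?_
        rintro _ ⟨t, rfl⟩
        have h2 := hspan ⟨t, Set.mem_univ t, rfl⟩
        rwa [Set.image_eq_range] at h2
      · refine Submodule.span_mono ?_
        rintro _ ⟨t, rfl⟩
        exact ⟨t, rfl⟩
    rw [h1, finrank_span_eq_card hind, hU0, Set.toFinset_card]
  have h3 := part2 h_CONE l U0 U0.card
    (fun i hi => part1 h_CONE h_NZD l hl U0 (by rw [hb]; exact hind) U0 (Finset.Subset.refl _) i hi)
    Finset.univ i (by rw [← hcard]; exact hi)
  have h4 : U0 ∪ Finset.univ = Finset.univ := Finset.univ_subset_iff.1 Finset.subset_union_right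
  rwa [h4] at h3

end Pool.Agent.EGU
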