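import Pool.Agent.EGU.Targets

set_option autoImplicit false
open MvPolynomial

/-!
Project EGU: bases modulo the ideal, and hyperplanes (target T_BASIS).
-/

namespace Pool.Agent.EGU

universe u

noncomputable section

namespace BASIS_

variable {K : Type u} [Field K] {n m : ℕ}

theorem fin_le (h : T_DIMR.{u}) {d : ℕ} {W : Submodule K (R K n)} (hW : W ≤ Rd K n d) :
    Module.Finite K W := by
  have : Module.Finite K (Rd K n d) := (h K n d).1
  exact Module.Finite.of_injective (Submodule.inclusion hW) (Submodule.inclusion_injective hW)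

/-- The linear combination map. -/
def psi {v : ℕ} (w : Fin v → R K n) : (Fin v → K) →ₗ[K] R K n := Fintype.linearCombination K w

theorem psi_apply {v : ℕ} (w : Fin v → R K n) (c : Fin v → K) : psi w c = ∑ k, c k • w k := rfl

theorem psi_mem {v d : ℕ} (w : Fin v → R K n) (hw : ∀ k, w k ∈ Rd K n d) (c : Fin v → K) :
    psi w c ∈ Rd K n d := by
  rw [psi_apply]
  exact Submodule.sum_mem _ fun k _ => Submodule.smul_mem _ _ (hw k)

theorem rank_sup (h : T_DIMR.{u}) (f : Fin m → R K n) {v d : ℕ} (w : Fin v → R K n)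
    (hw : ∀ k, w k ∈ Rd K n d) (hi : ∀ c : Fin v → K, ∑ k, c k • w k ∈ J f → c = 0)
    (N : Submodule K (Fin v → K)) :
    Module.finrank K (Jd f d ⊔ N.map (psi w) : Submodule K (R K n)) =
      Module.finrank K (Jd f d) + Module.finrank K N := by
  have hker : Function.Injective (psi w) := by
    rw [← LinearMap.ker_eq_bot, eq_bot_iff]
    intro c hc
    rw [LinearMap.mem_ker, psi_apply] at hc
    rw [Submodule.mem_bot]
    exact hi c (by rw [hc]; exact Ideal.zero_mem _)
  have hN : Module.finrank K (N.map (psi w)) = Module.finrank K N :=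
    (Submodule.equivMapOfInjective (psi w) hker N).finrank_eq.symm
  have hinf : Jd f d ⊓ N.map (psi w) = ⊥ := by
    rw [eq_bot_iff]
    rintro x ⟨hx1, c, _, rfl⟩
    have h0 : c = 0 := hi c hx1.2
    rw [h0, map_zero]
    exact Submodule.zero_mem _
  have h1 : Module.Finite K (Jd f d) := fin_le h inf_le_left
  have h2 : Module.Finite K (N.map (psi w)) := fin_le h (d := d) (by
    rintro x ⟨c, _, rfl⟩
    exact psi_mem w hw c)
  have h3 := Submodule.finrank_sup_add_finrank_inf_eq (Jd f d) (N.map (psi w))
  rw [hinf, finrank_bot, hN, add_zero] at h3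
  exact h3

theorem Wf_eq (f : Fin m → R K n) (d : ℕ) {v : ℕ} (w : Fin v → R K n) :
    Wf f d w = Jd f d ⊔ (⊤ : Submodule K (Fin v → K)).map (psi w) := by
  unfold Wf
  rw [Submodule.map_top]
  congr 1
  exact (Fintype.range_linearCombination K w).symm

/-- The functional `c ↦ ∑ c k * p k`. -/
def phi {v : ℕ} (p : Fin v → K) : (Fin v → K) →ₗ[K] K := Fintype.linearCombination K p

theorem phi_apply {v : ℕ} (p c : Fin v → K) : phi p c = ∑ k, c k * p k := rfl

theorem Wp_eq (f : Fin m → R K n) (d : ℕ) {v : ℕ} (w : Fin v → R K n) (p : Fin v → K) :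
    Wp f d w p = Jd f d ⊔ (LinearMap.ker (phi p)).map (psi w) := by
  unfold Wp
  congr 1
  apply le_antisymm
  · rw [Submodule.span_le]
    rintro x ⟨c, hc, rfl⟩
    exact ⟨c, by rw [SetLike.mem_coe, LinearMap.mem_ker, phi_apply]; exact hc, rfl⟩
  · rintro x ⟨c, hc, rfl⟩
    rw [SetLike.mem_coe, LinearMap.mem_ker, phi_apply] at hc
    exact Submodule.subset_span ⟨c, hc, rfl⟩

theorem ker_phi {v : ℕ} (p : Fin v → K) (hp : p ≠ 0) :
    Module.finrank K (LinearMap.ker (phi p)) + 1 = v := by
  have h1 := LinearMap.finrank_range_add_finrank_ker (phi p)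
  have h2 : LinearMap.range (phi p) = ⊤ := by
    obtain ⟨k, hk⟩ := Function.ne_iff.mp hp
    rw [LinearMap.range_eq_top]
    intro x
    refine ⟨Pi.single k (x / p k), ?_⟩
    rw [phi_apply, Finset.sum_eq_single k]
    · rw [Pi.single_eq_same]
      exact div_mul_cancel₀ x hk
    · intro j _ hj
      rw [Pi.single_eq_of_ne hj, zero_mul]
    · intro hj
      exact absurd (Finset.mem_univ k) hj
  rw [h2, finrank_top, Module.finrank_self, Module.finrank_fin_fun] at h1
  omega

end BASIS_

open BASIS_ in
/-- BASIS. -/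
theorem t_basis (h_DIMR : T_DIMR.{u}) : T_BASIS.{u} := by
  intro K _ n m f d v
  refine ⟨?_, ?_⟩
  · intro W hJW hWR hrank
    obtain ⟨C', hC'⟩ := Submodule.exists_isCompl (Jd f d)
    obtain ⟨C, hCdef⟩ : ∃ C : Submodule K (R K n), C = W ⊓ C' := ⟨_, rfl⟩
    have hCW : C ≤ W := by rw [hCdef]; exact inf_le_left
    have hinf : Jd f d ⊓ C = ⊥ := by
      rw [eq_bot_iff, ← hC'.inf_eq_bot, hCdef]
      exact le_inf inf_le_left (inf_le_right.trans inf_le_right)
    have hsup : W = Jd f d ⊔ C := by
      apply le_antisymm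
      · intro x hx
        have hx' : x ∈ Jd f d ⊔ C' := by rw [hC'.sup_eq_top]; trivial
        obtain ⟨y, hy, z, hz, hyz⟩ := Submodule.mem_sup.mp hx'
        rw [← hyz]
        refine Submodule.add_mem_sup hy ?_
        rw [hCdef]
        refine ⟨?_, hz⟩
        have : z = x - y := by rw [← hyz]; ring
        rw [this]
        exact W.sub_mem hx (hJW hy)
      · exact sup_le hJW hCW
    have hCfin : Module.Finite K C := fin_le h_DIMR (hCW.trans hWR)
    have hJfin : Module.Finite K (Jd f d) := fin_le h_DIMR inf_le_left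
    have hv : Module.finrank K C = v := by
      have h3 := Submodule.finrank_sup_add_finrank_inf_eq (Jd f d) C
      rw [hinf, finrank_bot, ← hsup] at h3
      omega
    let b : Module.Basis (Fin v) K C := Module.finBasisOfFinrankEq K C hv
    have hspanC : Submodule.span K (Set.range fun i => (b i : R K n)) = C := by
      have h1 : Set.range (fun i => (b i : R K n)) = C.subtype '' Set.range b := by
        rw [← Set.range_comp]
        rfl
      rw [h1, ← Submodule.map_span, b.span_eq, Submodule.map_top, Submodule.range_subtype]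
    refine ⟨fun i => (b i : R K n), fun j => hWR (hCW (b j).2), fun c hc => ?_, ?_⟩
    · have h1 : (∑ j, c j • (b j : R K n)) = ((∑ j, c j • b j : C) : R K n) := by
        simp
      rw [h1] at hc
      have h2 : ((∑ j, c j • b j : C) : R K n) ∈ Jd f d :=
        ⟨hWR (hCW (∑ j, c j • b j : C).2), hc⟩
      have h3 : ((∑ j, c j • b j : C) : R K n) ∈ (⊥ : Submodule K (R K n)) := by
        rw [← hinf]
        exact ⟨h2, (∑ j, c j • b j : C).2⟩
      rw [Submodule.mem_bot] at h3
      have h4 : (∑ j, c j • b j : C) = 0 := by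
        apply Subtype.ext
        exact h3
      have h5 := Fintype.linearIndependent_iff.mp b.linearIndependent c h4
      funext i
      exact h5 i
    · unfold Wf
      rw [hspanC]
      exact hsup
  · intro w hw hi
    have hU : ∀ N : Submodule K (Fin v → K), N.map (psi w) ≤ Rd K n d := by
      rintro N x ⟨c, _, rfl⟩
      exact psi_mem w hw c
    refine ⟨le_sup_left, ?_, ?_, ?_⟩
    · rw [Wf_eq]
      exact sup_le inf_le_left (hU _)
    · rw [Wf_eq, rank_sup h_DIMR f w hw hi, finrank_top, Module.finrank_fin_fun]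
    · intro p hp
      refine ⟨le_sup_left, ?_, ?_⟩
      · rw [Wp_eq, Wf_eq]
        exact sup_le_sup_left (Submodule.map_mono le_top) _
      · rw [Wp_eq, rank_sup h_DIMR f w hw hi]
        have := ker_phi p hp
        omega

end

end Pool.Agent.EGU
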