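import Pool.Agent.EGU.Targets

set_option autoImplicit false
open MvPolynomial

/-!
T_BC1: base change of a homogeneous regular sequence along a field extension.
-/

namespace Pool.Agent.EGU

universe u

noncomputable section

namespace BC1_

variable {K E : Type u} [Field K] [Field E] [Algebra K E] {n : ℕ}

/-- apply a functional to the coefficients -/
def cf (l : E →ₗ[K] K) (p : R E n) : R K n := ∑ m ∈ p.support, monomial m (l (coeff m p))

theorem coeff_cf (l : E →ₗ[K] K) (p : R E n) (m : Fin n →₀ ℕ) :
    coeff m (cf l p) = l (coeff m p) := by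
  classical
  unfold cf
  rw [coeff_sum]
  simp only [coeff_monomial]
  rw [Finset.sum_ite_eq' p.support m (fun m => l (coeff m p))]
  split_ifs with hm
  · rfl
  · rw [notMem_support_iff.mp hm, map_zero]

theorem cf_add (l : E →ₗ[K] K) (p q : R E n) : cf l (p + q) = cf l p + cf l q := by
  ext m
  rw [coeff_cf, coeff_add, coeff_add, coeff_cf, coeff_cf, map_add]

theorem cf_zero (l : E →ₗ[K] K) : cf l (0 : R E n) = 0 := by
  ext m
  rw [coeff_cf, coeff_zero, coeff_zero, map_zero]

theorem cf_mul (l : E →ₗ[K] K) (p : R E n) (r : R K n) :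
    cf l (p * MvPolynomial.map (algebraMap K E) r) = cf l p * r := by
  classical
  ext m
  rw [coeff_cf, coeff_mul, coeff_mul, map_sum]
  refine Finset.sum_congr rfl fun x _ => ?_
  rw [coeff_map, coeff_cf, mul_comm (coeff x.1 p), ← Algebra.smul_def, map_smul, smul_eq_mul,
    mul_comm]

/-- every polynomial over `E` is a combination of polynomials over `K` -/
theorem decomp {ι : Type*} (B : Module.Basis ι K E) (p : R E n) : ∃ s : Finset ι,
    p = ∑ i ∈ s, C (B i) * MvPolynomial.map (algebraMap K E) (cf (B.coord i) p) := by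
  classical
  refine ⟨p.support.biUnion fun m => (B.repr (coeff m p)).support, ?_⟩
  ext m
  rw [coeff_sum]
  simp only [coeff_C_mul, coeff_map, coeff_cf, Module.Basis.coord_apply]
  have hsub : (B.repr (coeff m p)).support ⊆
      p.support.biUnion fun m => (B.repr (coeff m p)).support := by
    by_cases hm : m ∈ p.support
    · exact Finset.subset_biUnion_of_mem (fun m => (B.repr (coeff m p)).support) hm
    · rw [notMem_support_iff.mp hm, map_zero, Finsupp.support_zero]
      exact Finset.empty_subset _
  have h := B.linearCombination_repr (coeff m p)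
  rw [Finsupp.linearCombination_apply, Finsupp.sum_of_support_subset _ hsub
    (fun i (a : K) => a • B i) (fun i _ => zero_smul K (B i))] at h
  conv_lhs => rw [← h]
  refine Finset.sum_congr rfl fun i _ => ?_
  rw [Algebra.smul_def, mul_comm]

/-- coefficient functionals map the extended ideal into the ideal -/
theorem cf_mem {m : ℕ} (f : Fin m → R K n) (T : Set (Fin m)) (l : E →ₗ[K] K) (q : R E n)
    (hq : q ∈ Ideal.span ((fun i => MvPolynomial.map (algebraMap K E) (f i)) '' T)) :
    ∀ r : R E n, cf l (r * q) ∈ Ideal.span (f '' T) := by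
  induction hq using Submodule.span_induction with
  | mem x hx =>
    intro r
    obtain ⟨i, hi, rfl⟩ := hx
    rw [cf_mul]
    exact Ideal.mul_mem_left _ _ (Ideal.subset_span ⟨i, hi, rfl⟩)
  | zero =>
    intro r
    rw [mul_zero, cf_zero]
    exact Ideal.zero_mem _
  | add x y _ _ hx hy =>
    intro r
    rw [mul_add, cf_add]
    exact Ideal.add_mem _ (hx r) (hy r)
  | smul s x _ hx =>
    intro r
    rw [smul_eq_mul, ← mul_assoc]
    exact hx _

theorem map_mem {m : ℕ} (f : Fin m → R K n) (T : Set (Fin m)) (q : R K n)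
    (hq : q ∈ Ideal.span (f '' T)) : MvPolynomial.map (algebraMap K E) q ∈
      Ideal.span ((fun i => MvPolynomial.map (algebraMap K E) (f i)) '' T) := by
  have h := Ideal.mem_map_of_mem (MvPolynomial.map (algebraMap K E)) hq
  rw [Ideal.map_span, ← Set.image_comp] at h
  exact h

end BC1_

open BC1_ in
theorem t_bc1 : T_BC1.{u} := by
  intro K E _ _ _ n m f a hf
  let B := Module.Basis.ofVectorSpace K E
  refine ⟨hf.pos, fun i => (hf.hom i).map _, fun j p h => ?_⟩
  obtain ⟨s, hs⟩ := decomp B p
  rw [hs]
  refine Ideal.sum_mem _ fun i _ => Ideal.mul_mem_left _ _ ?_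
  apply map_mem
  apply hf.reg j
  rw [← cf_mul]
  have h1 := cf_mem f {i | i < j} (B.coord i) _ h 1
  rwa [one_mul] at h1

end

end Pool.Agent.EGU
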