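import Pool.Agent.EGU.Targets

set_option autoImplicit false
open MvPolynomial

/-!
# BC2: base change of growth (EGU project)
-/

namespace Pool.Agent.EGU

universe u

namespace BC2_

variable {K E : Type u} [Field K] [Field E] [Algebra K E] {n m : ℕ}

/-- extension of scalars of a subspace -/
noncomputable def ext (E : Type u) [Field E] [Algebra K E] (U : Submodule K (R K n)) :
    Submodule E (R E n) :=
  Submodule.span E ((MvPolynomial.map (algebraMap K E)) '' (U : Set (R K n)))

lemma map_mem {U : Submodule K (R K n)} {p : R K n} (hp : p ∈ U) :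
    MvPolynomial.map (algebraMap K E) p ∈ ext E U :=
  Submodule.subset_span ⟨p, hp, rfl⟩

lemma ext_mono {U V : Submodule K (R K n)} (h : U ≤ V) : ext E U ≤ ext E V :=
  Submodule.span_mono (Set.image_mono h)

lemma map_smul' (c : K) (p : R K n) : MvPolynomial.map (algebraMap K E) (c • p) =
    (algebraMap K E c) • MvPolynomial.map (algebraMap K E) p := by
  rw [MvPolynomial.smul_eq_C_mul, map_mul, MvPolynomial.map_C, ← MvPolynomial.smul_eq_C_mul]

lemma linInd {r : ℕ} (v : Fin r → R K n) (hv : LinearIndependent K v) :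
    LinearIndependent E (fun i => MvPolynomial.map (algebraMap K E) (v i)) := by
  rw [Fintype.linearIndependent_iff] at hv ⊢
  intro g hg
  have key : ∀ ξ : Module.Dual K E, ∀ i, ξ (g i) = 0 := by
    intro ξ
    apply hv (fun i => ξ (g i))
    ext x
    have h1 := congrArg (MvPolynomial.coeff x) hg
    rw [MvPolynomial.coeff_sum, MvPolynomial.coeff_zero] at h1
    have h2 := congrArg ξ h1
    rw [map_sum, map_zero] at h2
    rw [MvPolynomial.coeff_sum, MvPolynomial.coeff_zero, ← h2]
    refine Finset.sum_congr rfl fun i _ => ?_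
    rw [MvPolynomial.coeff_smul, MvPolynomial.coeff_smul, MvPolynomial.coeff_map, smul_eq_mul,
      smul_eq_mul, mul_comm (g i), ← Algebra.smul_def, map_smul, smul_eq_mul, mul_comm]
  intro i
  exact (Module.forall_dual_apply_eq_zero_iff K (g i)).mp fun ξ => key ξ i

lemma finrank_ext (U : Submodule K (R K n)) [Module.Finite K U] :
    Module.finrank E (ext E U) = Module.finrank K U := by
  set b := Module.finBasis K U with hb
  set v : Fin (Module.finrank K U) → R K n := fun i => (b i : R K n) with hv
  have hli : LinearIndependent K v := b.linearIndependent.map' U.subtype (Submodule.ker_subtype U)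
  have hspan : ext E U = Submodule.span E
      (Set.range fun i => MvPolynomial.map (algebraMap K E) (v i)) := by
    apply le_antisymm
    · refine Submodule.span_le.mpr ?_
      rintro _ ⟨p, hp, rfl⟩
      have h1 : p = ∑ i, (b.repr ⟨p, hp⟩ i) • v i := by
        have := congrArg Subtype.val (b.sum_repr ⟨p, hp⟩)
        rw [AddSubmonoidClass.coe_finsetSum] at this
        exact this.symm
      rw [SetLike.mem_coe, h1, map_sum]
      refine Submodule.sum_mem _ fun i _ => ?_
      rw [map_smul']
      exact Submodule.smul_mem _ _ (Submodule.subset_span ⟨i, rfl⟩)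
    · refine Submodule.span_le.mpr ?_
      rintro _ ⟨i, rfl⟩
      exact map_mem (b i).2
  rw [hspan, finrank_span_eq_card (linInd v hli), Fintype.card_fin]

lemma Rd_ext (d : ℕ) : ext E (Rd K n d) = Rd E n d := by
  apply le_antisymm
  · refine Submodule.span_le.mpr ?_
    rintro _ ⟨p, hp, rfl⟩
    exact (MvPolynomial.IsHomogeneous.map hp _)
  · intro p hp
    rw [MvPolynomial.as_sum p]
    refine Submodule.sum_mem _ fun x hx => ?_
    have h1 : MvPolynomial.monomial x (MvPolynomial.coeff x p) =
        (MvPolynomial.coeff x p) • MvPolynomial.map (algebraMap K E)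
          (MvPolynomial.monomial x (1 : K)) := by
      rw [MvPolynomial.map_monomial, map_one, MvPolynomial.smul_monomial, smul_eq_mul, mul_one]
    rw [h1]
    refine Submodule.smul_mem _ _ (map_mem ?_)
    refine MvPolynomial.isHomogeneous_monomial _ ?_
    have h2 : MvPolynomial.IsHomogeneous p d := hp
    have h3 := h2 (MvPolynomial.mem_support_iff.mp hx)
    rw [← h3, Finsupp.degree_eq_weight_one]
    rfl

lemma J_map (f : Fin m → R K n) {p : R K n} (hp : p ∈ J f) :
    MvPolynomial.map (algebraMap K E) p ∈
      J (fun i => MvPolynomial.map (algebraMap K E) (f i)) := by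
  have h1 := Ideal.mem_map_of_mem (MvPolynomial.map (algebraMap K E)) hp
  unfold J at h1 ⊢
  rw [Ideal.map_span] at h1
  rwa [← Set.range_comp] at h1

lemma Jd_ext (hJD : T_JD.{u}) (f : Fin m → R K n) (a : Fin m → ℕ)
    (hf : ∀ i, (f i).IsHomogeneous (a i)) (d : ℕ) :
    ext E (Jd f d) = Jd (fun i => MvPolynomial.map (algebraMap K E) (f i)) d := by
  apply le_antisymm
  · refine Submodule.span_le.mpr ?_
    rintro _ ⟨p, hp, rfl⟩
    exact ⟨MvPolynomial.IsHomogeneous.map hp.1 _, J_map f hp.2⟩
  · intro p hp
    obtain ⟨y, hy, rfl⟩ := ((hJD E n m (fun i => MvPolynomial.map (algebraMap K E) (f i)) a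
      (fun i => (hf i).map _)).1 d p).mp hp
    refine Submodule.sum_mem _ fun k _ => ?_
    have hk := hy k
    unfold Rm at hk
    by_cases hle : a k ≤ d
    · rw [if_pos hle, ← Rd_ext (K := K)] at hk
      refine Submodule.span_induction (p := fun z _ => z * MvPolynomial.map (algebraMap K E) (f k)
        ∈ ext E (Jd f d)) ?_ ?_ ?_ ?_ hk
      · rintro _ ⟨q, hq, rfl⟩
        rw [← map_mul]
        refine map_mem ⟨?_, ?_⟩
        · have h1 : (q * f k).IsHomogeneous (d - a k + a k) :=
            MvPolynomial.IsHomogeneous.mul hq (hf k)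
          rwa [Nat.sub_add_cancel hle] at h1
        · exact Ideal.mul_mem_left _ _ (Ideal.subset_span ⟨k, rfl⟩)
      · rw [zero_mul]
        exact Submodule.zero_mem _
      · intro x y _ _ hx hy
        rw [add_mul]
        exact Submodule.add_mem _ hx hy
      · intro c x _ hx
        rw [smul_mul_assoc]
        exact Submodule.smul_mem _ c hx
    · rw [if_neg hle, Submodule.mem_bot] at hk
      rw [hk, zero_mul]
      exact Submodule.zero_mem _

lemma up_ext (hJD : T_JD.{u}) (f : Fin m → R K n) (a : Fin m → ℕ)
    (hf : ∀ i, (f i).IsHomogeneous (a i)) (d : ℕ) (W : Submodule K (R K n)) :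
    up (fun i => MvPolynomial.map (algebraMap K E) (f i)) d (ext E W) ≤ ext E (up f d W) := by
  unfold up
  refine sup_le ?_ ?_
  · rw [← Rd_ext (K := K)]
    unfold ext
    rw [Submodule.span_mul_span]
    refine Submodule.span_le.mpr ?_
    rintro _ ⟨_, ⟨p, hp, rfl⟩, _, ⟨q, hq, rfl⟩, rfl⟩
    show MvPolynomial.map (algebraMap K E) p * MvPolynomial.map (algebraMap K E) q ∈ _
    rw [← map_mul]
    exact map_mem (Submodule.mem_sup_left (Submodule.mul_mem_mul hp hq))
  · rw [← Jd_ext hJD f a hf]
    exact ext_mono le_sup_right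

lemma up_le (f : Fin m → R K n) (d : ℕ) (W : Submodule K (R K n)) (hW : W ≤ Rd K n d) :
    up f d W ≤ Rd K n (d + 1) := by
  unfold up
  refine sup_le ?_ inf_le_left
  refine Submodule.mul_le.mpr fun p hp q hq => ?_
  have h1 : (p * q).IsHomogeneous (1 + d) := MvPolynomial.IsHomogeneous.mul hp (hW hq)
  rwa [add_comm] at h1

end BC2_

open BC2_ in
/-- The target `T_BC2`. -/
theorem t_bc2 (hJD : T_JD.{u}) (hDIMR : T_DIMR.{u}) : T_BC2.{u} := by
  intro K E _ _ _ n m f a hf d v N hG W hJW hWR hcard
  have hRK : ∀ e, Module.Finite K (Rd K n e) := fun e => (hDIMR K n e).1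
  have hRL : ∀ e, Module.Finite E (Rd E n e) := fun e => (hDIMR E n e).1
  have fW : Module.Finite K W := Submodule.finiteDimensional_of_le hWR
  have fJ : ∀ e, Module.Finite K (Jd f e) := fun e =>
    Submodule.finiteDimensional_of_le (inf_le_left : Jd f e ≤ Rd K n e)
  have hup := up_le f d W hWR
  have fU : Module.Finite K (up f d W) := Submodule.finiteDimensional_of_le hup
  have e1 : ∀ e, Module.finrank E (Jd (fun i => MvPolynomial.map (algebraMap K E) (f i)) e) =
      Module.finrank K (Jd f e) := by
    intro e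
    rw [← Jd_ext hJD f a hf.hom e]
    exact finrank_ext (Jd f e)
  have e2 : Module.finrank E (ext E W) = Module.finrank K W := finrank_ext W
  have h1 := hG (ext E W) (by
    rw [← Jd_ext hJD f a hf.hom d]
    exact ext_mono hJW) (by
    rw [← Rd_ext (K := K)]
    exact ext_mono hWR) (by
    rw [e1, e2]
    exact hcard)
  rw [e1] at h1
  refine h1.trans ?_
  rw [← finrank_ext (E := E) (up f d W)]
  have fL : Module.Finite E (ext E (up f d W)) := by
    have h2 : ext E (up f d W) ≤ Rd E n (d + 1) := by
      rw [← Rd_ext (K := K)]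
      exact ext_mono hup
    exact Submodule.finiteDimensional_of_le h2
  exact Submodule.finrank_mono (up_ext hJD f a hf.hom d W)

end Pool.Agent.EGU
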