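import Pool.Agent.EGU.Targets

set_option autoImplicit false
open MvPolynomial

/-!
T_BV: growth of spaces of dimension `v ≤ n - p`.
-/

namespace Pool.Agent.EGU

universe u

noncomputable section

namespace BV_

/-- `∑_{i < v} (q - i)` -/
def g (q v : ℕ) : ℕ := ∑ i ∈ Finset.range v, (q - i)

theorem g_succ (q v : ℕ) : g q (v + 1) = g q v + (q - v) := by
  unfold g
  rw [Finset.sum_range_succ]

theorem g_eq (q : ℕ) : ∀ v : ℕ, v ≤ q → g q v + v.choose 2 = v * q := by
  intro v
  induction v with
  | zero => intro _; simp [g]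
  | succ v ih =>
    intro h
    have h1 := ih (by omega)
    rw [g_succ]
    have h2 : (v + 1).choose 2 = v + v.choose 2 := by
      rw [Nat.choose_succ_succ' v 1, Nat.choose_one_right]
    rw [h2, Nat.add_mul, one_mul]
    omega

theorem g_val {q v : ℕ} (h : v ≤ q) : v * q - v.choose 2 = g q v := by
  have := g_eq q v h
  omega

theorem g_sub (q v1 v2 : ℕ) : g q (v1 + v2) ≤ g q v1 + g q v2 := by
  unfold g
  rw [Finset.sum_range_add]
  refine Nat.add_le_add_left (Finset.sum_le_sum fun i _ => ?_) _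
  omega

theorem g_last (q v : ℕ) : g q (v + 1) = q + ∑ i ∈ Finset.range v, (q - (i + 1)) := by
  unfold g
  rw [Finset.sum_range_succ']
  simp [add_comm]

section
variable {K : Type u} [Field K] {n : ℕ}

theorem fin_le (h_DIMR : T_DIMR.{u}) {W : Submodule K (R K n)} {d : ℕ} (h : W ≤ Rd K n d) :
    Module.Finite K W := by
  have := (h_DIMR K n d).1
  exact Submodule.finiteDimensional_of_le h

theorem finrank_mono (h_DIMR : T_DIMR.{u}) {W W' : Submodule K (R K n)} {d : ℕ}
    (h : W ≤ W') (h' : W' ≤ Rd K n d) : Module.finrank K W ≤ Module.finrank K W' := by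
  have := fin_le h_DIMR h'
  exact Submodule.finrank_mono h

theorem finrank_lt (h_DIMR : T_DIMR.{u}) {W W' : Submodule K (R K n)} {d : ℕ}
    (h : W ≤ W') (h' : W' ≤ Rd K n d) {x : R K n} (hx : x ∈ W') (hx' : x ∉ W) :
    Module.finrank K W < Module.finrank K W' := by
  have := fin_le h_DIMR h'
  refine Submodule.finrank_lt_finrank_of_lt (lt_of_le_of_ne h fun he => hx' ?_)
  rw [he]
  exact hx

end

end BV_

open BV_ in
theorem t_bv (h_NUM : T_NUM) (h_DIMR : T_DIMR.{u}) (h_UPL : T_UPL.{u}) (h_BASIS : T_BASIS.{u})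
    (h_HYP : T_HYP.{u}) (h_ANN : T_ANN.{u}) (h_UNI : T_UNI.{u}) (h_SPLIT : T_SPLIT.{u})
    (h_KILL : T_KILL.{u}) : T_BV.{u} := by
  intro K _ _ n d₀ p v₀ f a hf hmon ha hpn hd1 hd2 hd3 hv
  obtain ⟨-, hS1, -, -, hPn, hPS, -, -, -⟩ := h_NUM n a
  have hhom := hf.hom
  -- the values of `P`
  have hP1 : ∀ x, x < S a (p + 1) → P a x ≤ p := by
    intro x hx
    by_contra hc
    have h1 := (hPS (p + 1) x (by omega)).1 (by omega)
    omega
  have hP2 : ∀ x, x ≤ S a (p + 1) → P a x ≤ p + 1 := by
    intro x hx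
    rcases Nat.lt_or_ge (p + 1) n with h | h
    · by_contra hc
      have h1 := (hPS (p + 2) x (by omega)).1 (by omega)
      have h2 := hS1 (p + 1) h
      have h3 := ha ⟨p + 1, h⟩
      have h4 : S a (p + 2) = S a (p + 1) + (a ⟨p + 1, h⟩ - 1) := h2
      omega
    · have := hPn x
      omega
  rw [g_val (show v₀ ≤ n - p by omega)]
  -- the induction
  have main : ∀ v, ∀ d, S a p ≤ d → d < S a (p + 1) → d + v ≤ S a (p + 1) + 1 → v + p ≤ n →
      Grow f d v (g (n - p) v) := by
    intro v
    induction v using Nat.strong_induction_on with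
    | _ v ih =>
    intro d hd1 hd2 hd3 hv W hW1 hW2 hW3
    obtain ⟨u1, u2, -, -, u5, u6, -, -⟩ := h_UPL K n n f a hhom d W hW2
    have annP : ∀ e, ∀ w ∈ Rd K n e, w ∉ J f → Module.finrank K (Ann1 f w) ≤ P a e :=
      fun e w hw hwJ => (h_ANN K n n f a hf hmon e w hw).2 inferInstance hwJ
    rcases Nat.lt_or_ge v 1 with hv0 | hv1
    · have hv0' : v = 0 := by omega
      subst hv0'
      simp only [g, Finset.range_zero, Finset.sum_empty, add_zero]
      exact finrank_mono h_DIMR u1 u2
    rcases Nat.lt_or_ge v 2 with hv2 | hv2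
    · have hv1' : v = 1 := by omega
      subst hv1'
      have h1 := h_UNI K n n d 0 p f a hf hmon W hW1 hW2 hW3 fun w hw hwJ =>
        (annP d w (hW2 hw) hwJ).trans (hP1 d hd2)
      simp only [g, Finset.range_one, Finset.sum_singleton, Finset.range_zero, Finset.sum_empty,
        add_zero, Nat.sub_zero] at h1 ⊢
      exact h1
    -- `v ≥ 2`
    obtain ⟨w0, hw0, hw0J⟩ : ∃ w ∈ W, w ∉ J f := by
      by_contra hc
      push Not at hc
      have h1 : W ≤ Jd f d := fun w hw => ⟨hW2 hw, hc w hw⟩
      have h2 := finrank_mono h_DIMR h1 (inf_le_left : Jd f d ≤ Rd K n d)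
      omega
    have hT1 : AnnW f W ≤ Rd K n 1 := fun l hl => hl.1
    have hTfin := fin_le h_DIMR hT1
    have hT2 : AnnW f W ≤ Ann1 f w0 := fun l hl => ⟨hl.1, hl.2 w0 hw0⟩
    have hA1 : ∀ w : R K n, Ann1 f w ≤ Rd K n 1 := fun w l hl => hl.1
    have ht : Module.finrank K (AnnW f W) ≤ p :=
      (finrank_mono h_DIMR hT2 (hA1 w0)).trans ((annP d w0 (hW2 hw0) hw0J).trans (hP1 d hd2))
    by_cases hi : Module.finrank K (AnnW f W) = p
    · -- case (i)
      obtain ⟨w, hw1, hw2, hw3⟩ := (h_BASIS K n n f d v).1 W hW1 hW2 hW3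
      obtain ⟨-, b2, -, b4⟩ := (h_BASIS K n n f d v).2 w hw1 hw2
      have hwW : ∀ k, w k ∈ W := by
        intro k
        rw [hw3]
        exact Submodule.mem_sup_right (Submodule.subset_span ⟨k, rfl⟩)
      let b := Module.finBasisOfFinrankEq K (AnnW f W) hi
      have hl1 : ∀ t, ((b t : AnnW f W) : R K n) ∈ Rd K n 1 := fun t => hT1 (b t).2
      have hl2 : LinearIndependent K (fun t => ((b t : AnnW f W) : R K n)) :=
        b.linearIndependent.map' (AnnW f W).subtype (Submodule.ker_subtype _)
      have hne : ∃ k, w k ∉ J f := by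
        by_contra hc
        push Not at hc
        have h1 := hw2 (Pi.single ⟨0, by omega⟩ 1) (Ideal.sum_mem _ fun k _ =>
          ((J f).restrictScalars K).smul_mem _ (hc k))
        have h2 := congrFun h1 ⟨0, by omega⟩
        simp at h2
      obtain ⟨-, -, q, hq, hq1, -⟩ := h_KILL K n n p f a hf hmon _ hl1 hl2 d v w hw1 hne
        (fun t k => (b t).2.2 (w k) (hwW k)) (Or.inr (by omega))
      obtain ⟨c1, c2, c3⟩ := b4 q hq
      have h1 := h_HYP K n n f a hhom d v w hw1 q hq
      have h2 := ih (v - 1) (by omega) d hd1 hd2 (by omega) (by omega) (Wp f d w q) c1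
        (c2.trans b2) (by omega)
      have h3 : g (n - p) v = g (n - p) (v - 1) + (n - p - (v - 1)) := by
        conv_lhs => rw [show v = v - 1 + 1 by omega]
        exact g_succ _ _
      rw [← hw3] at h1
      rw [h3]
      omega
    by_cases hii : ∃ l ∈ Rd K n 1, l ∉ AnnW f W ∧ ∃ w ∈ W, w ∉ J f ∧ l * w ∈ J f
    · -- case (ii)
      obtain ⟨l, hl1, hl2, w, hw, hwJ, hlw⟩ := hii
      obtain ⟨s1, s2⟩ := h_SPLIT K n n f a hhom d W hW1 hW2 l hl1
      have k1 : Jd f d ≤ kerW f l W := u6 l hl1 hW1
      have k2 : kerW f l W ≤ W := inf_le_left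
      have k3 : Module.finrank K (Jd f d) < Module.finrank K (kerW f l W) :=
        finrank_lt h_DIMR k1 (k2.trans hW2) (x := w) ⟨hw, hlw⟩ fun h => hwJ h.2
      have m1 : Jd f (d + 1) ≤ mulW f d l W := le_sup_right
      have m2 : mulW f d l W ≤ Rd K n (d + 1) := (u5 l hl1).2
      obtain ⟨w', hw', hlw'⟩ : ∃ w' ∈ W, l * w' ∉ J f := by
        by_contra hc
        push Not at hc
        exact hl2 ⟨hl1, hc⟩
      have m3 : Module.finrank K (Jd f (d + 1)) < Module.finrank K (mulW f d l W) := by
        refine finrank_lt h_DIMR m1 m2 (x := l * w') ?_ fun h => hlw' h.2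
        exact Submodule.mem_sup_left (Submodule.mem_map.2 ⟨w', hw', rfl⟩)
      obtain ⟨v1, hv1⟩ := Nat.exists_eq_add_of_le k3.le
      obtain ⟨v2, hv2⟩ := Nat.exists_eq_add_of_le m3.le
      have hsum : v1 + v2 = v := by omega
      have hv1p : 1 ≤ v1 := by omega
      have hv2p : 1 ≤ v2 := by omega
      have i1 := ih v1 (by omega) d hd1 hd2 (by omega) (by omega) (kerW f l W) k1
        (k2.trans hW2) hv1
      rcases Nat.lt_or_ge (d + 1) (S a (p + 1)) with hlt | hge
      · have i2 := ih v2 (by omega) (d + 1) (by omega) hlt (by omega) (by omega)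
          (mulW f d l W) m1 m2 hv2
        have h3 := g_sub (n - p) v1 v2
        rw [hsum] at h3
        have e : d + 1 + 1 = d + 2 := rfl
        rw [e] at i2
        omega
      · have e1 : v = 2 := by omega
        have e2 : v1 = 1 := by omega
        have e3 : v2 = 1 := by omega
        subst e2
        subst e3
        have i2 := h_UNI K n n (d + 1) 0 (p + 1) f a hf hmon (mulW f d l W) m1 m2 hv2
          fun w hw hwJ => (annP (d + 1) w (m2 hw) hwJ).trans (hP2 (d + 1) (by omega))
        simp only [Finset.range_zero, Finset.sum_empty, add_zero] at i2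
        have e : d + 1 + 1 = d + 2 := rfl
        rw [e] at i2
        have g1 : g (n - p) 1 = n - p := by simp [g]
        have g2 : g (n - p) v = (n - p) + (n - p - 1) := by
          rw [e1]
          simp [g, Finset.sum_range_succ]
        rw [g1] at i1
        rw [g2]
        omega
    · -- case (iii)
      push Not at hii
      have hlt : Module.finrank K (AnnW f W) < p := by omega
      have hA : ∀ w ∈ W, w ∉ J f → Module.finrank K (Ann1 f w) ≤
          Module.finrank K (AnnW f W) := by
        intro w hw hwJ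
        refine finrank_mono h_DIMR (fun l hl => ?_) hT1
        by_contra hc
        exact hii l hl.1 hc w hw hwJ hl.2
      have h1 := h_UNI K n n d (v - 1) _ f a hf hmon W hW1 hW2 (by omega) hA
      obtain ⟨k, rfl⟩ : ∃ k, v = k + 2 := ⟨v - 2, by omega⟩
      have e1 : k + 2 - 1 = k + 1 := rfl
      rw [e1, Finset.sum_range_succ] at h1
      have e2 : g (n - p) (k + 2) = (n - p) + (∑ i ∈ Finset.range k, (n - p - (i + 1)) +
          (n - p - (k + 1))) := by
        rw [show k + 2 = (k + 1) + 1 by rfl, g_last, Finset.sum_range_succ]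
      have e3 : ∑ i ∈ Finset.range k, (n - p - (i + 1)) ≤
          ∑ i ∈ Finset.range k, (n - (i + 1 + P a (d + i + 1))) := by
        refine Finset.sum_le_sum fun i hi => ?_
        have hi' := Finset.mem_range.1 hi
        have := hP1 (d + i + 1) (by omega)
        omega
      have e4 := hP2 (d + k + 1) (by omega)
      rw [e2]
      omega
  exact main v₀ d₀ hd1 hd2 hd3 hv

end

end Pool.Agent.EGU
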