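import Pool.Agent.EGU.Targets

set_option autoImplicit false
open MvPolynomial

namespace Pool.Agent.EGU

universe u

namespace CIR_

theorem image_last {α : Type u} {m : ℕ} (f : Fin (m + 1) → α) :
    f '' {i | i < Fin.last m} = Set.range (f ∘ Fin.castSucc) := by
  ext x
  constructor
  · rintro ⟨i, hi, rfl⟩
    rw [Set.mem_ofPred_eq] at hi
    refine ⟨i.castPred hi.ne, ?_⟩
    simp
  · rintro ⟨i, rfl⟩
    exact ⟨i.castSucc, Fin.castSucc_lt_last i, rfl⟩

theorem image_castSucc {α : Type u} {m : ℕ} (f : Fin (m + 1) → α) (i : Fin m) :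
    f '' {k | k < i.castSucc} = (f ∘ Fin.castSucc) '' {k | k < i} := by
  ext x
  constructor
  · rintro ⟨k, hk, rfl⟩
    rw [Set.mem_ofPred_eq] at hk
    have hk' : k ≠ Fin.last m := (lt_of_lt_of_le hk (Fin.le_last _)).ne
    refine ⟨k.castPred hk', ?_, by simp⟩
    rw [Set.mem_ofPred_eq]
    rw [← Fin.castSucc_lt_castSucc_iff]
    simpa using hk
  · rintro ⟨k, hk, rfl⟩
    rw [Set.mem_ofPred_eq] at hk
    exact ⟨k.castSucc, Fin.castSucc_lt_castSucc_iff.2 hk, rfl⟩

end CIR_

open CIR_

theorem t_cir : T_CIR.{u} := by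
  intro K _ n m f a
  constructor
  · unfold J
    rw [← Ideal.span_union]
    congr 1
    ext x
    simp only [Set.mem_range, Set.mem_union, Set.mem_singleton_iff, Function.comp_apply]
    constructor
    · rintro ⟨i, rfl⟩
      rcases Fin.eq_castSucc_or_eq_last i with ⟨k, rfl⟩ | rfl
      · exact Or.inl ⟨k, rfl⟩
      · exact Or.inr rfl
    · rintro (⟨k, rfl⟩ | rfl)
      · exact ⟨k.castSucc, rfl⟩
      · exact ⟨Fin.last m, rfl⟩
  · constructor
    · rintro ⟨hpos, hhom, hreg⟩
      refine ⟨⟨fun i => hpos _, fun i => hhom _, ?_⟩, hpos _, hhom _, ?_⟩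
      · intro j p hp
        have h1 := hreg j.castSucc p
        rw [image_castSucc] at h1
        exact h1 hp
      · intro p hp
        have h1 := hreg (Fin.last m) p
        rw [image_last] at h1
        exact h1 hp
    · rintro ⟨⟨hpos, hhom, hreg⟩, hpos', hhom', hreg'⟩
      refine ⟨?_, ?_, ?_⟩
      · intro i
        rcases Fin.eq_castSucc_or_eq_last i with ⟨k, rfl⟩ | rfl
        · exact hpos k
        · exact hpos'
      · intro i
        rcases Fin.eq_castSucc_or_eq_last i with ⟨k, rfl⟩ | rfl
        · exact hhom k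
        · exact hhom'
      · intro j p
        rcases Fin.eq_castSucc_or_eq_last j with ⟨k, rfl⟩ | rfl
        · rw [image_castSucc]
          exact hreg k p
        · rw [image_last]
          exact hreg' p

end Pool.Agent.EGU
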