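import Pool.Agent.EGU.Targets

set_option autoImplicit false
open MvPolynomial

namespace Pool.Agent.EGU

universe u

namespace COB_

open Finset

theorem card_filter_erase {s : ℕ} (T : Finset (Fin s)) (t u : Fin s) (ht : t ∈ T) :
    (T.filter (· < u)).card = ((T.erase t).filter (· < u)).card + (if t < u then 1 else 0) := by
  by_cases h : t < u
  · rw [if_pos h, Finset.filter_erase, Finset.card_erase_of_mem (mem_filter.2 ⟨ht, h⟩)]
    have : 0 < (T.filter (· < u)).card := Finset.card_pos.2 ⟨t, mem_filter.2 ⟨ht, h⟩⟩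
    omega
  · rw [if_neg h, Finset.filter_erase, Finset.erase_eq_of_notMem]
    · rfl
    · simp [h]

variable {K : Type u} [Field K] {n s : ℕ}

theorem cob_cob (l : Fin s → R K n) (c : Finset (Fin s) → R K n) (T : Finset (Fin s)) :
    cob l (cob l c) T = 0 := by
  unfold cob
  simp only [Finset.mul_sum]
  rw [Finset.sum_sigma']
  refine Finset.sum_involution (fun p _ => ⟨p.2, p.1⟩) ?_ ?_ ?_ ?_
  · rintro ⟨t, u⟩ hp
    simp only [mem_sigma, mem_erase] at hp
    simp only
    obtain ⟨ht, hne, hu⟩ := hp
    have h1 := card_filter_erase T t u ht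
    have h2 := card_filter_erase T u t hu
    rw [Finset.erase_right_comm]
    rcases lt_or_gt_of_ne hne with h | h
    · rw [if_neg (not_lt.2 h.le)] at h1
      rw [if_pos h] at h2
      rw [h1, h2, pow_add]
      ring
    · rw [if_pos h] at h1
      rw [if_neg (not_lt.2 h.le)] at h2
      rw [h1, h2, pow_add]
      ring
  · rintro ⟨t, u⟩ hp _ heq
    simp only [mem_sigma, mem_erase] at hp
    have := congrArg Sigma.fst heq
    exact hp.2.1 this
  · rintro ⟨t, u⟩ hp
    simp only [mem_sigma, mem_erase] at hp ⊢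
    exact ⟨hp.2.2, hp.2.1.symm, hp.1⟩
  · rintro ⟨t, u⟩ hp
    rfl

theorem cob_insert (l : Fin s → R K n) (c : Finset (Fin s) → R K n) (t0 : Fin s)
    (T : Finset (Fin s)) (h0 : t0 ∉ T) :
    cob l c (insert t0 T) = (-1) ^ (T.filter (· < t0)).card *
      (l t0 * c T - cob l (fun U => (-1) ^ (U.filter (· < t0)).card * c (insert t0 U)) T) := by
  unfold cob
  rw [Finset.sum_insert h0]
  have h1 : ((insert t0 T).filter (· < t0)) = T.filter (· < t0) := by
    rw [Finset.filter_insert, if_neg (lt_irrefl t0)]
  rw [h1, Finset.erase_insert h0, mul_sub, Finset.mul_sum, sub_eq_add_neg, ← Finset.sum_neg_distrib]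
  congr 1
  refine Finset.sum_congr rfl fun t ht => ?_
  have hne : t ≠ t0 := fun h => h0 (h ▸ ht)
  have h2 : (insert t0 T).erase t = insert t0 (T.erase t) := by
    rw [Finset.erase_insert_of_ne hne.symm]
  have h3 := card_filter_erase T t t0 ht
  have h4 : ((insert t0 T).filter (· < t)).card
      = (T.filter (· < t)).card + (if t0 < t then 1 else 0) := by
    rw [Finset.filter_insert]
    by_cases h : t0 < t
    · rw [if_pos h, if_pos h, Finset.card_insert_of_notMem]
      simp [h0]
    · rw [if_neg h, if_neg h, add_zero]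
  have h5 : ((-1 : R K n) ^ ((T.erase t).filter (· < t0)).card) *
      ((-1) ^ ((T.erase t).filter (· < t0)).card) = 1 := by
    rw [← pow_add, ← two_mul, pow_mul]; simp
  rw [h2, h4, h3]
  rcases lt_or_gt_of_ne hne with h | h
  · rw [if_pos h, if_neg (not_lt.2 h.le), pow_add, pow_add]
    linear_combination (-(-1) ^ (T.filter (· < t)).card * (l t * c (insert t0 (T.erase t)))) * h5
  · rw [if_neg (not_lt.2 h.le), if_pos h, pow_add, pow_add]
    linear_combination ((-1) ^ (T.filter (· < t)).card * (l t * c (insert t0 (T.erase t)))) * h5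

end COB_

theorem t_cob : T_COB.{u} := by
  intro K _ n s l
  refine ⟨COB_.cob_cob l, ?_, ?_, ?_, ?_⟩
  · intro c c' T
    unfold cob
    rw [← Finset.sum_sub_distrib]
    exact Finset.sum_congr rfl fun t _ => by ring
  · intro c g T
    unfold cob
    rw [Finset.mul_sum]
    exact Finset.sum_congr rfl fun t _ => by ring
  · intro I c T h
    unfold cob
    exact Ideal.sum_mem _ fun t ht => I.mul_mem_left _ (I.mul_mem_left _ (h t ht))
  · intro c t0 T h0
    exact COB_.cob_insert l c t0 T h0

end Pool.Agent.EGU
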