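import Pool.Agent.EGU.Targets

set_option autoImplicit false
open MvPolynomial

/-!
Project EGU (MP_e5dae2_al): proof of the target `T_CONE` (mapping cone for the relative Koszul
cohomology).
-/

namespace Pool.Agent.EGU

universe u

namespace CONE_

variable {K : Type u} [Field K] {n s : ℕ}

theorem cob_congr (l : Fin s → R K n) (c c' : Finset (Fin s) → R K n) (T : Finset (Fin s))
    (h : ∀ t ∈ T, c (T.erase t) = c' (T.erase t)) : cob l c T = cob l c' T := by
  unfold cob
  exact Finset.sum_congr rfl (fun t ht => by rw [h t ht])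

theorem sgsq (k : ℕ) : ((-1 : R K n) ^ k) * (-1) ^ k = 1 := by
  rw [← mul_pow]; simp

theorem mem_of_sign (I : Ideal (R K n)) (k : ℕ) (x : R K n) (h : (-1) ^ k * x ∈ I) : x ∈ I := by
  have h1 := I.mul_mem_left ((-1) ^ k) h
  rwa [← mul_assoc, sgsq, one_mul] at h1

end CONE_

open CONE_ in
theorem t_cone (h_COB : T_COB.{u}) : T_CONE.{u} := by
  intro K _ n s l I U t0 i ht0 hA hB c hc
  obtain ⟨hcc, hsub, -, -, hins⟩ := h_COB K n s l
  have hUi : U ⊆ insert t0 U := Finset.subset_insert _ _
  have hnot : ∀ T ⊆ U, t0 ∉ T := fun T hT h => ht0 (hT h)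
  -- step 1
  have h1 : ∃ b : Finset (Fin s) → R K n, ∀ T ⊆ U, T.card = i → c T - cob l b T ∈ I := by
    refine hB c (fun T hT hTc => hc T (hT.trans hUi) hTc) ?_
    refine ⟨fun V => (-1) ^ (V.filter (· < t0)).card * c (insert t0 V), fun T hT hTc => ?_⟩
    have h2 := hc (insert t0 T) (Finset.insert_subset_insert _ hT)
      (by rw [Finset.card_insert_of_notMem (hnot T hT), hTc])
    rw [hins c t0 T (hnot T hT)] at h2
    exact mem_of_sign I _ _ h2
  obtain ⟨b', hb'⟩ := h1
  let b2 : Finset (Fin s) → R K n := fun T => if t0 ∈ T then 0 else b' T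
  let c' : Finset (Fin s) → R K n := fun T => c T - cob l b2 T
  have hb2 : ∀ T ⊆ U, cob l b2 T = cob l b' T := by
    intro T hT
    refine cob_congr l b2 b' T (fun t _ => ?_)
    show (if t0 ∈ T.erase t then (0 : R K n) else b' (T.erase t)) = _
    rw [if_neg (fun h => hnot T hT (Finset.mem_of_mem_erase h))]
  have hc'1 : ∀ T ⊆ U, T.card = i → c' T ∈ I := by
    intro T hT hTc
    show c T - cob l b2 T ∈ I
    rw [hb2 T hT]
    exact hb' T hT hTc
  have hc'2 : ∀ T ⊆ insert t0 U, T.card = i + 1 → cob l c' T ∈ I := by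
    intro T hT hTc
    show cob l (fun V => c V - cob l b2 V) T ∈ I
    rw [hsub c (cob l b2) T, hcc b2 T, sub_zero]
    exact hc T hT hTc
  -- step 2
  rcases Nat.eq_zero_or_pos i with hi | hi
  · subst hi
    refine ⟨b2, fun T _ hTc => ?_⟩
    have hT0 : T = ∅ := Finset.card_eq_zero.mp hTc
    subst hT0
    exact hc'1 ∅ (Finset.empty_subset _) hTc
  · obtain ⟨j, rfl⟩ : ∃ j, i = j + 1 := ⟨i - 1, by omega⟩
    have h3 : ∃ b : Finset (Fin s) → R K n, ∀ T ⊆ U, T.card = j →
        (-1) ^ (T.filter (· < t0)).card * c' (insert t0 T) - cob l b T ∈ I := by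
      refine hA j rfl (fun V => (-1) ^ (V.filter (· < t0)).card * c' (insert t0 V)) ?_
      intro T hT hTc
      have h4 := hc'2 (insert t0 T) (Finset.insert_subset_insert _ hT)
        (by rw [Finset.card_insert_of_notMem (hnot T hT), hTc])
      rw [hins c' t0 T (hnot T hT)] at h4
      have h5 := mem_of_sign I _ _ h4
      have h6 := I.mul_mem_left (l t0) (hc'1 T hT hTc)
      have h7 := I.sub_mem h6 h5
      simpa using h7
    obtain ⟨b1, hb1⟩ := h3
    let b3 : Finset (Fin s) → R K n := fun T =>
      if t0 ∈ T then (-1) ^ ((T.erase t0).filter (· < t0)).card * b1 (T.erase t0) else 0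
    have hb3a : ∀ T, t0 ∉ T → cob l b3 T = 0 := by
      intro T hT
      have : cob l b3 T = cob l (fun _ => 0) T := by
        refine cob_congr l b3 _ T (fun t _ => ?_)
        show (if t0 ∈ T.erase t then _ else (0 : R K n)) = 0
        rw [if_neg (fun h => hT (Finset.mem_of_mem_erase h))]
      rw [this]
      simp [cob]
    have hb3b : ∀ T, t0 ∉ T → cob l b3 (insert t0 T) =
        - ((-1) ^ (T.filter (· < t0)).card * cob l b1 T) := by
      intro T hT
      rw [hins b3 t0 T hT]
      have e1 : b3 T = 0 := by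
        show (if t0 ∈ T then _ else (0 : R K n)) = 0
        rw [if_neg hT]
      have e2 : cob l (fun V => (-1) ^ (V.filter (· < t0)).card * b3 (insert t0 V)) T =
          cob l b1 T := by
        refine cob_congr l _ b1 T (fun t _ => ?_)
        have hn : t0 ∉ T.erase t := fun h => hT (Finset.mem_of_mem_erase h)
        show (-1) ^ ((T.erase t).filter (· < t0)).card *
          (if t0 ∈ insert t0 (T.erase t) then
            (-1) ^ (((insert t0 (T.erase t)).erase t0).filter (· < t0)).card *
              b1 ((insert t0 (T.erase t)).erase t0) else 0) = b1 (T.erase t)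
        rw [if_pos (Finset.mem_insert_self _ _), Finset.erase_insert hn, ← mul_assoc, sgsq,
          one_mul]
      rw [e1, e2]
      ring
    refine ⟨fun V => b2 V - b3 V, fun T hT hTc => ?_⟩
    rw [hsub b2 b3 T]
    by_cases ht : t0 ∈ T
    · have hT1 : T.erase t0 ⊆ U := by
        intro x hx
        rw [Finset.mem_erase] at hx
        rcases Finset.mem_insert.mp (hT hx.2) with h | h
        · exact absurd h hx.1
        · exact h
      have hT2 : insert t0 (T.erase t0) = T := Finset.insert_erase ht
      have hT3 : (T.erase t0).card = j := by rw [Finset.card_erase_of_mem ht, hTc]; rfl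
      have h8 := hb1 (T.erase t0) hT1 hT3
      have h9 := hb3b (T.erase t0) (Finset.notMem_erase _ _)
      rw [hT2] at h8 h9
      rw [h9]
      have h10 := I.mul_mem_left ((-1) ^ ((T.erase t0).filter (· < t0)).card) h8
      rw [mul_sub, ← mul_assoc, sgsq, one_mul] at h10
      have h11 : c T - (cob l b2 T -
          -((-1) ^ ((T.erase t0).filter (· < t0)).card * cob l b1 (T.erase t0))) =
          c' T - (-1) ^ ((T.erase t0).filter (· < t0)).card * cob l b1 (T.erase t0) := by
        show _ = c T - cob l b2 T - _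
        ring
      rw [h11]
      exact h10
    · have hT1 : T ⊆ U := by
        intro x hx
        rcases Finset.mem_insert.mp (hT hx) with h | h
        · exact absurd (h ▸ hx) ht
        · exact h
      rw [hb3a T ht, sub_zero]
      exact hc'1 T hT1 hTc

end Pool.Agent.EGU
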