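import Pool.Agent.EGU.Targets

set_option autoImplicit false
open MvPolynomial

/-!
Dimension of the space of forms of degree `d` in `n` variables.
-/

namespace Pool.Agent.EGU

universe u

namespace DIMR_

lemma set_eq (n d : ℕ) : {m : Fin n →₀ ℕ | m.degree = d} =
    ((Finset.univ : Finset (Fin n)).finsuppAntidiag d : Set (Fin n →₀ ℕ)) := by
  ext m
  simp [Finset.mem_finsuppAntidiag, Finsupp.degree_eq_sum]

lemma Rd_eq (K : Type u) [Field K] (n d : ℕ) : Rd K n d =
    restrictSupport K ((Finset.univ : Finset (Fin n)).finsuppAntidiag d : Set (Fin n →₀ ℕ)) := by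
  rw [← set_eq]
  exact homogeneousSubmodule_eq_finsupp_supported (Fin n) K d

lemma fin_rank (K : Type u) [Field K] (n d : ℕ) :
    Module.finrank K (Rd K n d) =
      (Finset.finsuppAntidiag (Finset.univ : Finset (Fin n)) d).card := by
  rw [Rd_eq]
  have b := basisRestrictSupport K
    ((Finset.univ : Finset (Fin n)).finsuppAntidiag d : Set (Fin n →₀ ℕ))
  rw [Module.finrank_eq_card_basis b]
  simp

end DIMR_

open DIMR_ in
theorem t_dimr : T_DIMR.{u} := by
  intro K _ n d
  refine ⟨?_, fin_rank K n d, ?_⟩
  · rw [Module.finite_def, Submodule.fg_top]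
    exact homogeneousSubmodule_fg (Fin n) K d
  · rw [fin_rank, Finset.card_finsuppAntidiag_nat_eq_choose, Finset.card_univ, Fintype.card_fin]
    simp

end Pool.Agent.EGU
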