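import Pool.Agent.EGU.Targets

set_option autoImplicit false
open MvPolynomial

/-!
# EGU, target EIG: a pencil of isomorphisms over an algebraically closed field
-/

namespace Pool.Agent.EGU

universe u

theorem EIG_aux {K : Type u} [Field K] [IsAlgClosed K] {E2 E1 : Type u}
    [AddCommGroup E2] [Module K E2] [AddCommGroup E1] [Module K E1] [Module.Finite K E2]
    (A2 B2 : Submodule K E2) (A1 B1 : Submodule K E1) (S0 S1 : E2 →ₗ[K] E1)
    (hAB2 : B2 ≤ A2)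
    (hA : ∀ x ∈ A2, S0 x ∈ A1 ∧ S1 x ∈ A1) (hB : ∀ x ∈ B2, S0 x ∈ B1 ∧ S1 x ∈ B1)
    (hinj : ∀ (y : K), ∀ x ∈ A2, S0 x + y • S1 x ∈ B1 → x ∈ B2)
    (hinj1 : ∀ x ∈ A2, S1 x ∈ B1 → x ∈ B2)
    (hsurj : ∀ z ∈ A1, ∃ x ∈ A2, S1 x - z ∈ B1) : A2 = B2 := by
  by_contra hne
  set p2 : Submodule K A2 := B2.comap A2.subtype with hp2
  set p1 : Submodule K A1 := B1.comap A1.subtype with hp1
  set r0 : A2 →ₗ[K] A1 := S0.restrict (fun x hx => (hA x hx).1) with hr0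
  set r1 : A2 →ₗ[K] A1 := S1.restrict (fun x hx => (hA x hx).2) with hr1
  have h0 : p2 ≤ p1.comap r0 := by
    intro x hx
    exact (hB x.1 hx).1
  have h1 : p2 ≤ p1.comap r1 := by
    intro x hx
    exact (hB x.1 hx).2
  set s0 : (A2 ⧸ p2) →ₗ[K] (A1 ⧸ p1) := p2.mapQ p1 r0 h0 with hs0
  set s1 : (A2 ⧸ p2) →ₗ[K] (A1 ⧸ p1) := p2.mapQ p1 r1 h1 with hs1
  have hinjs : Function.Injective s1 := by
    rw [injective_iff_map_eq_zero]
    intro v hv
    obtain ⟨x, rfl⟩ := Submodule.Quotient.mk_surjective p2 v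
    rw [hs1, Submodule.mapQ_apply, Submodule.Quotient.mk_eq_zero] at hv
    rw [Submodule.Quotient.mk_eq_zero]
    exact hinj1 x.1 x.2 hv
  have hsurjs : Function.Surjective s1 := by
    intro v
    obtain ⟨z, rfl⟩ := Submodule.Quotient.mk_surjective p1 v
    obtain ⟨x, hx, hxz⟩ := hsurj z.1 z.2
    refine ⟨Submodule.Quotient.mk ⟨x, hx⟩, ?_⟩
    rw [hs1, Submodule.mapQ_apply, Submodule.Quotient.eq]
    exact hxz
  set e : (A2 ⧸ p2) ≃ₗ[K] (A1 ⧸ p1) := LinearEquiv.ofBijective s1 ⟨hinjs, hsurjs⟩ with he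
  set T : Module.End K (A2 ⧸ p2) := e.symm.toLinearMap ∘ₗ s0 with hT
  haveI : Nontrivial (A2 ⧸ p2) := by
    rw [Submodule.Quotient.nontrivial_iff]
    intro htop
    apply hne
    refine le_antisymm ?_ hAB2
    intro x hx
    have : (⟨x, hx⟩ : A2) ∈ p2 := by
      rw [htop]
      exact Submodule.mem_top
    exact this
  obtain ⟨c, hc⟩ := Module.End.exists_eigenvalue T
  obtain ⟨v, hv⟩ := hc.exists_hasEigenvector
  have hv1 := hv.apply_eq_smul
  have hv2 : s0 v = c • s1 v := by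
    have h2 : e (T v) = s0 v := by
      rw [hT]
      simp
    have h3 : e v = s1 v := rfl
    rw [← h2, hv1, map_smul, h3]
  obtain ⟨x, rfl⟩ := Submodule.Quotient.mk_surjective p2 v
  apply hv.2
  rw [Submodule.Quotient.mk_eq_zero]
  rw [hs0, hs1, Submodule.mapQ_apply, Submodule.mapQ_apply, ← Submodule.Quotient.mk_smul,
    Submodule.Quotient.eq] at hv2
  refine hinj (-c) x.1 x.2 ?_
  have h4 : S0 x.1 - c • S1 x.1 ∈ B1 := hv2
  rw [neg_smul, ← sub_eq_add_neg]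
  exact h4

theorem t_eig : T_EIG.{u} := by
  intro K _ _ E2 E1 _ _ _ _ _ _ A2 B2 A1 B1 S0 S1 hAB2 hAB1 hA hB hinj hinj1 hsurj
  have h := EIG_aux A2 B2 A1 B1 S0 S1 hAB2 hA hB hinj hinj1 hsurj
  refine ⟨h, le_antisymm ?_ hAB1⟩
  intro z hz
  obtain ⟨x, hx, hxz⟩ := hsurj z hz
  have h1 : S1 x ∈ B1 := (hB x (h ▸ hx)).2
  have h2 : z = S1 x - (S1 x - z) := by abel
  rw [h2]
  exact B1.sub_mem h1 hxz

end Pool.Agent.EGU
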