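import Pool.Agent.EGU.Targets

set_option autoImplicit false
open MvPolynomial

namespace Pool.Agent.EGU

universe u

namespace EMB_

variable {K : Type u} [Field K] {n : ℕ}

/-- Component of degree `e - k` (zero if `e < k`). -/
noncomputable def cmp (e k : ℕ) (p : R K n) : R K n :=
  if k ≤ e then homogeneousComponent (e - k) p else 0

theorem cmp_mem (e k : ℕ) (p : R K n) : cmp e k p ∈ Rm K n e k := by
  unfold cmp Rm
  split_ifs with h
  · exact homogeneousComponent_mem _ _
  · exact Submodule.zero_mem _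

theorem hc_mul (c f : R K n) (a : ℕ) (hf : f.IsHomogeneous a) (d : ℕ) :
    homogeneousComponent d (f * c) = f * cmp d a c := by
  unfold cmp
  conv_lhs => rw [← sum_homogeneousComponent c]
  rw [Finset.mul_sum, map_sum]
  have h1 : ∀ i, homogeneousComponent d (f * homogeneousComponent i c) =
      if d = a + i then f * homogeneousComponent i c else 0 := by
    intro i
    exact homogeneousComponent_of_mem
      (show f * homogeneousComponent i c ∈ homogeneousSubmodule (Fin n) K (a + i) from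
        hf.mul (homogeneousComponent_isHomogeneous i c))
  simp only [h1]
  split_ifs with had
  · by_cases hle : d - a ∈ Finset.range (c.totalDegree + 1)
    · rw [Finset.sum_eq_single_of_mem (d - a) hle]
      · rw [if_pos (by omega)]
      · intro b _ hb
        rw [if_neg (by omega)]
    · rw [Finset.sum_eq_zero, homogeneousComponent_eq_zero, mul_zero]
      · simp only [Finset.mem_range, not_lt] at hle; omega
      · intro b hb
        rw [if_neg]
        intro h
        apply hle
        have : d - a = b := by omega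
        rw [this]; exact hb
  · rw [mul_zero]
    exact Finset.sum_eq_zero fun b _ => if_neg (by omega)

theorem hc_self {d : ℕ} {p : R K n} (h : p ∈ Rd K n d) : homogeneousComponent d p = p :=
  homogeneousComponent_eq_self h

variable {s : ℕ}

theorem neg_one_pow_mul_hc (k d : ℕ) (p : R K n) :
    homogeneousComponent d ((-1) ^ k * p) = (-1) ^ k * homogeneousComponent d p := by
  rcases Nat.even_or_odd k with h | h
  · rw [h.neg_one_pow, one_mul, one_mul]
  · rw [h.neg_one_pow, neg_one_mul, neg_one_mul, map_neg]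

theorem cob_hc (l : Fin s → R K n) (hl : ∀ t, l t ∈ Rd K n 1) (b : Finset (Fin s) → R K n)
    (T : Finset (Fin s)) (d : ℕ) :
    homogeneousComponent d (cob l b T) = cob l (fun U => cmp d 1 (b U)) T := by
  unfold cob
  rw [map_sum]
  refine Finset.sum_congr rfl fun t _ => ?_
  rw [neg_one_pow_mul_hc, hc_mul _ _ 1 (hl t)]

theorem cob_mem (l : Fin s → R K n) (hl : ∀ t, l t ∈ Rd K n 1) (b : Finset (Fin s) → R K n)
    (d : ℕ) (hb : ∀ T, b T ∈ Rd K n d) (T : Finset (Fin s)) : cob l b T ∈ Rd K n (d + 1) := by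
  unfold cob
  refine Submodule.sum_mem _ fun t _ => ?_
  have h1 : l t * b (T.erase t) ∈ Rd K n (d + 1) := by
    rw [add_comm]
    exact IsHomogeneous.mul (hl t) (hb _)
  rcases Nat.even_or_odd (T.filter (· < t)).card with h | h
  · rw [h.neg_one_pow, one_mul]
    exact h1
  · rw [h.neg_one_pow, neg_one_mul]
    exact Submodule.neg_mem _ h1

theorem cob_add (l : Fin s → R K n) (b c : Finset (Fin s) → R K n) (T : Finset (Fin s)) :
    cob l (fun U => b U + c U) T = cob l b T + cob l c T := by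
  unfold cob
  rw [← Finset.sum_add_distrib]
  exact Finset.sum_congr rfl fun t _ => by ring

theorem cob_sub (l : Fin s → R K n) (b c : Finset (Fin s) → R K n) (T : Finset (Fin s)) :
    cob l (fun U => b U - c U) T = cob l b T - cob l c T := by
  unfold cob
  rw [← Finset.sum_sub_distrib]
  exact Finset.sum_congr rfl fun t _ => by ring

theorem cob_smul (l : Fin s → R K n) (g : R K n) (b : Finset (Fin s) → R K n)
    (T : Finset (Fin s)) : cob l (fun U => g * b U) T = g * cob l b T := by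
  unfold cob
  rw [Finset.mul_sum]
  exact Finset.sum_congr rfl fun t _ => by ring

theorem cob_sum (l : Fin s → R K n) {v : ℕ} (x : Fin v → R K n)
    (b : Fin v → Finset (Fin s) → R K n)
    (T : Finset (Fin s)) : cob l (fun U => ∑ k, x k * b k U) T = ∑ k, x k * cob l (b k) T := by
  unfold cob
  simp only [Finset.mul_sum]
  rw [Finset.sum_comm]
  exact Finset.sum_congr rfl fun t _ => Finset.sum_congr rfl fun k _ => by ring

theorem cob_ideal (l : Fin s → R K n) (I : Ideal (R K n)) (b : Finset (Fin s) → R K n)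
    (T : Finset (Fin s)) (h : ∀ t ∈ T, b (T.erase t) ∈ I) : cob l b T ∈ I := by
  unfold cob
  exact Ideal.sum_mem _ fun t ht => Ideal.mul_mem_left _ _ (Ideal.mul_mem_left _ _ (h t ht))

theorem cob_mem_J (l : Fin s → R K n) (b : Finset (Fin s) → R K n)
    (T : Finset (Fin s)) : cob l b T ∈ J l := by
  unfold cob
  exact Ideal.sum_mem _ fun t _ => Ideal.mul_mem_left _ _
    (Ideal.mul_mem_right _ _ (Ideal.subset_span ⟨t, rfl⟩))

/-- Every element of `J l` is a coboundary at the top. -/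
theorem top (l : Fin s → R K n) (p : R K n) (hp : p ∈ J l) :
    ∃ b : Finset (Fin s) → R K n, p = cob l b Finset.univ := by
  rw [J, Ideal.mem_span_range_iff_exists_fun] at hp
  obtain ⟨y, hy⟩ := hp
  refine ⟨fun U => ∑ t ∈ Uᶜ, (-1) ^ (Finset.univ.filter (· < t)).card * y t, ?_⟩
  rw [← hy]
  unfold cob
  refine Finset.sum_congr rfl fun t _ => ?_
  have h1 : (Finset.univ.erase t)ᶜ = ({t} : Finset (Fin s)) := by
    ext u
    simp
  dsimp only
  rw [h1, Finset.sum_singleton]
  have h2 : ((-1 : R K n) ^ (Finset.univ.filter (· < t)).card) *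
      (-1) ^ (Finset.univ.filter (· < t)).card = 1 := by
    rw [← mul_pow]
    simp
  calc y t * l t = (((-1 : R K n) ^ (Finset.univ.filter (· < t)).card) *
      (-1) ^ (Finset.univ.filter (· < t)).card) * (y t * l t) := by rw [h2, one_mul]
    _ = _ := by ring

/-- The statement for a fixed number `m` of forms and fixed `l`. -/
def St (K : Type u) [Field K] (n r : ℕ) (l : Fin r → R K n) (m : ℕ) : Prop :=
  ∀ (f : Fin m → R K n) (a : Fin m → ℕ), CI f a → Monotone a →
  ∀ i D v : ℕ, i ≤ r → (m < r - i + 1 ∨ D + 1 ≤ S a (r - i + 1)) →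
  ∀ c : Fin v → Finset (Fin r) → R K n, (∀ k T, c k T ∈ Rd K n D) →
  (∀ k T, T.card = i + 1 → cob l (c k) T ∈ J f) →
  (¬ ∀ k, ∃ b : Finset (Fin r) → R K n, ∀ T, T.card = i → c k T - cob l b T ∈ J f) →
  ∀ X' : Set (Fin v → R K n), (∀ x ∈ X', ∀ k, x k ∈ Rd K n 1) →
  (∀ x ∈ X', ∃ B : Finset (Fin r) → R K n, ∀ T, T.card = i →
    ∑ k, x k * c k T - cob l B T ∈ J f) →
  ∃ (e' : ℕ) (g : Fin v → R K n), r - i ≤ m ∧ e' + S a (r - i) ≤ D ∧
    (∀ k, g k ∈ Rd K n e') ∧ (∃ k, g k ∉ J l) ∧ ∀ x ∈ X', ∑ k, x k * g k ∈ J l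

theorem sum_mem_Rd {v : ℕ} (x c : Fin v → R K n) (D : ℕ) (hx : ∀ k, x k ∈ Rd K n 1)
    (hc : ∀ k, c k ∈ Rd K n D) : ∑ k, x k * c k ∈ Rd K n (D + 1) := by
  refine Submodule.sum_mem _ fun k _ => ?_
  rw [add_comm]
  exact IsHomogeneous.mul (hx k) (hc k)

/-- The case `i = r`. -/
theorem case_top (h_JD : T_JD.{u}) (h_NUM : T_NUM) (r : ℕ) (l : Fin r → R K n)
    (hl : ∀ t, l t ∈ Rd K n 1) (m : ℕ) (f : Fin m → R K n) (a : Fin m → ℕ) (hCI : CI f a)
    (hmono : Monotone a) (D v : ℕ) (hcond : m < 1 ∨ D + 1 ≤ S a 1)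
    (c : Fin v → Finset (Fin r) → R K n) (hc : ∀ k T, c k T ∈ Rd K n D)
    (hnt : ¬ ∀ k, ∃ b : Finset (Fin r) → R K n, ∀ T, T.card = r → c k T - cob l b T ∈ J f)
    (X' : Set (Fin v → R K n)) (hX : ∀ x ∈ X', ∀ k, x k ∈ Rd K n 1)
    (hrel : ∀ x ∈ X', ∃ B : Finset (Fin r) → R K n, ∀ T, T.card = r →
      ∑ k, x k * c k T - cob l B T ∈ J f) :
    ∃ (e' : ℕ) (g : Fin v → R K n), 0 ≤ m ∧ e' + S a 0 ≤ D ∧
      (∀ k, g k ∈ Rd K n e') ∧ (∃ k, g k ∉ J l) ∧ ∀ x ∈ X', ∑ k, x k * g k ∈ J l := by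
  have hbig : ∀ k : Fin m, D + 1 < a k := by
    intro k
    have hm : 0 < m := by
      have := k.2
      omega
    rcases hcond with h | h
    · omega
    · have h1 := (h_NUM m a).2.1 0 hm
      rw [(h_NUM m a).1] at h1
      have h2 : a ⟨0, hm⟩ ≤ a k := hmono (Nat.zero_le _)
      rw [zero_add, zero_add] at h1
      omega
  have hz : ∀ p ∈ Rd K n (D + 1), p ∈ J f → p = 0 := by
    intro p hp hpJ
    obtain ⟨y, hy, hy'⟩ := ((h_JD K n m f a hCI.hom).1 (D + 1) p).1 ⟨hp, hpJ⟩
    rw [hy']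
    refine Finset.sum_eq_zero fun k _ => ?_
    have h1 := hy k
    unfold Rm at h1
    rw [if_neg (by have := hbig k; omega), Submodule.mem_bot] at h1
    rw [h1, zero_mul]
  refine ⟨D, fun k => c k Finset.univ, Nat.zero_le _, ?_, fun k => hc k _, ?_, ?_⟩
  · rw [(h_NUM m a).1, add_zero]
  · by_contra hcon
    push Not at hcon
    apply hnt
    intro k
    obtain ⟨b, hb⟩ := top l _ (hcon k)
    refine ⟨b, fun T hT => ?_⟩
    have hTu : T = Finset.univ := by
      rw [← Finset.card_eq_iff_eq_univ, hT, Fintype.card_fin]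
    rw [hTu, hb, sub_self]
    exact Ideal.zero_mem _
  · intro x hx
    obtain ⟨B, hB⟩ := hrel x hx
    have h1 := hB Finset.univ (by rw [Finset.card_univ, Fintype.card_fin])
    have h2 := (h_JD K n m f a hCI.hom).2 _ h1 (D + 1)
    rw [map_sub, hc_self (sum_mem_Rd x (fun k => c k Finset.univ) D (hX x hx)
      (fun k => hc k _)), cob_hc l hl] at h2
    have h3 : cob l (fun U => cmp (D + 1) 1 (B U)) Finset.univ ∈ Rd K n (D + 1) := by
      rw [← cob_hc l hl]
      exact homogeneousComponent_mem _ _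
    have h4 := hz _ (Submodule.sub_mem _ (sum_mem_Rd x (fun k => c k Finset.univ) D (hX x hx)
      (fun k => hc k _)) h3) h2
    rw [sub_eq_zero] at h4
    dsimp only at h4 ⊢
    rw [h4]
    exact cob_mem_J l _ _

/-- The case `m = 0`, `i < r`. -/
theorem case_zero (h_BASE : T_BASE.{u}) (r : ℕ) (l : Fin r → R K n)
    (hl : ∀ t, l t ∈ Rd K n 1) (hli : LinearIndependent K l) (f : Fin 0 → R K n) (i v : ℕ)
    (hi : i < r)
    (c : Fin v → Finset (Fin r) → R K n)
    (hcoc : ∀ k T, T.card = i + 1 → cob l (c k) T ∈ J f) :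
    ∀ k, ∃ b : Finset (Fin r) → R K n, ∀ T, T.card = i → c k T - cob l b T ∈ J f := by
  have hrk : rk l = r := by
    unfold rk
    rw [finrank_span_eq_card hli, Fintype.card_fin]
  have hJ : J f = ⊥ := by
    unfold J
    rw [Set.range_eq_empty, Ideal.span_empty]
  intro k
  obtain ⟨b, hb⟩ := h_BASE K n r l hl i (by omega) (c k) (fun T _ hT => by
    have := hcoc k T hT
    rwa [hJ] at this)
  exact ⟨b, fun T hT => by
    rw [hJ]
    exact hb T (Finset.subset_univ _) hT⟩

/-- Membership in `J f` modulo `J f'`. -/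
theorem mem_last (h_CIR : T_CIR.{u}) (h_JD : T_JD.{u}) {m : ℕ} (f : Fin (m + 1) → R K n)
    (a : Fin (m + 1) → ℕ) (hCI : CI f a) (d : ℕ) (p : R K n) (hp : p ∈ Rd K n d)
    (hpJ : p ∈ J f) : ∃ q ∈ Rm K n d (a (Fin.last m)),
      p - f (Fin.last m) * q ∈ J (f ∘ Fin.castSucc) := by
  have h1 := (h_CIR K n m f a).1
  have h2 := ((h_CIR K n m f a).2.1 hCI).1
  rw [h1] at hpJ
  obtain ⟨u, hu, w, hw, huw⟩ := Submodule.mem_sup.1 hpJ
  obtain ⟨q, hq⟩ := Ideal.mem_span_singleton'.1 hw
  refine ⟨cmp d (a (Fin.last m)) q, cmp_mem _ _ _, ?_⟩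
  have h3 : p - f (Fin.last m) * q ∈ J (f ∘ Fin.castSucc) := by
    have : p - f (Fin.last m) * q = u := by
      rw [← huw, ← hq]
      ring
    rw [this]
    exact hu
  have h4 := (h_JD K n m (f ∘ Fin.castSucc) (a ∘ Fin.castSucc) h2.hom).2 _ h3 d
  rwa [map_sub, hc_self hp, hc_mul _ _ _ (hCI.hom _)] at h4

theorem mem_last_nd (h_CIR : T_CIR.{u}) {m : ℕ} (f : Fin (m + 1) → R K n)
    (a : Fin (m + 1) → ℕ) (p : R K n)
    (hpJ : p ∈ J f) : ∃ q : R K n,
      p - f (Fin.last m) * q ∈ J (f ∘ Fin.castSucc) := by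
  have h1 := (h_CIR K n m f a).1
  rw [h1] at hpJ
  obtain ⟨u, hu, w, hw, huw⟩ := Submodule.mem_sup.1 hpJ
  obtain ⟨q, hq⟩ := Ideal.mem_span_singleton'.1 hw
  refine ⟨q, ?_⟩
  have : p - f (Fin.last m) * q = u := by
    rw [← huw, ← hq]
    ring
  rw [this]
  exact hu

theorem J_le_last (h_CIR : T_CIR.{u}) {m : ℕ} (f : Fin (m + 1) → R K n)
    (a : Fin (m + 1) → ℕ) (p : R K n) (hp : p ∈ J (f ∘ Fin.castSucc)) : p ∈ J f := by
  rw [(h_CIR K n m f a).1]
  exact Submodule.mem_sup_left hp

theorem g0_mem {m : ℕ} (f : Fin (m + 1) → R K n) (p : R K n) : f (Fin.last m) * p ∈ J f :=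
  Ideal.mul_mem_right _ _ (Ideal.subset_span ⟨_, rfl⟩)

theorem x_mul_Rm {e k : ℕ} {x p : R K n} (hx : x ∈ Rd K n 1) (hp : p ∈ Rm K n e k) :
    x * p ∈ Rm K n (e + 1) k := by
  unfold Rm at hp ⊢
  split_ifs at hp with h
  · rw [if_pos (by omega)]
    have h1 : (x * p).IsHomogeneous (1 + (e - k)) := IsHomogeneous.mul hx hp
    have h2 : 1 + (e - k) = e + 1 - k := by omega
    rw [h2] at h1
    exact h1
  · rw [Submodule.mem_bot] at hp
    rw [hp, mul_zero]
    exact Submodule.zero_mem _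

theorem g_mul_Rm {e k : ℕ} {g p : R K n} (hg : g.IsHomogeneous k) (hp : p ∈ Rm K n e k) :
    g * p ∈ Rd K n e := by
  unfold Rm at hp
  split_ifs at hp with h
  · have h1 : (g * p).IsHomogeneous (k + (e - k)) := IsHomogeneous.mul hg hp
    have h2 : k + (e - k) = e := by omega
    rw [h2] at h1
    exact h1
  · rw [Submodule.mem_bot] at hp
    rw [hp, mul_zero]
    exact Submodule.zero_mem _

/-- The numerical conditions. -/
theorem numer (h_NUM : T_NUM) {m : ℕ} (a : Fin (m + 1) → ℕ) (hmono : Monotone a)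
    (hpos : ∀ i, 1 ≤ a i) (j D : ℕ) (hcond : m + 1 < j + 1 ∨ D + 1 ≤ S a (j + 1)) :
    (m < j + 1 ∨ D + 1 ≤ S (a ∘ Fin.castSucc) (j + 1)) ∧
    (a (Fin.last m) ≤ D + 1 →
      (m < j ∨ D + 1 - a (Fin.last m) + 1 ≤ S (a ∘ Fin.castSucc) j)) ∧
    (j ≤ m → S (a ∘ Fin.castSucc) j = S a j) ∧
    (1 ≤ j → j ≤ m + 1 → S a j + 1 ≤ S (a ∘ Fin.castSucc) (j - 1) + a (Fin.last m)) := by
  have hcs : ∀ j, j ≤ m → S (a ∘ Fin.castSucc) j = S a j := fun j hj =>
    (h_NUM (m + 1) a).2.2.2.2.2.2.2.1 m (Nat.le_succ m) j hj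
  refine ⟨?_, ?_, hcs j, ?_⟩
  · rcases hcond with h | h
    · left; omega
    · by_cases hj : j + 1 ≤ m
      · right
        rw [hcs _ hj]
        exact h
      · left; omega
  · intro hα
    by_cases hj : j ≤ m
    · right
      rcases hcond with h | h
      · omega
      · rw [(h_NUM (m + 1) a).2.1 j (by omega)] at h
        rw [hcs j hj]
        have h1 : a ⟨j, by omega⟩ ≤ a (Fin.last m) := hmono (Fin.le_last _)
        have h2 := hpos ⟨j, by omega⟩
        omega
    · left; omega
  · intro h1 h2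
    obtain ⟨j', rfl⟩ : ∃ j', j = j' + 1 := ⟨j - 1, by omega⟩
    rw [(h_NUM (m + 1) a).2.1 j' (by omega), Nat.add_sub_cancel, hcs j' (by omega)]
    have h3 : a ⟨j', by omega⟩ ≤ a (Fin.last m) := hmono (Fin.le_last _)
    have h4 := hpos ⟨j', by omega⟩
    omega

/-- The induction step, case `i < r`. -/
theorem step (h_CIR : T_CIR.{u}) (h_JD : T_JD.{u}) (h_NUM : T_NUM) (h_COB : T_COB.{u})
    (h_L1 : T_L1.{u}) (r : ℕ) (l : Fin r → R K n)
    (hl : ∀ t, l t ∈ Rd K n 1) (hli : LinearIndependent K l) (m : ℕ) (IH : St K n r l m)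
    (f : Fin (m + 1) → R K n) (a : Fin (m + 1) → ℕ) (hCI : CI f a)
    (hmono : Monotone a) (i D v : ℕ) (hi : i < r)
    (hcond : m + 1 < r - i + 1 ∨ D + 1 ≤ S a (r - i + 1))
    (c : Fin v → Finset (Fin r) → R K n) (hc : ∀ k T, c k T ∈ Rd K n D)
    (hcoc : ∀ k T, T.card = i + 1 → cob l (c k) T ∈ J f)
    (hnt : ¬ ∀ k, ∃ b : Finset (Fin r) → R K n, ∀ T, T.card = i → c k T - cob l b T ∈ J f)
    (X' : Set (Fin v → R K n)) (hX : ∀ x ∈ X', ∀ k, x k ∈ Rd K n 1)
    (hrel : ∀ x ∈ X', ∃ B : Finset (Fin r) → R K n, ∀ T, T.card = i →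
      ∑ k, x k * c k T - cob l B T ∈ J f) :
    ∃ (e' : ℕ) (g : Fin v → R K n), r - i ≤ m + 1 ∧ e' + S a (r - i) ≤ D ∧
      (∀ k, g k ∈ Rd K n e') ∧ (∃ k, g k ∉ J l) ∧ ∀ x ∈ X', ∑ k, x k * g k ∈ J l := by
  obtain ⟨hCI', hα1, hghom, hNZD⟩ := (h_CIR K n m f a).2.1 hCI
  obtain ⟨hn1, hn2, hn3, hn4⟩ := numer h_NUM a hmono hCI.pos (r - i) D hcond
  have hmono' : Monotone (a ∘ Fin.castSucc) := fun x y hxy =>
    hmono (Fin.castSucc_le_castSucc_iff.2 hxy)
  have hrk : rk l = r := by
    unfold rk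
    rw [finrank_span_eq_card hli, Fintype.card_fin]
  obtain ⟨g0, hg0⟩ : ∃ g, g = f (Fin.last m) := ⟨_, rfl⟩
  obtain ⟨α, hα⟩ : ∃ x, x = a (Fin.last m) := ⟨_, rfl⟩
  obtain ⟨I', hI'⟩ : ∃ I, I = J (f ∘ Fin.castSucc) := ⟨_, rfl⟩
  rw [← hg0, ← hα] at hghom
  rw [← hg0, ← hI'] at hNZD
  rw [← hα] at hn2 hn4 hα1
  have hcan : ∀ p, g0 * p ∈ I' → p ∈ I' := fun p hp => hNZD p (by rwa [mul_comm])
  have hcomp : ∀ p ∈ I', ∀ d, homogeneousComponent d p ∈ I' := by
    rw [hI']
    exact (h_JD K n m (f ∘ Fin.castSucc) (a ∘ Fin.castSucc) hCI'.hom).2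
  have hle : ∀ p ∈ I', p ∈ J f := by
    rw [hI']
    exact J_le_last h_CIR f a
  have hml : ∀ d, ∀ p ∈ Rd K n d, p ∈ J f → ∃ q ∈ Rm K n d α, p - g0 * q ∈ I' := by
    rw [hI', hg0, hα]
    exact fun d p hp hpJ => mem_last h_CIR h_JD f a hCI d p hp hpJ
  have hmlnd : ∀ p ∈ J f, ∃ q, p - g0 * q ∈ I' := by
    rw [hI', hg0]
    exact fun p hp => mem_last_nd h_CIR f a p hp
  have hgJ : ∀ p, g0 * p ∈ J f := by
    rw [hg0]
    exact g0_mem f
  -- the cochains `b`
  have hb : ∀ k T, ∃ q ∈ Rm K n (D + 1) α, T.card = i + 1 → cob l (c k) T - g0 * q ∈ I' := by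
    intro k T
    by_cases hT : T.card = i + 1
    · obtain ⟨q, hq, hq'⟩ := hml (D + 1) _ (cob_mem l hl (c k) D (hc k) T) (hcoc k T hT)
      exact ⟨q, hq, fun _ => hq'⟩
    · exact ⟨0, Submodule.zero_mem _, fun h => absurd h hT⟩
  choose b hbR hbc using hb
  have hbcoc : ∀ k T, T.card = i + 1 + 1 → cob l (b k) T ∈ I' := by
    intro k T hT
    have h1 : cob l (fun U => cob l (c k) U - g0 * b k U) T ∈ I' := by
      refine cob_ideal l I' _ T fun t ht => hbc k _ ?_
      rw [Finset.card_erase_of_mem ht, hT, Nat.add_sub_cancel]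
    rw [cob_sub, (h_COB K n r l).1, cob_smul, zero_sub, neg_mem_iff] at h1
    exact hcan _ h1
  -- the relations
  have hrel' : ∀ x ∈ X', ∃ B h : Finset (Fin r) → R K n, (∀ T, h T ∈ Rm K n (D + 1) α) ∧
      ∀ T, T.card = i → ∑ k, x k * c k T - cob l B T - g0 * h T ∈ I' := by
    intro x hx
    obtain ⟨B, hB⟩ := hrel x hx
    have h1 : ∀ T, ∃ q, T.card = i → ∑ k, x k * c k T - cob l B T - g0 * q ∈ I' := by
      intro T
      by_cases hT : T.card = i
      · obtain ⟨q, hq⟩ := hmlnd _ (hB T hT)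
        exact ⟨q, fun _ => hq⟩
      · exact ⟨0, fun h => absurd h hT⟩
    choose q hq using h1
    refine ⟨fun U => cmp (D + 1) 1 (B U), fun T => cmp (D + 1) α (q T),
      fun T => cmp_mem _ _ _, fun T hT => ?_⟩
    have h2 := hcomp _ (hq T hT) (D + 1)
    rwa [map_sub, map_sub, hc_self (sum_mem_Rd x (fun k => c k T) D (hX x hx)
      (fun k => hc k _)), cob_hc l hl, hc_mul _ _ _ hghom] at h2
  have hrelb : ∀ (x : Fin v → R K n) (B h : Finset (Fin r) → R K n),
      (∀ T, T.card = i → ∑ k, x k * c k T - cob l B T - g0 * h T ∈ I') →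
      ∀ T, T.card = i + 1 → ∑ k, x k * b k T - cob l h T ∈ I' := by
    intro x B h hxBh T hT
    have h1 : cob l (fun U => ∑ k, x k * c k U - cob l B U - g0 * h U) T ∈ I' := by
      refine cob_ideal l I' _ T fun t ht => hxBh _ ?_
      rw [Finset.card_erase_of_mem ht, hT, Nat.add_sub_cancel]
    rw [cob_sub l (fun U => ∑ k, x k * c k U - cob l B U),
      cob_sub l (fun U => ∑ k, x k * c k U), (h_COB K n r l).1, cob_smul, cob_sum,
      sub_zero] at h1
    apply hcan
    have h2 : ∑ k, x k * (cob l (c k) T - g0 * b k T) ∈ I' :=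
      Ideal.sum_mem _ fun k _ => Ideal.mul_mem_left _ _ (hbc k T hT)
    have h3 : g0 * (∑ k, x k * b k T - cob l h T) =
        (∑ k, x k * cob l (c k) T - g0 * cob l h T) -
          ∑ k, x k * (cob l (c k) T - g0 * b k T) := by
      have h4 : ∑ k, x k * (cob l (c k) T - g0 * b k T) =
          ∑ k, x k * cob l (c k) T - g0 * ∑ k, x k * b k T := by
        rw [Finset.mul_sum, ← Finset.sum_sub_distrib]
        exact Finset.sum_congr rfl fun k _ => by ring
      rw [h4]
      ring
    rw [h3]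
    exact Ideal.sub_mem _ h1 h2
  by_cases hcase : α ≤ D + 1 ∧ ¬ ∀ k, ∃ β : Finset (Fin r) → R K n,
      ∀ T, T.card = i + 1 → b k T - cob l β T ∈ I'
  · -- case (1)
    obtain ⟨hαD, hntb⟩ := hcase
    have hri : r - (i + 1) + 1 = r - i := by omega
    have hbR' : ∀ k T, b k T ∈ Rd K n (D + 1 - α) := by
      intro k T
      have h1 := hbR k T
      unfold Rm at h1
      rwa [if_pos hαD] at h1
    obtain ⟨e', g, h1, h2, h3, h4, h5⟩ := IH (f ∘ Fin.castSucc) (a ∘ Fin.castSucc) hCI' hmono'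
      (i + 1) (D + 1 - α) v (by omega) (by rw [hri]; exact hn2 hαD) b hbR'
      (by rw [← hI']; exact hbcoc) (by rw [← hI']; exact hntb) X' hX (by
        intro x hx
        obtain ⟨B, h, _, hB⟩ := hrel' x hx
        rw [← hI']
        exact ⟨h, hrelb x B h hB⟩)
    refine ⟨e', g, by omega, ?_, h3, h4, h5⟩
    have h6 := hn4 (by omega) (by omega)
    have h7 : r - i - 1 = r - (i + 1) := by omega
    rw [h7] at h6
    omega
  · -- case (2)
    have hb' : ∃ b' : Fin v → Finset (Fin r) → R K n, (∀ k T, b' k T ∈ Rm K n D α) ∧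
        ∀ k T, T.card = i + 1 → b k T - cob l (b' k) T ∈ I' := by
      by_cases hαD : α ≤ D + 1
      · have h1 : ∀ k, ∃ β : Finset (Fin r) → R K n,
            ∀ T, T.card = i + 1 → b k T - cob l β T ∈ I' := by
          by_contra hcon
          exact hcase ⟨hαD, hcon⟩
        choose β hβ using h1
        refine ⟨fun k U => cmp (D + 1 - α) 1 (β k U), fun k T => ?_, fun k T hT => ?_⟩
        · have h2 := cmp_mem (D + 1 - α) 1 (β k T)
          dsimp only
          unfold Rm at h2 ⊢
          by_cases h3 : α ≤ D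
          · rw [if_pos h3]
            rw [if_pos (by omega)] at h2
            have h4 : D + 1 - α - 1 = D - α := by omega
            rwa [h4] at h2
          · rw [if_neg h3]
            rwa [if_neg (by omega)] at h2
        · have h2 := hcomp _ (hβ k T hT) (D + 1 - α)
          have h3 := hbR k T
          unfold Rm at h3
          rw [if_pos hαD] at h3
          rwa [map_sub, hc_self h3, cob_hc l hl] at h2
      · refine ⟨fun _ _ => 0, fun k T => Submodule.zero_mem _, fun k T hT => ?_⟩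
        have h3 := hbR k T
        unfold Rm at h3
        rw [if_neg hαD, Submodule.mem_bot] at h3
        rw [h3]
        have h4 : cob l (fun _ => (0 : R K n)) T = 0 := by
          unfold cob
          exact Finset.sum_eq_zero fun t _ => by ring
        rw [h4, sub_zero]
        exact Ideal.zero_mem _
    obtain ⟨b', hb'R, hb'c⟩ := hb'
    obtain ⟨e', g, h1, h2, h3, h4, h5⟩ := IH (f ∘ Fin.castSucc) (a ∘ Fin.castSucc) hCI' hmono'
      i D v hi.le hn1 (fun k U => c k U - g0 * b' k U)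
      (fun k T => Submodule.sub_mem _ (hc k T) (g_mul_Rm hghom (hb'R k T)))
      (by
        rw [← hI']
        intro k T hT
        rw [cob_sub, cob_smul]
        have h1 : cob l (c k) T - g0 * cob l (b' k) T = (cob l (c k) T - g0 * b k T) +
            g0 * (b k T - cob l (b' k) T) := by ring
        rw [h1]
        exact Ideal.add_mem _ (hbc k T hT) (Ideal.mul_mem_left _ _ (hb'c k T hT)))
      (by
        rw [← hI']
        intro hcon
        apply hnt
        intro k
        obtain ⟨β, hβ⟩ := hcon k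
        refine ⟨β, fun T hT => ?_⟩
        have h1 : c k T - cob l β T = (c k T - g0 * b' k T - cob l β T) + g0 * b' k T := by
          ring
        rw [h1]
        exact Ideal.add_mem _ (hle _ (hβ T hT)) (hgJ _))
      X' hX (by
        intro x hx
        rw [← hI']
        obtain ⟨B, h, hhR, hB⟩ := hrel' x hx
        have hh := hrelb x B h hB
        obtain ⟨h', hh'⟩ : ∃ h' : Finset (Fin r) → R K n,
            h' = fun T => h T - ∑ k, x k * b' k T := ⟨_, rfl⟩
        have hh'R : ∀ T, h' T ∈ Rm K n (D + 1) α := by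
          intro T
          rw [hh']
          exact Submodule.sub_mem _ (hhR T)
            (Submodule.sum_mem _ fun k _ => x_mul_Rm (hX x hx k) (hb'R k T))
        have hh'c : ∀ T, T.card = i + 1 → cob l h' T ∈ I' := by
          intro T hT
          rw [hh', cob_sub, cob_sum]
          have h2 : ∑ k, x k * (b k T - cob l (b' k) T) ∈ I' :=
            Ideal.sum_mem _ fun k _ => Ideal.mul_mem_left _ _ (hb'c k T hT)
          have h3 : cob l h T - ∑ k, x k * cob l (b' k) T =
              ∑ k, x k * (b k T - cob l (b' k) T) - (∑ k, x k * b k T - cob l h T) := by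
            have h4 : ∑ k, x k * (b k T - cob l (b' k) T) =
                ∑ k, x k * b k T - ∑ k, x k * cob l (b' k) T := by
              rw [← Finset.sum_sub_distrib]
              exact Finset.sum_congr rfl fun k _ => by ring
            rw [h4]
            ring
          rw [h3]
          exact Ideal.sub_mem _ h2 (hh T hT)
        have hex : ∃ h'' : Finset (Fin r) → R K n, ∀ T, T.card = i →
            h' T - cob l h'' T ∈ I' := by
          by_cases hαD : α ≤ D + 1
          · obtain ⟨h'', _, hh''⟩ := h_L1 K n m r (f ∘ Fin.castSucc) (a ∘ Fin.castSucc) hCI'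
              hmono' l hl i (D + 1 - α) (by omega) (by
                rw [hrk]
                rcases hn2 hαD with h5 | h5
                · left; exact h5
                · right; omega) h' (fun T => by
                have h6 := hh'R T
                unfold Rm at h6
                rwa [if_pos hαD] at h6) (by rw [← hI']; exact hh'c)
            rw [← hI'] at hh''
            exact ⟨h'', hh''⟩
          · refine ⟨fun _ => 0, fun T _ => ?_⟩
            have h6 := hh'R T
            unfold Rm at h6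
            rw [if_neg hαD, Submodule.mem_bot] at h6
            rw [h6]
            have h4 : cob l (fun _ => (0 : R K n)) T = 0 := by
              unfold cob
              exact Finset.sum_eq_zero fun t _ => by ring
            rw [h4, sub_zero]
            exact Ideal.zero_mem _
        obtain ⟨h'', hh''⟩ := hex
        refine ⟨fun U => B U + g0 * h'' U, fun T hT => ?_⟩
        rw [cob_add, cob_smul]
        have h6 : ∑ k, x k * (c k T - g0 * b' k T) - (cob l B T + g0 * cob l h'' T) =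
            (∑ k, x k * c k T - cob l B T - g0 * h T) + g0 * (h' T - cob l h'' T) := by
          have h7 : ∑ k, x k * (c k T - g0 * b' k T) =
              ∑ k, x k * c k T - g0 * ∑ k, x k * b' k T := by
            rw [Finset.mul_sum, ← Finset.sum_sub_distrib]
            exact Finset.sum_congr rfl fun k _ => by ring
          rw [h7, hh']
          ring
        rw [h6]
        exact Ideal.add_mem _ (hB T hT) (Ideal.mul_mem_left _ _ (hh'' T hT)))
    refine ⟨e', g, by omega, ?_, h3, h4, h5⟩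
    rw [← hn3 h1]
    exact h2

end EMB_

theorem t_emb (h_BASE : T_BASE.{u}) (h_L1 : T_L1.{u}) (h_CIR : T_CIR.{u}) (h_JD : T_JD.{u})
    (h_NUM : T_NUM) (h_COB : T_COB.{u}) : T_EMB.{u} := by
  intro K _ n m r f a hCI hmono l hl hli
  have main : ∀ m, EMB_.St K n r l m := by
    intro m
    induction m with
    | zero =>
      intro f a hCI hmono i D v hi hcond c hc hcoc hnt X' hX hrel
      rcases Nat.lt_or_ge i r with h | h
      · exact absurd (EMB_.case_zero h_BASE r l hl hli f i v h c hcoc) hnt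
      · obtain rfl : i = r := le_antisymm hi h
        have h0 : i - i = 0 := Nat.sub_self i
        rw [h0] at hcond ⊢
        exact EMB_.case_top h_JD h_NUM i l hl 0 f a hCI hmono D v hcond c hc hnt X' hX hrel
    | succ m IH =>
      intro f a hCI hmono i D v hi hcond c hc hcoc hnt X' hX hrel
      rcases Nat.lt_or_ge i r with h | h
      · exact EMB_.step h_CIR h_JD h_NUM h_COB h_L1 r l hl hli m IH f a hCI hmono i D v h hcond
          c hc hcoc hnt X' hX hrel
      · obtain rfl : i = r := le_antisymm hi h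
        have h0 : i - i = 0 := Nat.sub_self i
        rw [h0] at hcond ⊢
        exact EMB_.case_top h_JD h_NUM i l hl (m + 1) f a hCI hmono D v hcond c hc hnt X' hX
          hrel
  exact main m f a hCI hmono

end Pool.Agent.EGU
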