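import Pool.Agent.EGU.Targets

set_option autoImplicit false
open MvPolynomial

namespace Pool.Agent.EGU

universe u

namespace HF1_

variable {K : Type u} [Field K] {n m : ℕ}

/-- The unit is not in the ideal of a family of forms of positive degrees. -/
theorem one_notMem (h_JD : T_JD.{u}) (f : Fin m → R K n) (a : Fin m → ℕ) (hf : CI f a) :
    (1 : R K n) ∉ J f := by
  intro h
  have h0 : (1 : R K n) ∈ Jd f 0 := ⟨isHomogeneous_one (Fin n) K, h⟩
  rw [(h_JD K n m f a hf.hom).1 0 1] at h0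
  obtain ⟨y, hy, hs⟩ := h0
  have hy0 : ∀ k, y k = 0 := by
    intro k
    have h1 := hy k
    have h2 := hf.pos k
    unfold Rm at h1
    rw [if_neg (by omega)] at h1
    simpa using h1
  rw [Finset.sum_eq_zero (fun k _ => by rw [hy0 k, zero_mul])] at hs
  exact one_ne_zero hs

/-- The last element is not zero. -/
theorem last_ne_zero (h_JD : T_JD.{u}) (h_CIR : T_CIR.{u}) (f : Fin (m + 1) → R K n)
    (a : Fin (m + 1) → ℕ) (hf : CI f a) : f (Fin.last m) ≠ 0 := by
  intro h
  obtain ⟨h1, _, _, h4⟩ := (h_CIR K n m f a).2.1 hf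
  apply one_notMem h_JD _ _ h1
  apply h4
  rw [h, mul_zero]
  exact Ideal.zero_mem _

theorem Jle (h_CIR : T_CIR.{u}) (f : Fin (m + 1) → R K n) (a : Fin (m + 1) → ℕ) :
    J (f ∘ Fin.castSucc) ≤ J f := by
  rw [(h_CIR K n m f a).1]
  exact le_sup_left

theorem last_mem (f : Fin (m + 1) → R K n) : f (Fin.last m) ∈ J f :=
  Ideal.subset_span ⟨Fin.last m, rfl⟩

/-- Decomposition of the part of degree `d`. -/
theorem decomp (h_JD : T_JD.{u}) (f : Fin (m + 1) → R K n)
    (a : Fin (m + 1) → ℕ) (hf : CI f a) (d : ℕ) (p : R K n) (hp : p ∈ Jd f d) :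
    ∃ q ∈ Jd (f ∘ Fin.castSucc) d, ∃ h ∈ Rm K n d (a (Fin.last m)),
      p = q + f (Fin.last m) * h := by
  rw [(h_JD K n (m + 1) f a hf.hom).1 d p] at hp
  obtain ⟨y, hy, hs⟩ := hp
  refine ⟨∑ k : Fin m, y k.castSucc * f k.castSucc, ?_, y (Fin.last m), hy _, ?_⟩
  · rw [(h_JD K n m (f ∘ Fin.castSucc) (a ∘ Fin.castSucc) (fun i => hf.hom _)).1 d]
    exact ⟨fun k => y k.castSucc, fun k => hy _, rfl⟩
  · rw [hs, Fin.sum_univ_castSucc, mul_comm (f (Fin.last m))]

theorem step_lt (h_JD : T_JD.{u}) (h_CIR : T_CIR.{u}) (f : Fin (m + 1) → R K n)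
    (a : Fin (m + 1) → ℕ) (hf : CI f a) (d : ℕ) (hd : d < a (Fin.last m)) :
    Jd f d = Jd (f ∘ Fin.castSucc) d := by
  apply le_antisymm
  · intro p hp
    obtain ⟨q, hq, h, hh, rfl⟩ := decomp h_JD f a hf d p hp
    unfold Rm at hh
    rw [if_neg (by omega)] at hh
    have : h = 0 := by simpa using hh
    rw [this, mul_zero, add_zero]
    exact hq
  · rintro p ⟨h1, h2⟩
    exact ⟨h1, Jle h_CIR f a h2⟩

theorem step_le (h_JD : T_JD.{u}) (h_CIR : T_CIR.{u}) (h_DIMR : T_DIMR.{u})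
    (f : Fin (m + 1) → R K n) (a : Fin (m + 1) → ℕ) (hf : CI f a) (d : ℕ)
    (hd : a (Fin.last m) ≤ d) :
    Module.finrank K (Jd f d) + Module.finrank K (Jd (f ∘ Fin.castSucc) (d - a (Fin.last m))) =
      Module.finrank K (Jd (f ∘ Fin.castSucc) d) +
        Module.finrank K (Rd K n (d - a (Fin.last m))) := by
  have hne := last_ne_zero h_JD h_CIR f a hf
  have hinj : Function.Injective (LinearMap.mulLeft K (f (Fin.last m))) := by
    intro x y hxy
    exact mul_left_cancel₀ hne hxy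
  have hfinR : ∀ e, Module.Finite K (Rd K n e) := fun e => (h_DIMR K n e).1
  have hreg := ((h_CIR K n m f a).2.1 hf).2.2.2
  have hmul : ∀ h ∈ Rd K n (d - a (Fin.last m)), f (Fin.last m) * h ∈ Rd K n d := by
    intro h hh
    have h4 : (f (Fin.last m) * h).IsHomogeneous (a (Fin.last m) + (d - a (Fin.last m))) :=
      IsHomogeneous.mul (hf.hom _) hh
    rw [Nat.add_sub_cancel' hd] at h4
    exact h4
  have e1 : Jd f d = Jd (f ∘ Fin.castSucc) d ⊔
      (Rd K n (d - a (Fin.last m))).map (LinearMap.mulLeft K (f (Fin.last m))) := by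
    apply le_antisymm
    · intro p hp
      obtain ⟨q, hq, h, hh, rfl⟩ := decomp h_JD f a hf d p hp
      unfold Rm at hh
      rw [if_pos hd] at hh
      exact Submodule.add_mem_sup hq ⟨h, hh, rfl⟩
    · apply sup_le
      · rintro p ⟨h1, h2⟩
        exact ⟨h1, Jle h_CIR f a h2⟩
      · rintro _ ⟨h, hh, rfl⟩
        refine ⟨hmul h hh, ?_⟩
        exact Ideal.mul_mem_right _ _ (last_mem f)
  have e2 : Jd (f ∘ Fin.castSucc) d ⊓
      (Rd K n (d - a (Fin.last m))).map (LinearMap.mulLeft K (f (Fin.last m))) =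
      (Jd (f ∘ Fin.castSucc) (d - a (Fin.last m))).map (LinearMap.mulLeft K (f (Fin.last m))) := by
    apply le_antisymm
    · rintro p ⟨⟨_, h2⟩, ⟨h, hh, rfl⟩⟩
      refine ⟨h, ⟨hh, ?_⟩, rfl⟩
      apply hreg
      rw [mul_comm]
      exact h2
    · rintro _ ⟨h, ⟨hh, hh'⟩, rfl⟩
      refine ⟨⟨hmul h hh, ?_⟩, ⟨h, hh, rfl⟩⟩
      exact Ideal.mul_mem_left _ _ hh'
  have f1 : FiniteDimensional K (Jd (f ∘ Fin.castSucc) d) := by
    have := hfinR d
    exact Submodule.finiteDimensional_of_le (inf_le_left : Jd (f ∘ Fin.castSucc) d ≤ Rd K n d)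
  have f2 : FiniteDimensional K
      ((Rd K n (d - a (Fin.last m))).map (LinearMap.mulLeft K (f (Fin.last m)))) := by
    have := hfinR (d - a (Fin.last m))
    infer_instance
  have key := Submodule.finrank_sup_add_finrank_inf_eq (Jd (f ∘ Fin.castSucc) d)
    ((Rd K n (d - a (Fin.last m))).map (LinearMap.mulLeft K (f (Fin.last m))))
  rw [← e1, e2, ← (Submodule.equivMapOfInjective _ hinj _).finrank_eq,
    ← (Submodule.equivMapOfInjective _ hinj _).finrank_eq] at key
  exact key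

end HF1_

open HF1_ in
theorem t_hf1 (h_CIR : T_CIR.{u}) (h_JD : T_JD.{u}) (h_DIMR : T_DIMR.{u}) : T_HF1.{u} := by
  intro K _ n m
  induction m with
  | zero =>
    intro f g a _ _ d
    rw [Subsingleton.elim f g]
  | succ m ih =>
    intro f g a hf hg d
    have hf' := ((h_CIR K n m f a).2.1 hf).1
    have hg' := ((h_CIR K n m g a).2.1 hg).1
    have hI := fun e => ih (f ∘ Fin.castSucc) (g ∘ Fin.castSucc) (a ∘ Fin.castSucc) hf' hg' e
    by_cases hd : a (Fin.last m) ≤ d
    · have h1 := step_le h_JD h_CIR h_DIMR f a hf d hd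
      have h2 := step_le h_JD h_CIR h_DIMR g a hg d hd
      have h3 := hI d
      have h4 := hI (d - a (Fin.last m))
      omega
    · rw [step_lt h_JD h_CIR f a hf d (by omega), step_lt h_JD h_CIR g a hg d (by omega)]
      exact hI d

end Pool.Agent.EGU
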