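import Pool.Agent.EGU.Targets

set_option autoImplicit false
open MvPolynomial

/-!
Project EGU: growth of a hyperplane, `T_HYP`.
-/

namespace Pool.Agent.EGU

universe u

namespace HYP_

variable {K : Type u} [Field K] {n m : ℕ}

/-- Vectors of linear forms orthogonal to `p`. -/
def Orth {v : ℕ} (p : Fin v → K) : Submodule K (Fin v → R K n) where
  carrier := {y | (∀ k, y k ∈ Rd K n 1) ∧ ∑ k, p k • y k = 0}
  add_mem' := by
    rintro x y ⟨hx, hx'⟩ ⟨hy, hy'⟩
    refine ⟨fun k => Submodule.add_mem _ (hx k) (hy k), ?_⟩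
    simp only [Pi.add_apply, smul_add, Finset.sum_add_distrib, hx', hy', add_zero]
  zero_mem' := by
    refine ⟨fun k => Submodule.zero_mem _, ?_⟩
    simp
  smul_mem' := by
    rintro c x ⟨hx, hx'⟩
    refine ⟨fun k => Submodule.smul_mem _ c (hx k), ?_⟩
    have : ∑ k, p k • (c • x) k = c • ∑ k, p k • x k := by
      rw [Finset.smul_sum]
      exact Finset.sum_congr rfl fun k _ => by rw [Pi.smul_apply, smul_comm]
    rw [this, hx', smul_zero]

/-- The map `y ↦ ∑ y k * w k`. -/
noncomputable def ev {v : ℕ} (w : Fin v → R K n) : (Fin v → R K n) →ₗ[K] R K n :=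
  ∑ k, (LinearMap.mulRight K (w k)) ∘ₗ (LinearMap.proj k)

theorem ev_apply {v : ℕ} (w : Fin v → R K n) (y : Fin v → R K n) :
    ev w y = ∑ k, y k * w k := by
  simp [ev, LinearMap.sum_apply]

/-- An upper bound for `up f d (Wp f d w p)`. -/
noncomputable def Big (f : Fin m → R K n) {v : ℕ} (w : Fin v → R K n) (p : Fin v → K) :
    Submodule K (R K n) :=
  (Orth p).map (ev w) ⊔ (J f).restrictScalars K

theorem mem_span_coeffs {v : ℕ} (w : Fin v → R K n) (c : Fin v → K) :
    ∑ k, c k • w k ∈ Submodule.span K (Set.range w) :=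
  Submodule.sum_mem _ fun k _ => Submodule.smul_mem _ _ (Submodule.subset_span ⟨k, rfl⟩)

theorem Wp_le_Wf (f : Fin m → R K n) (d : ℕ) {v : ℕ} (w : Fin v → R K n) (p : Fin v → K) :
    Wp f d w p ≤ Wf f d w := by
  refine sup_le_sup le_rfl (Submodule.span_le.mpr ?_)
  rintro x ⟨c, _, rfl⟩
  exact mem_span_coeffs w c

theorem Wf_le_Rd (f : Fin m → R K n) (d : ℕ) {v : ℕ} (w : Fin v → R K n)
    (hw : ∀ k, w k ∈ Rd K n d) : Wf f d w ≤ Rd K n d := by
  refine sup_le inf_le_left (Submodule.span_le.mpr ?_)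
  rintro x ⟨k, rfl⟩
  exact hw k

theorem up_Wp_le (f : Fin m → R K n) (d : ℕ) {v : ℕ} (w : Fin v → R K n) (p : Fin v → K) :
    up f d (Wp f d w p) ≤ Big f w p := by
  refine sup_le (Submodule.mul_le.mpr ?_) (le_trans inf_le_right le_sup_right)
  intro l hl y hy
  obtain ⟨j, hj, y', hy', rfl⟩ := Submodule.mem_sup.mp hy
  rw [mul_add]
  refine Submodule.add_mem _ ?_ ?_
  · exact (le_sup_right : (J f).restrictScalars K ≤ Big f w p)
      (Ideal.mul_mem_left (J f) l hj.2)
  · clear hy
    induction hy' using Submodule.span_induction with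
    | mem x hx =>
      obtain ⟨c, hc, rfl⟩ := hx
      refine (le_sup_left : (Orth p).map (ev w) ≤ Big f w p) ?_
      refine ⟨fun k => c k • l, ⟨fun k => Submodule.smul_mem _ _ hl, ?_⟩, ?_⟩
      · have : ∑ k, p k • c k • l = (∑ k, c k * p k) • l := by
          rw [Finset.sum_smul]
          exact Finset.sum_congr rfl fun k _ => by rw [smul_smul, mul_comm]
        rw [this, hc, zero_smul]
      · rw [ev_apply, Finset.mul_sum]
        exact Finset.sum_congr rfl fun k _ => by rw [smul_mul_assoc, mul_smul_comm]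
    | zero => rw [mul_zero]; exact Submodule.zero_mem _
    | add x y _ _ hx hy => rw [mul_add]; exact Submodule.add_mem _ hx hy
    | smul c x _ hx => rw [mul_smul_comm]; exact Submodule.smul_mem _ c hx

/-- A combination with coefficient vector orthogonal to `p` is in `Wp`. -/
theorem mem_Wp (f : Fin m → R K n) (d : ℕ) {v : ℕ} (w : Fin v → R K n) (p c : Fin v → K)
    (hc : ∑ k, c k * p k = 0) : ∑ k, c k • w k ∈ Wp f d w p :=
  (le_sup_right : _ ≤ Wp f d w p) (Submodule.subset_span ⟨c, hc, rfl⟩)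

theorem mul_mem_up (f : Fin m → R K n) (d : ℕ) (W : Submodule K (R K n)) {l y : R K n}
    (hl : l ∈ Rd K n 1) (hy : y ∈ W) : l * y ∈ up f d W :=
  (le_sup_left : _ ≤ up f d W) (Submodule.mul_mem_mul hl hy)

theorem L_mem {f : Fin m → R K n} {v : ℕ} {w : Fin v → R K n} {p : Fin v → K} {l : R K n} :
    l ∈ L f w p ↔ ∃ x ∈ Sig f w, ∑ k, p k • x k = l := by
  simp [L, Submodule.mem_map, LinearMap.sum_apply]

end HYP_

open HYP_ in
/-- HYP. Growth of a hyperplane. -/
theorem t_hyp (h_DIMR : T_DIMR.{u}) (h_UPL : T_UPL.{u}) : T_HYP.{u} := by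
  intro K _ n m f a hf d v w hw p hp
  obtain ⟨hfin, -, -⟩ := h_DIMR K n (d + 1)
  obtain ⟨hfin1, -, hn1⟩ := h_DIMR K n 1
  have hWfR := Wf_le_Rd f d w hw
  have hAR : up f d (Wf f d w) ≤ Rd K n (d + 1) := (h_UPL K n m f a hf d _ hWfR).2.1
  have hBA : up f d (Wp f d w p) ≤ up f d (Wf f d w) :=
    (h_UPL K n m f a hf d _ hWfR).2.2.2.1 _ (Wp_le_Wf f d w p)
  have hJl : ∀ q, q ∈ Jd f d → ∀ l ∈ Rd K n 1, l * q ∈ Jd f (d + 1) :=
    (h_UPL K n m f a hf d _ hWfR).2.2.2.2.2.2.2
  set A := up f d (Wf f d w) with hA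
  set B := up f d (Wp f d w p) with hB
  have hAfin : Module.Finite K A :=
    Submodule.finiteDimensional_of_le hAR
  -- the vector `b`
  obtain ⟨k0, hk0⟩ : ∃ k, p k ≠ 0 := Function.ne_iff.mp hp
  obtain ⟨b, hb⟩ : ∃ b : Fin v → K, ∑ k, b k * p k = 1 := by
    classical
    refine ⟨Pi.single k0 (p k0)⁻¹, ?_⟩
    rw [Finset.sum_eq_single k0]
    · rw [Pi.single_eq_same, inv_mul_cancel₀ hk0]
    · intro k _ hk
      rw [Pi.single_eq_of_ne hk, zero_mul]
    · intro h
      exact absurd (Finset.mem_univ _) h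
  set w' : R K n := ∑ k, b k • w k with hw'
  have hw'W : w' ∈ Wf f d w := (le_sup_right : _ ≤ Wf f d w) (mem_span_coeffs w b)
  -- the map
  let φ0 : Rd K n 1 →ₗ[K] A :=
    LinearMap.codRestrict A ((LinearMap.mulRight K w') ∘ₗ (Rd K n 1).subtype)
      (fun l => mul_mem_up f d _ l.2 hw'W)
  let B' : Submodule K A := B.comap A.subtype
  let φ : Rd K n 1 →ₗ[K] A ⧸ B' := B'.mkQ ∘ₗ φ0
  have hφmem : ∀ l : Rd K n 1, φ l = 0 ↔ (l : R K n) * w' ∈ B := by
    intro l
    change Submodule.Quotient.mk (φ0 l) = (0 : A ⧸ B') ↔ _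
    rw [Submodule.Quotient.mk_eq_zero]
    rfl
  -- surjectivity
  have hAle : A ≤ B ⊔ (Rd K n 1).map (LinearMap.mulRight K w') := by
    rw [hA]
    refine sup_le (Submodule.mul_le.mpr ?_) (le_trans ?_ le_sup_left)
    · intro l hl y hy
      obtain ⟨j, hj, y', hy', rfl⟩ := Submodule.mem_sup.mp hy
      obtain ⟨c, rfl⟩ := (Submodule.mem_span_range_iff_exists_fun K).mp hy'
      set s : K := ∑ k, c k * p k with hs
      have h1 : ∑ k, c k • w k = ∑ k, (c k - s * b k) • w k + s • w' := by
        rw [hw', Finset.smul_sum, ← Finset.sum_add_distrib]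
        exact Finset.sum_congr rfl fun k _ => by rw [smul_smul, ← add_smul, sub_add_cancel]
      have h2 : ∑ k, (c k - s * b k) * p k = 0 := by
        have : ∑ k, (c k - s * b k) * p k = ∑ k, c k * p k - s * ∑ k, b k * p k := by
          rw [Finset.mul_sum, ← Finset.sum_sub_distrib]
          exact Finset.sum_congr rfl fun k _ => by ring
        rw [this, hb, mul_one, ← hs, sub_self]
      have h3 : l * (j + ∑ k, c k • w k) =
          (l * j + l * ∑ k, (c k - s * b k) • w k) + (s • l) * w' := by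
        rw [h1, mul_add, mul_add, smul_mul_assoc, mul_smul_comm]
        ring
      rw [h3]
      refine Submodule.add_mem _ ?_ ?_
      · refine (le_sup_left : B ≤ _) (Submodule.add_mem _ ?_ ?_)
        · exact (le_sup_right : _ ≤ up f d (Wp f d w p)) (hJl j hj l hl)
        · exact mul_mem_up f d _ hl (mem_Wp f d w p _ h2)
      · exact (le_sup_right : (Rd K n 1).map (LinearMap.mulRight K w') ≤ _)
          ⟨s • l, Submodule.smul_mem _ _ hl, rfl⟩
    · exact (le_sup_right : Jd f (d + 1) ≤ up f d (Wp f d w p))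
  have hsurj : LinearMap.range φ = ⊤ := by
    rw [LinearMap.range_eq_top]
    intro z
    obtain ⟨⟨y, hy⟩, rfl⟩ := Submodule.Quotient.mk_surjective B' z
    obtain ⟨y1, hy1, y2, ⟨l, hl, rfl⟩, hy3⟩ := Submodule.mem_sup.mp (hAle hy)
    refine ⟨⟨l, hl⟩, ?_⟩
    change Submodule.Quotient.mk (φ0 ⟨l, hl⟩) = _
    rw [Submodule.Quotient.eq]
    change l * w' - y ∈ B
    have : l * w' - y = -y1 := by
      rw [← hy3]
      simp only [LinearMap.mulRight_apply]
      ring
    rw [this]
    exact Submodule.neg_mem _ hy1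
  -- the kernel
  have hLR : L f w p ≤ Rd K n 1 := by
    intro l hl
    obtain ⟨x, hx, rfl⟩ := L_mem.mp hl
    exact Submodule.sum_mem _ fun k _ => Submodule.smul_mem _ _ (hx.1 k)
  have hker : (LinearMap.ker φ).map (Rd K n 1).subtype = L f w p := by
    ext l
    constructor
    · rintro ⟨⟨l, hl⟩, hl', rfl⟩
      have h1 : l * w' ∈ B := (hφmem ⟨l, hl⟩).mp hl'
      obtain ⟨z, ⟨y, ⟨hy1, hy2⟩, rfl⟩, j, hj, hzj⟩ := Submodule.mem_sup.mp (up_Wp_le f d w p h1)
      rw [ev_apply] at hzj
      refine L_mem.mpr ⟨fun k => b k • l - y k, ⟨fun k => ?_, ?_⟩, ?_⟩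
      · exact Submodule.sub_mem _ (Submodule.smul_mem _ _ hl) (hy1 k)
      · have h2 : ∑ k, (b k • l - y k) * w k = j := by
          have h3 : ∑ k, (b k • l - y k) * w k = l * w' - ∑ k, y k * w k := by
            rw [hw', Finset.mul_sum, ← Finset.sum_sub_distrib]
            exact Finset.sum_congr rfl fun k _ => by
              rw [sub_mul, smul_mul_assoc, mul_smul_comm]
          rw [h3, ← hzj]
          ring
        rw [h2]
        exact hj
      · have h2 : ∑ k, p k • (b k • l - y k) = (∑ k, b k * p k) • l - ∑ k, p k • y k := by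
          rw [Finset.sum_smul, ← Finset.sum_sub_distrib]
          exact Finset.sum_congr rfl fun k _ => by rw [smul_sub, smul_smul, mul_comm (p k)]
        rw [h2, hb, hy2, one_smul, sub_zero]
        rfl
    · intro hl
      refine ⟨⟨l, hLR hl⟩, ?_, rfl⟩
      obtain ⟨x, hx, rfl⟩ := L_mem.mp hl
      refine (hφmem _).mpr ?_
      change (∑ k, p k • x k) * w' ∈ B
      have h1 : (∑ k, p k • x k) * w' =
          ∑ k, x k * w k - ∑ k, x k * (w k - p k • w') := by
        rw [Finset.sum_mul, ← Finset.sum_sub_distrib]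
        exact Finset.sum_congr rfl fun k _ => by
          rw [mul_sub, sub_sub_cancel, smul_mul_assoc, mul_smul_comm]
      rw [h1]
      refine Submodule.sub_mem _ ?_ (Submodule.sum_mem _ fun k _ => ?_)
      · refine (le_sup_right : Jd f (d + 1) ≤ up f d (Wp f d w p)) ⟨?_, hx.2⟩
        refine Submodule.sum_mem _ fun k _ => ?_
        have h2 : (x k).IsHomogeneous 1 := (mem_homogeneousSubmodule _ _).mp (hx.1 k)
        have h3 : (w k).IsHomogeneous d := (mem_homogeneousSubmodule _ _).mp (hw k)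
        rw [add_comm]
        exact (mem_homogeneousSubmodule _ _).mpr (h2.mul h3)
      · refine mul_mem_up f d _ (hx.1 k) ?_
        classical
        have h2 : w k - p k • w' = ∑ i, ((Pi.single k (1 : K) : Fin v → K) i - p k * b i) •
            w i := by
          have h3 : ∑ i, ((Pi.single k (1 : K) : Fin v → K) i - p k * b i) • w i =
              ∑ i, (Pi.single k (1 : K) : Fin v → K) i • w i - p k • ∑ i, b i • w i := by
            rw [Finset.smul_sum, ← Finset.sum_sub_distrib]
            exact Finset.sum_congr rfl fun i _ => by rw [sub_smul, smul_smul]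
          rw [h3, Finset.sum_eq_single k, Pi.single_eq_same, one_smul]
          · intro i _ hi
            rw [Pi.single_eq_of_ne hi, zero_smul]
          · intro h
            exact absurd (Finset.mem_univ _) h
        rw [h2]
        refine mem_Wp f d w p _ ?_
        have h4 : ∑ i, ((Pi.single k (1 : K) : Fin v → K) i - p k * b i) * p i =
            ∑ i, (Pi.single k (1 : K) : Fin v → K) i * p i - p k * ∑ i, b i * p i := by
          rw [Finset.mul_sum, ← Finset.sum_sub_distrib]
          exact Finset.sum_congr rfl fun i _ => by ring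
        rw [h4, hb, Finset.sum_eq_single k, Pi.single_eq_same, one_mul, mul_one, sub_self]
        · intro i _ hi
          rw [Pi.single_eq_of_ne hi, zero_mul]
        · intro h
          exact absurd (Finset.mem_univ _) h
  -- dimensions
  have e1 : Module.finrank K (L f w p) = Module.finrank K (LinearMap.ker φ) := by
    rw [← hker]
    exact Submodule.finrank_map_subtype_eq _ _
  have e2 := LinearMap.finrank_range_add_finrank_ker φ
  rw [hsurj, finrank_top, hn1] at e2
  have e3 := B'.finrank_quotient_add_finrank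
  have e4 : Module.finrank K B' = Module.finrank K B :=
    LinearEquiv.finrank_eq (Submodule.comapSubtypeEquivOfLe hBA)
  omega

end Pool.Agent.EGU
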