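import Pool.Agent.EGU.Targets

set_option autoImplicit false
open MvPolynomial

namespace Pool.Agent.EGU

universe u

/-- Homogeneous component of a product with a homogeneous factor. -/
theorem JD_homComp_mul {K : Type u} [Field K] {n : ℕ} (c f : R K n) (a : ℕ)
    (hf : f.IsHomogeneous a) (d : ℕ) : homogeneousComponent d (c * f) =
      (if a ≤ d then homogeneousComponent (d - a) c else 0) * f := by
  conv_lhs => rw [← sum_homogeneousComponent c]
  rw [Finset.sum_mul, map_sum]
  have h1 : ∀ i, homogeneousComponent d (homogeneousComponent i c * f) =
      if d = i + a then homogeneousComponent i c * f else 0 := by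
    intro i
    exact homogeneousComponent_of_mem
      (show homogeneousComponent i c * f ∈ homogeneousSubmodule (Fin n) K (i + a) from
        (homogeneousComponent_isHomogeneous i c).mul hf)
  simp only [h1]
  split_ifs with had
  · by_cases hle : d - a ∈ Finset.range (c.totalDegree + 1)
    · rw [Finset.sum_eq_single_of_mem (d - a) hle]
      · rw [if_pos (by omega)]
      · intro b _ hb
        rw [if_neg (by omega)]
    · rw [Finset.sum_eq_zero, homogeneousComponent_eq_zero, zero_mul]
      · simp only [Finset.mem_range, not_lt] at hle; omega
      · intro b hb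
        rw [if_neg]
        intro h
        apply hle
        have : d - a = b := by omega
        rw [this]; exact hb
  · rw [zero_mul]
    exact Finset.sum_eq_zero fun b _ => if_neg (by omega)

theorem t_jd : T_JD.{u} := by
  intro K _ n m f a hom
  refine ⟨?_, ?_⟩
  · intro d p
    constructor
    · rintro ⟨h1, h2⟩
      have h2' : p ∈ J f := h2
      rw [J, Ideal.mem_span_range_iff_exists_fun] at h2'
      obtain ⟨c, hc⟩ := h2'
      refine ⟨fun k => if a k ≤ d then homogeneousComponent (d - a k) (c k) else 0, ?_, ?_⟩
      · intro k
        unfold Rm
        dsimp only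
        split_ifs with h
        · exact homogeneousComponent_mem _ _
        · exact Submodule.zero_mem _
      · have h3 : homogeneousComponent d p = p := homogeneousComponent_eq_self h1
        rw [← h3, ← hc, map_sum]
        exact Finset.sum_congr rfl fun k _ => JD_homComp_mul (c k) (f k) (a k) (hom k) d
    · rintro ⟨y, hy, rfl⟩
      refine ⟨?_, ?_⟩
      · refine Submodule.sum_mem _ fun k _ => ?_
        have h := hy k
        unfold Rm at h
        split_ifs at h with had
        · have h4 : (y k * f k).IsHomogeneous (d - a k + a k) :=
            IsHomogeneous.mul h (hom k)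
          rw [Nat.sub_add_cancel had] at h4
          exact h4
        · rw [Submodule.mem_bot] at h
          rw [h, zero_mul]
          exact Submodule.zero_mem _
      · show ∑ k, y k * f k ∈ J f
        exact Ideal.sum_mem _ fun k _ => Ideal.mul_mem_left _ _
          (Ideal.subset_span ⟨k, rfl⟩)
  · intro p hp d
    rw [J, Ideal.mem_span_range_iff_exists_fun] at hp
    obtain ⟨c, hc⟩ := hp
    rw [← hc, map_sum]
    refine Ideal.sum_mem _ fun k _ => ?_
    rw [JD_homComp_mul (c k) (f k) (a k) (hom k) d]
    exact Ideal.mul_mem_left _ _ (Ideal.subset_span ⟨k, rfl⟩)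

end Pool.Agent.EGU
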