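import Pool.Agent.EGU.Targets

/-!
Proof of the target L1 of the project EGU (MP_e5dae2_al): vanishing of the Koszul cohomology of
the quotient by a regular sequence, with a degree bound.
-/

set_option autoImplicit false
open MvPolynomial

namespace Pool.Agent.EGU

universe u

namespace L1_

variable {K : Type u} [Field K] {n m s : ℕ}

lemma cob_mem_Rd (l : Fin s → R K n) (hl : ∀ t, l t ∈ Rd K n 1) (c : Finset (Fin s) → R K n)
    (D : ℕ) (hc : ∀ T, c T ∈ Rd K n D) (T : Finset (Fin s)) : cob l c T ∈ Rd K n (D + 1) := by
  unfold cob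
  refine Submodule.sum_mem _ fun t _ => ?_
  have h1 : l t * c (T.erase t) ∈ Rd K n (D + 1) := by
    have h2 := IsHomogeneous.mul (hl t) (hc (T.erase t))
    rw [add_comm] at h2
    exact h2
  rcases neg_one_pow_eq_or (R K n) (T.filter (· < t)).card with h | h <;> rw [h]
  · rw [one_mul]
    exact h1
  · rw [neg_one_mul]
    exact Submodule.neg_mem _ h1

lemma comp_mul_lin (x p : R K n) (hx : x ∈ Rd K n 1) (d : ℕ) :
    homogeneousComponent (d + 1) (x * p) = x * homogeneousComponent d p := by
  have h0 : ∀ i, homogeneousComponent (d + 1) (x * homogeneousComponent i p) =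
      if i = d then x * homogeneousComponent d p else 0 := by
    intro i
    have h1 : x * homogeneousComponent i p ∈ homogeneousSubmodule (Fin n) K (1 + i) :=
      IsHomogeneous.mul hx (homogeneousComponent_isHomogeneous i p)
    rw [homogeneousComponent_of_mem h1]
    by_cases hi : i = d
    · subst hi
      rw [if_pos (by omega), if_pos rfl]
    · rw [if_neg (by omega), if_neg hi]
  conv_lhs => rw [← sum_homogeneousComponent p, Finset.mul_sum, map_sum]
  rw [Finset.sum_congr rfl (fun i _ => h0 i), Finset.sum_ite_eq' (Finset.range _) d]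
  by_cases hd : d ∈ Finset.range (p.totalDegree + 1)
  · rw [if_pos hd]
  · rw [if_neg hd]
    have h2 : p.totalDegree < d := by
      rw [Finset.mem_range] at hd
      omega
    rw [homogeneousComponent_eq_zero _ _ h2, mul_zero]

lemma comp_zero_mul_lin (x p : R K n) (hx : x ∈ Rd K n 1) :
    homogeneousComponent 0 (x * p) = 0 := by
  have h0 : ∀ i, homogeneousComponent 0 (x * homogeneousComponent i p) = 0 := by
    intro i
    have h1 : x * homogeneousComponent i p ∈ homogeneousSubmodule (Fin n) K (1 + i) :=
      IsHomogeneous.mul hx (homogeneousComponent_isHomogeneous i p)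
    rw [homogeneousComponent_of_mem h1, if_neg (by omega)]
  conv_lhs => rw [← sum_homogeneousComponent p, Finset.mul_sum, map_sum]
  rw [Finset.sum_congr rfl (fun i _ => h0 i), Finset.sum_const_zero]

lemma comp_sign (e d : ℕ) (p : R K n) :
    homogeneousComponent d ((-1) ^ e * p) = (-1) ^ e * homogeneousComponent d p := by
  rcases neg_one_pow_eq_or (R K n) e with h | h <;> rw [h]
  · rw [one_mul, one_mul]
  · rw [neg_one_mul, neg_one_mul, map_neg]

lemma comp_cob_succ (l : Fin s → R K n) (hl : ∀ t, l t ∈ Rd K n 1)
    (b : Finset (Fin s) → R K n) (d : ℕ) (T : Finset (Fin s)) :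
    homogeneousComponent (d + 1) (cob l b T) =
      cob l (fun U => homogeneousComponent d (b U)) T := by
  unfold cob
  rw [map_sum]
  refine Finset.sum_congr rfl fun t _ => ?_
  rw [comp_sign, comp_mul_lin _ _ (hl t)]

lemma comp_cob_zero (l : Fin s → R K n) (hl : ∀ t, l t ∈ Rd K n 1)
    (b : Finset (Fin s) → R K n) (T : Finset (Fin s)) :
    homogeneousComponent 0 (cob l b T) = 0 := by
  unfold cob
  rw [map_sum]
  refine Finset.sum_eq_zero fun t _ => ?_
  rw [comp_sign, comp_zero_mul_lin _ _ (hl t), mul_zero]

lemma cob_zero (l : Fin s → R K n) (T : Finset (Fin s)) :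
    cob l (fun _ => (0 : R K n)) T = 0 := by
  unfold cob
  simp

lemma J_empty (f : Fin 0 → R K n) : J f = ⊥ := by
  unfold J
  rw [Set.range_eq_empty, Ideal.span_empty]

lemma comp_self {p : R K n} {d : ℕ} (hp : p ∈ Rd K n d) : homogeneousComponent d p = p := by
  rw [homogeneousComponent_of_mem (show p ∈ homogeneousSubmodule (Fin n) K d from hp),
    if_pos rfl]

lemma base_case (hB : T_BASE.{u}) (f : Fin 0 → R K n) (l : Fin s → R K n)
    (hl : ∀ t, l t ∈ Rd K n 1) (i D : ℕ) (hi : i < rk l) (c : Finset (Fin s) → R K n)
    (hc : ∀ T, c T ∈ Rd K n D) (hcc : ∀ T, T.card = i + 1 → cob l c T ∈ J f) :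
    ∃ b : Finset (Fin s) → R K n, (∀ T, b T ∈ Rm K n D 1) ∧
      ∀ T, T.card = i → c T - cob l b T ∈ J f := by
  rw [J_empty] at *
  obtain ⟨b, hb⟩ := hB K n s l hl i hi c (fun T _ hT => hcc T hT)
  rcases Nat.eq_zero_or_pos D with hD | hD
  · subst hD
    refine ⟨fun _ => 0, fun T => Submodule.zero_mem _, fun T hT => ?_⟩
    rw [cob_zero, sub_zero]
    have h1 := hb T (Finset.subset_univ T) hT
    rw [Ideal.mem_bot] at h1 ⊢
    have h2 : homogeneousComponent 0 (c T - cob l b T) = 0 := by
      rw [h1, map_zero]
    rw [map_sub, comp_cob_zero l hl, sub_zero, comp_self (hc T)] at h2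
    exact h2
  · obtain ⟨D', rfl⟩ : ∃ D', D = D' + 1 := ⟨D - 1, by omega⟩
    refine ⟨fun U => homogeneousComponent D' (b U), fun T => ?_, fun T hT => ?_⟩
    · unfold Rm
      rw [if_pos (by omega), Nat.add_sub_cancel]
      exact homogeneousComponent_isHomogeneous D' (b T)
    · have h1 := hb T (Finset.subset_univ T) hT
      rw [Ideal.mem_bot] at h1 ⊢
      have h2 : homogeneousComponent (D' + 1) (c T - cob l b T) = 0 := by
        rw [h1, map_zero]
      rw [map_sub, comp_cob_succ l hl, comp_self (hc T)] at h2
      exact h2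

end L1_

open L1_ in
theorem t_l1 (h_BASE : T_BASE.{u}) (h_CIR : T_CIR.{u}) (h_JD : T_JD.{u}) (h_NUM : T_NUM)
    (h_COB : T_COB.{u}) : T_L1.{u} := by
  intro K _ n m
  induction m with
  | zero =>
    intro s f a _ _ l hl i D hi _ c hc hcc
    exact base_case h_BASE f l hl i D hi c hc hcc
  | succ m ih =>
    intro s f a hCI hmono l hl i D hi hcond c hc hcc
    obtain ⟨hJ, hiff⟩ := h_CIR K n m f a
    obtain ⟨hCI', hα1, hghom, hreg⟩ := hiff.1 hCI
    obtain ⟨hcobcob, hcobsub, hcobmul, hcobI, -⟩ := h_COB K n s l
    set f' : Fin m → R K n := f ∘ Fin.castSucc with hf'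
    set a' : Fin m → ℕ := a ∘ Fin.castSucc with ha'
    set g : R K n := f (Fin.last m) with hg
    set α : ℕ := a (Fin.last m) with hα
    have hmono' : Monotone a' := fun x y hxy => hmono (Fin.castSucc_le_castSucc_iff.2 hxy)
    obtain ⟨hS0, hSsucc, -, -, -, -, -, hScast, -⟩ := h_NUM (m + 1) a
    have hS' : ∀ j, j ≤ m → S a' j = S a j := fun j hj => hScast m (Nat.le_succ m) j hj
    have hJ'le : J f' ≤ J f := by
      rw [hJ]
      exact le_sup_left
    have hgJ : g ∈ J f := Ideal.subset_span ⟨Fin.last m, rfl⟩
    -- the cochain `b`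
    have hex : ∀ T : Finset (Fin s), ∃ y : R K n, y ∈ Rm K n (D + 1) α ∧
        (T.card = i + 1 → cob l c T - g * y ∈ J f') := by
      intro T
      by_cases hT : T.card = i + 1
      · have h1 : cob l c T ∈ Jd f (D + 1) := by
          refine ⟨cob_mem_Rd l hl c D hc T, ?_⟩
          exact hcc T hT
        obtain ⟨y, hy, hys⟩ := ((h_JD K n (m + 1) f a hCI.hom).1 (D + 1) (cob l c T)).1 h1
        refine ⟨y (Fin.last m), hy (Fin.last m), fun _ => ?_⟩
        rw [hys, Fin.sum_univ_castSucc, mul_comm g, add_sub_cancel_right]
        refine Ideal.sum_mem _ fun k _ => ?_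
        exact Ideal.mul_mem_left _ _ (Ideal.subset_span ⟨k, rfl⟩)
      · exact ⟨0, Submodule.zero_mem _, fun h => absurd h hT⟩
    choose b hbdeg hb using hex
    -- `b` is a cocycle
    have hbcoc : ∀ T : Finset (Fin s), T.card = i + 2 → cob l b T ∈ J f' := by
      intro T hT
      have h1 : cob l (fun U => cob l c U - g * b U) T ∈ J f' := by
        refine hcobI (J f') _ T fun t ht => hb _ ?_
        rw [Finset.card_erase_of_mem ht]
        omega
      rw [hcobsub, hcobmul, hcobcob, zero_sub] at h1
      have h2 : cob l b T * g ∈ J f' := by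
        have h3 := (J f').neg_mem h1
        rw [neg_neg, mul_comm] at h3
        exact h3
      exact hreg _ h2
    -- the condition for `(i, D)` and `m`
    have hcondD : m < rk l - i ∨ D < S a' (rk l - i) := by
      rcases hcond with h | h
      · left
        omega
      · by_cases hm : m < rk l - i
        · exact Or.inl hm
        · right
          rw [hS' _ (by omega)]
          exact h
    -- it is enough to correct `c` by a multiple of `g`
    have key : ∃ b' : Finset (Fin s) → R K n, (∀ T, g * b' T ∈ Rd K n D) ∧
        ∀ T, T.card = i + 1 → b T - cob l b' T ∈ J f' := by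
      by_cases hαD : α ≤ D + 1
      · have hbdeg' : ∀ T, b T ∈ Rd K n (D + 1 - α) := by
          intro T
          have h1 := hbdeg T
          unfold Rm at h1
          rw [if_pos hαD] at h1
          exact h1
        have hcond2 : i + 1 < rk l ∧ (m < rk l - (i + 1) ∨ D + 1 - α < S a' (rk l - (i + 1))) := by
          by_cases hm : m < rk l - (i + 1)
          · exact ⟨by omega, Or.inl hm⟩
          · have h1 : D < S a (rk l - i) := by
              rcases hcond with h | h
              · omega
              · exact h
            obtain ⟨j, hj⟩ : ∃ j, rk l - i = j + 1 := ⟨rk l - i - 1, by omega⟩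
            have hjm : j < m + 1 := by omega
            rw [hj, hSsucc j hjm] at h1
            have h2 : a ⟨j, hjm⟩ ≤ α := hmono (Fin.le_last _)
            have h3 : D + 1 - α < S a j := by omega
            have h4 : rk l - (i + 1) = j := by omega
            rw [h4]
            refine ⟨?_, ?_⟩
            · rcases Nat.eq_zero_or_pos j with h0 | h0
              · subst h0
                rw [hS0] at h3
                omega
              · omega
            · right
              rw [hS' j (by omega)]
              exact h3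
        obtain ⟨b', hb'deg, hb'⟩ := ih s f' a' hCI' hmono' l hl (i + 1) (D + 1 - α) hcond2.1
          hcond2.2 b hbdeg' hbcoc
        refine ⟨b', fun T => ?_, hb'⟩
        have h1 := hb'deg T
        unfold Rm at h1
        by_cases hD : 1 ≤ D + 1 - α
        · rw [if_pos hD] at h1
          have h2 : (g * b' T).IsHomogeneous (α + (D + 1 - α - 1)) := IsHomogeneous.mul hghom h1
          have h3 : α + (D + 1 - α - 1) = D := by omega
          rw [h3] at h2
          exact h2
        · rw [if_neg hD, Submodule.mem_bot] at h1
          rw [h1, mul_zero]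
          exact Submodule.zero_mem _
      · refine ⟨fun _ => 0, fun T => ?_, fun T _ => ?_⟩
        · rw [mul_zero]
          exact Submodule.zero_mem _
        · have h1 := hbdeg T
          unfold Rm at h1
          rw [if_neg hαD, Submodule.mem_bot] at h1
          rw [cob_zero, sub_zero, h1]
          exact Ideal.zero_mem _
    obtain ⟨b', hb'deg, hb'⟩ := key
    obtain ⟨b1, hb1deg, hb1⟩ := ih s f' a' hCI' hmono' l hl i D hi hcondD
      (fun T => c T - g * b' T) (fun T => Submodule.sub_mem _ (hc T) (hb'deg T)) (by
        intro T hT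
        rw [hcobsub, hcobmul]
        have h1 := (J f').add_mem (hb T hT) ((J f').mul_mem_left g (hb' T hT))
        have h2 : cob l c T - g * b T + g * (b T - cob l b' T) =
            cob l c T - g * cob l b' T := by ring
        rw [h2] at h1
        exact h1)
    refine ⟨b1, hb1deg, fun T hT => ?_⟩
    have h1 := (J f).add_mem (hJ'le (hb1 T hT)) ((J f).mul_mem_right (b' T) hgJ)
    have h2 : c T - g * b' T - cob l b1 T + g * b' T = c T - cob l b1 T := by ring
    rw [h2] at h1
    exact h1

end Pool.Agent.EGU
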