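import Pool.Agent.EGU.Targets

set_option autoImplicit false
open MvPolynomial

/-!
Project EGU: some `L_p` is small (job L3).
-/

namespace Pool.Agent.EGU

universe u

noncomputable section

namespace L3_

section
variable {K : Type u} [Field K] {n m s : ℕ} (f : Fin m → R K n)

/-- The quotient map as a linear map. -/
def mkL : R K n →ₗ[K] R K n ⧸ J f := (Ideal.Quotient.mkₐ K (J f)).toLinearMap

theorem mkL_mul (p q : R K n) : mkL f (p * q) = mkL f p * mkL f q :=
  map_mul (Ideal.Quotient.mk (J f)) p q

theorem mkL_eq (p q : R K n) : mkL f p = mkL f q ↔ p - q ∈ J f :=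
  Ideal.Quotient.eq (I := J f)

theorem mkL_zero_iff (p : R K n) : mkL f p = 0 ↔ p ∈ J f :=
  Ideal.Quotient.eq_zero_iff_mem

/-- The part of degree `e` of the quotient. -/
def Qd (e : ℕ) : Submodule K (R K n ⧸ J f) := (Rd K n e).map (mkL f)

/-- The coboundary on the quotient. -/
def opr (l : Fin s → R K n) :
    (Finset (Fin s) → R K n ⧸ J f) →ₗ[K] (Finset (Fin s) → R K n ⧸ J f) where
  toFun c := fun T =>
    ∑ t ∈ T, (-1) ^ (T.filter (· < t)).card * (mkL f (l t) * c (T.erase t))
  map_add' := by
    intro a b
    funext T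
    simp only [Pi.add_apply, mul_add, Finset.sum_add_distrib]
  map_smul' := by
    intro z a
    funext T
    simp only [Pi.smul_apply, mul_smul_comm, ← Finset.smul_sum, RingHom.id_apply]

theorem opr_apply (l : Fin s → R K n) (c : Finset (Fin s) → R K n ⧸ J f)
    (T : Finset (Fin s)) : opr f l c T =
      ∑ t ∈ T, (-1) ^ (T.filter (· < t)).card * (mkL f (l t) * c (T.erase t)) := rfl

theorem opr_mk (l : Fin s → R K n) (c : Finset (Fin s) → R K n)
    (T : Finset (Fin s)) : opr f l (fun U => mkL f (c U)) T = mkL f (cob l c T) := by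
  rw [opr_apply, cob, map_sum]
  refine Finset.sum_congr rfl fun t _ => ?_
  rw [mkL_mul, mkL_mul]
  have h1 : mkL f ((-1 : R K n) ^ (T.filter (· < t)).card) =
      (-1 : R K n ⧸ J f) ^ (T.filter (· < t)).card := by
    have h2 := map_pow (Ideal.Quotient.mk (J f)) (-1 : R K n) (T.filter (· < t)).card
    rw [map_neg, map_one] at h2
    exact h2
  rw [h1]

theorem opr_congr (l : Fin s → R K n) (c c' : Finset (Fin s) → R K n ⧸ J f)
    (T : Finset (Fin s)) (h : ∀ t ∈ T, c (T.erase t) = c' (T.erase t)) :
    opr f l c T = opr f l c' T := by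
  rw [opr_apply, opr_apply]
  exact Finset.sum_congr rfl fun t ht => by rw [h t ht]

theorem opr_lin {v : ℕ} (x : Fin s → Fin v → R K n) (p : Fin v → K)
    (c : Finset (Fin s) → R K n ⧸ J f) :
    ∑ k, p k • opr f (fun t => x t k) c = opr f (fun t => ∑ k, p k • x t k) c := by
  funext T
  rw [Finset.sum_apply]
  simp only [Pi.smul_apply, opr_apply, Finset.smul_sum, map_sum, map_smul, Finset.sum_mul,
    Finset.mul_sum, smul_mul_assoc, mul_smul_comm]
  rw [Finset.sum_comm]

/-- The spaces of the system. -/
def Vs (s d : ℕ) : ℕ → Submodule K (Finset (Fin s) → R K n ⧸ J f)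
  | 0 => ⊥
  | i + 1 =>
    { carrier := {c | ∀ T, c T ∈ Qd f (d + i) ∧ (T.card ≠ i → c T = 0)}
      add_mem' := by
        intro a b ha hb T
        refine ⟨Submodule.add_mem _ (ha T).1 (hb T).1, fun h => ?_⟩
        rw [Pi.add_apply, (ha T).2 h, (hb T).2 h, add_zero]
      zero_mem' := by
        intro T
        exact ⟨Submodule.zero_mem _, fun _ => rfl⟩
      smul_mem' := by
        intro z a ha T
        refine ⟨Submodule.smul_mem _ z (ha T).1, fun h => ?_⟩
        rw [Pi.smul_apply, (ha T).2 h, smul_zero] }

theorem mem_Vs_succ (d i : ℕ) (c : Finset (Fin s) → R K n ⧸ J f) :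
    c ∈ Vs f s d (i + 1) ↔ ∀ T, c T ∈ Qd f (d + i) ∧ (T.card ≠ i → c T = 0) := Iff.rfl

theorem mul_Qd (l : R K n) (hl : l ∈ Rd K n 1) (e : ℕ) (q : R K n ⧸ J f) (hq : q ∈ Qd f e) :
    mkL f l * q ∈ Qd f (e + 1) := by
  obtain ⟨r, hr, rfl⟩ := hq
  refine ⟨l * r, ?_, mkL_mul f l r⟩
  have h1 : l.IsHomogeneous 1 := hl
  have h2 : r.IsHomogeneous e := hr
  have h3 := h1.mul h2
  rw [add_comm] at h3
  exact h3

theorem opr_mem (l : Fin s → R K n) (hl : ∀ t, l t ∈ Rd K n 1) (d i : ℕ) :
    ∀ c ∈ Vs f s d i, opr f l c ∈ Vs f s d (i + 1) := by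
  intro c hc
  cases i with
  | zero =>
    have h0 : c = 0 := (Submodule.mem_bot K).mp hc
    rw [h0, map_zero]
    exact Submodule.zero_mem _
  | succ i =>
    rw [mem_Vs_succ] at hc ⊢
    intro T
    rw [opr_apply]
    refine ⟨Submodule.sum_mem _ fun t _ => ?_, fun h => Finset.sum_eq_zero fun t ht => ?_⟩
    · have h1 := mul_Qd f (l t) (hl t) (d + i) _ (hc (T.erase t)).1
      rcases neg_one_pow_eq_or (R K n ⧸ J f) (T.filter (· < t)).card with h | h
      · rw [h, one_mul]; exact h1
      · rw [h, neg_one_mul]; exact Submodule.neg_mem _ h1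
    · have h1 : (T.erase t).card ≠ i := by
        rw [Finset.card_erase_of_mem ht]
        have : 0 < T.card := Finset.card_pos.mpr ⟨t, ht⟩
        omega
      rw [(hc (T.erase t)).2 h1, mul_zero, mul_zero]

theorem fin_Vs (hfin : ∀ e, Module.Finite K (Rd K n e)) (d i : ℕ) :
    Module.Finite K (Vs f s d i) := by
  cases i with
  | zero =>
    exact (inferInstance : Module.Finite K
      (⊥ : Submodule K (Finset (Fin s) → R K n ⧸ J f)))
  | succ i =>
    have h1 : Module.Finite K (Qd f (d + i)) := by
      have := hfin (d + i)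
      exact Module.Finite.map _ _
    let g : Vs f s d (i + 1) →ₗ[K] (Finset (Fin s) → Qd f (d + i)) :=
      { toFun := fun c T => ⟨c.1 T, (c.2 T).1⟩
        map_add' := fun _ _ => rfl
        map_smul' := fun _ _ => rfl }
    have hg : Function.Injective g := by
      intro a b hab
      apply Subtype.ext
      funext T
      exact congrArg Subtype.val (congrFun hab T)
    exact Module.Finite.of_injective g hg

end

end L3_

open L3_ in
theorem t_l3 (h_L1 : T_L1.{u}) (h_LIN : T_LIN.{u}) (h_COB : T_COB.{u}) (h_NUM : T_NUM)
    (h_DIMR : T_DIMR.{u}) : T_L3.{u} := by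
  intro K _ _ n m v d f a hCI hmono w hw hex
  obtain ⟨k0, hk0⟩ := hex
  have hv : 1 ≤ v := Nat.succ_le_of_lt (lt_of_le_of_lt (Nat.zero_le _) k0.2)
  by_contra hcon
  push Not at hcon
  have hfin : ∀ e, Module.Finite K (Rd K n e) := fun e => (h_DIMR K n e).1
  -- the syzygies
  have hSfin : Module.Finite K (Sig f w) := by
    have := hfin 1
    let g : Sig f w →ₗ[K] (Fin v → Rd K n 1) :=
      { toFun := fun x k => ⟨x.1 k, x.2.1 k⟩
        map_add' := fun _ _ => rfl
        map_smul' := fun _ _ => rfl }
    have hg : Function.Injective g := by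
      intro a b hab
      apply Subtype.ext
      funext T
      exact congrArg Subtype.val (congrFun hab T)
    exact Module.Finite.of_injective g hg
  set B := Module.finBasis K (Sig f w) with hB
  set s := Module.finrank K (Sig f w) with hs
  set x : Fin s → Fin v → R K n := fun t => (B t).1 with hx
  have hxm : ∀ t, x t ∈ Sig f w := fun t => (B t).2
  have hx1 : ∀ t k, x t k ∈ Rd K n 1 := fun t => (hxm t).1
  have hspan : Submodule.span K (Set.range x) = Sig f w := by
    have h1 := congrArg (Submodule.map (Sig f w).subtype) B.span_eq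
    rw [Submodule.map_span, Submodule.map_top, Submodule.range_subtype, ← Set.range_comp] at h1
    exact h1
  have hl1 : ∀ (p : Fin v → K) (t : Fin s), ∑ k, p k • x t k ∈ Rd K n 1 := fun p t =>
    Submodule.sum_mem _ fun k _ => Submodule.smul_mem _ _ (hx1 t k)
  have hrk : ∀ p : Fin v → K, rk (fun t => ∑ k, p k • x t k) = Module.finrank K (L f w p) := by
    intro p
    have h1 : (fun t => ∑ k, p k • x t k) = ⇑(∑ k, p k •
        (LinearMap.proj k : (Fin v → R K n) →ₗ[K] R K n)) ∘ x := by
      funext t
      rw [Function.comp_apply, LinearMap.sum_apply]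
      rfl
    rw [rk, L, ← hspan, Submodule.map_span, ← Set.range_comp, h1]
  -- the system
  have hS : Sys K (fun i => Vs f s d i) v v
      (fun i k => (opr f (fun t => x t k)).restrict
        (opr_mem f (fun t => x t k) (fun t => hx1 t k) d i)) := by
    have hval : ∀ (p : Fin v → K) (i : ℕ) (y : Vs f s d i),
        ((∑ k, p k • (opr f (fun t => x t k)).restrict
          (opr_mem f (fun t => x t k) (fun t => hx1 t k) d i) y : Vs f s d (i + 1)) :
          Finset (Fin s) → R K n ⧸ J f) = opr f (fun t => ∑ k, p k • x t k) y.1 := by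
      intro p i y
      rw [← opr_lin, Submodule.coe_sum]
      rfl
    refine ⟨fun y => Subtype.ext ((Submodule.mem_bot K).mp y.2), fun p i y => ?_,
      fun p hp i hi y hy => ?_⟩
    · apply Subtype.ext
      rw [hval, hval]
      -- choose a lift
      choose c hc using fun T : Finset (Fin s) => Ideal.Quotient.mk_surjective (y.1 T)
      have h1 : y.1 = fun T => mkL f (c T) := by
        funext T
        exact (hc T).symm
      rw [h1]
      have h2 : opr f (fun t => ∑ k, p k • x t k) (fun T => mkL f (c T)) =
          fun T => mkL f (cob (fun t => ∑ k, p k • x t k) c T) := by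
        funext T
        exact opr_mk f _ c T
      rw [h2]
      funext T
      rw [opr_mk, (h_COB K n s _).1, map_zero]
      rfl
    · -- exactness
      set l : Fin s → R K n := fun t => ∑ k, p k • x t k with hl
      have hy' : opr f l y.1 = 0 := by
        rw [← hval p (i + 1) y, hy]
        rfl
      have hy2 := (mem_Vs_succ f d i y.1).mp y.2
      choose c hc1 hc2 using fun T : Finset (Fin s) => (hy2 T).1
      have hyc : y.1 = fun T => mkL f (c T) := by
        funext T
        exact (hc2 T).symm
      have hcob : ∀ T : Finset (Fin s), T.card = i + 1 → cob l c T ∈ J f := by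
        intro T _
        rw [← mkL_zero_iff, ← opr_mk, ← hyc, hy']
        rfl
      have hr : v + P a (d + v - 1) ≤ rk l := by
        rw [hrk p]
        have := hcon p hp
        omega
      have hir : i < rk l := by omega
      have hcond : m < rk l - i ∨ d + i < S a (rk l - i) := by
        by_cases hm : m < rk l - i
        · exact Or.inl hm
        · right
          push Not at hm
          have h1 := (h_NUM m a).2.2.2.2.2.1 (rk l - i) (d + v - 1) hm
          have h2 : ¬ rk l - i ≤ P a (d + v - 1) := by omega
          rw [h1] at h2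
          omega
      obtain ⟨b, hb1, hb2⟩ := h_L1 K n m s f a hCI hmono l (hl1 p) i (d + i) hir hcond c hc1 hcob
      cases i with
      | zero =>
        refine ⟨0, Subtype.ext ?_⟩
        rw [hval]
        rw [show ((0 : Vs f s d 0) : Finset (Fin s) → R K n ⧸ J f) = 0 from rfl, map_zero]
        funext T
        by_cases hT : T.card = 0
        · have h1 := hb2 T hT
          rw [Finset.card_eq_zero] at hT
          subst hT
          rw [cob, Finset.sum_empty, sub_zero, ← mkL_zero_iff, hc2] at h1
          exact h1.symm
        · exact ((hy2 T).2 hT).symm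
      | succ i =>
        have hbm : ∀ T, b T ∈ Rd K n (d + i) := by
          intro T
          have h1 := hb1 T
          rw [Rm, if_pos (by omega)] at h1
          exact h1
        set z : Finset (Fin s) → R K n ⧸ J f :=
          fun T => if T.card = i then mkL f (b T) else 0 with hz
        have hzm : z ∈ Vs f s d (i + 1) := by
          rw [mem_Vs_succ]
          intro T
          by_cases hT : T.card = i
          · refine ⟨?_, fun h => absurd hT h⟩
            simp only [hz, if_pos hT]
            exact ⟨b T, hbm T, rfl⟩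
          · refine ⟨?_, fun _ => ?_⟩
            · simp only [hz, if_neg hT]
              exact Submodule.zero_mem _
            · simp only [hz, if_neg hT]
        refine ⟨⟨z, hzm⟩, Subtype.ext ?_⟩
        rw [hval]
        funext T
        by_cases hT : T.card = i + 1
        · have h1 : opr f l z T = opr f l (fun U => mkL f (b U)) T := by
            refine opr_congr f l _ _ T fun t ht => ?_
            have : (T.erase t).card = i := by
              rw [Finset.card_erase_of_mem ht, hT]; rfl
            simp only [hz, if_pos this]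
          have h2 := (mkL_eq f _ _).mpr (hb2 T hT)
          change opr f l z T = y.1 T
          rw [h1, opr_mk, ← h2, hc2]
        · have h1 := ((mem_Vs_succ f d (i + 1) _).mp
            (opr_mem f l (hl1 p) d (i + 1) z hzm) T).2 hT
          change opr f l z T = y.1 T
          rw [h1, (hy2 T).2 hT]
  -- the vector
  have hwm : ∀ k, (fun T : Finset (Fin s) => if T.card = 0 then mkL f (w k) else 0) ∈
      Vs f s d 1 := by
    intro k
    rw [mem_Vs_succ]
    intro T
    by_cases hT : T.card = 0
    · refine ⟨?_, fun h => absurd hT h⟩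
      rw [if_pos hT]
      exact ⟨w k, hw k, rfl⟩
    · refine ⟨?_, fun _ => if_neg hT⟩
      rw [if_neg hT]
      exact Submodule.zero_mem _
  have : ∀ i, Module.Finite K (Vs f s d i) := fun i => fin_Vs f hfin d i
  have hfinal := h_LIN K (fun i => Vs f s d i) v _ hS (fun k => ⟨_, hwm k⟩) (by
    apply Subtype.ext
    rw [Submodule.coe_sum]
    funext T
    rw [Finset.sum_apply]
    change ∑ k, opr f (fun t => x t k)
      (fun T : Finset (Fin s) => if T.card = 0 then mkL f (w k) else 0) T = 0
    by_cases hT : T.card = 1
    · obtain ⟨t, rfl⟩ := Finset.card_eq_one.mp hT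
      have h1 : ∀ k, opr f (fun t => x t k)
          (fun T : Finset (Fin s) => if T.card = 0 then mkL f (w k) else 0) {t} =
          mkL f (x t k * w k) := by
        intro k
        have h0 : ({t} : Finset (Fin s)).filter (· < t) = ∅ := by
          rw [Finset.filter_singleton, if_neg (lt_irrefl t)]
        have h2 : (({t} : Finset (Fin s)).erase t).card = 0 := by
          rw [Finset.card_erase_of_mem (Finset.mem_singleton_self t), hT]
        rw [opr_apply, Finset.sum_singleton, mkL_mul, h0, Finset.card_empty, pow_zero, one_mul,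
          if_pos h2]
      rw [Finset.sum_congr rfl fun k _ => h1 k, ← map_sum, mkL_zero_iff]
      exact (hxm t).2
    · refine Finset.sum_eq_zero fun k _ => ?_
      rw [opr_apply]
      refine Finset.sum_eq_zero fun t ht => ?_
      rw [if_neg, mul_zero, mul_zero]
      rw [Finset.card_erase_of_mem ht]
      have : 0 < T.card := Finset.card_pos.mpr ⟨t, ht⟩
      omega)
  apply hk0
  rw [← mkL_zero_iff]
  have h1 := congrArg (fun y : Vs f s d 1 => y.1 ∅) (congrFun hfinal k0)
  simpa using h1

end

end Pool.Agent.EGU
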