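import Pool.Agent.EGU.Targets

set_option autoImplicit false
open MvPolynomial

namespace Pool.Agent.EGU

universe u

theorem t_lci (h_NZD : T_NZD.{u}) : T_LCI.{u} := by
  intro K _ n r l hl hli
  have hS : ∀ j, S (fun _ : Fin r => 1) j = 0 := by
    intro j
    unfold S
    simp
  refine ⟨⟨fun _ => le_rfl, fun i => hl i, ?_⟩, hS, ?_⟩
  · intro j p hp
    have h := h_NZD K n r l hl (Finset.Iio j) j (by simp)
      (hli.linearIndepOn _) p
    rw [Finset.coe_Iio] at h
    exact h hp
  · intro x
    unfold P
    simp [hS]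

end Pool.Agent.EGU
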