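import Pool.Agent.EGU.Targets

set_option autoImplicit false
open MvPolynomial

/-!
T_LEXN: the lex-plus-powers ideal in any number of variables.
-/

namespace Pool.Agent.EGU

universe u

namespace LEXN_

lemma mem_std {n : ℕ} {a : Fin n → ℕ} {d : ℕ} {x : Fin n →₀ ℕ} :
    x ∈ Std a d ↔ x.degree = d ∧ ∀ i, x i < a i := by
  simp only [Std, Finset.mem_filter, Finset.mem_finsuppAntidiag, Finset.subset_univ, and_true,
    Finsupp.degree_eq_sum]

/-- the exponents of the monomials of the lex ideal -/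
def Mset {n : ℕ} (a : Fin n → ℕ) (M : ℕ → Finset (Fin n →₀ ℕ)) : Set (Fin n →₀ ℕ) :=
  {x | ∀ y ∈ Std a x.degree, (y = x ∨ lexgt y x) → y ∈ M x.degree}

lemma step (hA : T_SEGA) (hB : T_SEGB) {n : ℕ} {a : Fin n → ℕ} {M : ℕ → Finset (Fin n →₀ ℕ)}
    (hM : ∀ d, shadow a d (M d) ⊆ M (d + 1)) {x : Fin n →₀ ℕ} (hx : x ∈ Mset a M) (k : Fin n) :
    x + Finsupp.single k 1 ∈ Mset a M := by
  obtain ⟨mi, h1, h2, h3, -⟩ := hB n
  intro y hy hlex
  have hdeg : (x + Finsupp.single k 1).degree = x.degree + 1 := by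
    rw [map_add, Finsupp.degree_single]
  rw [hdeg] at hy ⊢
  rw [mem_std] at hy
  obtain ⟨hy1, hy2⟩ := hy
  have hy0 : y ≠ 0 := by
    rintro rfl
    simp at hy1
  obtain ⟨q, hq⟩ := h1 y hy0
  have hle : mi y ≤ y := by
    calc mi y ≤ mi y + Finsupp.single q 1 := le_self_add
      _ = y := hq
  have hd : (mi y).degree = x.degree := by
    have h4 : (mi y + Finsupp.single q 1).degree = x.degree + 1 := by rw [hq, hy1]
    rw [map_add, Finsupp.degree_single] at h4
    omega
  have hstd : mi y ∈ Std a x.degree := by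
    rw [mem_std]
    exact ⟨hd, fun i => lt_of_le_of_lt (hle i) (hy2 i)⟩
  have hxx : mi y = x ∨ lexgt (mi y) x := by
    rcases hlex with rfl | hlex
    · exact h2 x k
    · have hx0 : x + Finsupp.single k 1 ≠ 0 := by
        intro h
        rw [h] at hdeg
        simp at hdeg
      have hs : (∑ i, (x + Finsupp.single k 1 : Fin n →₀ ℕ) i) = ∑ i, y i := by
        rw [← Finsupp.degree_eq_sum, ← Finsupp.degree_eq_sum, hdeg, hy1]
      have h5 := h3 _ y hx0 hs hlex
      have h6 := h2 x k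
      rcases h5 with h5 | h5
      · rw [h5]
        exact h6
      · rcases h6 with h6 | h6
        · right
          rw [h6] at h5
          exact h5
        · right
          exact (hA n a 0).2.2.1 _ _ _ h5 h6
  have hmem : mi y ∈ M x.degree := hx _ hstd hxx
  refine hM _ ?_
  unfold shadow
  rw [Finset.mem_filter]
  refine ⟨?_, mi y, hmem, hle⟩
  rw [mem_std]
  exact ⟨hy1, hy2⟩

lemma up_closed (hA : T_SEGA) (hB : T_SEGB) {n : ℕ} {a : Fin n → ℕ}
    {M : ℕ → Finset (Fin n →₀ ℕ)}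
    (hM : ∀ d, shadow a d (M d) ⊆ M (d + 1)) (t : Fin n →₀ ℕ) :
    ∀ m ∈ Mset a M, m + t ∈ Mset a M := by
  induction t using Finsupp.induction_linear with
  | zero => intro m hm; simpa using hm
  | add f g hf hg =>
    intro m hm
    rw [← add_assoc]
    exact hg _ (hf _ hm)
  | single k r =>
    induction r with
    | zero => intro m hm; simpa using hm
    | succ r ih =>
      intro m hm
      rw [Finsupp.single_add, ← add_assoc]
      exact step hA hB hM (ih m hm) k

lemma up_closed' (hA : T_SEGA) (hB : T_SEGB) {n : ℕ} {a : Fin n → ℕ}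
    {M : ℕ → Finset (Fin n →₀ ℕ)}
    (hM : ∀ d, shadow a d (M d) ⊆ M (d + 1)) {x y : Fin n →₀ ℕ}
    (hx : x ∈ Mset a M) (h : x ≤ y) : y ∈ Mset a M := by
  obtain ⟨t, rfl⟩ := exists_add_of_le h
  exact up_closed hA hB hM t x hx

lemma lex_closed (hA : T_SEGA) {n : ℕ} {a : Fin n → ℕ} {M : ℕ → Finset (Fin n →₀ ℕ)}
    {x y : Fin n →₀ ℕ} (hs : (∑ i, x i) = ∑ i, y i)
    (hj : ∃ j : Fin n, (∀ k, k < j → x k = y k) ∧ x j < y j) (hx : x ∈ Mset a M) :
    y ∈ Mset a M := by
  have hd : x.degree = y.degree := by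
    rw [Finsupp.degree_eq_sum, Finsupp.degree_eq_sum, hs]
  have hl : lexgt y x := hj
  intro z hz hlex
  rw [← hd] at hz ⊢
  refine hx z hz (Or.inr ?_)
  rcases hlex with rfl | hlex
  · exact hl
  · exact (hA n a 0).2.2.1 _ _ _ hlex hl

lemma mem_M_iff {n : ℕ} {a : Fin n → ℕ} {M : ℕ → Finset (Fin n →₀ ℕ)}
    (hseg : ∀ d, IsSeg a d (M d)) {x : Fin n →₀ ℕ} {d : ℕ}
    (hstd : x ∈ Std a d) : x ∈ Mset a M ↔ x ∈ M d := by
  have hd : x.degree = d := (mem_std.mp hstd).1
  subst hd
  constructor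
  · intro h
    exact h _ hstd (Or.inl rfl)
  · intro h y hy hlex
    rcases hlex with rfl | hlex
    · exact h
    · exact (hseg _).2 _ h y hy hlex

section

variable {K : Type u} [Field K] {n : ℕ}

lemma mem_rd {d : ℕ} {p : R K n} :
    p ∈ Rd K n d ↔ (p.support : Set (Fin n →₀ ℕ)) ⊆ {m | m.degree = d} := by
  rw [Rd, homogeneousSubmodule_eq_finsupp_supported]
  rfl

/-- exponents of degree `d` -/
def Dd (n d : ℕ) : Set (Fin n →₀ ℕ) := {m | m.degree = d}

lemma finite_Dd (n d : ℕ) : (Dd n d).Finite := by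
  refine Set.Finite.subset
    (Finset.finite_toSet (Finset.finsuppAntidiag (Finset.univ : Finset (Fin n)) d)) ?_
  intro m hm
  rw [Finset.mem_coe, Finset.mem_finsuppAntidiag, ← Finsupp.degree_eq_sum]
  exact ⟨hm, Finset.subset_univ _⟩

lemma finrank_restrict (A : Set (Fin n →₀ ℕ)) :
    Module.finrank K (restrictSupport K A) = A.ncard := by
  rw [Module.finrank_eq_nat_card_basis (basisRestrictSupport K A)]
  rfl

lemma inf_eq (N : Set (Fin n →₀ ℕ)) (d : ℕ) :
    Rd K n d ⊓ Submodule.restrictScalars K (Ideal.span ((fun s => (monomial s (1 : K))) '' N)) =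
      restrictSupport K {m | m.degree = d ∧ ∃ s ∈ N, s ≤ m} := by
  ext p
  rw [Submodule.mem_inf, mem_rd, mem_restrictSupport_iff, Submodule.restrictScalars_mem,
    mem_ideal_span_monomial_image]
  constructor
  · rintro ⟨h1, h2⟩ m hm
    exact ⟨h1 hm, h2 m hm⟩
  · intro h
    exact ⟨fun m hm => (h hm).1, fun m hm => (h hm).2⟩

lemma pow_eq (a : Fin n → ℕ) :
    Ideal.span (Set.range fun i : Fin n => (X i : R K n) ^ a i) =
    Ideal.span ((fun s => (monomial s (1 : K))) ''
      (Set.range (fun i : Fin n => Finsupp.single i (a i)))) := by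
  congr 1
  ext p
  simp only [Set.mem_range, Set.mem_image, exists_exists_eq_and, X_pow_eq_monomial]

lemma ideal_eq (a : Fin n → ℕ) (M : Set (Fin n →₀ ℕ)) :
    Ideal.span (Set.range fun i : Fin n => (X i : R K n) ^ a i) ⊔
      Ideal.span ((fun s => (monomial s (1 : K))) '' M) =
    Ideal.span ((fun s => (monomial s (1 : K))) ''
      (Set.range (fun i : Fin n => Finsupp.single i (a i)) ∪ M)) := by
  rw [Set.image_union, Ideal.span_union, pow_eq]

lemma count (hA : T_SEGA) (hB : T_SEGB) {a : Fin n → ℕ} {M : ℕ → Finset (Fin n →₀ ℕ)}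
    (hseg : ∀ d, IsSeg a d (M d)) (hM : ∀ d, shadow a d (M d) ⊆ M (d + 1)) (d : ℕ) :
    ({m | m.degree = d ∧ ∃ s ∈ Set.range (fun i : Fin n => Finsupp.single i (a i)) ∪ Mset a M,
        s ≤ m} : Set (Fin n →₀ ℕ)).ncard =
      ({m | m.degree = d ∧ ∃ s ∈ Set.range (fun i : Fin n => Finsupp.single i (a i)),
        s ≤ m} : Set (Fin n →₀ ℕ)).ncard + (M d).card := by
  have hsub : (M d : Set (Fin n →₀ ℕ)) ⊆ {m | m ∈ Std a d} := fun m hm => (hseg d).1 hm
  rw [← Set.ncard_coe_finset, ← Set.ncard_union_eq ?_ ?_ (Finset.finite_toSet _)]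
  · congr 1
    ext m
    simp only [Set.mem_union, Set.mem_ofPred_eq, Set.mem_range, Finset.mem_coe]
    constructor
    · rintro ⟨hd, s, hs, hle⟩
      by_cases hn : ∃ i, a i ≤ m i
      · obtain ⟨i, hi⟩ := hn
        left
        refine ⟨hd, Finsupp.single i (a i), ⟨i, rfl⟩, ?_⟩
        rw [Finsupp.single_le_iff]
        exact hi
      · push Not at hn
        right
        have hstd : m ∈ Std a d := mem_std.mpr ⟨hd, hn⟩
        rcases hs with ⟨i, rfl⟩ | hs
        · rw [Finsupp.single_le_iff] at hle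
          exact absurd (hn i) (not_lt.mpr hle)
        · exact (mem_M_iff hseg hstd).mp (up_closed' hA hB hM hs hle)
    · rintro (⟨hd, s, hs, hle⟩ | hm)
      · exact ⟨hd, s, Or.inl hs, hle⟩
      · have hstd : m ∈ Std a d := (hseg d).1 hm
        exact ⟨(mem_std.mp hstd).1, m, Or.inr ((mem_M_iff hseg hstd).mpr hm), le_rfl⟩
  · rw [Set.disjoint_left]
    rintro m ⟨hd, s, ⟨i, rfl⟩, hle⟩ hm
    have hstd : m ∈ Std a d := hsub hm
    simp only at hle
    rw [Finsupp.single_le_iff] at hle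
    exact absurd ((mem_std.mp hstd).2 i) (not_lt.mpr hle)
  · exact (finite_Dd n d).subset (fun m hm => hm.1)

end

end LEXN_

open LEXN_ in
theorem t_lexn (h_SEGA : T_SEGA) (h_SEGB : T_SEGB) : T_LEXN.{u} := by
  classical
  intro K _ n a v _ hSh
  choose M hseg hcard hsh using hSh
  have hM : ∀ d, shadow a d (M d) ⊆ M (d + 1) := by
    intro d
    obtain ⟨mi, -, -, -, h4⟩ := h_SEGB n
    refine (h_SEGA n a (d + 1)).2.2.2.2 _ _ (h4 a d _ (hseg d)) (hseg (d + 1)) ?_
    rw [hcard (d + 1)]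
    exact hsh d
  refine ⟨Ideal.span ((fun s => (monomial s (1 : K))) '' (Mset a M)), ⟨_, rfl⟩, ?_, ?_⟩
  · intro x y hs hj hx
    have hmem : ∀ z : Fin n →₀ ℕ, monomial z (1 : K) ∈
        Ideal.span ((fun s => (monomial s (1 : K))) '' (Mset a M)) ↔ z ∈ Mset a M := by
      intro z
      rw [mem_ideal_span_monomial_image, support_monomial, if_neg one_ne_zero]
      simp only [Finset.mem_singleton, forall_eq]
      constructor
      · rintro ⟨s, hs, hle⟩
        exact up_closed' h_SEGA h_SEGB hM hs hle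
      · intro hz
        exact ⟨z, hz, le_rfl⟩
    rw [hmem] at hx ⊢
    exact lex_closed h_SEGA hs hj hx
  · intro d
    have h1 := inf_eq (K := K) (Set.range (fun i : Fin n => Finsupp.single i (a i)) ∪ Mset a M) d
    have h2 := inf_eq (K := K) (Set.range (fun i : Fin n => Finsupp.single i (a i))) d
    have h3 : Jd (fun i => (X i : R K n) ^ a i) d =
        restrictSupport K {m | m.degree = d ∧
          ∃ s ∈ Set.range (fun i : Fin n => Finsupp.single i (a i)), s ≤ m} := by
      unfold Jd J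
      rw [pow_eq, h2]
    rw [ideal_eq, h1, h3, finrank_restrict, finrank_restrict, count h_SEGA h_SEGB hseg hM d,
      hcard d]

end Pool.Agent.EGU
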