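import Pool.Agent.EGU.Targets

set_option autoImplicit false
open MvPolynomial

namespace Pool.Agent.EGU

universe u

theorem LIN_.eval {V : Type u} [AddCommGroup V] {v : ℕ} (w : Fin v → V) (k : Fin v) :
    ∑ i, ((Pi.single k 1 : Fin v → ℕ) i) • w i = w k := by
  rw [Finset.sum_eq_single k]
  · simp
  · intro i _ hi
    rw [Pi.single_eq_of_ne hi, zero_smul]
  · intro h
    exact absurd (Finset.mem_univ k) h

theorem t_lin (h_LINV : T_LINV.{u}) : T_LIN.{u} := by
  intro K _ _ V _ _ _ v D hD w hw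
  rcases Nat.eq_zero_or_pos v with h0 | hv
  · subst h0
    funext k
    exact k.elim0
  have hcyc : Cyc (D 1) 1 (fun β : Fin v → ℕ => ∑ i, β i • w i) := by
    intro β hβ
    have hb : ∀ i, β i = 0 := by
      intro i
      have h1 : ∑ k, β k = 0 := by omega
      exact (Finset.sum_eq_zero_iff.mp h1) i (Finset.mem_univ i)
    have hb' : β = 0 := funext hb
    subst hb'
    rw [← hw]
    refine Finset.sum_congr rfl fun k _ => ?_
    rw [zero_add]
    congr 1
    exact LIN_.eval w k
  obtain ⟨Ψ, hΨ⟩ := h_LINV K v hv V v D hD 0 (by omega) 1 (Or.inl rfl) _ hcyc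
  funext k
  have h1 := hΨ (Pi.single k 1) (by
    rw [Finset.sum_pi_single']
    simp)
  rw [← LIN_.eval w k]
  refine h1.trans ?_
  refine Finset.sum_eq_zero fun i _ => ?_
  rw [hD.zero (Ψ _), map_zero]

end Pool.Agent.EGU
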