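import Pool.Agent.EGU.Targets

set_option autoImplicit false
open MvPolynomial

/-!
Project EGU: induction over the pencils (job LINV).
-/

namespace Pool.Agent.EGU

universe u

noncomputable section

namespace LINV_

section
variable {K : Type u} [Field K] {n : ℕ} {V V' V'' : Type u} [AddCommGroup V] [Module K V]
  [AddCommGroup V'] [Module K V'] [AddCommGroup V''] [Module K V'']

theorem sum_shift (β : Fin n → ℕ) (k : Fin n) :
    ∑ i, (β + Pi.single k 1 : Fin n → ℕ) i = ∑ i, β i + 1 := by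
  simp [Finset.sum_add_distrib]

theorem cyc_congr (D : Fin n → (V →ₗ[K] V')) (e : ℕ) (Φ Φ' : (Fin n → ℕ) → V)
    (h : ∀ β : Fin n → ℕ, ∑ k, β k = e → Φ β = Φ' β) (hc : Cyc D e Φ) : Cyc D e Φ' := by
  intro β hβ
  rw [← hc β hβ]
  refine Finset.sum_congr rfl fun k _ => ?_
  rw [h]
  rw [sum_shift, hβ]

theorem bdy_congr (D : Fin n → (V →ₗ[K] V')) (e : ℕ) (Φ Φ' : (Fin n → ℕ) → V')
    (h : ∀ β : Fin n → ℕ, ∑ k, β k = e → Φ β = Φ' β) (hc : Bdy D e Φ) : Bdy D e Φ' := by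
  obtain ⟨Ψ, hΨ⟩ := hc
  exact ⟨Ψ, fun β hβ => by rw [← h β hβ]; exact hΨ β hβ⟩

/-- Cycles as a submodule. -/
def cycS (D : Fin n → (V →ₗ[K] V')) (e : ℕ) : Submodule K ((Fin n → ℕ) → V) where
  carrier := {Φ | Cyc D e Φ}
  add_mem' := by
    intro a b ha hb β hβ
    simp only [Pi.add_apply, map_add, Finset.sum_add_distrib, ha β hβ, hb β hβ, add_zero]
  zero_mem' := by
    intro β _
    simp
  smul_mem' := by
    intro c a ha β hβ
    simp only [Pi.smul_apply, map_smul, ← Finset.smul_sum, ha β hβ, smul_zero]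

/-- Boundaries as a submodule. -/
def bdyS (D : Fin n → (V →ₗ[K] V')) (e : ℕ) : Submodule K ((Fin n → ℕ) → V') where
  carrier := {Φ | Bdy D e Φ}
  add_mem' := by
    rintro a b ⟨x, hx⟩ ⟨y, hy⟩
    refine ⟨fun β => x β + y β, fun β hβ => ?_⟩
    simp only [Pi.add_apply, map_add, Finset.sum_add_distrib, hx β hβ, hy β hβ]
  zero_mem' := by
    refine ⟨fun _ => 0, fun β _ => ?_⟩
    simp
  smul_mem' := by
    rintro c a ⟨x, hx⟩
    refine ⟨fun β => c • x β, fun β hβ => ?_⟩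
    simp only [Pi.smul_apply, map_smul, ← Finset.smul_sum, hx β hβ]

/-- Multi-indices of level `e`. -/
def Ix (n e : ℕ) : Type := {β : Fin n → ℕ // ∑ k, β k = e}

instance (n e : ℕ) : Finite (Ix n e) := by
  have h : ∀ (β : Ix n e) (k : Fin n), β.1 k < e + 1 := by
    intro β k
    have h1 : β.1 k ≤ ∑ k, β.1 k := Finset.single_le_sum (fun _ _ => Nat.zero_le _)
      (Finset.mem_univ k)
    rw [β.2] at h1
    omega
  refine Finite.of_injective (β := Fin n → Fin (e + 1)) (fun β k => ⟨β.1 k, h β k⟩) ?_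
  intro a b hab
  apply Subtype.ext
  funext k
  exact congrArg Fin.val (congrFun hab k)

/-- Extension by zero. -/
def ext0 (K : Type u) [Field K] (V : Type u) [AddCommGroup V] [Module K V] (n e : ℕ) :
    (Ix n e → V) →ₗ[K] ((Fin n → ℕ) → V) where
  toFun φ := fun β => if h : ∑ k, β k = e then φ ⟨β, h⟩ else 0
  map_add' := by
    intro a b
    funext β
    by_cases h : ∑ k, β k = e
    · simp only [Pi.add_apply, dif_pos h] <;> rfl
    · simp only [Pi.add_apply, dif_neg h, add_zero]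
  map_smul' := by
    intro c a
    funext β
    by_cases h : ∑ k, β k = e
    · simp only [Pi.smul_apply, dif_pos h, RingHom.id_apply] <;> rfl
    · simp only [Pi.smul_apply, dif_neg h, RingHom.id_apply, smul_zero]

theorem ext0_apply (e : ℕ) (φ : Ix n e → V) (β : Fin n → ℕ) (h : ∑ k, β k = e) :
    ext0 K V n e φ β = φ ⟨β, h⟩ := dif_pos h

/-- The shift. -/
def sh (k : Fin n) (e : ℕ) (β : Ix n e) : Ix n (e + 1) :=
  ⟨β.1 + Pi.single k 1, by rw [sum_shift, β.2]⟩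

/-- The shift of functions. -/
def shF (K : Type u) [Field K] (V : Type u) [AddCommGroup V] [Module K V] (k : Fin n) (e : ℕ) :
    (Ix n (e + 1) → V) →ₗ[K] (Ix n e → V) := LinearMap.funLeft K V (sh k e)

theorem ext_sh (k : Fin n) (e : ℕ) (φ : Ix n (e + 1) → V) (β : Fin n → ℕ)
    (h : ∑ k, β k = e) :
    ext0 K V n e (shF K V k e φ) β = ext0 K V n (e + 1) φ (β + Pi.single k 1) := by
  rw [ext0_apply e _ β h, ext0_apply (e + 1) _ _ (by rw [sum_shift, h])]
  rfl

theorem cyc_shift (D : Fin n → (V →ₗ[K] V')) (e : ℕ) (Φ : (Fin n → ℕ) → V)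
    (h : Cyc D (e + 1) Φ) (l : Fin n) : Cyc D e (fun β => Φ (β + Pi.single l 1)) := by
  intro β hβ
  have h1 := h (β + Pi.single l 1) (by rw [sum_shift, hβ])
  rw [← h1]
  refine Finset.sum_congr rfl fun k _ => ?_
  dsimp only
  rw [add_right_comm]

theorem bdy_shift (D : Fin n → (V →ₗ[K] V')) (e : ℕ) (Φ : (Fin n → ℕ) → V')
    (h : Bdy D (e + 1) Φ) (l : Fin n) : Bdy D e (fun β => Φ (β + Pi.single l 1)) := by
  obtain ⟨Ψ, hΨ⟩ := h
  refine ⟨fun β => Ψ (β + Pi.single l 1), fun β hβ => ?_⟩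
  dsimp only
  rw [hΨ _ (by rw [sum_shift, hβ])]
  refine Finset.sum_congr rfl fun k _ => ?_
  rw [add_right_comm]

theorem comp_single (σ : Equiv.Perm (Fin n)) (hσ : ∀ k, σ (σ k) = k) (β : Fin n → ℕ)
    (k : Fin n) : (β + Pi.single k 1) ∘ σ = β ∘ σ + Pi.single (σ k) 1 := by
  funext m
  simp only [Function.comp_apply, Pi.add_apply]
  congr 1
  by_cases h : m = σ k
  · subst h
    rw [hσ, Pi.single_eq_same, Pi.single_eq_same]
  · rw [Pi.single_eq_of_ne h, Pi.single_eq_of_ne]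
    intro h'
    apply h
    rw [← h', hσ]

theorem comp_comp (σ : Equiv.Perm (Fin n)) (hσ : ∀ k, σ (σ k) = k) (β : Fin n → ℕ) :
    (β ∘ σ) ∘ σ = β := by
  funext m
  simp only [Function.comp_apply, hσ]

theorem sum_comp (σ : Equiv.Perm (Fin n)) (β : Fin n → ℕ) :
    ∑ k, (β ∘ σ) k = ∑ k, β k := Equiv.sum_comp σ β

theorem cyc_rx (D : Fin n → (V →ₗ[K] V')) (σ : Equiv.Perm (Fin n)) (hσ : ∀ k, σ (σ k) = k)
    (e : ℕ) (Φ : (Fin n → ℕ) → V) (h : Cyc D e Φ) :
    Cyc (fun k => D (σ k)) e (fun β => Φ (β ∘ σ)) := by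
  intro β hβ
  have h1 := h (β ∘ σ) (by rw [sum_comp]; exact hβ)
  rw [← Equiv.sum_comp σ] at h1
  rw [← h1]
  refine Finset.sum_congr rfl fun k _ => ?_
  dsimp only
  rw [comp_single σ hσ]

theorem bdy_rx (D : Fin n → (V →ₗ[K] V')) (σ : Equiv.Perm (Fin n)) (hσ : ∀ k, σ (σ k) = k)
    (e : ℕ) (Φ : (Fin n → ℕ) → V') (h : Bdy D e Φ) :
    Bdy (fun k => D (σ k)) e (fun β => Φ (β ∘ σ)) := by
  obtain ⟨Ψ, hΨ⟩ := h
  refine ⟨fun β => Ψ (β ∘ σ), fun β hβ => ?_⟩
  have h1 := hΨ (β ∘ σ) (by rw [sum_comp]; exact hβ)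
  rw [← Equiv.sum_comp σ] at h1
  dsimp only
  rw [h1]
  refine Finset.sum_congr rfl fun k _ => ?_
  rw [comp_single σ hσ]

end

section
variable {K : Type u} [Field K] {V : ℕ → Type u} [∀ i, AddCommGroup (V i)]
  [∀ i, Module K (V i)]

theorem sys_rx (v j : ℕ) (D : ∀ i, Fin v → (V i →ₗ[K] V (i + 1))) (hS : Sys K V v j D)
    (σ : Equiv.Perm (Fin v)) (hσ : ∀ k, σ (σ k) = k) :
    Sys K V v j (fun i k => D i (σ k)) := by
  have key : ∀ (p : Fin v → K) (i : ℕ) (x : V i),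
      ∑ k, p k • D i (σ k) x = ∑ k, p (σ k) • D i k x := by
    intro p i x
    rw [← Equiv.sum_comp σ (fun k => p (σ k) • D i k x)]
    refine Finset.sum_congr rfl fun k _ => ?_
    rw [hσ]
  refine ⟨hS.zero, fun p i x => ?_, fun p hp i hi x hx => ?_⟩
  · rw [key, key]
    exact hS.sq (fun k => p (σ k)) i x
  · rw [key] at hx
    have hp' : (fun k => p (σ k)) ≠ 0 := by
      intro h
      apply hp
      funext k
      have := congrFun h (σ k)
      simp only [hσ] at this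
      exact this
    obtain ⟨y, hy⟩ := hS.ex (fun k => p (σ k)) hp' i hi x hx
    exact ⟨y, by rw [key]; exact hy⟩

/-- Boundaries are cycles. -/
theorem bdy_cyc (v j : ℕ) (D : ∀ i, Fin v → (V i →ₗ[K] V (i + 1))) (hS : Sys K V v j D)
    (i e : ℕ) (Φ : (Fin v → ℕ) → V (i + 1)) (h : Bdy (D i) e Φ) : Cyc (D (i + 1)) e Φ := by
  obtain ⟨Ψ, hΨ⟩ := h
  have hd : ∀ (k : Fin v) (x : V i), D (i + 1) k (D i k x) = 0 := by
    intro k x
    have h1 := hS.sq (Pi.single k 1) i x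
    simpa [Pi.single_apply, ite_smul] using h1
  have ha : ∀ (k l : Fin v) (x : V i), D (i + 1) k (D i l x) + D (i + 1) l (D i k x) = 0 := by
    intro k l x
    by_cases hkl : k = l
    · subst hkl
      rw [hd, add_zero]
    have h1 := hS.sq (Pi.single k 1 + Pi.single l 1) i x
    simp only [Pi.add_apply, add_smul, Finset.sum_add_distrib, Pi.single_apply, ite_smul,
      one_smul, zero_smul, Finset.sum_ite_eq', Finset.mem_univ, if_true, map_add, hd] at h1
    rw [zero_add, add_zero] at h1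
    exact h1
  intro β hβ
  have h1 : ∀ k, D (i + 1) k (Φ (β + Pi.single k 1)) =
      ∑ l, D (i + 1) k (D i l (Ψ (β + Pi.single k 1 + Pi.single l 1))) := by
    intro k
    rw [hΨ _ (by rw [sum_shift, hβ]), map_sum]
  rw [Finset.sum_congr rfl fun k _ => h1 k]
  set S := ∑ k, ∑ l, D (i + 1) k (D i l (Ψ (β + Pi.single k 1 + Pi.single l 1))) with hSdef
  -- the sum is alternating
  classical
  have h2 : ∑ p ∈ (Finset.univ : Finset (Fin v × Fin v)),
      D (i + 1) p.1 (D i p.2 (Ψ (β + Pi.single p.1 1 + Pi.single p.2 1))) = 0 := by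
    refine Finset.sum_involution (fun p _ => (p.2, p.1)) ?_ ?_ ?_ ?_
    · rintro ⟨k, l⟩ _
      dsimp only
      rw [add_right_comm β (Pi.single l 1) (Pi.single k 1)]
      exact ha k l _
    · rintro ⟨k, l⟩ _ hne heq
      apply hne
      dsimp only at heq ⊢
      have : l = k := congrArg Prod.fst heq
      subst this
      exact hd _ _
    · intro p _
      exact Finset.mem_univ _
    · intro p _
      rfl
  rw [hSdef, ← h2, ← Finset.univ_product_univ, Finset.sum_product]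

end

end LINV_

open LINV_ in
theorem t_linv (h_PENC : T_PENC.{u}) (h_EIG : T_EIG.{u}) : T_LINV.{u} := by
  intro K _ _ v hv
  induction v, hv using Nat.le_induction with
  | base =>
    intro V _ _ _ j D hS i hi e he Φ hΦ
    have hc1 : ∀ (β : Fin 1 → ℕ), ∑ k, β k = β 0 := fun β => by simp
    -- the value at level `e`
    have he1 : 1 ≤ e := by rcases he with h | h <;> omega
    have h1 := hΦ (fun _ => e - 1) (by rw [hc1]; omega)
    rw [Fin.sum_univ_one] at h1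
    have h2 : ((fun _ => e - 1) + Pi.single 0 1 : Fin 1 → ℕ) = fun _ => e := by
      funext k
      rw [Subsingleton.elim k 0]
      simp only [Pi.add_apply, Pi.single_eq_same]
      omega
    rw [h2] at h1
    obtain ⟨y, hy⟩ := hS.ex (fun _ => 1) (by
      intro h; exact one_ne_zero (congrFun h 0)) i (by omega) (Φ fun _ => e) (by
      rw [Fin.sum_univ_one, one_smul]; exact h1)
    refine ⟨fun _ => y, fun β hβ => ?_⟩
    have h3 : β = fun _ => e := by
      funext k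
      rw [Subsingleton.elim k 0, ← hc1 β, hβ]
    rw [h3, ← hy]
    simp
  | succ v hv ih =>
    intro V _ _ _ j D hS i hi e he Φ hΦ
    set z1 : Fin (v + 1) := ⟨1, by omega⟩ with hz1
    set σ : Equiv.Perm (Fin (v + 1)) := Equiv.swap 0 z1 with hσdef
    have hσ : ∀ k, σ (σ k) = k := fun k => Equiv.swap_apply_self 0 z1 k
    have hσ0 : σ 0 = z1 := Equiv.swap_apply_left 0 z1
    have hσ1 : σ z1 = 0 := Equiv.swap_apply_right 0 z1
    have hD : ∀ i, (fun k => (fun k => D i (σ k)) (σ k)) = D i := by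
      intro i
      funext k
      simp only [hσ]
    have P1 := h_PENC K v hv ih V j D hS i (by omega)
    have P2 := h_PENC K v hv ih V j (fun i k => D i (σ k)) (sys_rx _ j D hS σ hσ) i (by omega)
      0 z1 rfl
    -- the swapped pencil statements
    have Q1 : ∀ Φ : (Fin (v + 1) → ℕ) → V (i + 1), Cyc (D (i + 1)) 2 Φ →
        Bdy (D i) 1 (fun β => Φ (β + Pi.single z1 1)) → Bdy (D i) 2 Φ := by
      intro Φ h1 h2
      have h3 := P2.1 (fun β => Φ (β ∘ σ)) (cyc_rx (D (i + 1)) σ hσ 2 Φ h1) (by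
        have h4 := bdy_rx (D i) σ hσ 1 _ h2
        refine bdy_congr _ 1 _ _ (fun β _ => ?_) h4
        rw [zero_smul, add_zero]
        rw [comp_single σ hσ, hσ0])
      have h5 := bdy_rx (fun k => D i (σ k)) σ hσ 2 _ h3
      rw [hD i] at h5
      refine bdy_congr _ 2 _ _ (fun β _ => ?_) h5
      rw [comp_comp σ hσ]
    have Q2 : ∀ Ψ : (Fin (v + 1) → ℕ) → V (i + 1), Cyc (D (i + 1)) 1 Ψ →
        ∃ Φ : (Fin (v + 1) → ℕ) → V (i + 1), Cyc (D (i + 1)) 2 Φ ∧
          ∀ β : Fin (v + 1) → ℕ, ∑ k, β k = 1 → Φ (β + Pi.single z1 1) = Ψ β := by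
      intro Ψ h1
      obtain ⟨Φ', h2, h3⟩ := P2.2 (fun β => Ψ (β ∘ σ)) (cyc_rx (D (i + 1)) σ hσ 1 Ψ h1)
      refine ⟨fun β => Φ' (β ∘ σ), ?_, fun β hβ => ?_⟩
      · have h4 := cyc_rx (fun k => D (i + 1) (σ k)) σ hσ 2 Φ' h2
        rw [hD (i + 1)] at h4
        exact h4
      · have h4 := h3 (β ∘ σ) (by rw [sum_comp]; exact hβ)
        rw [zero_smul, add_zero] at h4
        simp only at h4 ⊢
        rw [comp_single σ hσ, hσ1, h4, comp_comp σ hσ]
    -- the spaces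
    set A2 := (cycS (D (i + 1)) 2).comap (ext0 K (V (i + 1)) (v + 1) 2) with hA2
    set B2 := (bdyS (D i) 2).comap (ext0 K (V (i + 1)) (v + 1) 2) with hB2
    set A1 := (cycS (D (i + 1)) 1).comap (ext0 K (V (i + 1)) (v + 1) 1) with hA1
    set B1 := (bdyS (D i) 1).comap (ext0 K (V (i + 1)) (v + 1) 1) with hB1
    have hEA2 : ∀ x, x ∈ A2 ↔ Cyc (D (i + 1)) 2 (ext0 K (V (i + 1)) (v + 1) 2 x) :=
      fun _ => Iff.rfl
    have hEB2 : ∀ x, x ∈ B2 ↔ Bdy (D i) 2 (ext0 K (V (i + 1)) (v + 1) 2 x) := fun _ => Iff.rfl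
    have hEA1 : ∀ x, x ∈ A1 ↔ Cyc (D (i + 1)) 1 (ext0 K (V (i + 1)) (v + 1) 1 x) :=
      fun _ => Iff.rfl
    have hEB1 : ∀ x, x ∈ B1 ↔ Bdy (D i) 1 (ext0 K (V (i + 1)) (v + 1) 1 x) := fun _ => Iff.rfl
    have hshA : ∀ l : Fin (v + 1), ∀ x ∈ A2, shF K (V (i + 1)) l 1 x ∈ A1 := by
      intro l x hx
      rw [hEA1]
      refine cyc_congr _ 1 _ _ (fun β hβ => ?_) (cyc_shift (D (i + 1)) 1 _ ((hEA2 x).mp hx) l)
      exact (ext_sh l 1 x β hβ).symm
    have hshB : ∀ l : Fin (v + 1), ∀ x ∈ B2, shF K (V (i + 1)) l 1 x ∈ B1 := by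
      intro l x hx
      rw [hEB1]
      refine bdy_congr _ 1 _ _ (fun β hβ => ?_) (bdy_shift (D i) 1 _ ((hEB2 x).mp hx) l)
      exact (ext_sh l 1 x β hβ).symm
    have hmain := h_EIG K (Ix (v + 1) 2 → V (i + 1)) (Ix (v + 1) 1 → V (i + 1)) A2 B2 A1 B1
      (shF K (V (i + 1)) 0 1) (shF K (V (i + 1)) z1 1)
      (fun x hx => (hEA2 x).mpr (bdy_cyc _ j D hS i 2 _ ((hEB2 x).mp hx)))
      (fun x hx => (hEA1 x).mpr (bdy_cyc _ j D hS i 1 _ ((hEB1 x).mp hx)))
      (fun x hx => ⟨hshA 0 x hx, hshA z1 x hx⟩)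
      (fun x hx => ⟨hshB 0 x hx, hshB z1 x hx⟩)
      (by
        intro y x hx hxy
        rw [hEB2]
        refine (P1 y z1 rfl).1 _ ((hEA2 x).mp hx) ?_
        refine bdy_congr _ 1 _ _ (fun β hβ => ?_) ((hEB1 _).mp hxy)
        rw [map_add, map_smul, Pi.add_apply, Pi.smul_apply, ext_sh 0 1 x β hβ,
          ext_sh z1 1 x β hβ])
      (by
        intro x hx hxy
        rw [hEB2]
        refine Q1 _ ((hEA2 x).mp hx) ?_
        refine bdy_congr _ 1 _ _ (fun β hβ => ?_) ((hEB1 _).mp hxy)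
        rw [ext_sh z1 1 x β hβ])
      (by
        intro z hz
        obtain ⟨Φ', h1, h2⟩ := Q2 _ ((hEA1 z).mp hz)
        refine ⟨fun β => Φ' β.1, ?_, ?_⟩
        · rw [hEA2]
          refine cyc_congr _ 2 _ _ (fun β hβ => ?_) h1
          rw [ext0_apply 2 _ β hβ]
        · have h3 : shF K (V (i + 1)) z1 1 (fun β : Ix (v + 1) 2 => Φ' β.1) - z = 0 := by
            funext β
            rw [Pi.sub_apply, Pi.zero_apply, sub_eq_zero]
            have h4 := h2 β.1 β.2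
            rw [ext0_apply 1 _ β.1 β.2] at h4
            exact h4
          rw [h3]
          exact Submodule.zero_mem _)
    rcases he with rfl | rfl
    · have h1 : (fun β : Ix (v + 1) 1 => Φ β.1) ∈ A1 := by
        rw [hEA1]
        refine cyc_congr _ 1 _ _ (fun β hβ => ?_) hΦ
        rw [ext0_apply 1 _ β hβ]
      rw [hmain.2, hEB1] at h1
      refine bdy_congr _ 1 _ _ (fun β hβ => ?_) h1
      rw [ext0_apply 1 _ β hβ]
    · have h1 : (fun β : Ix (v + 1) 2 => Φ β.1) ∈ A2 := by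
        rw [hEA2]
        refine cyc_congr _ 2 _ _ (fun β hβ => ?_) hΦ
        rw [ext0_apply 2 _ β hβ]
      rw [hmain.1, hEB2] at h1
      refine bdy_congr _ 2 _ _ (fun β hβ => ?_) h1
      rw [ext0_apply 2 _ β hβ]

end

end Pool.Agent.EGU
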