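import Pool.Agent.EGU.Targets

set_option autoImplicit false
open MvPolynomial

/-!
T_MONDIM: the dimension of the graded parts of the ideal generated by powers of the variables.
-/

namespace Pool.Agent.EGU

universe u

namespace MONDIM_

variable {n : ℕ}

lemma mem_std {a : Fin n → ℕ} {d : ℕ} {x : Fin n →₀ ℕ} :
    x ∈ Std a d ↔ x.degree = d ∧ ∀ i, x i < a i := by
  rw [Std, Finset.mem_filter, Finset.mem_finsuppAntidiag, Finsupp.degree_eq_sum]
  constructor
  · rintro ⟨⟨h1, _⟩, h2⟩
    exact ⟨h1, h2⟩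
  · rintro ⟨h1, h2⟩
    exact ⟨⟨h1, Finset.subset_univ _⟩, h2⟩

/-- Exponents of degree `d`. -/
def Dd (n d : ℕ) : Set (Fin n →₀ ℕ) := {m | m.degree = d}

lemma finite_Dd (d : ℕ) : (Dd n d).Finite := by
  have h : Dd n d = ((Finset.finsuppAntidiag (Finset.univ : Finset (Fin n)) d :
      Finset (Fin n →₀ ℕ)) : Set (Fin n →₀ ℕ)) := by
    ext m
    rw [Finset.mem_coe, Finset.mem_finsuppAntidiag]
    constructor
    · intro hm
      refine ⟨?_, Finset.subset_univ _⟩
      rw [← Finsupp.degree_eq_sum]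
      exact hm
    · rintro ⟨hm, _⟩
      show m.degree = d
      rw [Finsupp.degree_eq_sum]
      exact hm
  rw [h]
  exact Finset.finite_toSet _

section

variable {K : Type u} [Field K]

lemma mem_rd {d : ℕ} {p : R K n} :
    p ∈ Rd K n d ↔ (p.support : Set (Fin n →₀ ℕ)) ⊆ {m | m.degree = d} := by
  rw [Rd, homogeneousSubmodule_eq_finsupp_supported]
  rfl

lemma finrank_restrict (A : Set (Fin n →₀ ℕ)) :
    Module.finrank K (restrictSupport K A) = A.ncard := by
  rw [Module.finrank_eq_nat_card_basis (basisRestrictSupport K A)]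
  rfl

lemma rd_eq (d : ℕ) : Rd K n d = restrictSupport K (Dd n d) := by
  ext p
  rw [mem_rd, mem_restrictSupport_iff]
  rfl

lemma inf_eq (N : Set (Fin n →₀ ℕ)) (d : ℕ) :
    Rd K n d ⊓ Submodule.restrictScalars K (Ideal.span ((fun s => (monomial s (1 : K))) '' N)) =
      restrictSupport K {m | m.degree = d ∧ ∃ s ∈ N, s ≤ m} := by
  ext p
  rw [Submodule.mem_inf, mem_rd, mem_restrictSupport_iff, Submodule.restrictScalars_mem,
    mem_ideal_span_monomial_image]
  constructor
  · rintro ⟨h1, h2⟩ m hm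
    exact ⟨h1 hm, h2 m hm⟩
  · intro h
    exact ⟨fun m hm => (h hm).1, fun m hm => (h hm).2⟩

end

lemma count (a : Fin n → ℕ) (d : ℕ) :
    ({m | m.degree = d ∧ ∃ s ∈ Set.range (fun i : Fin n => Finsupp.single i (a i)),
        s ≤ m} : Set (Fin n →₀ ℕ)).ncard + (Std a d).card = (Dd n d).ncard := by
  set A : Set (Fin n →₀ ℕ) := {m | m.degree = d ∧
    ∃ s ∈ Set.range (fun i : Fin n => Finsupp.single i (a i)), s ≤ m} with hA
  have hAD : A ⊆ Dd n d := fun m hm => hm.1
  have h1 : (Dd n d \ A).ncard + A.ncard = (Dd n d).ncard :=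
    Set.ncard_sdiff_add_ncard_of_subset hAD (finite_Dd d)
  have h2 : Dd n d \ A = ((Std a d : Finset (Fin n →₀ ℕ)) : Set (Fin n →₀ ℕ)) := by
    ext m
    rw [Finset.mem_coe, mem_std]
    constructor
    · rintro ⟨hm1, hm2⟩
      refine ⟨hm1, fun i => ?_⟩
      by_contra hcon
      refine hm2 ⟨hm1, Finsupp.single i (a i), ⟨i, rfl⟩, ?_⟩
      rw [Finsupp.single_le_iff]
      omega
    · rintro ⟨hm1, hm2⟩
      refine ⟨hm1, ?_⟩
      rintro ⟨_, s, ⟨i, rfl⟩, hle⟩
      simp only at hle
      rw [Finsupp.single_le_iff] at hle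
      exact absurd (hm2 i) (by omega)
  have h3 : (Dd n d \ A).ncard = (Std a d).card := by
    rw [h2, Set.ncard_coe_finset]
  omega

end MONDIM_

theorem t_mondim : T_MONDIM.{u} := by
  intro K _ n a d
  have h1 : J (fun i => (X i : R K n) ^ a i) = Ideal.span ((fun s => (monomial s (1 : K))) ''
      (Set.range (fun i : Fin n => Finsupp.single i (a i)))) := by
    unfold J
    congr 1
    ext p
    simp only [Set.mem_range, Set.mem_image, exists_exists_eq_and, X_pow_eq_monomial]
  unfold Jd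
  rw [h1, MONDIM_.inf_eq, MONDIM_.finrank_restrict, MONDIM_.rd_eq, MONDIM_.finrank_restrict]
  exact MONDIM_.count a d

end Pool.Agent.EGU
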