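import Pool.Agent.EGU.Targets

set_option autoImplicit false
open MvPolynomial

namespace Pool.Agent.EGU

universe u

namespace NUM_

theorem card_lt (m j : ℕ) (h : j ≤ m) :
    (Finset.univ.filter (fun i : Fin m => (i : ℕ) < j)).card = j := by
  have h1 : (Finset.univ.filter (fun i : Fin m => (i : ℕ) < j)).map Fin.valEmbedding =
      Finset.range j := by
    ext x
    simp only [Finset.mem_map, Finset.mem_filter, Finset.mem_univ, true_and,
      Fin.valEmbedding_apply, Finset.mem_range]
    constructor
    · rintro ⟨i, hi, rfl⟩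
      exact hi
    · intro hx
      exact ⟨⟨x, hx.trans_le h⟩, hx, rfl⟩
  have h2 := congrArg Finset.card h1
  rwa [Finset.card_map, Finset.card_range] at h2

theorem S_zero (m : ℕ) (a : Fin m → ℕ) : S a 0 = 0 := by
  simp [S]

theorem S_succ (m : ℕ) (a : Fin m → ℕ) (j : ℕ) (h : j < m) :
    S a (j + 1) = S a j + (a ⟨j, h⟩ - 1) := by
  have h1 : Finset.univ.filter (fun i : Fin m => (i : ℕ) < j + 1) =
      insert (⟨j, h⟩ : Fin m) (Finset.univ.filter (fun i : Fin m => (i : ℕ) < j)) := by
    ext i
    simp only [Finset.mem_filter, Finset.mem_univ, true_and, Finset.mem_insert, Fin.ext_iff]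
    omega
  rw [S, h1, Finset.sum_insert (by simp), S, add_comm]

theorem S_mono (m : ℕ) (a : Fin m → ℕ) (i j : ℕ) (h : i ≤ j) : S a i ≤ S a j := by
  refine Finset.sum_le_sum_of_subset ?_
  intro x hx
  simp only [Finset.mem_filter, Finset.mem_univ, true_and] at hx ⊢
  omega

theorem S_const (m : ℕ) (a : Fin m → ℕ) (j : ℕ) (h : m ≤ j) : S a j = S a m := by
  have h1 : Finset.univ.filter (fun i : Fin m => (i : ℕ) < j) =
      Finset.univ.filter (fun i : Fin m => (i : ℕ) < m) := by
    ext i
    have := i.2
    simp only [Finset.mem_filter, Finset.mem_univ, true_and]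
    omega
  rw [S, h1, S]

theorem P_le (m : ℕ) (a : Fin m → ℕ) (x : ℕ) : P a x ≤ m := by
  have h := Finset.card_filter_le (Finset.univ : Finset (Fin m)) (fun j => S a (j + 1) ≤ x)
  rw [Finset.card_univ, Fintype.card_fin] at h
  exact h

theorem P_iff (m : ℕ) (a : Fin m → ℕ) (j x : ℕ) (h : j ≤ m) : j ≤ P a x ↔ S a j ≤ x := by
  constructor
  · intro hj
    by_contra hx
    rcases Nat.eq_zero_or_pos j with rfl | hj0
    · rw [S_zero] at hx
      omega
    · have h1 : Finset.univ.filter (fun j : Fin m => S a (j + 1) ≤ x) ⊆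
          Finset.univ.filter (fun i : Fin m => (i : ℕ) < j - 1) := by
        intro i hi
        simp only [Finset.mem_filter, Finset.mem_univ, true_and] at hi ⊢
        by_contra hi'
        have := S_mono m a j (i + 1) (by omega)
        omega
      have h2 := Finset.card_le_card h1
      rw [card_lt m (j - 1) (by omega)] at h2
      have h3 : P a x ≤ j - 1 := h2
      omega
  · intro hx
    have h1 : Finset.univ.filter (fun i : Fin m => (i : ℕ) < j) ⊆
        Finset.univ.filter (fun j : Fin m => S a (j + 1) ≤ x) := by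
      intro i hi
      simp only [Finset.mem_filter, Finset.mem_univ, true_and] at hi ⊢
      exact (S_mono m a (i + 1) j (by omega)).trans hx
    have h2 := Finset.card_le_card h1
    rw [card_lt m j h] at h2
    exact h2

theorem P_mono (m : ℕ) (a : Fin m → ℕ) : Monotone (P a) := by
  intro x y hxy
  refine Finset.card_le_card ?_
  intro i hi
  simp only [Finset.mem_filter, Finset.mem_univ, true_and] at hi ⊢
  exact hi.trans hxy

theorem S_cast (m : ℕ) (a : Fin m → ℕ) (k : ℕ) (hk : k ≤ m) (j : ℕ) (hj : j ≤ k) :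
    S (a ∘ Fin.castLE hk) j = S a j := by
  induction j with
  | zero => rw [S_zero, S_zero]
  | succ j ih =>
    rw [S_succ k _ j (by omega), S_succ m a j (by omega), ih (by omega)]
    rfl

end NUM_

open NUM_ in
theorem t_num : T_NUM := by
  intro m a
  refine ⟨S_zero m a, S_succ m a, S_mono m a, S_const m a, P_le m a, P_iff m a, P_mono m a,
    S_cast m a, ?_⟩
  intro k hk x
  have key : ∀ j, j ≤ k → (j ≤ P (a ∘ Fin.castLE hk) x ↔ j ≤ P a x) := by
    intro j hj
    rw [P_iff k _ j x hj, P_iff m a j x (hj.trans hk), S_cast m a k hk j hj]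
  have h1 := P_le k (a ∘ Fin.castLE hk) x
  apply le_antisymm
  · exact le_min h1 ((key _ h1).mp le_rfl)
  · exact (key _ (min_le_left _ _)).mpr (min_le_right _ _)

end Pool.Agent.EGU
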