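import Pool.Agent.EGU.Targets

set_option autoImplicit false
open MvPolynomial

/-!
# EGU: proof of T_NZD, independent linear forms: nonzerodivisor modulo the others
-/

namespace Pool.Agent.EGU

universe u

namespace NZD_

variable {K : Type u} [Field K] {n s : ℕ}

/-- An endomorphism which kills the forms `l t`, `t ∈ U`, is the identity modulo them, and does
not kill a linear form outside their span. -/
lemma exists_endo (A : Set (R K n)) (hA : A ⊆ Rd K n 1) :
    ∃ ψ : R K n →ₐ[K] R K n, (∀ x ∈ A, ψ x = 0) ∧ (∀ p, p - ψ p ∈ Ideal.span A) ∧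
      ∀ x ∈ Rd K n 1, x ∉ Submodule.span K A → ψ x ≠ 0 := by
  obtain ⟨Q, hQ⟩ := Submodule.exists_isCompl (Submodule.span K A)
  set S := Submodule.span K A with hS
  let π : R K n →ₗ[K] R K n := Q.subtype ∘ₗ Q.projectionOnto S hQ.symm
  have hπ0 : ∀ x, π x = 0 ↔ x ∈ S := by
    intro x
    have h := Submodule.projectionOnto_apply_eq_zero_iff hQ.symm (x := x)
    rw [← h]
    simp [π]
  have hππ : ∀ x, π (π x) = π x := by
    intro x
    have h := Submodule.projectionOnto_apply_left hQ.symm (Q.projectionOnto S hQ.symm x)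
    simp only [π, LinearMap.comp_apply, Submodule.subtype_apply]
    rw [h]
  have hsub : ∀ x, x - π x ∈ S := by
    intro x
    rw [← hπ0, map_sub, hππ, sub_self]
  let ψ : R K n →ₐ[K] R K n := MvPolynomial.aeval (fun i => π (X i))
  have hagree : ∀ x ∈ Rd K n 1, ψ x = π x := by
    intro x hx
    have hx' : x ∈ Submodule.span K (Set.range (X : Fin n → R K n)) := by
      rw [← MvPolynomial.homogeneousSubmodule_one_eq_span_X]
      exact hx
    have h := LinearMap.eqOn_span (f := ψ.toLinearMap) (g := π)
      (s := Set.range (X : Fin n → R K n)) (by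
        rintro _ ⟨i, rfl⟩
        simp [ψ])
    exact h hx'
  have hSI : S ≤ (Ideal.span A).restrictScalars K :=
    Submodule.span_le.mpr fun x hx => Ideal.subset_span hx
  refine ⟨ψ, ?_, ?_, ?_⟩
  · intro x hx
    rw [hagree x (hA hx), hπ0]
    exact Submodule.subset_span hx
  · intro p
    induction p using MvPolynomial.induction_on with
    | C a => simp [ψ]
    | add p q hp hq =>
      rw [map_add, add_sub_add_comm]
      exact Ideal.add_mem _ hp hq
    | mul_X p i hp =>
      have e : p * X i - ψ (p * X i) = (p - ψ p) * X i + ψ p * (X i - π (X i)) := by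
        rw [map_mul]
        have : ψ (X i) = π (X i) := by simp [ψ]
        rw [this]
        ring
      rw [e]
      refine Ideal.add_mem _ (Ideal.mul_mem_right _ _ hp) (Ideal.mul_mem_left _ _ ?_)
      exact hSI (hsub (X i))
  · intro x hx hxS h0
    rw [hagree x hx, hπ0] at h0
    exact hxS h0

end NZD_

open NZD_

theorem t_nzd : T_NZD.{u} := by
  intro K _ n s l hl U t0 ht0 hind p hp
  have hA : l '' (U : Set (Fin s)) ⊆ (Rd K n 1 : Set (R K n)) := by
    rintro _ ⟨t, _, rfl⟩
    exact hl t
  obtain ⟨ψ, h1, h2, h3⟩ := exists_endo (l '' (U : Set (Fin s))) hA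
  have hnot : l t0 ∉ Submodule.span K (l '' (U : Set (Fin s))) := by
    rw [Finset.coe_insert] at hind
    exact ((linearIndepOn_insert (by exact_mod_cast ht0)).mp hind).2
  have hker : ∀ x ∈ Ideal.span (l '' (U : Set (Fin s))), ψ x = 0 := by
    intro x hx
    have hle : Ideal.span (l '' (U : Set (Fin s))) ≤ RingHom.ker ψ.toRingHom :=
      Ideal.span_le.mpr fun y hy => by
        have := h1 y hy
        simpa [RingHom.mem_ker] using this
    have := hle hx
    simpa [RingHom.mem_ker] using this
  have h0 := hker _ hp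
  rw [map_mul] at h0
  have hψp : ψ p = 0 := by
    rcases mul_eq_zero.mp h0 with h | h
    · exact h
    · exact absurd h (h3 (l t0) (hl t0) hnot)
  have := h2 p
  rwa [hψp, sub_zero] at this

end Pool.Agent.EGU
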