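import Pool.Agent.EGU.Targets

set_option autoImplicit false

open MvPolynomial

namespace Pool.Agent.EGU

universe u

namespace PENC_

variable {K : Type u} [Field K] {w : ℕ}
variable {A B C : Type u} [AddCommGroup A] [Module K A] [AddCommGroup B] [Module K B]
  [AddCommGroup C] [Module K C]

/-- The shifted multi-index. -/
def dl (γ : Fin (w + 1 + 1) → ℕ) : Fin (w + 1) → ℕ := fun k => γ k.succ + if k = 0 then γ 0 else 0

/-- The boundary. -/
def bd {m : ℕ} (D : Fin m → (A →ₗ[K] B)) (Φ : (Fin m → ℕ) → A) (β : Fin m → ℕ) : B :=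
  ∑ k, D k (Φ (β + Pi.single k 1))

/-- The map `α`. -/
def al (y : K) (Φ : (Fin (w + 1 + 1) → ℕ) → A) (β : Fin (w + 1 + 1) → ℕ) : A :=
  Φ (β + Pi.single 0 1) + y • Φ (β + Pi.single (Fin.succ 0) 1)

/-- The extension. -/
def ex (y : K) (Φ : (Fin (w + 1) → ℕ) → A) (γ : Fin (w + 1 + 1) → ℕ) : A :=
  (-y) ^ (γ 0) • Φ (dl γ)

/-- The operators of the pencil. -/
def EE (y : K) (D : Fin (w + 1 + 1) → (A →ₗ[K] B)) : Fin (w + 1) → (A →ₗ[K] B) :=
  fun k => D k.succ - (if k = 0 then y else 0) • D 0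

theorem at0 (γ : Fin (w + 1 + 1) → ℕ) :
    (γ + Pi.single 0 1 : Fin (w + 1 + 1) → ℕ) 0 = γ 0 + 1 := by
  simp

theorem atS (γ : Fin (w + 1 + 1) → ℕ) (k : Fin (w + 1)) :
    (γ + Pi.single k.succ 1 : Fin (w + 1 + 1) → ℕ) 0 = γ 0 := by
  simp [(Fin.succ_ne_zero k).symm]

theorem dl0 (γ : Fin (w + 1 + 1) → ℕ) : dl (γ + Pi.single 0 1) = dl γ + Pi.single 0 1 := by
  funext k
  simp only [dl, Pi.add_apply, Pi.single_apply, if_true]
  have h : ¬ (k.succ = (0 : Fin (w + 1 + 1))) := Fin.succ_ne_zero k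
  rw [if_neg h]
  split_ifs <;> ring

theorem dlS (γ : Fin (w + 1 + 1) → ℕ) (k : Fin (w + 1)) :
    dl (γ + Pi.single k.succ 1) = dl γ + Pi.single k 1 := by
  funext l
  simp only [dl, Pi.add_apply, Pi.single_apply, Fin.succ_inj]
  have h : ¬ ((0 : Fin (w + 1 + 1)) = k.succ) := (Fin.succ_ne_zero k).symm
  rw [if_neg h]
  split_ifs <;> ring

theorem sum_dl (γ : Fin (w + 1 + 1) → ℕ) : ∑ k, dl γ k = ∑ k, γ k := by
  rw [Fin.sum_univ_succ (f := γ)]
  simp only [dl, Finset.sum_add_distrib, Finset.sum_ite_eq', Finset.mem_univ, if_true]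
  ring

theorem dl_cons (δ : Fin (w + 1) → ℕ) : dl (Fin.cons 0 δ : Fin (w + 1 + 1) → ℕ) = δ := by
  funext k
  simp [dl]

theorem sum_single {m : ℕ} (γ : Fin m → ℕ) (k : Fin m) :
    ∑ l, (γ + Pi.single k 1 : Fin m → ℕ) l = ∑ l, γ l + 1 := by
  simp only [Pi.add_apply, Finset.sum_add_distrib, Finset.sum_pi_single', Finset.mem_univ,
    if_true]

theorem EE_apply (y : K) (D : Fin (w + 1 + 1) → (A →ₗ[K] B)) (k : Fin (w + 1)) (x : A) :
    EE y D k x = D k.succ x - if k = 0 then y • D 0 x else 0 := by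
  unfold EE
  split_ifs with h
  · simp
  · simp

theorem bd_ex (y : K) (D : Fin (w + 1 + 1) → (A →ₗ[K] B)) (Φ : (Fin (w + 1) → ℕ) → A)
    (γ : Fin (w + 1 + 1) → ℕ) : bd D (ex y Φ) γ = ex y (bd (EE y D) Φ) γ := by
  unfold bd ex
  rw [Fin.sum_univ_succ]
  simp only [EE_apply, at0, atS, dl0, dlS, map_smul, Finset.sum_sub_distrib,
    Finset.sum_ite_eq', Finset.mem_univ, if_true, smul_sub, Finset.smul_sum]
  rw [pow_succ, mul_smul, neg_smul, smul_neg]
  abel

theorem al_ex (y : K) (Φ : (Fin (w + 1) → ℕ) → A) (γ : Fin (w + 1 + 1) → ℕ) :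
    al y (ex y Φ) γ = 0 := by
  unfold al ex
  rw [at0, atS, dl0, dlS, pow_succ, smul_smul, ← add_smul]
  have : (-y) ^ γ 0 * -y + y * (-y) ^ γ 0 = 0 := by ring
  rw [this, zero_smul]

theorem al_bd (y : K) (D : Fin (w + 1 + 1) → (A →ₗ[K] B)) (Φ : (Fin (w + 1 + 1) → ℕ) → A)
    (β : Fin (w + 1 + 1) → ℕ) : al y (bd D Φ) β = bd D (al y Φ) β := by
  unfold al bd
  simp only [map_add, map_smul, Finset.sum_add_distrib, Finset.smul_sum]
  congr 1
  · refine Finset.sum_congr rfl fun k _ => ?_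
    rw [add_right_comm]
  · refine Finset.sum_congr rfl fun k _ => ?_
    rw [add_right_comm]

theorem bd_add {m : ℕ} (D : Fin m → (A →ₗ[K] B)) (Φ Ψ : (Fin m → ℕ) → A) (β : Fin m → ℕ) :
    bd D (fun γ => Φ γ + Ψ γ) β = bd D Φ β + bd D Ψ β := by
  unfold bd
  simp only [map_add, Finset.sum_add_distrib]

theorem bd_sub {m : ℕ} (D : Fin m → (A →ₗ[K] B)) (Φ Ψ : (Fin m → ℕ) → A) (β : Fin m → ℕ) :
    bd D (fun γ => Φ γ - Ψ γ) β = bd D Φ β - bd D Ψ β := by
  unfold bd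
  simp only [map_sub, Finset.sum_sub_distrib]

theorem al_sub (y : K) (Φ Ψ : (Fin (w + 1 + 1) → ℕ) → A) (β : Fin (w + 1 + 1) → ℕ) :
    al y (fun γ => Φ γ - Ψ γ) β = al y Φ β - al y Ψ β := by
  simp only [al, smul_sub]
  abel

theorem conv (y : K) (e : ℕ) (Φ : (Fin (w + 1 + 1) → ℕ) → A)
    (h : ∀ β : Fin (w + 1 + 1) → ℕ, ∑ k, β k + 1 = e → al y Φ β = 0) :
    ∀ (m : ℕ) (γ : Fin (w + 1 + 1) → ℕ), γ 0 = m → ∑ k, γ k = e →
      Φ γ = (-y) ^ m • Φ (Fin.cons 0 (dl γ)) := by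
  intro m
  induction m with
  | zero =>
    intro γ h0 he
    have : (Fin.cons 0 (dl γ) : Fin (w + 1 + 1) → ℕ) = γ := by
      funext k
      refine Fin.cases ?_ (fun l => ?_) k
      · simp [h0]
      · simp [dl, h0]
    rw [this, pow_zero, one_smul]
  | succ m ih =>
    intro γ h0 he
    obtain ⟨β, hβ⟩ : ∃ β : Fin (w + 1 + 1) → ℕ, γ = β + Pi.single 0 1 := by
      refine ⟨fun k => γ k - if k = 0 then 1 else 0, ?_⟩
      funext k
      simp only [Pi.add_apply, Pi.single_apply]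
      split_ifs with hk
      · subst hk
        omega
      · omega
    have hm : β 0 = m := by
      have := h0
      rw [hβ, at0] at this
      omega
    have hs : ∑ k, β k + 1 = e := by rw [← sum_single β 0, ← hβ, he]
    have h1 := h β hs
    have h2 := ih (β + Pi.single (Fin.succ 0) 1) (by rw [atS, hm])
      (by rw [sum_single, hs])
    unfold al at h1
    rw [h2, dlS] at h1
    rw [hβ, dl0, pow_succ, mul_smul]
    have h3 : Φ (β + Pi.single 0 1) = -(y • (-y) ^ m • Φ (Fin.cons 0 (dl β + Pi.single 0 1))) :=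
      eq_neg_of_add_eq_zero_left h1
    rw [h3, neg_smul, smul_neg, smul_smul, smul_smul, mul_comm]

/-- Auxiliary recursion for the surjectivity of `α`. -/
def sr (y : K) (Ψ : (Fin (w + 1 + 1) → ℕ) → A) : ℕ → (Fin (w + 1) → ℕ) → A
  | 0, _ => 0
  | (m + 1), δ => Ψ (Fin.cons m δ) - y • sr y Ψ m (δ + Pi.single 0 1)

theorem surj (y : K) (Ψ : (Fin (w + 1 + 1) → ℕ) → A) :
    ∃ Φ : (Fin (w + 1 + 1) → ℕ) → A, ∀ β, al y Φ β = Ψ β := by
  refine ⟨fun γ => sr y Ψ (γ 0) (Fin.tail γ), fun β => ?_⟩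
  unfold al
  have h1 : Fin.tail (β + Pi.single 0 1) = Fin.tail β := by
    funext k
    simp [Fin.tail]
  have h2 : Fin.tail (β + Pi.single (Fin.succ 0) 1) = Fin.tail β + Pi.single 0 1 := by
    funext k
    simp only [Fin.tail, Pi.add_apply, Pi.single_apply, Fin.succ_inj]
  simp only [at0, atS, h1, h2]
  simp only [sr]
  rw [sub_add_cancel, Fin.cons_self_tail]

theorem bd_bd {m : ℕ} (D : Fin m → (A →ₗ[K] B)) (D' : Fin m → (B →ₗ[K] C))
    (h : ∀ (p : Fin m → K) (x : A), ∑ k, p k • D' k (∑ k, p k • D k x) = 0)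
    (Φ : (Fin m → ℕ) → A) (β : Fin m → ℕ) : bd D' (bd D Φ) β = 0 := by
  classical
  have h1 : ∀ k x, D' k (D k x) = 0 := by
    intro k x
    have := h (Pi.single k 1) x
    simpa [Pi.single_apply, ite_smul] using this
  have h2 : ∀ k l x, D' k (D l x) + D' l (D k x) = 0 := by
    intro k l x
    have := h (Pi.single k 1 + Pi.single l 1) x
    simp only [Pi.add_apply, Pi.single_apply, add_smul, ite_smul, one_smul, zero_smul,
      Finset.sum_add_distrib, Finset.sum_ite_eq', Finset.mem_univ, if_true, map_add, h1] at this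
    simpa [add_comm] using this
  unfold bd
  simp only [map_sum]
  rw [← Finset.sum_product']
  refine Finset.sum_involution (fun a _ => (a.2, a.1)) ?_ ?_ ?_ ?_
  · intro a _
    have := h2 a.1 a.2 (Φ (β + Pi.single a.1 1 + Pi.single a.2 1))
    rw [add_right_comm] at this
    rw [add_right_comm β (Pi.single a.2 1)]
    simpa [add_right_comm] using this
  · intro a _ ha hb
    apply ha
    have : a.2 = a.1 := by
      have := congrArg Prod.fst hb
      simpa using this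
    rw [this, h1]
  · intro a _
    simp
  · intro a _
    simp

theorem sumEE (y : K) (D : Fin (w + 1 + 1) → (A →ₗ[K] B)) (q : Fin (w + 1) → K) (x : A) :
    ∑ k, q k • EE y D k x = ∑ k, (Fin.cons (-(y * q 0)) q : Fin (w + 1 + 1) → K) k • D k x := by
  rw [Fin.sum_univ_succ (n := w + 1)]
  simp only [EE_apply, smul_sub, Finset.sum_sub_distrib, smul_ite, smul_zero,
    Finset.sum_ite_eq', Finset.mem_univ, if_true, Fin.cons_zero, Fin.cons_succ]
  rw [smul_smul, mul_comm, neg_smul]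
  abel

theorem sys {V : ℕ → Type u} [∀ i, AddCommGroup (V i)] [∀ i, Module K (V i)] {j : ℕ}
    {D : ∀ i, Fin (w + 1 + 1) → (V i →ₗ[K] V (i + 1))} (h : Sys K V (w + 1 + 1) j D) (y : K) :
    Sys K V (w + 1) j (fun i => EE y (D i)) := by
  refine ⟨h.zero, fun p i x => ?_, fun p hp i hi x hx => ?_⟩
  · rw [sumEE, sumEE]
    exact h.sq _ i x
  · rw [sumEE] at hx
    have hne : (Fin.cons (-(y * p 0)) p : Fin (w + 1 + 1) → K) ≠ 0 := by
      intro h0
      apply hp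
      funext k
      have := congrFun h0 k.succ
      simpa using this
    obtain ⟨z, hz⟩ := h.ex _ hne i hi x hx
    exact ⟨z, by rw [sumEE]; exact hz⟩

end PENC_

open PENC_ in
theorem t_penc : T_PENC.{u} := by
  intro K _ v hv hL V _ _ _ j D hS i hij y z1 hz1
  obtain ⟨w, rfl⟩ : ∃ w, v = w + 1 := ⟨v - 1, by omega⟩
  have hz : z1 = Fin.succ 0 := Fin.ext (by rw [hz1]; rfl)
  subst hz
  have hE := sys hS y
  refine ⟨fun Φ hc hb => ?_, fun Ψ hc => ?_⟩
  · obtain ⟨Ψ, hΨ⟩ := hb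
    obtain ⟨Ψ', hΨ'⟩ := surj y Ψ
    have hfun : al y Ψ' = Ψ := funext hΨ'
    -- the difference
    have h0 : ∀ β : Fin (w + 1 + 1) → ℕ, ∑ k, β k + 1 = 2 →
        al y (fun γ => Φ γ - bd (D i) Ψ' γ) β = 0 := by
      intro β hβ
      rw [al_sub, al_bd, hfun]
      exact sub_eq_zero.2 (hΨ β (by omega))
    have h1 := conv y 2 _ h0
    have hcyc : Cyc (EE y (D (i + 1))) 2
        (fun δ => Φ (Fin.cons 0 δ) - bd (D i) Ψ' (Fin.cons 0 δ)) := by
      intro β hβ
      have e1 : bd (D (i + 1)) (fun γ => Φ γ - bd (D i) Ψ' γ) (Fin.cons 0 β) = 0 := by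
        rw [bd_sub, bd_bd (D i) (D (i + 1)) (fun p x => hS.sq p i x), sub_zero]
        exact hc _ (by rw [Fin.sum_univ_succ]; simpa using hβ)
      have e2 : bd (D (i + 1)) (fun γ => Φ γ - bd (D i) Ψ' γ) (Fin.cons 0 β) =
          bd (D (i + 1)) (ex y (fun δ => Φ (Fin.cons 0 δ) - bd (D i) Ψ' (Fin.cons 0 δ)))
            (Fin.cons 0 β) := by
        unfold bd
        refine Finset.sum_congr rfl fun k _ => ?_
        congr 1
        exact h1 _ _ rfl (by
          rw [sum_single, Fin.sum_univ_succ]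
          simpa using hβ)
      rw [e2, bd_ex] at e1
      unfold ex at e1
      rw [dl_cons, Fin.cons_zero, pow_zero, one_smul] at e1
      exact e1
    obtain ⟨Θ, hΘ⟩ := hL V j (fun i => EE y (D i)) hE i (by omega) 2 (Or.inr rfl) _ hcyc
    refine ⟨fun γ => Ψ' γ + ex y Θ γ, fun γ hγ => ?_⟩
    have e3 := h1 _ γ rfl hγ
    have e4 := hΘ (dl γ) (by rw [sum_dl, hγ])
    have e5 : bd (D i) (ex y Θ) γ = (-y) ^ (γ 0) • bd (EE y (D i)) Θ (dl γ) := bd_ex y (D i) Θ γ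
    change Φ γ = bd (D i) (fun γ => Ψ' γ + ex y Θ γ) γ
    rw [bd_add, e5]
    change _ = bd (EE y (D i)) Θ (dl γ) at e4
    rw [← e4]
    have e6 : Φ γ = bd (D i) Ψ' γ + (Φ γ - bd (D i) Ψ' γ) := by abel
    rw [e6]
    congr 1
  · obtain ⟨Φ0, hΦ0⟩ := surj y Ψ
    have hfun : al y Φ0 = Ψ := funext hΦ0
    have h0 : ∀ β : Fin (w + 1 + 1) → ℕ, ∑ k, β k + 1 = 1 →
        al y (bd (D (i + 1)) Φ0) β = 0 := by
      intro β hβ
      rw [al_bd, hfun]
      exact hc β hβ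
    have h1 := conv y 1 _ h0
    have hcyc : Cyc (EE y (D (i + 1 + 1))) 1 (fun δ => bd (D (i + 1)) Φ0 (Fin.cons 0 δ)) := by
      intro β hβ
      have e1 : bd (D (i + 1 + 1)) (bd (D (i + 1)) Φ0) (Fin.cons 0 β) = 0 :=
        bd_bd (D (i + 1)) (D (i + 1 + 1)) (fun p x => hS.sq p (i + 1) x) Φ0 _
      have e2 : bd (D (i + 1 + 1)) (bd (D (i + 1)) Φ0) (Fin.cons 0 β) =
          bd (D (i + 1 + 1)) (ex y (fun δ => bd (D (i + 1)) Φ0 (Fin.cons 0 δ)))
            (Fin.cons 0 β) := by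
        unfold bd
        refine Finset.sum_congr rfl fun k _ => ?_
        congr 1
        exact h1 _ _ rfl (by
          rw [sum_single, Fin.sum_univ_succ]
          simpa using hβ)
      rw [e2, bd_ex] at e1
      unfold ex at e1
      rw [dl_cons, Fin.cons_zero, pow_zero, one_smul] at e1
      exact e1
    obtain ⟨Θ, hΘ⟩ := hL V j (fun i => EE y (D i)) hE (i + 1) (by omega) 1 (Or.inl rfl) _ hcyc
    refine ⟨fun γ => Φ0 γ - ex y Θ γ, fun β hβ => ?_, fun β _ => ?_⟩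
    · change bd (D (i + 1)) (fun γ => Φ0 γ - ex y Θ γ) β = 0
      have hs : ∑ k, β k = 1 := by omega
      have e3 := h1 _ β rfl hs
      have e4 := hΘ (dl β) (by rw [sum_dl, hs])
      have e5 : bd (D (i + 1)) (ex y Θ) β =
          (-y) ^ (β 0) • bd (EE y (D (i + 1))) Θ (dl β) := bd_ex y (D (i + 1)) Θ β
      change _ = bd (EE y (D (i + 1))) Θ (dl β) at e4
      rw [bd_sub, e5, ← e4, ← e3, sub_self]
    · have e6 : al y (fun γ => Φ0 γ - ex y Θ γ) β = Ψ β := by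
        rw [al_sub, al_ex, sub_zero, hfun]
      exact e6

end Pool.Agent.EGU
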