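import Pool.Agent.EGU.Targets

set_option autoImplicit false
open MvPolynomial

/-!
The perfect pairing of a complete intersection: `T_PERF`.
-/

namespace Pool.Agent.EGU

universe u

namespace PERF_

variable {K : Type u} [Field K] {n : ℕ}

lemma fin_of_le (hD : T_DIMR.{u}) {d : ℕ} {U : Submodule K (R K n)} (hU : U ≤ Rd K n d) :
    Module.Finite K U := by
  have := (hD K n d).1
  exact Submodule.finiteDimensional_of_le hU

lemma claim (hS : T_SOC.{u}) {f : Fin n → R K n} {a : Fin n → ℕ} (hf : CI f a)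
    (ha : Monotone a) :
    ∀ (e e' : ℕ), e + e' = S a n → ∀ q ∈ Rd K n e',
      (∀ w ∈ Rd K n e, q * w ∈ J f) → q ∈ J f := by
  intro e
  induction e with
  | zero =>
    intro e' _ q _ h
    have h1 : (1 : R K n) ∈ Rd K n 0 :=
      (mem_homogeneousSubmodule _ _).2 (isHomogeneous_one _ _)
    have := h 1 h1
    rwa [mul_one] at this
  | succ e ih =>
    intro e' he q hq h
    refine hS K n f a hf ha e' q hq (by omega) fun k => ?_
    refine ih (e' + 1) (by omega) _ ?_ fun w hw => ?_
    · rw [mem_homogeneousSubmodule] at hq ⊢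
      have := (isHomogeneous_X K k).mul hq
      rwa [add_comm] at this
    · have h2 : X k * w ∈ Rd K n (e + 1) := by
        rw [mem_homogeneousSubmodule] at hw ⊢
        have := (isHomogeneous_X K k).mul hw
        rwa [add_comm] at this
      have h3 := h _ h2
      have h4 : X k * q * w = q * (X k * w) := by ring
      rw [h4]
      exact h3

lemma functional (hD : T_DIMR.{u}) (hF : T_HF.{u}) (hN : T_STD) {f : Fin n → R K n}
    {a : Fin n → ℕ} (hf : CI f a) {s : ℕ} (hs : s = S a n) :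
    ∃ φ : R K n →ₗ[K] K, ∀ p ∈ Rd K n s, φ p = 0 ↔ p ∈ J f := by
  have h1 : Module.finrank K (Jd f s) + 1 = Module.finrank K (Rd K n s) := by
    have h2 := hF K n f a hf s
    rw [hs] at h2 ⊢
    rw [(hN n a hf.pos).2.2.1] at h2
    exact h2
  have := (hD K n s).1
  have hle : Jd f s ≤ Rd K n s := inf_le_left
  obtain ⟨p0, hp0, hp0'⟩ : ∃ p ∈ Rd K n s, p ∉ Jd f s := by
    by_contra hcon
    push Not at hcon
    have h2 : Rd K n s ≤ Jd f s := hcon
    have h3 : Module.finrank K (Rd K n s) = Module.finrank K (Jd f s) := by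
      rw [le_antisymm h2 hle]
    omega
  obtain ⟨φ, hφ, hφ'⟩ := Submodule.exists_dual_map_eq_bot_of_notMem (R := K) hp0' inferInstance
  have hφJ : ∀ p ∈ Jd f s, φ p = 0 := by
    intro p hp
    have h2 : φ p ∈ Submodule.map φ (Jd f s) := Submodule.mem_map_of_mem hp
    rw [hφ'] at h2
    exact (Submodule.mem_bot K).1 h2
  have hsup : Jd f s ⊔ Submodule.span K {p0} = Rd K n s := by
    have h2 : Jd f s ⊔ Submodule.span K {p0} ≤ Rd K n s := by
      refine sup_le hle ?_
      rw [Submodule.span_singleton_le_iff_mem]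
      exact hp0
    refine Submodule.eq_of_le_of_finrank_le h2 ?_
    have := fin_of_le hD h2
    have h3 : Jd f s < Jd f s ⊔ Submodule.span K {p0} := by
      refine lt_of_le_of_ne le_sup_left fun h => hp0' ?_
      rw [h]
      exact Submodule.mem_sup_right (Submodule.mem_span_singleton_self p0)
    have h4 := Submodule.finrank_lt_finrank_of_lt h3
    omega
  refine ⟨φ, fun p hp => ⟨fun h => ?_, fun h => hφJ p ⟨hp, h⟩⟩⟩
  rw [← hsup] at hp
  obtain ⟨j, hj, y, hy, rfl⟩ := Submodule.mem_sup.1 hp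
  obtain ⟨c, rfl⟩ := Submodule.mem_span_singleton.1 hy
  rw [map_add, hφJ j hj, zero_add, map_smul, smul_eq_mul, mul_eq_zero] at h
  rcases h with h | h
  · rw [h, zero_smul, add_zero]
    exact hj.2
  · exact absurd h hφ

lemma step (hD : T_DIMR.{u}) {f : Fin n → R K n} {e e' : ℕ} (φ : R K n →ₗ[K] K)
    (hφ : ∀ p ∈ Rd K n (e + e'), φ p = 0 ↔ p ∈ J f) (U1 U2 : Submodule K (R K n))
    (h12 : U1 ≤ U2) (h2 : U2 ≤ Rd K n e) :
    Module.finrank K (orth f e' U1) + Module.finrank K U1 ≤
      Module.finrank K (orth f e' U2) + Module.finrank K U2 := by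
  obtain ⟨C', hC'⟩ := Submodule.exists_isCompl U1
  set C : Submodule K (R K n) := C' ⊓ U2 with hC
  have hsup : U1 ⊔ C = U2 := by
    rw [hC, ← sup_inf_assoc_of_le C' h12, hC'.sup_eq_top, top_inf_eq]
  have hinf : U1 ⊓ C = ⊥ := by
    rw [hC, ← inf_assoc, hC'.inf_eq_bot, bot_inf_eq]
  have f1 := fin_of_le hD (h12.trans h2)
  have f2 : Module.Finite K C := fin_of_le hD ((inf_le_right : C' ⊓ U2 ≤ U2).trans h2)
  have hdim : Module.finrank K U2 = Module.finrank K U1 + Module.finrank K C := by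
    have h3 := Submodule.finrank_sup_add_finrank_inf_eq U1 C
    rw [hsup, hinf, finrank_bot, add_zero] at h3
    exact h3
  have ho1 : orth f e' U1 ≤ Rd K n e' := fun h hh => hh.1
  have ho2 : orth f e' U2 ≤ Rd K n e' := fun h hh => hh.1
  have f3 := fin_of_le hD ho1
  have f4 := fin_of_le hD ho2
  let B : orth f e' U1 →ₗ[K] C →ₗ[K] K :=
    ((LinearMap.mul K (R K n)).compr₂ φ).domRestrict₁₂ (orth f e' U1) C
  have hB : ∀ (h : orth f e' U1) (c : C), B h c = φ ((h : R K n) * (c : R K n)) :=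
    fun _ _ => rfl
  have hker : Module.finrank K (LinearMap.ker B) ≤ Module.finrank K (orth f e' U2) := by
    rw [← Submodule.finrank_map_subtype_eq]
    refine Submodule.finrank_mono ?_
    rintro h ⟨⟨h', hh'⟩, hk, rfl⟩
    refine ⟨hh'.1, fun w hw => ?_⟩
    rw [← hsup] at hw
    obtain ⟨w1, hw1, c, hc, rfl⟩ := Submodule.mem_sup.1 hw
    rw [mul_add]
    refine Ideal.add_mem _ (hh'.2 w1 hw1) ?_
    have hk' : B ⟨h', hh'⟩ = 0 := LinearMap.mem_ker.1 hk
    have h5 : φ (h' * c) = 0 := by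
      have h6 := hB ⟨h', hh'⟩ ⟨c, hc⟩
      rw [hk'] at h6
      exact h6.symm
    refine (hφ _ ?_).1 h5
    have h7 := h2 (Submodule.mem_inf.1 hc).2
    have h8 := hh'.1
    rw [mem_homogeneousSubmodule] at h7 h8 ⊢
    have h9 := h7.mul h8
    rwa [mul_comm] at h9
  have hrange : Module.finrank K (LinearMap.range B) ≤ Module.finrank K C := by
    have h3 := Submodule.finrank_le (LinearMap.range B)
    have h4 : Module.finrank K (C →ₗ[K] K) = Module.finrank K C := Subspace.dual_finrank_eq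
    omega
  have hrn := LinearMap.finrank_range_add_finrank_ker B
  omega

end PERF_

open PERF_ in
theorem t_perf (h_SOC : T_SOC.{u}) (h_HF : T_HF.{u}) (h_STD : T_STD) (h_DIMR : T_DIMR.{u}) :
    T_PERF.{u} := by
  intro K _ n f a hf ha e e' he U hJU hU
  obtain ⟨φ, hφ⟩ := functional h_DIMR h_HF h_STD hf (s := e + e') he
  have h1 := step h_DIMR φ hφ (Jd f e) U hJU hU
  have h2 := step h_DIMR φ hφ U (Rd K n e) hU le_rfl
  have h3 : orth f e' (Jd f e) = Rd K n e' := by
    apply le_antisymm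
    · exact fun h hh => hh.1
    · exact fun h hh => ⟨hh, fun w hw => Ideal.mul_mem_left _ _ hw.2⟩
  have h4 : orth f e' (Rd K n e) = Jd f e' := by
    apply le_antisymm
    · intro h hh
      exact ⟨hh.1, claim h_SOC hf ha e e' he h hh.1 hh.2⟩
    · intro h hh
      exact ⟨hh.1, fun w _ => Ideal.mul_mem_right _ _ hh.2⟩
  rw [h3] at h1
  rw [h4] at h2
  have h5 := h_HF K n f a hf e
  have h6 := h_HF K n f a hf e'
  have h7 := (h_STD n a hf.pos).1 e e' he
  omega

end Pool.Agent.EGU
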