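import Pool.Agent.EGU.Targets

set_option autoImplicit false
open MvPolynomial

/-!
Translation of the regular sequences of Mathlib: `T_REG`.
-/

namespace Pool.Agent.EGU

universe u

namespace REG_

theorem ofList_take {A : Type u} [CommRing A] {n : ℕ} (f : Fin n → A) (j : Fin n) :
    Ideal.ofList ((List.ofFn f).take j) = Ideal.span (f '' {i | i < j}) := by
  unfold Ideal.ofList
  congr 1
  ext x
  simp only [Set.mem_ofPred_eq, Set.mem_image, List.mem_take_iff_getElem, List.length_ofFn,
    List.getElem_ofFn]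
  constructor
  · rintro ⟨k, hk, rfl⟩
    exact ⟨⟨k, lt_of_lt_of_le hk (min_le_right _ _)⟩,
      Fin.lt_def.mpr (lt_of_lt_of_le hk (min_le_left _ _)), rfl⟩
  · rintro ⟨i, hi, rfl⟩
    exact ⟨i, lt_min (Fin.lt_def.mp hi) i.2, rfl⟩

end REG_

open REG_ in
theorem t_reg : T_REG.{u} := by
  intro K _ n f a ha hf hreg
  have hw := hreg.toIsWeaklyRegular
  rw [RingTheory.Sequence.isWeaklyRegular_iff_Fin] at hw
  have hlen : (List.ofFn f).length = n := List.length_ofFn
  have key : ∀ (i : Fin n) (p : R K n), p * f i ∈ Ideal.ofList ((List.ofFn f).take i) →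
      p ∈ Ideal.ofList ((List.ofFn f).take i) := by
    intro i p hp
    have h1 := hw ⟨i, by rw [hlen]; exact i.2⟩
    rw [isSMulRegular_quotient_iff_mem_of_smul_mem] at h1
    have h2 := h1 p
    simp only [smul_eq_mul, Ideal.mul_top, Fin.getElem_fin, List.getElem_ofFn] at h2
    refine h2 ?_
    rw [mul_comm]
    exact hp
  refine ⟨ha, hf, ?_⟩
  intro j p hp
  have h := key j p
  rw [ofList_take] at h
  exact h hp

end Pool.Agent.EGU
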