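import Pool.Agent.EGU.Targets

set_option autoImplicit false
open MvPolynomial

/-!
Removing the last unit; the shadow of an initial segment (project EGU, MP_e5dae2_al).
-/

namespace Pool.Agent.EGU

universe u

namespace SEGB_

variable {n : ℕ}

lemma lexgt_trans {x y z : Fin n →₀ ℕ} (h1 : lexgt x y) (h2 : lexgt y z) : lexgt x z := by
  obtain ⟨j, hj, hj'⟩ := h1
  obtain ⟨i, hi, hi'⟩ := h2
  rcases lt_trichotomy i j with h | h | h
  · refine ⟨i, fun k hk => ?_, ?_⟩
    · rw [hi k hk, hj k (hk.trans h)]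
    · rw [← hj i h]; exact hi'
  · subst h
    exact ⟨i, fun k hk => by rw [hi k hk, hj k hk], hi'.trans hj'⟩
  · refine ⟨j, fun k hk => ?_, ?_⟩
    · rw [hi k (hk.trans h), hj k hk]
    · rw [hi j h]; exact hj'

/-- The last coordinate which is not zero. -/
lemma exists_last (x : Fin n →₀ ℕ) (hx : x ≠ 0) : ∃ q : Fin n, x q ≠ 0 ∧ ∀ k, q < k → x k = 0 := by
  have hne : x.support.Nonempty := Finsupp.support_nonempty_iff.mpr hx
  refine ⟨x.support.max' hne, ?_, fun k hk => ?_⟩
  · exact Finsupp.mem_support_iff.mp (Finset.max'_mem _ _)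
  · by_contra hcon
    exact absurd (Finset.le_max' _ k (Finsupp.mem_support_iff.mpr hcon)) (not_le.mpr hk)

open Classical in
/-- One unit removed at the last coordinate which is not zero. -/
noncomputable def mi (x : Fin n →₀ ℕ) : Fin n →₀ ℕ :=
  if hx : x ≠ 0 then x - Finsupp.single (exists_last x hx).choose 1 else 0

lemma mi_spec (x : Fin n →₀ ℕ) (hx : x ≠ 0) : ∃ q : Fin n, x q ≠ 0 ∧ (∀ k, q < k → x k = 0) ∧
    mi x + Finsupp.single q 1 = x ∧ (∀ k, k ≠ q → mi x k = x k) ∧ mi x q + 1 = x q := by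
  have h := (exists_last x hx).choose_spec
  have hm : mi x = x - Finsupp.single (exists_last x hx).choose 1 := by
    rw [mi, dif_pos hx]
  set q := (exists_last x hx).choose with hq
  have h1 : ∀ k, k ≠ q → mi x k = x k := by
    intro k hk
    rw [hm, Finsupp.tsub_apply, Finsupp.single_eq_of_ne hk]
    simp
  have h2 : mi x q + 1 = x q := by
    rw [hm, Finsupp.tsub_apply, Finsupp.single_eq_same]
    have := h.1
    omega
  refine ⟨q, h.1, h.2, ?_, h1, h2⟩
  ext k
  by_cases hk : k = q
  · subst hk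
    rw [Finsupp.add_apply, Finsupp.single_eq_same, h2]
  · rw [Finsupp.add_apply, Finsupp.single_eq_of_ne hk, h1 k hk, add_zero]

lemma mi_sum (x : Fin n →₀ ℕ) (hx : x ≠ 0) : (∑ i, mi x i) + 1 = ∑ i, x i := by
  obtain ⟨q, -, -, h, -, -⟩ := mi_spec x hx
  conv_rhs => rw [← h]
  simp only [Finsupp.add_apply, Finset.sum_add_distrib]
  congr 1
  simp [Finsupp.single_apply]

lemma mi_le (x : Fin n →₀ ℕ) (hx : x ≠ 0) : mi x ≤ x := by
  obtain ⟨q, -, -, h, -, -⟩ := mi_spec x hx
  conv_rhs => rw [← h]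
  exact le_self_add

lemma mi_add (y : Fin n →₀ ℕ) (k : Fin n) :
    mi (y + Finsupp.single k 1) = y ∨ lexgt (mi (y + Finsupp.single k 1)) y := by
  set x := y + Finsupp.single k 1 with hx
  have hxk : x k = y k + 1 := by rw [hx, Finsupp.add_apply, Finsupp.single_eq_same]
  have hxi : ∀ i, i ≠ k → x i = y i := by
    intro i hi
    rw [hx, Finsupp.add_apply, Finsupp.single_eq_of_ne hi, add_zero]
  have hx0 : x ≠ 0 := by
    intro h
    rw [h] at hxk
    simp at hxk
  obtain ⟨q, hq1, hq2, hq3, hq4, hq5⟩ := mi_spec x hx0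
  rcases lt_trichotomy k q with h | h | h
  · right
    refine ⟨k, fun i hi => ?_, ?_⟩
    · rw [hq4 i (hi.trans h).ne, hxi i hi.ne]
    · rw [hq4 k h.ne, hxk]
      exact Nat.lt_succ_self _
  · left
    subst h
    ext i
    by_cases hi : i = k
    · subst hi
      omega
    · rw [hq4 i hi, hxi i hi]
  · have := hq2 k h
    omega

lemma mi_mono (x x' : Fin n →₀ ℕ) (hx : x ≠ 0) (hs : (∑ i, x i) = ∑ i, x' i)
    (hl : lexgt x' x) : mi x' = mi x ∨ lexgt (mi x') (mi x) := by
  obtain ⟨j, hj, hj'⟩ := hl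
  have hx' : x' ≠ 0 := by
    intro h
    rw [h] at hj'
    simp at hj'
  obtain ⟨q, hq1, hq2, hq3, hq4, hq5⟩ := mi_spec x hx
  obtain ⟨p, hp1, hp2, hp3, hp4, hp5⟩ := mi_spec x' hx'
  rcases lt_trichotomy j p with h | h | h
  · right
    by_cases hqj : q < j
    · refine ⟨q, fun i hi => ?_, ?_⟩
      · rw [hq4 i hi.ne, hp4 i ((hi.trans hqj).trans h).ne, hj i (hi.trans hqj)]
      · rw [hp4 q (hqj.trans h).ne, ← hj q hqj]
        omega
    · push Not at hqj
      refine ⟨j, fun i hi => ?_, ?_⟩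
      · rw [hq4 i (hi.trans_le hqj).ne, hp4 i (hi.trans h).ne, hj i hi]
      · rw [hp4 j h.ne]
        refine lt_of_le_of_lt ?_ hj'
        exact mi_le x hx j
  · subst h
    have hqj : j < q := by
      by_contra hcon
      push Not at hcon
      have hlt : (∑ i, x i) < ∑ i, x' i := by
        refine Finset.sum_lt_sum (fun i _ => ?_) ⟨j, Finset.mem_univ _, hj'⟩
        rcases lt_trichotomy i j with h | h | h
        · exact (hj i h).le
        · subst h; exact hj'.le
        · rw [hq2 i (hcon.trans_lt h)]; exact Nat.zero_le _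
      omega
    by_cases hxj : x j + 1 < x' j
    · right
      refine ⟨j, fun i hi => ?_, ?_⟩
      · rw [hq4 i (hi.trans hqj).ne, hp4 i hi.ne, hj i hi]
      · rw [hq4 j hqj.ne]
        omega
    · left
      have hle : ∀ i ∈ (Finset.univ : Finset (Fin n)), mi x' i ≤ mi x i := by
        intro i _
        rcases lt_trichotomy i j with h | h | h
        · rw [hq4 i (h.trans hqj).ne, hp4 i h.ne, hj i h]
        · subst h
          rw [hq4 i hqj.ne]
          omega
        · rw [hp4 i h.ne', hp2 i h]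
          exact Nat.zero_le _
      have h1 := mi_sum x hx
      have h2 := mi_sum x' hx'
      have h3 : (∑ i, mi x' i) = ∑ i, mi x i := by omega
      have h4 := (Finset.sum_eq_sum_iff_of_le hle).mp h3
      ext i
      exact h4 i (Finset.mem_univ _)
  · have := hp2 j h
    omega

lemma exists_single (y x : Fin n →₀ ℕ) (h : y ≤ x) (hs : (∑ i, y i) + 1 = ∑ i, x i) :
    ∃ k, x = y + Finsupp.single k 1 := by
  have hne : ∃ k, y k ≠ x k := by
    by_contra hcon
    push Not at hcon
    simp only [hcon] at hs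
    omega
  obtain ⟨k, hk⟩ := hne
  have hk' : y k < x k := lt_of_le_of_ne (h k) hk
  refine ⟨k, ?_⟩
  have hle : ∀ i ∈ (Finset.univ : Finset (Fin n)),
      (y + Finsupp.single k 1 : Fin n →₀ ℕ) i ≤ x i := by
    intro i _
    by_cases hi : i = k
    · subst hi
      rw [Finsupp.add_apply, Finsupp.single_eq_same]
      exact hk'
    · rw [Finsupp.add_apply, Finsupp.single_eq_of_ne hi, add_zero]
      exact h i
  have hsum : (∑ i, (y + Finsupp.single k 1 : Fin n →₀ ℕ) i) = ∑ i, x i := by
    rw [← hs]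
    simp only [Finsupp.add_apply, Finset.sum_add_distrib]
    congr 1
    simp [Finsupp.single_apply]
  have h4 := (Finset.sum_eq_sum_iff_of_le hle).mp hsum
  ext i
  exact (h4 i (Finset.mem_univ _)).symm

lemma mem_Std (a : Fin n → ℕ) (d : ℕ) (x : Fin n →₀ ℕ) :
    x ∈ Std a d ↔ (∑ i, x i) = d ∧ ∀ i, x i < a i := by
  rw [Std, Finset.mem_filter, Finset.mem_finsuppAntidiag]
  constructor
  · rintro ⟨⟨h1, -⟩, h2⟩
    exact ⟨h1, h2⟩
  · rintro ⟨h1, h2⟩
    exact ⟨⟨h1, Finset.subset_univ _⟩, h2⟩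

end SEGB_

open SEGB_ in
/-- Removing the last unit; the shadow of an initial segment is an initial segment. -/
theorem t_segb : T_SEGB := by
  intro n
  refine ⟨mi, ?_, mi_add, mi_mono, ?_⟩
  · intro x hx
    obtain ⟨q, -, -, h, -, -⟩ := mi_spec x hx
    exact ⟨q, h⟩
  · intro a d M hM
    refine ⟨Finset.filter_subset _ _, ?_⟩
    intro x hx x' hx' hl
    rw [shadow, Finset.mem_filter] at hx ⊢
    refine ⟨hx', ?_⟩
    obtain ⟨hxs, y, hy, hyx⟩ := hx
    have hxs' := (mem_Std a (d + 1) x).mp hxs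
    have hxs'' := (mem_Std a (d + 1) x').mp hx'
    have hys := (mem_Std a d y).mp (hM.1 hy)
    obtain ⟨k, hk⟩ := exists_single y x hyx (by rw [hys.1, hxs'.1])
    have hx0 : x ≠ 0 := by
      rintro rfl
      have := hxs'.1
      simp at this
    have hx0' : x' ≠ 0 := by
      rintro rfl
      have := hxs''.1
      simp at this
    have h1 : mi x = y ∨ lexgt (mi x) y := by
      rw [hk]
      exact mi_add y k
    have h2 := mi_mono x x' hx0 (by rw [hxs'.1, hxs''.1]) hl
    have h3 : mi x' = y ∨ lexgt (mi x') y := by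
      rcases h2 with h2 | h2
      · rw [h2]; exact h1
      · rcases h1 with h1 | h1
        · rw [h1] at h2
          exact Or.inr h2
        · exact Or.inr (lexgt_trans h2 h1)
    have hle := mi_le x' hx0'
    have h4 : mi x' ∈ M := by
      rcases h3 with h3 | h3
      · rw [h3]; exact hy
      · refine hM.2 y hy (mi x') ?_ h3
        rw [mem_Std]
        have hsum := mi_sum x' hx0'
        refine ⟨by omega, fun i => lt_of_le_of_lt (hle i) (hxs''.2 i)⟩
    exact ⟨mi x', h4, hle⟩

end Pool.Agent.EGU
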