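import Pool.Agent.EGU.P_SH2

set_option autoImplicit false
open MvPolynomial

/-!
Target SH1 of the project EGU: the first monomial in degree `S_p`.
-/

namespace Pool.Agent.EGU

namespace SH1_

open SH2_

theorem seg {n : ℕ} (a : Fin n → ℕ) (p : ℕ) (ha : ∀ i, 2 ≤ a i) :
    IsSeg a (S a p) {U a p} := by
  refine ⟨?_, ?_⟩
  · intro x hx
    rw [Finset.mem_singleton] at hx
    subst hx
    rw [mem_Std]
    refine ⟨U_sum a p, fun i => ?_⟩
    rw [U_apply]
    have := ha i
    split_ifs <;> omega
  · intro x hx y hy hlt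
    rw [Finset.mem_singleton] at hx
    subst hx
    rw [mem_Std] at hy
    obtain ⟨j, hj1, hj2⟩ := hlt
    exfalso
    have hjp : ¬ (j : ℕ) < p := by
      intro h
      rw [U_apply, if_pos h] at hj2
      have := hy.2 j
      have := ha j
      omega
    have hlt : ∑ i, U a p i < ∑ i, y i := by
      refine Finset.sum_lt_sum (fun k _ => ?_) ⟨j, Finset.mem_univ j, hj2⟩
      rcases lt_trichotomy k j with h | h | h
      · exact (hj1 k h).le
      · rw [h]
        exact hj2.le
      · rw [U_apply, if_neg (by rw [Fin.lt_def] at h; omega)]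
        exact Nat.zero_le _
    rw [U_sum, hy.1] at hlt
    exact lt_irrefl _ hlt

theorem shadow_card {n : ℕ} (a : Fin n → ℕ) (p : ℕ) (ha : ∀ i, 2 ≤ a i) :
    (shadow a (S a p) {U a p}).card ≤ n - p := by
  have h1 : shadow a (S a p) {U a p} ⊆
      (Finset.univ.filter (fun k : Fin n => p ≤ (k : ℕ))).image
        (fun k => U a p + Finsupp.single k 1) := by
    intro x hx
    unfold shadow at hx
    rw [Finset.mem_filter, mem_Std] at hx
    obtain ⟨⟨h2, h3⟩, y, hy, hyx⟩ := hx
    rw [Finset.mem_singleton] at hy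
    subst hy
    obtain ⟨k, hk⟩ := exists_unit x (U a p) hyx (by rw [h2, U_sum])
    rw [Finset.mem_image]
    refine ⟨k, ?_, hk.symm⟩
    rw [Finset.mem_filter]
    refine ⟨Finset.mem_univ k, ?_⟩
    by_contra hcon
    push Not at hcon
    have h4 := h3 k
    rw [hk, Finsupp.add_apply, Finsupp.single_eq_same, U_apply, if_pos hcon] at h4
    have := ha k
    omega
  refine (Finset.card_le_card h1).trans (Finset.card_image_le.trans ?_)
  have h5 : (Finset.univ.filter (fun k : Fin n => p ≤ (k : ℕ))).card ≤ (Finset.Ico p n).card := by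
    refine Finset.card_le_card_of_injOn (fun j => (j : ℕ)) ?_ ?_
    · intro j hj
      simp only [Finset.coe_filter, Finset.mem_univ, true_and, Set.mem_ofPred_eq] at hj
      rw [Finset.mem_coe, Finset.mem_Ico]
      exact ⟨hj, j.2⟩
    · intro i _ j _ hij
      exact Fin.ext hij
  rwa [Nat.card_Ico] at h5

end SH1_

theorem t_sh1 : T_SH1 := by
  intro n a p ha _
  exact ⟨{SH2_.U a p}, SH1_.seg a p ha, Finset.card_singleton _, SH1_.shadow_card a p ha⟩

end Pool.Agent.EGU
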