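import Pool.Agent.EGU.Targets

set_option autoImplicit false
open MvPolynomial

namespace Pool.Agent.EGU

universe u

namespace SH2_

theorem mem_Std {n : ℕ} (a : Fin n → ℕ) (d : ℕ) (x : Fin n →₀ ℕ) :
    x ∈ Std a d ↔ (∑ i, x i) = d ∧ ∀ i, x i < a i := by
  unfold Std
  rw [Finset.mem_filter, Finset.mem_finsuppAntidiag]
  constructor
  · rintro ⟨⟨h1, -⟩, h2⟩
    exact ⟨h1, h2⟩
  · rintro ⟨h1, h2⟩
    exact ⟨⟨h1, Finset.subset_univ _⟩, h2⟩

theorem exists_unit {n : ℕ} (x y : Fin n →₀ ℕ) (h : y ≤ x) (hs : (∑ i, x i) = (∑ i, y i) + 1) :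
    ∃ k, x = y + Finsupp.single k 1 := by
  have hle : ∀ i, y i ≤ x i := fun i => h i
  have hz : (∑ i, (x i - y i)) = 1 := by
    have h1 : (∑ i, (x i - y i)) + ∑ i, y i = ∑ i, x i := by
      rw [← Finset.sum_add_distrib]
      exact Finset.sum_congr rfl fun i _ => Nat.sub_add_cancel (hle i)
    omega
  obtain ⟨k, -, hk⟩ := Finset.exists_ne_zero_of_sum_ne_zero
    (show (∑ i, (x i - y i)) ≠ 0 by omega)
  refine ⟨k, ?_⟩
  have h2 := Finset.add_sum_erase Finset.univ (fun i => x i - y i) (Finset.mem_univ k)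
  have h3 : (∑ i ∈ Finset.univ.erase k, (x i - y i)) = 0 := by omega
  rw [Finset.sum_eq_zero_iff] at h3
  ext i
  rw [Finsupp.add_apply, Finsupp.single_apply]
  by_cases hik : k = i
  · subst hik
    rw [if_pos rfl]
    have := hle k
    omega
  · rw [if_neg hik]
    have h4 := h3 i (Finset.mem_erase.2 ⟨Ne.symm hik, Finset.mem_univ i⟩)
    have := hle i
    omega

/-- the first monomial -/
noncomputable def U {n : ℕ} (a : Fin n → ℕ) (p : ℕ) : Fin n →₀ ℕ :=
  Finsupp.equivFunOnFinite.symm fun i => if (i : ℕ) < p then a i - 1 else 0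

/-- the second monomial -/
noncomputable def U' {n : ℕ} (a : Fin n → ℕ) (p : ℕ) : Fin n →₀ ℕ :=
  Finsupp.equivFunOnFinite.symm fun i =>
    if (i : ℕ) + 1 < p then a i - 1 else if (i : ℕ) + 1 = p then a i - 2
    else if (i : ℕ) = p then 1 else 0

theorem U_apply {n : ℕ} (a : Fin n → ℕ) (p : ℕ) (i : Fin n) :
    U a p i = if (i : ℕ) < p then a i - 1 else 0 := by
  simp [U]

theorem U'_apply {n : ℕ} (a : Fin n → ℕ) (p : ℕ) (i : Fin n) :
    U' a p i = if (i : ℕ) + 1 < p then a i - 1 else if (i : ℕ) + 1 = p then a i - 2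
    else if (i : ℕ) = p then 1 else 0 := by
  simp [U']

theorem U_sum {n : ℕ} (a : Fin n → ℕ) (p : ℕ) : (∑ i, U a p i) = S a p := by
  unfold S
  rw [Finset.sum_filter]
  exact Finset.sum_congr rfl fun i _ => U_apply a p i

/-- `u' + e_(p-1) = u + e_p` -/
theorem shift {n : ℕ} (a : Fin n → ℕ) (p : ℕ) (hp : p < n) (ha : ∀ i, 2 ≤ a i) (h1 : 1 ≤ p) :
    U' a p + Finsupp.single (⟨p - 1, by omega⟩ : Fin n) 1 =
      U a p + Finsupp.single (⟨p, hp⟩ : Fin n) 1 := by
  ext i
  rw [Finsupp.add_apply, Finsupp.add_apply, U_apply, U'_apply, Finsupp.single_apply,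
    Finsupp.single_apply]
  simp only [Fin.ext_iff]
  have := ha i
  split_ifs <;> omega

theorem U'_sum {n : ℕ} (a : Fin n → ℕ) (p : ℕ) (hp : p < n) (ha : ∀ i, 2 ≤ a i) (h1 : 1 ≤ p) :
    (∑ i, U' a p i) = S a p := by
  have h := congrArg (fun x : Fin n →₀ ℕ => ∑ i, x i) (shift a p hp ha h1)
  simp only [Finsupp.add_apply, Finset.sum_add_distrib, Finsupp.single_apply, Finset.sum_ite_eq,
    Finset.mem_univ, if_true] at h
  rw [U_sum] at h
  omega

theorem seg {n : ℕ} (a : Fin n → ℕ) (p : ℕ) (hp : p < n) (ha : ∀ i, 2 ≤ a i) (h1 : 1 ≤ p) :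
    IsSeg a (S a p) {U a p, U' a p} := by
  have hU : U a p ∈ Std a (S a p) := by
    rw [mem_Std]
    refine ⟨U_sum a p, fun i => ?_⟩
    rw [U_apply]
    have := ha i
    split_ifs <;> omega
  have hU' : U' a p ∈ Std a (S a p) := by
    rw [mem_Std]
    refine ⟨U'_sum a p hp ha h1, fun i => ?_⟩
    rw [U'_apply]
    have := ha i
    split_ifs <;> omega
  refine ⟨?_, ?_⟩
  · intro x hx
    rw [Finset.mem_insert, Finset.mem_singleton] at hx
    rcases hx with rfl | rfl
    · exact hU
    · exact hU'
  · intro x hx y hy hlt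
    obtain ⟨j, hj1, hj2⟩ := hlt
    rw [mem_Std] at hy
    obtain ⟨hys, hyl⟩ := hy
    rw [Finset.mem_insert, Finset.mem_singleton] at hx
    have hyj := hyl j
    rcases hx with rfl | rfl
    · exfalso
      rw [U_apply] at hj2
      by_cases hjp : (j : ℕ) < p
      · rw [if_pos hjp] at hj2
        omega
      · have : (∑ i, U a p i) < ∑ i, y i := by
          refine Finset.sum_lt_sum (fun i _ => ?_) ⟨j, Finset.mem_univ j, ?_⟩
          · rcases lt_or_ge i j with h | h
            · exact (hj1 i h).le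
            · rw [U_apply, if_neg (by
                have : (j : ℕ) ≤ i := h
                omega)]
              exact Nat.zero_le _
          · rw [U_apply]
            exact hj2
        rw [U_sum, hys] at this
        omega
    · by_cases hjp : (j : ℕ) + 1 < p
      · exfalso
        rw [U'_apply, if_pos hjp] at hj2
        omega
      by_cases hjp2 : (j : ℕ) + 1 = p
      · -- `y = u`
        rw [U'_apply, if_neg hjp, if_pos hjp2] at hj2
        rw [Finset.mem_insert]
        left
        have hle : ∀ i ∈ (Finset.univ : Finset (Fin n)), U a p i ≤ y i := by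
          intro i _
          rw [U_apply]
          rcases lt_trichotomy i j with h | h | h
          · have h2 := hj1 i h
            have h3 : (i : ℕ) < j := h
            rw [U'_apply, if_pos (by omega)] at h2
            rw [if_pos (by omega)]
            exact h2.le
          · subst h
            rw [if_pos (by omega)]
            omega
          · have h3 : (j : ℕ) < i := h
            rw [if_neg (by omega)]
            exact Nat.zero_le _
        have h5 := (Finset.sum_eq_sum_iff_of_le hle).1 (by rw [U_sum, hys])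
        ext i
        exact (h5 i (Finset.mem_univ i)).symm
      · exfalso
        have : (∑ i, U' a p i) < ∑ i, y i := by
          refine Finset.sum_lt_sum (fun i _ => ?_) ⟨j, Finset.mem_univ j, hj2⟩
          rcases lt_trichotomy i j with h | h | h
          · exact (hj1 i h).le
          · rw [h]; exact hj2.le
          · have h3 : (j : ℕ) < i := h
            rw [U'_apply, if_neg (by omega), if_neg (by omega), if_neg (by omega)]
            exact Nat.zero_le _
        rw [U'_sum a p hp ha h1, hys] at this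
        omega

theorem card_pair {n : ℕ} (a : Fin n → ℕ) (p : ℕ) (hp : p < n) :
    ({U a p, U' a p} : Finset (Fin n →₀ ℕ)).card = 2 := by
  apply Finset.card_pair
  intro h
  have h2 := congrArg (fun x : Fin n →₀ ℕ => x ⟨p, hp⟩) h
  simp only [U_apply, U'_apply] at h2
  rw [if_neg (by omega), if_neg (by omega), if_neg (by omega)] at h2
  simp at h2

theorem shadow_sub {n : ℕ} (a : Fin n → ℕ) (p : ℕ) (hp : p < n) (ha : ∀ i, 2 ≤ a i)
    (h1 : 1 ≤ p) (x : Fin n →₀ ℕ) (hx : x ∈ shadow a (S a p) {U a p, U' a p}) :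
    x ∈ ((Finset.Ici (⟨p, hp⟩ : Fin n)).image fun k => U a p + Finsupp.single k 1) ∪
      ((Finset.Ioi (⟨p, hp⟩ : Fin n)).image fun k => U' a p + Finsupp.single k 1) ∨
    (x = U' a p + Finsupp.single (⟨p, hp⟩ : Fin n) 1 ∧ a ⟨p, hp⟩ ≠ 2) := by
  unfold shadow at hx
  rw [Finset.mem_filter, mem_Std] at hx
  obtain ⟨⟨hs, hl⟩, y, hy, hyx⟩ := hx
  rw [Finset.mem_insert, Finset.mem_singleton] at hy
  rw [Finset.mem_union, Finset.mem_image, Finset.mem_image]
  rcases hy with rfl | rfl
  · obtain ⟨k, hk⟩ := exists_unit x _ hyx (by rw [hs, U_sum])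
    left; left
    refine ⟨k, ?_, hk.symm⟩
    rw [Finset.mem_Ici, Fin.le_def]
    by_contra hc
    simp only at hc
    have h2 := hl k
    rw [hk, Finsupp.add_apply, U_apply, if_pos (by omega), Finsupp.single_eq_same] at h2
    have := ha k
    omega
  · obtain ⟨k, hk⟩ := exists_unit x _ hyx (by rw [hs, U'_sum a p hp ha h1])
    have h2 := hl k
    rw [hk, Finsupp.add_apply, U'_apply, Finsupp.single_eq_same] at h2
    have hak := ha k
    rcases lt_trichotomy (k : ℕ) p with h | h | h
    · by_cases hkp : (k : ℕ) + 1 < p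
      · exfalso
        rw [if_pos hkp] at h2
        omega
      · left; left
        refine ⟨⟨p, hp⟩, by simp, ?_⟩
        rw [hk, ← shift a p hp ha h1]
        congr 2
        apply Fin.ext
        simp only
        omega
    · have hkp : k = ⟨p, hp⟩ := Fin.ext h
      right
      refine ⟨by rw [hk, hkp], ?_⟩
      rw [← hkp]
      intro h3
      rw [if_neg (by omega), if_neg (by omega), if_pos h] at h2
      omega
    · left; right
      refine ⟨k, ?_, hk.symm⟩
      rw [Finset.mem_Ioi, Fin.lt_def]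
      exact h

theorem card_two {n : ℕ} (a : Fin n → ℕ) (p : ℕ) (hp : p < n) :
    (((Finset.Ici (⟨p, hp⟩ : Fin n)).image fun k => U a p + Finsupp.single k 1) ∪
      ((Finset.Ioi (⟨p, hp⟩ : Fin n)).image fun k => U' a p + Finsupp.single k 1)).card ≤
      2 * (n - p) - 1 := by
  refine le_trans (Finset.card_union_le _ _) ?_
  have e1 := Finset.card_image_le (s := Finset.Ici (⟨p, hp⟩ : Fin n))
    (f := fun k => U a p + Finsupp.single k 1)
  have e2 := Finset.card_image_le (s := Finset.Ioi (⟨p, hp⟩ : Fin n))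
    (f := fun k => U' a p + Finsupp.single k 1)
  rw [Fin.card_Ici] at e1
  rw [Fin.card_Ioi] at e2
  simp only at e1 e2
  omega

end SH2_

open SH2_ in
theorem t_sh2 : T_SH2 := by
  intro n a p hp ha h1
  constructor
  · refine ⟨{U a p, U' a p}, seg a p hp ha h1, card_pair a p hp, ?_⟩
    have hsub : shadow a (S a p) {U a p, U' a p} ⊆
        insert (U' a p + Finsupp.single (⟨p, hp⟩ : Fin n) 1)
        (((Finset.Ici (⟨p, hp⟩ : Fin n)).image fun k => U a p + Finsupp.single k 1) ∪
        ((Finset.Ioi (⟨p, hp⟩ : Fin n)).image fun k => U' a p + Finsupp.single k 1)) := by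
      intro x hx
      rw [Finset.mem_insert]
      rcases shadow_sub a p hp ha h1 x hx with h | h
      · exact Or.inr h
      · exact Or.inl h.1
    refine le_trans (Finset.card_le_card hsub) (le_trans (Finset.card_insert_le _ _) ?_)
    have := card_two a p hp
    omega
  · intro h2
    refine ⟨{U a p, U' a p}, seg a p hp ha h1, card_pair a p hp, ?_⟩
    refine le_trans (Finset.card_le_card ?_) (card_two a p hp)
    intro x hx
    rcases shadow_sub a p hp ha h1 x hx with h | h
    · exact h
    · exact absurd h2 h.2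

end Pool.Agent.EGU
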