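import Pool.Agent.EGU.Targets

set_option autoImplicit false
open MvPolynomial

/-!
Target SHB of the project EGU: the first `v` monomials for `S_p < d < S_(p+1)`.
-/

namespace Pool.Agent.EGU

universe u

namespace SHB_

lemma sum_range_aux (m v : ℕ) (h : v ≤ m) :
    ∑ i ∈ Finset.range v, (m - i) + v.choose 2 = v * m := by
  induction v with
  | zero => simp
  | succ v ih =>
    have ih' := ih (by omega)
    have hc : (v + 1).choose 2 = v + v.choose 2 := by
      have := Nat.choose_succ_succ' v 1
      rw [Nat.choose_one_right] at this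
      exact this
    rw [Finset.sum_range_succ, hc, Nat.succ_mul]
    omega

lemma sum_filter_Fin (n p v : ℕ) (h : v + p ≤ n) (f : ℕ → ℕ) :
    ∑ j ∈ Finset.univ.filter (fun j : Fin n => p ≤ (j : ℕ) ∧ (j : ℕ) < p + v), f j =
      ∑ i ∈ Finset.range v, f (p + i) := by
  rw [Finset.sum_filter, Fin.sum_univ_eq_sum_range
    (fun j => if p ≤ j ∧ j < p + v then f j else 0) n, ← Finset.sum_filter]
  have : (Finset.range n).filter (fun j => p ≤ j ∧ j < p + v) = Finset.Ico p (p + v) := by
    ext j
    simp only [Finset.mem_filter, Finset.mem_range, Finset.mem_Ico]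
    omega
  rw [this, Finset.sum_Ico_eq_sum_range]
  simp

/-- The coordinates `a_i - 1` for `i < p`, then `c`, then zeros. -/
noncomputable def uu {n : ℕ} (a : Fin n → ℕ) (p c : ℕ) : Fin n →₀ ℕ :=
  Finsupp.equivFunOnFinite.symm
    (fun i => if (i : ℕ) < p then a i - 1 else if (i : ℕ) = p then c else 0)

lemma uu_apply {n : ℕ} (a : Fin n → ℕ) (p c : ℕ) (i : Fin n) :
    uu a p c i = if (i : ℕ) < p then a i - 1 else if (i : ℕ) = p then c else 0 := by
  simp [uu]

lemma sum_uu {n : ℕ} (a : Fin n → ℕ) (p c : ℕ) (hp : p < n) :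
    ∑ i, uu a p c i = S a p + c := by
  have h1 : ∀ i : Fin n, uu a p c i =
      (if (i : ℕ) < p then a i - 1 else 0) + (if i = (⟨p, hp⟩ : Fin n) then c else 0) := by
    intro i
    rw [uu_apply]
    by_cases h : (i : ℕ) < p
    · have h2 : i ≠ (⟨p, hp⟩ : Fin n) := by
        intro h3
        rw [h3] at h
        simp at h
      simp [h, h2]
    · by_cases h3 : (i : ℕ) = p
      · have h4 : i = (⟨p, hp⟩ : Fin n) := Fin.ext h3
        simp [h4]
      · have h4 : i ≠ (⟨p, hp⟩ : Fin n) := by
          intro h5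
          exact h3 (by rw [h5])
        simp [h, h3, h4]
  simp_rw [h1]
  rw [Finset.sum_add_distrib, ← Finset.sum_filter, Finset.sum_ite_eq' Finset.univ]
  simp [S]

lemma S_succ {n : ℕ} (a : Fin n → ℕ) (p : ℕ) (hp : p < n) :
    S a (p + 1) = S a p + (a ⟨p, hp⟩ - 1) := by
  unfold S
  have : Finset.univ.filter (fun i : Fin n => (i : ℕ) < p + 1) =
      insert (⟨p, hp⟩ : Fin n) (Finset.univ.filter (fun i : Fin n => (i : ℕ) < p)) := by
    ext i
    simp only [Finset.mem_filter, Finset.mem_univ, true_and, Finset.mem_insert, Fin.ext_iff]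
    omega
  rw [this, Finset.sum_insert (by simp), add_comm]

/-- A vector above `w` with sum one more is `w` plus a unit. -/
lemma eq_add_single {n : ℕ} (w y : Fin n →₀ ℕ) (h : ∀ k, w k ≤ y k)
    (hs : ∑ k, y k = ∑ k, w k + 1) : ∃ j, y = w + Finsupp.single j 1 := by
  have h1 : ∑ k, (y k - w k) = 1 := by
    have : ∑ k, y k = ∑ k, (y k - w k) + ∑ k, w k := by
      rw [← Finset.sum_add_distrib]
      exact Finset.sum_congr rfl fun k _ => by have := h k; omega
    omega
  have h2 : ∃ j, y j - w j ≠ 0 := by
    by_contra hc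
    push Not at hc
    have : ∑ k, (y k - w k) = 0 := Finset.sum_eq_zero fun k _ => hc k
    omega
  obtain ⟨j, hj⟩ := h2
  refine ⟨j, ?_⟩
  ext k
  rw [Finsupp.add_apply]
  have h3 : (y j - w j) + ∑ k ∈ Finset.univ.erase j, (y k - w k) = 1 :=
    (Finset.add_sum_erase Finset.univ (fun k => y k - w k) (Finset.mem_univ j)).trans h1
  by_cases hk : k = j
  · subst hk
    rw [Finsupp.single_eq_same]
    have := h k
    omega
  · rw [Finsupp.single_eq_of_ne hk]
    have h4 : y k - w k ≤ ∑ k ∈ Finset.univ.erase j, (y k - w k) :=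
      Finset.single_le_sum (f := fun k => y k - w k) (fun _ _ => Nat.zero_le _)
        (Finset.mem_erase.mpr ⟨hk, Finset.mem_univ k⟩)
    have := h k
    omega

lemma mem_Std {n : ℕ} (a : Fin n → ℕ) (d : ℕ) (x : Fin n →₀ ℕ) :
    x ∈ Std a d ↔ (∑ i, x i = d) ∧ ∀ i, x i < a i := by
  unfold Std
  rw [Finset.mem_filter, Finset.mem_finsuppAntidiag]
  simp

lemma sum_add_single {n : ℕ} (w : Fin n →₀ ℕ) (j : Fin n) :
    ∑ k, (w + Finsupp.single j 1 : Fin n →₀ ℕ) k = ∑ k, w k + 1 := by
  simp only [Finsupp.add_apply, Finset.sum_add_distrib]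
  congr 1
  rw [Finset.sum_eq_single j]
  · simp
  · intro b _ hb
    exact Finsupp.single_eq_of_ne hb
  · simp

end SHB_

open SHB_ in
theorem t_shb : T_SHB := by
  intro n a d p v ha _ hp h1 h2 hv
  have hS := S_succ a p hp
  set e := d - S a p with he
  have he1 : 1 ≤ e := by omega
  have he2 : e < a ⟨p, hp⟩ - 1 := by omega
  set w := uu a p (e - 1) with hw
  have hsw : ∑ i, w i = S a p + (e - 1) := sum_uu a p (e - 1) hp
  have hwlt : ∀ i : Fin n, (i : ℕ) < p → w i = a i - 1 := by
    intro i hi
    rw [hw, uu_apply, if_pos hi]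
  have hwp : ∀ i : Fin n, (i : ℕ) = p → w i = e - 1 := by
    intro i hi
    rw [hw, uu_apply, if_neg (by omega), if_pos hi]
  have hwgt : ∀ i : Fin n, p < (i : ℕ) → w i = 0 := by
    intro i hi
    rw [hw, uu_apply, if_neg (by omega), if_neg (by omega)]
  set Jj := Finset.univ.filter (fun j : Fin n => p ≤ (j : ℕ) ∧ (j : ℕ) < p + v) with hJ
  have hinj : Function.Injective (fun j : Fin n => w + Finsupp.single j (1 : ℕ)) := by
    intro j j' hjj
    have h3 : Finsupp.single j (1 : ℕ) = Finsupp.single j' 1 := add_left_cancel hjj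
    by_contra hne
    have h4 := DFunLike.congr_fun h3 j
    rw [Finsupp.single_eq_same, Finsupp.single_eq_of_ne hne] at h4
    exact one_ne_zero h4
  -- standardness
  have hstd : ∀ j : Fin n, p ≤ (j : ℕ) → w + Finsupp.single j 1 ∈ Std a d := by
    intro j hj
    rw [mem_Std]
    refine ⟨?_, ?_⟩
    · rw [sum_add_single, hsw]
      omega
    · intro i
      rw [Finsupp.add_apply]
      have h5 : Finsupp.single j (1 : ℕ) i ≤ 1 := by
        by_cases h6 : i = j
        · rw [h6, Finsupp.single_eq_same]
        · rw [Finsupp.single_eq_of_ne h6]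
          exact Nat.zero_le _
      have h7 := ha i
      rcases lt_trichotomy (i : ℕ) p with h8 | h8 | h8
      · have h9 : i ≠ j := by
          intro h10
          rw [h10] at h8
          omega
        rw [hwlt i h8, Finsupp.single_eq_of_ne h9]
        omega
      · have h9 : i = ⟨p, hp⟩ := Fin.ext h8
        rw [hwp i h8]
        rw [h9] at h5 ⊢
        omega
      · rw [hwgt i h8]
        omega
  refine ⟨Jj.image (fun j => w + Finsupp.single j 1), ⟨?_, ?_⟩, ?_, ?_⟩
  · intro x hx
    rw [Finset.mem_image] at hx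
    obtain ⟨j, hj, rfl⟩ := hx
    rw [hJ, Finset.mem_filter] at hj
    exact hstd j hj.2.1
  · -- initial segment
    intro x hx y hy hlex
    rw [Finset.mem_image] at hx
    obtain ⟨j, hj, rfl⟩ := hx
    rw [hJ, Finset.mem_filter] at hj
    obtain ⟨i, hi1, hi2⟩ := hlex
    rw [mem_Std] at hy
    have hjp : p ≤ (j : ℕ) := hj.2.1
    have hxlt : ∀ k : Fin n, (k : ℕ) < p → (w + Finsupp.single j 1 : Fin n →₀ ℕ) k = a k - 1 := by
      intro k hk
      have h9 : k ≠ j := by
        intro h10
        rw [h10] at hk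
        omega
      rw [Finsupp.add_apply, hwlt k hk, Finsupp.single_eq_of_ne h9, add_zero]
    have hip : p ≤ (i : ℕ) := by
      by_contra hc
      have h3 := hxlt i (by omega)
      have h4 := hy.2 i
      omega
    have hyw : ∀ k, w k ≤ y k := by
      intro k
      rcases lt_trichotomy (k : ℕ) p with h8 | h8 | h8
      · have h3 := hi1 k (by rw [Fin.lt_def]; omega)
        rw [hxlt k h8] at h3
        rw [hwlt k h8]
        omega
      · have h3 : w k ≤ (w + Finsupp.single j 1 : Fin n →₀ ℕ) k := by
          rw [Finsupp.add_apply]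
          omega
        rcases Nat.lt_or_ge (k : ℕ) (i : ℕ) with h4 | h4
        · have h5 := hi1 k (by rw [Fin.lt_def]; omega)
          omega
        · have h5 : k = i := Fin.ext (by omega)
          rw [h5] at h3 ⊢
          omega
      · rw [hwgt k h8]
        exact Nat.zero_le _
    obtain ⟨j', hj'⟩ := eq_add_single w y hyw (by rw [hy.1, hsw]; omega)
    rw [Finset.mem_image]
    refine ⟨j', ?_, hj'.symm⟩
    rw [hJ, Finset.mem_filter]
    refine ⟨Finset.mem_univ _, ?_⟩
    have h6 : j' = i := by
      by_contra hc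
      rw [hj', Finsupp.add_apply, Finsupp.add_apply,
        Finsupp.single_eq_of_ne (a := j') (a' := i) (fun h => hc h.symm)] at hi2
      omega
    subst h6
    refine ⟨hip, ?_⟩
    have h7 : (j' : ℕ) ≤ (j : ℕ) := by
      by_contra hc
      have h8 := hi1 j (by rw [Fin.lt_def]; omega)
      have h9 : j ≠ j' := by
        intro h10
        rw [h10] at hc
        omega
      rw [hj', Finsupp.add_apply, Finsupp.add_apply, Finsupp.single_eq_same,
        Finsupp.single_eq_of_ne h9] at h8
      omega
    omega
  · -- number of elements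
    rw [Finset.card_image_of_injective _ hinj, Finset.card_eq_sum_ones, hJ,
      sum_filter_Fin n p v hv (fun _ => 1)]
    simp
  · -- the shadow
    have hsub : shadow a d (Jj.image (fun j => w + Finsupp.single j 1)) ⊆
        Jj.biUnion (fun j => (Finset.Ici j).image
          (fun k => w + Finsupp.single j 1 + Finsupp.single k 1)) := by
      intro x hx
      unfold shadow at hx
      rw [Finset.mem_filter, mem_Std] at hx
      obtain ⟨⟨hx1, hx2⟩, y, hy, hyx⟩ := hx
      rw [Finset.mem_image] at hy
      obtain ⟨j, hj, rfl⟩ := hy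
      rw [hJ, Finset.mem_filter] at hj
      obtain ⟨k, hk⟩ := eq_add_single (w + Finsupp.single j 1) x (fun k => hyx k)
        (by rw [hx1, sum_add_single, hsw]; omega)
      have hkp : p ≤ (k : ℕ) := by
        by_contra hc
        have h3 := hx2 k
        rw [hk, Finsupp.add_apply, Finsupp.add_apply, Finsupp.single_eq_same,
          hwlt k (by omega)] at h3
        have h4 := ha k
        omega
      rw [Finset.mem_biUnion]
      rcases le_total j k with hjk | hjk
      · refine ⟨j, ?_, ?_⟩
        · rw [hJ, Finset.mem_filter]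
          exact hj
        · rw [Finset.mem_image]
          exact ⟨k, Finset.mem_Ici.mpr hjk, hk.symm⟩
      · refine ⟨k, ?_, ?_⟩
        · rw [hJ, Finset.mem_filter]
          refine ⟨Finset.mem_univ _, hkp, ?_⟩
          have h5 : (k : ℕ) ≤ (j : ℕ) := hjk
          omega
        · rw [Finset.mem_image]
          refine ⟨j, Finset.mem_Ici.mpr hjk, ?_⟩
          rw [hk]
          exact add_right_comm _ _ _
    refine (Finset.card_le_card hsub).trans ?_
    refine Finset.card_biUnion_le.trans ?_
    have h3 : ∑ j ∈ Jj, ((Finset.Ici j).image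
        (fun k => w + Finsupp.single j 1 + Finsupp.single k 1)).card ≤
        ∑ j ∈ Jj, (n - (j : ℕ)) := by
      refine Finset.sum_le_sum fun j _ => ?_
      refine Finset.card_image_le.trans ?_
      rw [Fin.card_Ici]
    refine h3.trans ?_
    rw [hJ, sum_filter_Fin n p v hv (fun j => n - j)]
    have h4 := sum_range_aux (n - p) v (by omega)
    have h5 : ∑ i ∈ Finset.range v, (n - (p + i)) = ∑ i ∈ Finset.range v, (n - p - i) :=
      Finset.sum_congr rfl fun i _ => by omega
    rw [h5]
    omega

end Pool.Agent.EGU
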