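import Pool.Agent.EGU.Targets

/-!
# EGU: duality of segments
-/

set_option autoImplicit false

open MvPolynomial

universe u

namespace Pool.Agent.EGU

namespace SHD_

variable {n : ℕ}

/-- The dual exponent. -/
noncomputable def du (a : Fin n → ℕ) (x : Fin n →₀ ℕ) : Fin n →₀ ℕ :=
  Finsupp.equivFunOnFinite.symm (fun i => a i - 1 - x i)

lemma du_apply (a : Fin n → ℕ) (x : Fin n →₀ ℕ) (i : Fin n) : du a x i = a i - 1 - x i := rfl

lemma mem_Std {a : Fin n → ℕ} {d : ℕ} {x : Fin n →₀ ℕ} :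
    x ∈ Std a d ↔ (∑ i, x i = d) ∧ ∀ i, x i < a i := by
  unfold Std
  rw [Finset.mem_filter, Finset.mem_finsuppAntidiag]
  constructor
  · rintro ⟨⟨h1, _⟩, h2⟩
    exact ⟨h1, h2⟩
  · rintro ⟨h1, h2⟩
    exact ⟨⟨h1, Finset.subset_univ _⟩, h2⟩

lemma S_eq (a : Fin n → ℕ) : S a n = ∑ i, (a i - 1) := by
  unfold S
  rw [Finset.filter_true_of_mem]
  intro i _
  exact i.isLt

lemma du_du {a : Fin n → ℕ} {x : Fin n →₀ ℕ} (h : ∀ i, x i < a i) : du a (du a x) = x := by
  ext i
  rw [du_apply, du_apply]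
  have := h i
  omega

lemma du_mem {a : Fin n → ℕ} {d d' : ℕ} {x : Fin n →₀ ℕ} (h : d + d' = S a n)
    (hx : x ∈ Std a d) : du a x ∈ Std a d' := by
  rw [mem_Std] at hx ⊢
  obtain ⟨h1, h2⟩ := hx
  constructor
  · have h3 : ∑ i, du a x i + ∑ i, x i = ∑ i, (a i - 1) := by
      rw [← Finset.sum_add_distrib]
      refine Finset.sum_congr rfl fun i _ => ?_
      rw [du_apply]
      have := h2 i
      omega
    rw [S_eq] at h
    omega
  · intro i
    rw [du_apply]
    have := h2 i
    omega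

lemma du_lex {a : Fin n → ℕ} {x y : Fin n →₀ ℕ} (hx : ∀ i, x i < a i)
    (h : lexgt x y) : lexgt (du a y) (du a x) := by
  obtain ⟨j, h1, h2⟩ := h
  refine ⟨j, fun k hk => ?_, ?_⟩
  · rw [du_apply, du_apply, h1 k hk]
  · rw [du_apply, du_apply]
    have := hx j
    omega

lemma du_le {a : Fin n → ℕ} {x y : Fin n →₀ ℕ} (h : y ≤ x) : du a x ≤ du a y := by
  intro i
  rw [du_apply, du_apply]
  have := h i
  omega

lemma card_du {a : Fin n → ℕ} {d : ℕ} {N : Finset (Fin n →₀ ℕ)} (h : N ⊆ Std a d) :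
    (N.image (du a)).card = N.card := by
  apply Finset.card_image_of_injOn
  intro x hx y hy hxy
  have h1 := (mem_Std.1 (h hx)).2
  have h2 := (mem_Std.1 (h hy)).2
  rw [← du_du h1, ← du_du h2]
  exact congrArg (du a) hxy

end SHD_

open SHD_ in
/-- SHD. -/
theorem t_shd (h_SEGA : T_SEGA) (h_SEGB : T_SEGB) : T_SHD := by
  intro n a d d' v v' G _ hd hSh hv
  obtain ⟨M', hM', hM'c, hG⟩ := hSh
  obtain ⟨mi, -, -, -, hsh⟩ := h_SEGB n
  have hN' : IsSeg a (d' + 1) (shadow a d' M') := hsh a d' M' hM'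
  obtain ⟨htri, _, _, hex, _⟩ := h_SEGA n a d
  obtain ⟨M, hM, hMc⟩ := hex v (by omega)
  have hd1 : d' + 1 + d = S a n := by omega
  have hd2 : d + (d' + 1) = S a n := by omega
  have hd3 : d' + (d + 1) = S a n := by omega
  have hd4 : d + 1 + d' = S a n := by omega
  -- the dual of the shadow
  have hNs : (shadow a d' M').image (du a) ⊆ Std a d := by
    intro x hx
    rw [Finset.mem_image] at hx
    obtain ⟨y, hy, rfl⟩ := hx
    exact du_mem hd1 (hN'.1 hy)
  have hNc : ((shadow a d' M').image (du a)).card ≤ G := by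
    rw [card_du hN'.1]
    exact hG
  have hdisj : ∀ x, x ∈ M → x ∈ (shadow a d' M').image (du a) → False := by
    intro x hx hx'
    have hfin : ∀ y ∈ Std a d, lexgt x y → y ∈ (shadow a d' M').image (du a) := by
      intro y hy hxy
      rw [Finset.mem_image] at hx' ⊢
      obtain ⟨z, hz, hzx⟩ := hx'
      have hyS := (mem_Std.1 hy).2
      refine ⟨du a y, ?_, du_du hyS⟩
      refine hN'.2 z hz (du a y) (du_mem hd2 hy) ?_
      have hzS := (mem_Std.1 (hN'.1 hz)).2
      have h1 : du a x = z := by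
        rw [← hzx]
        exact du_du hzS
      rw [← h1]
      exact du_lex (mem_Std.1 (hM.1 hx)).2 hxy
    have hcov : Std a d ⊆ M ∪ (shadow a d' M').image (du a) := by
      intro y hy
      rw [Finset.mem_union]
      by_cases hyx : y = x
      · left
        rw [hyx]
        exact hx
      · rcases htri y x hyx with h1 | h1
        · left
          exact hM.2 x hx y hy h1
        · right
          exact hfin y hy h1
    have h2 := Finset.card_le_card hcov
    have h3 := Finset.card_union_add_card_inter M ((shadow a d' M').image (du a))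
    have h4 : 0 < (M ∩ (shadow a d' M').image (du a)).card :=
      Finset.card_pos.2 ⟨x, Finset.mem_inter.2 ⟨hx, hx'⟩⟩
    omega
  refine ⟨M, hM, hMc, ?_⟩
  have hsub : shadow a d M ⊆ Std a (d + 1) \ M'.image (du a) := by
    intro x hx
    unfold shadow at hx
    rw [Finset.mem_filter] at hx
    obtain ⟨hxS, y, hy, hyx⟩ := hx
    rw [Finset.mem_sdiff]
    refine ⟨hxS, fun hxM => ?_⟩
    rw [Finset.mem_image] at hxM
    obtain ⟨z, hz, hzx⟩ := hxM
    have hzS := (mem_Std.1 (hM'.1 hz)).2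
    have hdx : du a x = z := by
      rw [← hzx]
      exact du_du hzS
    have hyS := hM.1 hy
    have h5 : du a y ∈ shadow a d' M' := by
      unfold shadow
      rw [Finset.mem_filter]
      refine ⟨du_mem hd2 hyS, z, hz, ?_⟩
      rw [← hdx]
      exact du_le hyx
    refine hdisj y hy ?_
    rw [Finset.mem_image]
    exact ⟨du a y, h5, du_du (mem_Std.1 hyS).2⟩
  have hsub2 : M'.image (du a) ⊆ Std a (d + 1) := by
    intro x hx
    rw [Finset.mem_image] at hx
    obtain ⟨y, hy, rfl⟩ := hx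
    exact du_mem hd3 (hM'.1 hy)
  have h6 := Finset.card_le_card hsub
  rw [Finset.card_sdiff_of_subset hsub2, card_du hM'.1, hM'c] at h6
  exact h6

end Pool.Agent.EGU
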