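import Pool.Agent.EGU.Targets

set_option autoImplicit false
open MvPolynomial

/-!
Project EGU, target SOC: the socle of a complete intersection.
-/

namespace Pool.Agent.EGU

universe u

namespace SOC_

lemma rk_X (K : Type u) [Field K] (n : ℕ) :
    rk (fun k : Fin n => (X k : R K n)) = n := by
  unfold rk
  rw [finrank_span_eq_card (MvPolynomial.linearIndependent_X (Fin n) K), Fintype.card_fin]

lemma cob_single (K : Type u) [Field K] (n : ℕ) (l : Fin n → R K n)
    (c : Finset (Fin n) → R K n) (k : Fin n) : cob l c {k} = l k * c ∅ := by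
  simp [cob, Finset.sum_singleton, Finset.filter_singleton]

lemma cob_empty (K : Type u) [Field K] (n : ℕ) (l : Fin n → R K n)
    (c : Finset (Fin n) → R K n) : cob l c ∅ = 0 := by
  simp [cob]

end SOC_

/-- SOC. The socle of a complete intersection. -/
theorem t_soc (h_L1 : T_L1.{u}) (h_NUM : T_NUM) : T_SOC.{u} := by
  intro K _ n f a hf ha e p hp he hX
  have hn : 0 < n := by
    rcases Nat.eq_zero_or_pos n with h0 | h0
    · subst h0
      rw [(h_NUM 0 a).1] at he
      omega
    · exact h0
  have hr : rk (fun k : Fin n => (X k : R K n)) = n := SOC_.rk_X K n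
  obtain ⟨b, -, hb⟩ := h_L1 K n n n f a hf ha (fun k => X k)
    (fun t => (mem_homogeneousSubmodule 1 _).mpr (isHomogeneous_X K t)) 0 e
    (by rw [hr]; exact hn) (by rw [hr, Nat.sub_zero]; exact Or.inr he) (fun _ => p)
    (fun _ => hp) (by
      intro T hT
      obtain ⟨k, rfl⟩ := Finset.card_eq_one.mp (by simpa using hT)
      rw [SOC_.cob_single]
      exact hX k)
  have h1 := hb ∅ Finset.card_empty
  rw [SOC_.cob_empty, sub_zero] at h1
  exact h1

end Pool.Agent.EGU
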