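import Pool.Agent.EGU.Targets

set_option autoImplicit false
open MvPolynomial

namespace Pool.Agent.EGU

universe u

namespace SPLIT_

theorem finrank_map_add {K V V' : Type u} [Field K] [AddCommGroup V] [Module K V]
    [AddCommGroup V'] [Module K V'] (T : V →ₗ[K] V') (A : Submodule K V) [Module.Finite K A] :
    Module.finrank K (A.map T) + Module.finrank K (A ⊓ LinearMap.ker T : Submodule K V) =
      Module.finrank K A := by
  have h1 := LinearMap.finrank_range_add_finrank_ker (T.domRestrict A)
  rw [LinearMap.range_domRestrict] at h1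
  have h2 : Module.finrank K (LinearMap.ker (T.domRestrict A)) =
      Module.finrank K (A ⊓ LinearMap.ker T : Submodule K V) := by
    have e1 : (LinearMap.ker (T.domRestrict A)).map A.subtype = A ⊓ LinearMap.ker T := by
      ext x
      constructor
      · rintro ⟨y, hy, rfl⟩
        exact ⟨y.2, hy⟩
      · rintro ⟨hx, hx'⟩
        exact ⟨⟨x, hx⟩, hx', rfl⟩
    rw [← e1]
    exact (LinearEquiv.finrank_eq (Submodule.equivMapOfInjective A.subtype
      A.injective_subtype _))
  rw [h2] at h1
  exact h1

theorem split_general {K V : Type u} [Field K] [AddCommGroup V] [Module K V]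
    (T : V →ₗ[K] V) (A B : Submodule K V) [Module.Finite K A] [Module.Finite K B] :
    Module.finrank K A + Module.finrank K B =
      Module.finrank K (A ⊓ B.comap T : Submodule K V) +
        Module.finrank K (A.map T ⊔ B : Submodule K V) := by
  have hle : (A ⊓ B.comap T : Submodule K V) ≤ A := inf_le_left
  have f1 : Module.Finite K (A ⊓ B.comap T : Submodule K V) :=
    Submodule.finiteDimensional_of_le hle
  have f2 : Module.Finite K (A.map T) := inferInstance
  have h1 := finrank_map_add T A
  have h2 := finrank_map_add T (A ⊓ B.comap T)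
  have h3 := Submodule.finrank_sup_add_finrank_inf_eq (A.map T) B
  have e1 : (A ⊓ B.comap T).map T = A.map T ⊓ B := by
    ext x
    constructor
    · rintro ⟨y, ⟨hy, hy'⟩, rfl⟩
      exact ⟨⟨y, hy, rfl⟩, hy'⟩
    · rintro ⟨⟨y, hy, rfl⟩, hx⟩
      exact ⟨y, ⟨hy, hx⟩, rfl⟩
  have e2 : (A ⊓ B.comap T) ⊓ LinearMap.ker T = A ⊓ LinearMap.ker T := by
    ext x
    constructor
    · rintro ⟨⟨hx, -⟩, hx'⟩
      exact ⟨hx, hx'⟩
    · rintro ⟨hx, hx'⟩
      refine ⟨⟨hx, ?_⟩, hx'⟩
      rw [SetLike.mem_coe, LinearMap.mem_ker] at hx'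
      rw [SetLike.mem_coe, Submodule.mem_comap, hx']
      exact B.zero_mem
  rw [e1, e2] at h2
  omega

end SPLIT_

open SPLIT_

theorem t_split (h_DIMR : T_DIMR.{u}) (h_UPL : T_UPL.{u}) : T_SPLIT.{u} := by
  intro K _ n m f a hhom d W hJW hW l hl
  have hfin : ∀ e, Module.Finite K (Rd K n e) := fun e => (h_DIMR K n e).1
  have hfin' : ∀ (e : ℕ) (A : Submodule K (R K n)), A ≤ Rd K n e → Module.Finite K A := by
    intro e A hA
    have := hfin e
    exact Submodule.finiteDimensional_of_le hA
  have hJd : ∀ e, Jd f e ≤ Rd K n e := fun e => inf_le_left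
  obtain ⟨-, hup, -, -, hmul, hker, -, hJl⟩ := h_UPL K n m f a hhom d W hW
  have fW := hfin' d W hW
  have fJ1 := hfin' (d + 1) (Jd f (d + 1)) (hJd _)
  have fJ2 := hfin' (d + 2) (Jd f (d + 2)) (hJd _)
  have fU := hfin' (d + 1) (up f d W) hup
  have hdeg : ∀ (e : ℕ) (x : R K n), x ∈ Rd K n e → l * x ∈ Rd K n (e + 1) := by
    intro e x hx
    rw [mem_homogeneousSubmodule] at hx hl ⊢
    have := hl.mul hx
    rwa [add_comm 1 e] at this
  constructor
  · have h1 := split_general (LinearMap.mulLeft K l) W (Jd f (d + 1))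
    have e1 : W ⊓ (Jd f (d + 1)).comap (LinearMap.mulLeft K l) = kerW f l W := by
      ext x
      constructor
      · rintro ⟨hx, hx'⟩
        exact ⟨hx, hx'.2⟩
      · rintro ⟨hx, hx'⟩
        exact ⟨hx, hdeg d x (hW hx), hx'⟩
    rw [e1] at h1
    exact h1
  · have h1 := split_general (LinearMap.mulLeft K l) (up f d W) (Jd f (d + 2))
    have hmulR : ∀ (e : ℕ), Rd K n 1 * Rd K n e ≤ Rd K n (e + 1) := by
      intro e
      rw [Submodule.mul_le]
      intro x hx y hy
      rw [mem_homogeneousSubmodule] at hx hy ⊢
      have := hx.mul hy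
      rwa [add_comm 1 e] at this
    have h2 : up f d (kerW f l W) ≤
        up f d W ⊓ (Jd f (d + 2)).comap (LinearMap.mulLeft K l) := by
      apply le_inf
      · unfold up
        refine sup_le_sup_right ?_ _
        rw [Submodule.mul_le]
        intro x hx y hy
        exact Submodule.mul_mem_mul hx hy.1
      · unfold up
        apply sup_le
        · rw [Submodule.mul_le]
          intro x hx y hy
          rw [Submodule.mem_comap, LinearMap.mulLeft_apply]
          have h3 : x * y ∈ Rd K n (d + 1) :=
            hmulR d (Submodule.mul_mem_mul hx (hW hy.1))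
          refine ⟨hdeg (d + 1) _ h3, ?_⟩
          have h4 : l * y ∈ J f := hy.2
          have h5 : l * (x * y) = x * (l * y) := by ring
          rw [h5]
          exact Ideal.mul_mem_left _ _ h4
        · intro x hx
          rw [Submodule.mem_comap, LinearMap.mulLeft_apply]
          exact ⟨hdeg (d + 1) _ hx.1, Ideal.mul_mem_left _ _ hx.2⟩
    have h3 : up f (d + 1) (mulW f d l W) ≤
        (up f d W).map (LinearMap.mulLeft K l) ⊔ Jd f (d + 2) := by
      unfold up
      apply sup_le
      · rw [Submodule.mul_le]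
        intro x hx y hy
        unfold mulW at hy
        rw [Submodule.mem_sup] at hy
        obtain ⟨z, hz, w, hw, rfl⟩ := hy
        obtain ⟨z', hz', rfl⟩ := hz
        rw [mul_add]
        apply Submodule.add_mem_sup
        · refine ⟨x * z', Submodule.mem_sup_left (Submodule.mul_mem_mul hx hz'), ?_⟩
          rw [LinearMap.mulLeft_apply, LinearMap.mulLeft_apply]
          ring
        · refine ⟨hmulR (d + 1) (Submodule.mul_mem_mul hx hw.1), ?_⟩
          exact Ideal.mul_mem_left _ _ hw.2
      · exact le_sup_right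
    have f3 : Module.Finite K (up f d W ⊓ (Jd f (d + 2)).comap (LinearMap.mulLeft K l) :
        Submodule K (R K n)) :=
      Submodule.finiteDimensional_of_le (inf_le_left : _ ≤ up f d W)
    have f4 : Module.Finite K ((up f d W).map (LinearMap.mulLeft K l) ⊔ Jd f (d + 2) :
        Submodule K (R K n)) := inferInstance
    have h4 := Submodule.finrank_mono h2
    have h5 := Submodule.finrank_mono h3
    omega

end Pool.Agent.EGU
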