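import Pool.Agent.EGU.Targets

set_option autoImplicit false
open MvPolynomial

/-!
Project EGU: counting standard monomials.
-/

namespace Pool.Agent.EGU

universe u

noncomputable section

namespace STD_

theorem mem_Std {n : ℕ} (a : Fin n → ℕ) (d : ℕ) (x : Fin n →₀ ℕ) :
    x ∈ Std a d ↔ ∑ i, x i = d ∧ ∀ i, x i < a i := by
  unfold Std
  rw [Finset.mem_filter, Finset.mem_finsuppAntidiag]
  simp

theorem S_all {n : ℕ} (a : Fin n → ℕ) : S a n = ∑ i, (a i - 1) := by
  unfold S
  refine Finset.sum_congr ?_ fun _ _ => rfl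
  ext i
  simp

/-- the involution -/
def inv {n : ℕ} (a : Fin n → ℕ) (x : Fin n →₀ ℕ) : Fin n →₀ ℕ :=
  Finsupp.equivFunOnFinite.symm fun i => a i - 1 - x i

theorem inv_apply {n : ℕ} (a : Fin n → ℕ) (x : Fin n →₀ ℕ) (i : Fin n) :
    inv a x i = a i - 1 - x i := rfl

theorem inv_mem {n : ℕ} (a : Fin n → ℕ) (ha : ∀ i, 1 ≤ a i) {d d' : ℕ} (h : d + d' = S a n)
    {x : Fin n →₀ ℕ} (hx : x ∈ Std a d) : inv a x ∈ Std a d' := by
  rw [mem_Std] at hx ⊢
  constructor
  · have h1 : ∑ i, inv a x i + ∑ i, x i = ∑ i, (a i - 1) := by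
      rw [← Finset.sum_add_distrib]
      refine Finset.sum_congr rfl fun i _ => ?_
      rw [inv_apply]
      have := hx.2 i
      omega
    rw [S_all] at h
    omega
  · intro i
    rw [inv_apply]
    have := ha i
    omega

theorem inv_inv {n : ℕ} (a : Fin n → ℕ) {d : ℕ} {x : Fin n →₀ ℕ} (hx : x ∈ Std a d) :
    inv a (inv a x) = x := by
  rw [mem_Std] at hx
  ext i
  rw [inv_apply, inv_apply]
  have := hx.2 i
  omega

theorem card_eq {n : ℕ} (a : Fin n → ℕ) (ha : ∀ i, 1 ≤ a i) {d d' : ℕ} (h : d + d' = S a n) :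
    (Std a d).card = (Std a d').card := by
  refine Finset.card_bij' (fun x _ => inv a x) (fun x _ => inv a x) ?_ ?_ ?_ ?_
  · exact fun x hx => inv_mem a ha h hx
  · exact fun x hx => inv_mem a ha (by rw [add_comm]; exact h) hx
  · exact fun x hx => inv_inv a hx
  · exact fun x hx => inv_inv a hx

theorem Std_zero {n : ℕ} (a : Fin n → ℕ) (ha : ∀ i, 1 ≤ a i) : Std a 0 = {0} := by
  ext x
  rw [mem_Std, Finset.mem_singleton]
  constructor
  · rintro ⟨h, -⟩
    ext i
    exact (Finset.sum_eq_zero_iff.1 h) i (Finset.mem_univ i)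
  · rintro rfl
    refine ⟨by simp, fun i => ?_⟩
    have := ha i
    simp only [Finsupp.coe_zero, Pi.zero_apply]
    omega

end STD_

open STD_ in
theorem t_std : T_STD := by
  intro n a ha
  have h0 : (Std a 0).card = 1 := by rw [Std_zero a ha, Finset.card_singleton]
  refine ⟨fun d d' h => card_eq a ha h, h0, ?_, ?_⟩
  · rw [← h0]
    exact card_eq a ha (add_zero _)
  · intro d hd
    rw [Finset.eq_empty_iff_forall_notMem]
    intro x hx
    rw [mem_Std] at hx
    have h1 : ∑ i, x i ≤ ∑ i, (a i - 1) := by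
      refine Finset.sum_le_sum fun i _ => ?_
      have := hx.2 i
      omega
    rw [S_all] at hd
    omega

end

end Pool.Agent.EGU
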