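import Pool.Agent.EGU.P_NUM

set_option autoImplicit false
open MvPolynomial

/-!
Target TRU of the project EGU: forms of large degree do not matter.
-/

namespace Pool.Agent.EGU

universe u

namespace TRU_

theorem lt_iff {m : ℕ} (a : Fin m → ℕ) (ha : Monotone a) (d : ℕ) (j : Fin m) :
    (j : ℕ) < (Finset.univ.filter (fun i : Fin m => a i ≤ d + 1)).card ↔ a j ≤ d + 1 := by
  constructor
  · intro h
    by_contra hcon
    have h1 : Finset.univ.filter (fun i : Fin m => a i ≤ d + 1) ⊆
        Finset.univ.filter (fun i : Fin m => (i : ℕ) < (j : ℕ)) := by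
      intro i hi
      simp only [Finset.mem_filter, Finset.mem_univ, true_and] at hi ⊢
      by_contra hi'
      have h2 : a j ≤ a i := ha (by rw [Fin.le_def]; omega)
      omega
    have h2 := Finset.card_le_card h1
    rw [NUM_.card_lt m j j.2.le] at h2
    omega
  · intro h
    have h1 : Finset.univ.filter (fun i : Fin m => (i : ℕ) < (j : ℕ) + 1) ⊆
        Finset.univ.filter (fun i : Fin m => a i ≤ d + 1) := by
      intro i hi
      simp only [Finset.mem_filter, Finset.mem_univ, true_and] at hi ⊢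
      exact (ha (by rw [Fin.le_def]; omega)).trans h
    have h2 := Finset.card_le_card h1
    rw [NUM_.card_lt m (j + 1) (by have := j.2; omega)] at h2
    omega

theorem jd_eq (h_JD : T_JD.{u}) {K : Type u} [Field K] {n m k : ℕ} (hk : k ≤ m)
    (f : Fin m → R K n) (a : Fin m → ℕ) (hf : ∀ i, (f i).IsHomogeneous (a i)) (e : ℕ)
    (h : ∀ j : Fin m, k ≤ (j : ℕ) → e < a j) : Jd (f ∘ Fin.castLE hk) e = Jd f e := by
  apply le_antisymm
  · rintro x ⟨h1, h2⟩
    refine ⟨h1, ?_⟩
    have h3 : J (f ∘ Fin.castLE hk) ≤ J f := by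
      unfold J
      refine Ideal.span_mono ?_
      rintro _ ⟨i, rfl⟩
      exact ⟨Fin.castLE hk i, rfl⟩
    exact h3 h2
  · intro x hx
    have hx1 := hx.1
    rw [(h_JD K n m f a hf).1 e x] at hx
    obtain ⟨y, hy, rfl⟩ := hx
    refine ⟨hx1, ?_⟩
    refine Ideal.sum_mem _ fun j _ => ?_
    by_cases hj : (j : ℕ) < k
    · refine Ideal.mul_mem_left _ _ (Ideal.subset_span ⟨⟨j, hj⟩, ?_⟩)
      rfl
    · have h3 := hy j
      unfold Rm at h3
      rw [if_neg (by have := h j (by omega); omega), Submodule.mem_bot] at h3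
      rw [h3, zero_mul]
      exact Ideal.zero_mem _

theorem ci_cast {K : Type u} [Field K] {n m k : ℕ} (hk : k ≤ m)
    (f : Fin m → R K n) (a : Fin m → ℕ) (hf : CI f a) :
    CI (f ∘ Fin.castLE hk) (a ∘ Fin.castLE hk) := by
  refine ⟨fun i => hf.pos _, fun i => hf.hom _, fun j p hp => ?_⟩
  have h1 : (f ∘ Fin.castLE hk) '' {i | i < j} = f '' {i | i < Fin.castLE hk j} := by
    ext x
    constructor
    · rintro ⟨i, hi, rfl⟩
      exact ⟨Fin.castLE hk i, hi, rfl⟩
    · rintro ⟨i, hi, rfl⟩
      have hi' : (i : ℕ) < (j : ℕ) := hi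
      exact ⟨⟨i, by have := j.2; omega⟩, hi', rfl⟩
  rw [h1] at hp ⊢
  exact hf.reg _ p hp

end TRU_

open TRU_ in
theorem t_tru (h_JD : T_JD.{u}) : T_TRU.{u} := by
  intro K _ n m d f a hf ha
  set k := (Finset.univ.filter (fun i : Fin m => a i ≤ d + 1)).card with hkdef
  have hk : k ≤ m := by
    have h := Finset.card_filter_le (Finset.univ : Finset (Fin m)) (fun i => a i ≤ d + 1)
    rw [Finset.card_univ, Fintype.card_fin] at h
    exact h
  have hbig : ∀ j : Fin m, k ≤ (j : ℕ) → d + 1 < a j := by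
    intro j hj
    by_contra hcon
    have := (lt_iff a ha d j).2 (by omega)
    omega
  refine ⟨k, hk, jd_eq h_JD hk f a hf.hom d (fun j hj => by have := hbig j hj; omega),
    jd_eq h_JD hk f a hf.hom (d + 1) hbig, ci_cast hk f a hf, fun x => ?_⟩
  unfold P Pt
  refine Finset.card_bij (fun j _ => Fin.castLE hk j) ?_ ?_ ?_
  · intro j hj
    simp only [Finset.mem_filter, Finset.mem_univ, true_and] at hj ⊢
    refine ⟨(lt_iff a ha d _).1 ?_, ?_⟩
    · have := j.2
      exact this
    · rw [NUM_.S_cast m a k hk _ (by have := j.2; omega)] at hj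
      exact hj
  · intro i _ j _ hij
    exact Fin.castLE_injective hk hij
  · intro j hj
    simp only [Finset.mem_filter, Finset.mem_univ, true_and] at hj
    have h1 := (lt_iff a ha d j).2 hj.1
    refine ⟨⟨j, h1⟩, ?_, rfl⟩
    simp only [Finset.mem_filter, Finset.mem_univ, true_and]
    rw [NUM_.S_cast m a k hk _ (by omega)]
    exact hj.2

end Pool.Agent.EGU
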