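import Pool.Agent.EGU.Targets

set_option autoImplicit false
open MvPolynomial

/-!
The universal growth inequality (project EGU, MP_e5dae2_al).
-/

namespace Pool.Agent.EGU

universe u

/-- The universal growth inequality, by induction on the dimension. -/
theorem t_uni (h_BASIS : T_BASIS.{u}) (h_ANN : T_ANN.{u}) (h_L3 : T_L3.{u}) (h_HYP : T_HYP.{u})
    (h_UPL : T_UPL.{u}) : T_UNI.{u} := by
  intro K _ _ n m d v t f a hf ha
  have hfin : Module.Finite K (Rd K n (d + 1)) :=
    Module.Finite.of_fg (homogeneousSubmodule_fg (Fin n) K (d + 1))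
  induction v with
  | zero =>
    intro W hJ hW hc ht
    obtain ⟨w, hw, hli, hWf⟩ := (h_BASIS K n m f d 1).1 W hJ hW (by simpa using hc)
    have hw0 : w = fun _ : Fin 1 => w 0 := by
      funext i
      rw [Subsingleton.elim i 0]
    have hmem : w 0 ∈ W := by
      rw [hWf]
      exact Submodule.mem_sup_right (Submodule.subset_span ⟨0, rfl⟩)
    have hnot : w 0 ∉ J f := by
      intro h0
      have h1 := hli (fun _ => 1) (by simpa using h0)
      have h2 := congrFun h1 0
      simp at h2
    have h1 := (h_ANN K n m f a hf ha d (w 0) (hw 0)).1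
    rw [← hw0, ← hWf] at h1
    have h2 := ht (w 0) hmem hnot
    have h3 := h_UPL K n m f a hf.hom d W hW
    have : Module.Finite K (up f d W) := Submodule.finiteDimensional_of_le h3.2.1
    have h4 := Submodule.finrank_mono h3.1
    simp only [Finset.range_zero, Finset.sum_empty]
    omega
  | succ v ih =>
    intro W hJ hW hc ht
    obtain ⟨w, hw, hli, hWf⟩ := (h_BASIS K n m f d (v + 2)).1 W hJ hW (by omega)
    have hne : ∃ k, w k ∉ J f := by
      by_contra hcon
      push Not at hcon
      have h1 := hli (fun _ => 1) (by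
        simp only [one_smul]
        exact Ideal.sum_mem _ (fun k _ => hcon k))
      have h2 := congrFun h1 0
      simp at h2
    obtain ⟨p, hp, hL⟩ := h_L3 K n m (v + 2) d f a hf ha w hw hne
    obtain ⟨hB1, hB2, hB3, hB4⟩ := (h_BASIS K n m f d (v + 2)).2 w hw hli
    obtain ⟨hP1, hP2, hP3⟩ := hB4 p hp
    rw [← hWf] at hP2
    have hih := ih (Wp f d w p) hP1 (hP2.trans hW) (by omega)
      (fun x hx => ht x (hP2 hx))
    have hH := h_HYP K n m f a hf.hom d (v + 2) w hw p hp
    rw [← hWf] at hH
    have h3 := h_UPL K n m f a hf.hom d W hW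
    have : Module.Finite K (up f d W) := Submodule.finiteDimensional_of_le h3.2.1
    have h4 := Submodule.finrank_mono (h3.2.2.2.1 (Wp f d w p) hP2)
    have hd : d + (v + 2) - 1 = d + v + 1 := by omega
    rw [hd] at hL
    rw [Finset.sum_range_succ]
    omega

end Pool.Agent.EGU
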