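import Pool.Agent.EGU.Targets

set_option autoImplicit false
open MvPolynomial

namespace Pool.Agent.EGU

universe u

namespace UPL_

variable {K : Type u} [Field K] {n m : ℕ}

theorem mul_mem_Rd {l p : R K n} {d : ℕ} (hl : l ∈ Rd K n 1) (hp : p ∈ Rd K n d) :
    l * p ∈ Rd K n (d + 1) := by
  rw [mem_homogeneousSubmodule] at hl hp ⊢
  have h := hl.mul hp
  rwa [add_comm 1 d] at h

theorem mul_mem_Jd (f : Fin m → R K n) {l p : R K n} {d : ℕ} (hl : l ∈ Rd K n 1)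
    (hp : p ∈ Jd f d) : l * p ∈ Jd f (d + 1) :=
  ⟨mul_mem_Rd hl hp.1, (J f).mul_mem_left l hp.2⟩

theorem Jd_le_Rd (f : Fin m → R K n) (d : ℕ) : Jd f d ≤ Rd K n d := inf_le_left

theorem mul_le {d : ℕ} {W : Submodule K (R K n)} (hW : W ≤ Rd K n d) :
    Rd K n 1 * W ≤ Rd K n (d + 1) :=
  Submodule.mul_le.2 fun _ hl _ hw => mul_mem_Rd hl (hW hw)

end UPL_

open UPL_

theorem t_upl : T_UPL.{u} := by
  intro K _ n m f a _ d W hW
  refine ⟨le_sup_right, sup_le (mul_le hW) (Jd_le_Rd f (d + 1)), ?_, ?_, ?_, ?_, ?_, ?_⟩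
  · exact le_antisymm (sup_le (Submodule.mul_le.2 fun l hl p hp => mul_mem_Jd f hl hp) le_rfl)
      le_sup_right
  · intro W' hW'
    exact sup_le_sup (Submodule.mul_le.2 fun l hl p hp => Submodule.mul_mem_mul hl (hW' hp)) le_rfl
  · intro l hl
    refine ⟨sup_le ?_ le_sup_right, sup_le ?_ (Jd_le_Rd f (d + 1))⟩
    · rintro _ ⟨w, hw, rfl⟩
      exact Submodule.mem_sup_left (Submodule.mul_mem_mul hl hw)
    · rintro _ ⟨w, hw, rfl⟩
      exact mul_mem_Rd hl (hW hw)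
  · intro l _ hJ
    refine le_inf hJ ?_
    intro p hp
    exact (J f).mul_mem_left l hp.2
  · intro e
    refine ⟨fun h hh => ⟨hh.1, fun w _ => (J f).mul_mem_right w hh.2⟩, fun h hh => hh.1⟩
  · intro p hp l hl
    exact mul_mem_Jd f hl hp

end Pool.Agent.EGU
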