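import Pool.Agent.EGU.Targets

/-!
# Project EGU: growth of two-dimensional spaces (V2)
-/

set_option autoImplicit false
open MvPolynomial

namespace Pool.Agent.EGU

universe u

noncomputable section

namespace V2_

variable {K : Type u} [Field K] {n m : ℕ}

theorem annW_le (f : Fin m → R K n) (W : Submodule K (R K n)) : AnnW f W ≤ Rd K n 1 :=
  fun _ h => h.1

theorem ann1_le (f : Fin m → R K n) (w : R K n) : Ann1 f w ≤ Rd K n 1 :=
  fun _ h => h.1

/-- the numbers `P a d`, `P a (d+1)` -/
theorem num (h_NUM : T_NUM) (a : Fin n → ℕ) (ha : ∀ i, 2 ≤ a i) (d p : ℕ) (hp : p < n)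
    (h1 : S a p ≤ d) (h2 : d < S a (p + 1)) :
    P a d = p ∧ P a (d + 1) ≤ p + 1 ∧ (d + 1 < S a (p + 1) → P a (d + 1) ≤ p) := by
  obtain ⟨_, N2, _, _, N5, N6, _, _, _⟩ := h_NUM n a
  refine ⟨?_, ?_, ?_⟩
  · have e1 : p ≤ P a d := (N6 p d hp.le).2 h1
    have e2 : ¬ p + 1 ≤ P a d := fun h => by
      have := (N6 (p + 1) d hp).1 h
      omega
    omega
  · by_contra h
    have h3 : p + 2 ≤ P a (d + 1) := by omega
    have h4 : p + 2 ≤ n := le_trans h3 (N5 _)
    have h5 := (N6 (p + 2) (d + 1) h4).1 h3
    have h6 := N2 (p + 1) (by omega)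
    have h7 := ha ⟨p + 1, by omega⟩
    have h8 : S a (p + 1 + 1) = S a (p + 2) := rfl
    omega
  · intro h
    by_contra h3
    have h4 : p + 1 ≤ P a (d + 1) := by omega
    have h5 := (N6 (p + 1) (d + 1) hp).1 h4
    omega

end V2_

open V2_

theorem t_v2 (h_UNI : T_UNI.{u}) (h_ANN : T_ANN.{u}) (h_SPLIT : T_SPLIT.{u})
    (h_KILL : T_KILL.{u}) (h_L3 : T_L3.{u}) (h_HYP : T_HYP.{u}) (h_BASIS : T_BASIS.{u})
    (h_NUM : T_NUM) (h_UPL : T_UPL.{u}) (h_DIMR : T_DIMR.{u}) : T_V2.{u} := by
  intro K _ _ n d p f a hf ha ha2 hp hS1 hS2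
  obtain ⟨hPd, hPd1, hPd1'⟩ := num h_NUM a ha2 d p hp hS1 hS2
  have hfin : ∀ e, Module.Finite K (Rd K n e) := fun e => (h_DIMR K n e).1
  have hR1 : Module.finrank K (Rd K n 1) = n := (h_DIMR K n 1).2.2
  -- the one dimensional case of the growth inequality
  have hone : ∀ (e t : ℕ) (V : Submodule K (R K n)), Jd f e ≤ V → V ≤ Rd K n e →
      Module.finrank K V = Module.finrank K (Jd f e) + 1 →
      (∀ w ∈ V, w ∉ J f → Module.finrank K (Ann1 f w) ≤ t) →
      Module.finrank K (Jd f (e + 1)) + (n - t) ≤ Module.finrank K (up f e V) := by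
    intro e t V h1 h2 h3 h4
    have h5 := h_UNI K n n e 0 t f a hf ha V h1 h2 h3 h4
    simpa using h5
  have core : ∀ W : Submodule K (R K n), Jd f d ≤ W → W ≤ Rd K n d →
      Module.finrank K W = Module.finrank K (Jd f d) + 2 →
      Module.finrank K (Jd f (d + 1)) + (2 * (n - p) - 1) ≤ Module.finrank K (up f d W) ∧
      ((d = S a p ∨ p + 1 = n) → d + 1 < S a (p + 1) →
        Module.finrank K (Jd f (d + 1)) + 2 * (n - p) ≤ Module.finrank K (up f d W)) := by
    intro W hW1 hW2 hW3
    have := hfin d
    have := hfin 1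
    have := hfin (d + 1)
    have hWf : Module.Finite K W := Submodule.finiteDimensional_of_le hW2
    have hU := h_UPL K n n f a hf.hom d W hW2
    obtain ⟨_, hU2, _, _, hU5, hU6, _, _⟩ := hU
    have hTf : Module.Finite K (AnnW f W) := Submodule.finiteDimensional_of_le (annW_le f W)
    by_cases hcase : ∃ l ∈ Rd K n 1, l ∉ AnnW f W ∧ ∃ w ∈ W, w ∉ J f ∧ l * w ∈ J f
    · obtain ⟨l, hl, hlT, w, hw, hwJ, hlw⟩ := hcase
      have hk1 : Jd f d ≤ kerW f l W := hU6 l hl hW1
      have hk2 : kerW f l W ≤ W := inf_le_left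
      have hkf : Module.Finite K (kerW f l W) :=
        Submodule.finiteDimensional_of_le (le_trans hk2 hW2)
      have hk3 : Module.finrank K (Jd f d) < Module.finrank K (kerW f l W) := by
        apply Submodule.finrank_lt_finrank_of_lt
        refine lt_of_le_of_ne hk1 ?_
        intro h
        have h1 : w ∈ kerW f l W := ⟨hw, hlw⟩
        rw [← h] at h1
        exact hwJ h1.2
      have hk4 : Module.finrank K (kerW f l W) < Module.finrank K W := by
        apply Submodule.finrank_lt_finrank_of_lt
        refine lt_of_le_of_ne hk2 ?_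
        intro h
        apply hlT
        refine ⟨hl, fun v hv => ?_⟩
        rw [← h] at hv
        exact hv.2
      have hk5 : Module.finrank K (kerW f l W) = Module.finrank K (Jd f d) + 1 := by omega
      obtain ⟨hs1, hs2⟩ := h_SPLIT K n n f a hf.hom d W hW1 hW2 l hl
      have hm1 : Module.finrank K (mulW f d l W) = Module.finrank K (Jd f (d + 1)) + 1 := by
        omega
      have hm2 : Jd f (d + 1) ≤ mulW f d l W := le_sup_right
      have hm3 : mulW f d l W ≤ Rd K n (d + 1) := (hU5 l hl).2
      have g1 := hone d (P a d) (kerW f l W) hk1 (le_trans hk2 hW2) hk5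
        (fun v hv hvJ => (h_ANN K n n f a hf ha d v (hW2 (hk2 hv))).2 inferInstance hvJ)
      have g2 := hone (d + 1) (P a (d + 1)) (mulW f d l W) hm2 hm3 hm1
        (fun v hv hvJ => (h_ANN K n n f a hf ha (d + 1) v (hm3 hv)).2 inferInstance hvJ)
      rw [hPd] at g1
      have hs3 : Module.finrank K (up f d (kerW f l W)) +
          Module.finrank K (up f (d + 1) (mulW f d l W)) ≤
          Module.finrank K (up f d W) + Module.finrank K (Jd f (d + 1 + 1)) := hs2
      refine ⟨by omega, fun _ h => ?_⟩
      have h3 := hPd1' h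
      omega
    · push Not at hcase
      have hT : ∀ w ∈ W, w ∉ J f → Ann1 f w = AnnW f W := by
        intro w hw hwJ
        apply le_antisymm
        · intro l hl
          by_contra hlT
          exact hcase l hl.1 hlT w hw hwJ hl.2
        · intro l hl
          exact ⟨hl.1, hl.2 w hw⟩
      obtain ⟨w, hw1, hw2, hw3⟩ := (h_BASIS K n n f d 2).1 W hW1 hW2 hW3
      have hwW : ∀ k, w k ∈ W := by
        intro k
        rw [hw3]
        exact (le_sup_right : _ ≤ Wf f d w) (Submodule.subset_span ⟨k, rfl⟩)
      have hwJ : w 0 ∉ J f := by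
        intro h
        have h1 := hw2 (Pi.single 0 1) (by
          rw [Finset.sum_eq_single (0 : Fin 2)]
          · simpa using h
          · intro b _ hb
            rw [Pi.single_eq_of_ne hb, zero_smul]
          · intro hb
            exact absurd (Finset.mem_univ _) hb)
        have h2 := congrFun h1 0
        simp at h2
      have hex : ∃ k, w k ∉ J f := ⟨0, hwJ⟩
      have ht : Module.finrank K (AnnW f W) ≤ p := by
        rw [← hT (w 0) (hwW 0) hwJ, ← hPd]
        exact (h_ANN K n n f a hf ha d (w 0) (hw1 0)).2 inferInstance hwJ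
      -- the growth from a small `L_q`
      have hgrow : ∀ q : Fin 2 → K, q ≠ 0 →
          Module.finrank K (Jd f (d + 1)) + (n - Module.finrank K (AnnW f W)) + n ≤
            Module.finrank K (up f d W) + Module.finrank K (L f w q) := by
        intro q hq
        have h1 := h_HYP K n n f a hf.hom d 2 w hw1 q hq
        obtain ⟨_, _, _, h5⟩ := (h_BASIS K n n f d 2).2 w hw1 hw2
        obtain ⟨h6, h7, h8⟩ := h5 q hq
        rw [← hw3] at h1 h7
        have h9 := hone d (Module.finrank K (AnnW f W)) (Wp f d w q) h6 (le_trans h7 hW2)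
          (by omega) (fun v hv hvJ => by rw [hT v (h7 hv) hvJ])
        omega
      rcases Nat.lt_or_ge (Module.finrank K (AnnW f W)) p with hlt | hge
      · obtain ⟨q, hq, hL⟩ := h_L3 K n n 2 d f a hf ha w hw1 hex
        have h1 := hgrow q hq
        have h2 : d + 2 - 1 = d + 1 := rfl
        rw [h2] at hL
        refine ⟨by omega, fun _ h => ?_⟩
        have h3 := hPd1' h
        omega
      · have hteq : Module.finrank K (AnnW f W) = p := le_antisymm ht hge
        let b := Module.finBasisOfFinrankEq K (AnnW f W) hteq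
        have hbl : LinearIndependent K (fun t : Fin p => ((b t : AnnW f W) : R K n)) :=
          b.linearIndependent.map' (AnnW f W).subtype (Submodule.ker_subtype _)
        obtain ⟨_, _, q, hq, hL1, hL2⟩ := h_KILL K n n p f a hf ha
          (fun t : Fin p => ((b t : AnnW f W) : R K n)) (fun t => (b t).2.1) hbl d 2 w hw1 hex
          (fun t k => (b t).2.2 (w k) (hwW k)) (Or.inr hS2)
        have h1 := hgrow q hq
        refine ⟨by omega, fun h hlt => ?_⟩
        rcases h with h | h
        · have h2 := hL2 h
          omega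
        · -- `p + 1 = n`
          obtain ⟨x, hx1, hx2⟩ : ∃ x ∈ Rd K n 1, x ∉ AnnW f W := by
            by_contra hno
            push Not at hno
            have h3 : Module.finrank K (Rd K n 1) ≤ Module.finrank K (AnnW f W) :=
              Submodule.finrank_mono hno
            omega
          have hk : kerW f x W = Jd f d := by
            apply le_antisymm
            · intro v hv
              have hvW : v ∈ W := hv.1
              have hvx : x * v ∈ J f := hv.2
              refine ⟨hW2 hvW, ?_⟩
              by_contra hvJ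
              exact hcase x hx1 hx2 v hvW hvJ hvx
            · exact hU6 x hx1 hW1
          obtain ⟨hs1, _⟩ := h_SPLIT K n n f a hf.hom d W hW1 hW2 x hx1
          rw [hk] at hs1
          have hupf : Module.Finite K (up f d W) := Submodule.finiteDimensional_of_le hU2
          have h3 : Module.finrank K (mulW f d x W) ≤ Module.finrank K (up f d W) :=
            Submodule.finrank_mono (hU5 x hx1).1
          omega
  exact ⟨fun W h1 h2 h3 => (core W h1 h2 h3).1, fun h4 h5 W h1 h2 h3 => (core W h1 h2 h3).2 h4 h5⟩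

end

end Pool.Agent.EGU
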