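import Pool.Agent.EGU.Targets

set_option autoImplicit false
open MvPolynomial

/-! T_XCI (MP_e5dae2_al): powers of the variables are a regular sequence. -/

namespace Pool.Agent.EGU

universe u

namespace XCI_

variable {K : Type u} [Field K] {n : ℕ}

/-- membership in a monomial ideal is not seen by multiplication by a power of another variable -/
lemma key (S : Set (Fin n →₀ ℕ)) (j : Fin n) (hS : ∀ s ∈ S, s j = 0) (c : ℕ) (p : R K n)
    (h : p * X j ^ c ∈ Ideal.span ((fun s : Fin n →₀ ℕ => monomial s (1 : K)) '' S)) :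
    p ∈ Ideal.span ((fun s : Fin n →₀ ℕ => monomial s (1 : K)) '' S) := by
  rw [mem_ideal_span_monomial_image] at h ⊢
  intro m hm
  have h1 : m + Finsupp.single j c ∈ (p * X j ^ c).support := by
    rw [mem_support_iff] at hm ⊢
    rw [X_pow_eq_monomial, coeff_mul_monomial, mul_one]
    exact hm
  obtain ⟨s, hs, hle⟩ := h _ h1
  refine ⟨s, hs, ?_⟩
  intro i
  have h2 := hle i
  by_cases hij : i = j
  · subst hij
    rw [hS s hs]
    exact Nat.zero_le _
  · have h3 : (m + Finsupp.single j c) i = m i := by
      rw [Finsupp.add_apply, Finsupp.single_eq_of_ne hij, add_zero]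
    rw [h3] at h2
    exact h2

lemma img (a : Fin n → ℕ) (j : Fin n) :
    (fun i : Fin n => (X i : R K n) ^ a i) '' {i | i < j} =
      (fun s : Fin n →₀ ℕ => monomial s (1 : K)) ''
        ((fun i : Fin n => Finsupp.single i (a i)) '' {i | i < j}) := by
  rw [Set.image_image]
  apply Set.image_congr
  intro i _
  exact X_pow_eq_monomial

end XCI_

open XCI_ in
theorem t_xci : T_XCI.{u} := by
  intro K _ n a ha
  refine ⟨ha, ?_, ?_⟩
  · intro i
    have := (isHomogeneous_X K i).pow (a i)
    rwa [one_mul] at this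
  · intro j p hp
    rw [img] at hp ⊢
    refine key _ j ?_ (a j) p hp
    rintro s ⟨i, hi, rfl⟩
    exact Finsupp.single_eq_of_ne (ne_of_gt hi)

end Pool.Agent.EGU
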