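import Pool.Agent.EGU.Final
import Pool.Agent.EGU.P_ANN
import Pool.Agent.EGU.P_BASE
import Pool.Agent.EGU.P_BASIS
import Pool.Agent.EGU.P_BC1
import Pool.Agent.EGU.P_BC2
import Pool.Agent.EGU.P_BV
import Pool.Agent.EGU.P_CIR
import Pool.Agent.EGU.P_COB
import Pool.Agent.EGU.P_CONE
import Pool.Agent.EGU.P_DIMR
import Pool.Agent.EGU.P_EIG
import Pool.Agent.EGU.P_EMB
import Pool.Agent.EGU.P_HF1
import Pool.Agent.EGU.P_HYP
import Pool.Agent.EGU.P_JD
import Pool.Agent.EGU.P_KILL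
import Pool.Agent.EGU.P_L1
import Pool.Agent.EGU.P_L3
import Pool.Agent.EGU.P_LCI
import Pool.Agent.EGU.P_LEXN
import Pool.Agent.EGU.P_LIN
import Pool.Agent.EGU.P_LINV
import Pool.Agent.EGU.P_MONDIM
import Pool.Agent.EGU.P_NUM
import Pool.Agent.EGU.P_NZD
import Pool.Agent.EGU.P_PENC
import Pool.Agent.EGU.P_PERF
import Pool.Agent.EGU.P_REG
import Pool.Agent.EGU.P_SEGA
import Pool.Agent.EGU.P_SEGB
import Pool.Agent.EGU.P_SH1
import Pool.Agent.EGU.P_SH2
import Pool.Agent.EGU.P_SH3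
import Pool.Agent.EGU.P_SHB
import Pool.Agent.EGU.P_SHD
import Pool.Agent.EGU.P_SOC
import Pool.Agent.EGU.P_SPLIT
import Pool.Agent.EGU.P_STD
import Pool.Agent.EGU.P_TRU
import Pool.Agent.EGU.P_UNI
import Pool.Agent.EGU.P_UPL
import Pool.Agent.EGU.P_V2
import Pool.Agent.EGU.P_XCI

set_option autoImplicit false
open MvPolynomial

/-!
All targets of the project EGU put together.
-/

namespace Pool.Agent.EGU

universe u

theorem a_hf : T_HF.{u} := by
  intro K _ n f a hf d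
  rw [t_hf1 t_cir t_jd t_dimr K n n f _ a hf (t_xci K n a hf.pos) d]
  exact t_mondim K n a d

theorem a_base : T_BASE.{u} := t_base (t_cone t_cob) t_nzd

theorem a_l1 : T_L1.{u} := t_l1 a_base t_cir t_jd t_num t_cob

theorem a_lin : T_LIN.{u} := t_lin (t_linv t_penc t_eig)

theorem a_l3 : T_L3.{u} := t_l3 a_l1 a_lin t_cob t_num t_dimr

theorem a_hyp : T_HYP.{u} := t_hyp t_dimr t_upl

theorem a_ann : T_ANN.{u} := t_ann a_hyp a_l3 t_upl

theorem a_basis : T_BASIS.{u} := t_basis t_dimr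

theorem a_uni : T_UNI.{u} := t_uni a_basis a_ann a_l3 a_hyp t_upl

theorem a_split : T_SPLIT.{u} := t_split t_dimr t_upl

theorem a_emb : T_EMB.{u} := t_emb a_base a_l1 t_cir t_jd t_num t_cob

theorem a_lci : T_LCI.{u} := t_lci t_nzd

theorem a_kill : T_KILL.{u} := t_kill a_emb a_l3 a_lci t_jd t_dimr

theorem a_bv : T_BV.{u} :=
  t_bv t_num t_dimr t_upl a_basis a_hyp a_ann a_uni a_split a_kill

theorem a_v2 : T_V2.{u} :=
  t_v2 a_uni a_ann a_split a_kill a_l3 a_hyp a_basis t_num t_upl t_dimr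

theorem a_perf : T_PERF.{u} := t_perf (t_soc a_l1 t_num) a_hf t_std t_dimr

theorem a_tru : T_TRU.{u} := t_tru t_jd

theorem a_bc2 : T_BC2.{u} := t_bc2 t_jd t_dimr

theorem a_lexn : T_LEXN.{u} := t_lexn t_sega t_segb

theorem a_shd : T_SHD := t_shd t_sega t_segb

/-- The growth inequality. -/
theorem a_grow (K : Type u) [Field K] (n : ℕ) (f : Fin n → R K n) (a : Fin n → ℕ) (hf : CI f a)
    (hm : Monotone a) (d v : ℕ) :
    Grow f d v (∑ i ∈ Finset.range v, (n - (i + Pt a d (d + i)))) :=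
  growU t_dimr t_upl a_ann a_uni a_tru t_bc1 a_bc2 K n n f a hf hm d v

/-- The range condition for `I` or for the linked ideal. -/
def Cond {K : Type u} [Field K] {n : ℕ} (a : Fin n → ℕ) (f : Fin n → MvPolynomial (Fin n) K)
    (I : Ideal (MvPolynomial (Fin n) K)) (d : ℕ) : Prop :=
  Rng a d (vI f I d) ∨ ∃ d', d + d' + 1 = S a n ∧ Rng a d' (qI I (d + 1))

theorem a_growth (K : Type u) [Field K] (n : ℕ) (I : Ideal (MvPolynomial (Fin n) K))
    (a : Fin n → ℕ) (f : Fin n → MvPolynomial (Fin n) K) (hm : Monotone a) (h1 : ∀ i, 1 ≤ a i)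
    (hhom : ∀ i, (f i).IsHomogeneous (a i)) (hfI : ∀ i, f i ∈ I)
    (hreg : RingTheory.Sequence.IsRegular (MvPolynomial (Fin n) K) (List.ofFn f)) (d : ℕ) :
    ∑ i ∈ Finset.range (vI f I d), (n - (i + Pt a d (d + i))) ≤ vI f I (d + 1) := by
  have hf : CI f a := t_reg K n f a h1 hhom hreg
  exact v_grow t_dimr f I hfI d _ (a_grow K n f a hf hm d _)

theorem a_final (K : Type u) [Field K] (n : ℕ) (I : Ideal (MvPolynomial (Fin n) K))
    (a : Fin n → ℕ) (f : Fin n → MvPolynomial (Fin n) K) (hm : Monotone a) (h2 : ∀ i, 2 ≤ a i)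
    (hhom : ∀ i, (f i).IsHomogeneous (a i)) (hfI : ∀ i, f i ∈ I)
    (hreg : RingTheory.Sequence.IsRegular (MvPolynomial (Fin n) K) (List.ofFn f))
    (E : Set ℕ) (hE : E.OrdConnected) (h : ∀ d, d ∈ E → d + 1 ∈ E → Cond a f I d) :
    EGHs a I E := by
  have hf : CI f a := t_reg K n f a (fun i => le_trans (by norm_num) (h2 i)) hhom hreg
  exact egh_int t_dimr t_sega a_lexn a_hf (t_hf1 t_cir t_jd t_dimr) t_xci K n f a hf I hfI E hE
    (fun d hd hd' => sh_of_rng t_dimr t_upl a_ann a_uni a_tru t_bc1 a_bc2 a_bv a_v2 t_num t_std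
      t_shb t_sh1 t_sh2 t_sh3 a_shd a_hf a_perf K n f a hf hm h2 I hfI d (h d hd hd'))

end Pool.Agent.EGU
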