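import Mathlib

set_option autoImplicit false
open MvPolynomial

/-!
Definitions for the growth inequality of Eisenbud-Green-Harris type in any number of variables
(MP_e5dae2_al, project EGU).
-/

namespace Pool.Agent.EGU

universe u

noncomputable section

/-- The polynomial ring in `n` variables. -/
abbrev R (K : Type u) [Field K] (n : ℕ) : Type u := MvPolynomial (Fin n) K

/-- Forms of degree `d` (with zero). -/
abbrev Rd (K : Type u) [Field K] (n d : ℕ) : Submodule K (R K n) :=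
  homogeneousSubmodule (Fin n) K d

/-- Forms of degree `e - k`; only zero if `e < k`. -/
def Rm (K : Type u) [Field K] (n e k : ℕ) : Submodule K (R K n) :=
  if k ≤ e then Rd K n (e - k) else ⊥

section
variable {K : Type u} [Field K] {n m : ℕ}

/-- The ideal of a family. -/
def J (f : Fin m → R K n) : Ideal (R K n) := Ideal.span (Set.range f)

/-- Its part of degree `d`. -/
def Jd (f : Fin m → R K n) (d : ℕ) : Submodule K (R K n) :=
  Rd K n d ⊓ (J f).restrictScalars K

/-- `f` is a regular sequence of forms of degrees `a` (all `a i ≥ 1`, any number `m` of forms). -/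
structure CI (f : Fin m → R K n) (a : Fin m → ℕ) : Prop where
  pos : ∀ i, 1 ≤ a i
  hom : ∀ i, (f i).IsHomogeneous (a i)
  reg : ∀ (j : Fin m) (p : R K n), p * f j ∈ Ideal.span (f '' {i | i < j}) →
    p ∈ Ideal.span (f '' {i | i < j})

/-- `S_j = ∑_{i < j} (a_i - 1)` (equal to `S_m` for `j ≥ m`). -/
def S (a : Fin m → ℕ) (j : ℕ) : ℕ :=
  ∑ i ∈ Finset.univ.filter (fun i : Fin m => (i : ℕ) < j), (a i - 1)

/-- `P (x)` is the number of `j` in `1, ..., m` with `S_j ≤ x`. -/
def P (a : Fin m → ℕ) (x : ℕ) : ℕ :=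
  (Finset.univ.filter (fun j : Fin m => S a (j + 1) ≤ x)).card

/-! ### Koszul cochains -/

/-- Koszul coboundary of the cochain `c` with the elements `l t`. -/
def cob {s : ℕ} (l : Fin s → R K n) (c : Finset (Fin s) → R K n) (T : Finset (Fin s)) : R K n :=
  ∑ t ∈ T, (-1) ^ (T.filter (· < t)).card * (l t * c (T.erase t))

/-- Relative exactness at level `i` for the elements `l t`, `t ∈ U`, modulo the ideal `I`. -/
def Ex {s : ℕ} (I : Ideal (R K n)) (l : Fin s → R K n) (U : Finset (Fin s)) (i : ℕ) : Prop :=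
  ∀ c : Finset (Fin s) → R K n, (∀ T ⊆ U, T.card = i + 1 → cob l c T ∈ I) →
    ∃ b : Finset (Fin s) → R K n, ∀ T ⊆ U, T.card = i → c T - cob l b T ∈ I

/-- Rank of a family. -/
def rk {s : ℕ} (l : Fin s → R K n) : ℕ := Module.finrank K (Submodule.span K (Set.range l))

/-! ### Linear syzygies -/

/-- Linear forms `l` with `l * w ∈ J`. -/
def Ann1 (f : Fin m → R K n) (w : R K n) : Submodule K (R K n) where
  carrier := {l | l ∈ Rd K n 1 ∧ l * w ∈ J f}
  add_mem' := by
    rintro x y ⟨hx, hx'⟩ ⟨hy, hy'⟩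
    refine ⟨Submodule.add_mem _ hx hy, ?_⟩
    rw [add_mul]
    exact Ideal.add_mem _ hx' hy'
  zero_mem' := ⟨Submodule.zero_mem _, by rw [zero_mul]; exact Ideal.zero_mem _⟩
  smul_mem' := by
    rintro c x ⟨hx, hx'⟩
    refine ⟨Submodule.smul_mem _ c hx, ?_⟩
    rw [smul_mul_assoc]
    exact ((J f).restrictScalars K).smul_mem c hx'

/-- Linear forms `l` with `l * W ⊆ J`. -/
def AnnW (f : Fin m → R K n) (W : Submodule K (R K n)) : Submodule K (R K n) where
  carrier := {l | l ∈ Rd K n 1 ∧ ∀ w ∈ W, l * w ∈ J f}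
  add_mem' := by
    rintro x y ⟨hx, hx'⟩ ⟨hy, hy'⟩
    refine ⟨Submodule.add_mem _ hx hy, fun w hw => ?_⟩
    rw [add_mul]
    exact Ideal.add_mem _ (hx' w hw) (hy' w hw)
  zero_mem' := ⟨Submodule.zero_mem _, fun w _ => by rw [zero_mul]; exact Ideal.zero_mem _⟩
  smul_mem' := by
    rintro c x ⟨hx, hx'⟩
    refine ⟨Submodule.smul_mem _ c hx, fun w hw => ?_⟩
    rw [smul_mul_assoc]
    exact ((J f).restrictScalars K).smul_mem c (hx' w hw)

/-- Linear syzygies of the family `w` modulo `J`. -/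
def Sig (f : Fin m → R K n) {v : ℕ} (w : Fin v → R K n) : Submodule K (Fin v → R K n) where
  carrier := {x | (∀ k, x k ∈ Rd K n 1) ∧ ∑ k, x k * w k ∈ J f}
  add_mem' := by
    rintro x y ⟨hx, hx'⟩ ⟨hy, hy'⟩
    refine ⟨fun k => Submodule.add_mem _ (hx k) (hy k), ?_⟩
    simp only [Pi.add_apply, add_mul, Finset.sum_add_distrib]
    exact Ideal.add_mem _ hx' hy'
  zero_mem' := by
    refine ⟨fun k => Submodule.zero_mem _, ?_⟩
    simp
  smul_mem' := by
    rintro c x ⟨hx, hx'⟩
    refine ⟨fun k => Submodule.smul_mem _ c (hx k), ?_⟩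
    simp only [Pi.smul_apply, smul_mul_assoc, ← Finset.smul_sum]
    exact ((J f).restrictScalars K).smul_mem c hx'

/-- `L_p = {∑ p_k l_k : l ∈ Sig}`. -/
def L (f : Fin m → R K n) {v : ℕ} (w : Fin v → R K n) (p : Fin v → K) : Submodule K (R K n) :=
  (Sig f w).map (∑ k, p k • (LinearMap.proj k : (Fin v → R K n) →ₗ[K] R K n))

/-- `J_d` together with the combinations of `w` with coefficient vector orthogonal to `p`. -/
def Wp (f : Fin m → R K n) (d : ℕ) {v : ℕ} (w : Fin v → R K n) (p : Fin v → K) :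
    Submodule K (R K n) :=
  Jd f d ⊔ Submodule.span K {x | ∃ c : Fin v → K, ∑ k, c k * p k = 0 ∧ x = ∑ k, c k • w k}

/-- `J_d` together with the span of `w`. -/
def Wf (f : Fin m → R K n) (d : ℕ) {v : ℕ} (w : Fin v → R K n) : Submodule K (R K n) :=
  Jd f d ⊔ Submodule.span K (Set.range w)

/-- `R_1 W + J_{d+1}`. -/
def up (f : Fin m → R K n) (d : ℕ) (W : Submodule K (R K n)) : Submodule K (R K n) :=
  Rd K n 1 * W ⊔ Jd f (d + 1)

/-- `l W + J_{d+1}`. -/
def mulW (f : Fin m → R K n) (d : ℕ) (l : R K n) (W : Submodule K (R K n)) :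
    Submodule K (R K n) :=
  W.map (LinearMap.mulLeft K l) ⊔ Jd f (d + 1)

/-- `{w ∈ W : l w ∈ J}`. -/
def kerW (f : Fin m → R K n) (l : R K n) (W : Submodule K (R K n)) : Submodule K (R K n) :=
  W ⊓ ((J f).restrictScalars K).comap (LinearMap.mulLeft K l)

/-- Every subspace of dimension `v` of `(R/J)_d` generates a space of dimension at least `N`
in `(R/J)_{d+1}`. -/
def Grow (f : Fin m → R K n) (d v N : ℕ) : Prop :=
  ∀ W : Submodule K (R K n), Jd f d ≤ W → W ≤ Rd K n d →
    Module.finrank K W = Module.finrank K (Jd f d) + v →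
    Module.finrank K (Jd f (d + 1)) + N ≤ Module.finrank K (up f d W)

/-- Forms `h` of degree `e` with `h W ⊆ J`. -/
def orth (f : Fin m → R K n) (e : ℕ) (W : Submodule K (R K n)) : Submodule K (R K n) where
  carrier := {h | h ∈ Rd K n e ∧ ∀ w ∈ W, h * w ∈ J f}
  add_mem' := by
    rintro x y ⟨hx, hx'⟩ ⟨hy, hy'⟩
    refine ⟨Submodule.add_mem _ hx hy, fun w hw => ?_⟩
    rw [add_mul]
    exact Ideal.add_mem _ (hx' w hw) (hy' w hw)
  zero_mem' := ⟨Submodule.zero_mem _, fun w _ => by rw [zero_mul]; exact Ideal.zero_mem _⟩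
  smul_mem' := by
    rintro c x ⟨hx, hx'⟩
    refine ⟨Submodule.smul_mem _ c hx, fun w hw => ?_⟩
    rw [smul_mul_assoc]
    exact ((J f).restrictScalars K).smul_mem c (hx' w hw)

end

/-! ### Monomials -/

/-- Standard monomials of degree `d` for the exponents `a`. -/
def Std {n : ℕ} (a : Fin n → ℕ) (d : ℕ) : Finset (Fin n →₀ ℕ) :=
  (Finset.finsuppAntidiag Finset.univ d).filter (fun x => ∀ i, x i < a i)

/-- `x` is greater than `y` in the lexicographic order. -/
def lexgt {n : ℕ} (x y : Fin n →₀ ℕ) : Prop := ∃ j, (∀ k, k < j → y k = x k) ∧ y j < x j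

/-- Initial lex segment of `Std a d`. -/
def IsSeg {n : ℕ} (a : Fin n → ℕ) (d : ℕ) (M : Finset (Fin n →₀ ℕ)) : Prop :=
  M ⊆ Std a d ∧ ∀ x ∈ M, ∀ y ∈ Std a d, lexgt y x → y ∈ M

/-- Standard monomials of degree `d + 1` divisible by an element of `M`. -/
def shadow {n : ℕ} (a : Fin n → ℕ) (d : ℕ) (M : Finset (Fin n →₀ ℕ)) : Finset (Fin n →₀ ℕ) :=
  (Std a (d + 1)).filter (fun x => ∃ y ∈ M, y ≤ x)

/-- The conclusion of the conjecture in the degrees in `E`: there is a lex ideal `J'` such that `I`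
and `(x_i ^ a_i) + J'` have the same Hilbert function in the degrees `e ∈ E`. -/
def EGHs {K : Type u} [Field K] {n : ℕ} (a : Fin n → ℕ) (I : Ideal (R K n)) (E : Set ℕ) : Prop :=
  ∃ J' : Ideal (MvPolynomial (Fin n) K),
    (∃ X' : Set (Fin n →₀ ℕ),
      J' = Ideal.span ((fun x => (MvPolynomial.monomial x (1 : K))) '' X')) ∧
    (∀ x y : Fin n →₀ ℕ, (∑ i, x i) = (∑ i, y i) →
      (∃ j : Fin n, (∀ k, k < j → x k = y k) ∧ x j < y j) →
      MvPolynomial.monomial x (1 : K) ∈ J' → MvPolynomial.monomial y (1 : K) ∈ J') ∧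
    ∀ e ∈ E,
      Module.finrank K ↥(MvPolynomial.homogeneousSubmodule (Fin n) K e ⊓
          Submodule.restrictScalars K I) =
        Module.finrank K ↥(MvPolynomial.homogeneousSubmodule (Fin n) K e ⊓
          Submodule.restrictScalars K (Ideal.span (Set.range fun i : Fin n =>
            (MvPolynomial.X i : MvPolynomial (Fin n) K) ^ a i) ⊔ J'))

end

end Pool.Agent.EGU
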