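import Pool.Agent.EGU.Targets

set_option autoImplicit false
open MvPolynomial

/-!
Assembly of the project EGU from the targets.
-/

namespace Pool.Agent.EGU

universe u

noncomputable section

/-! ### Growth over any field -/

lemma finJd (hD : T_DIMR.{u}) {K : Type u} [Field K] {n m : ℕ} (f : Fin m → R K n) (d : ℕ) :
    Module.Finite K (Jd f d) := by
  have := (hD K n d).1
  exact Submodule.finiteDimensional_of_le (inf_le_left : Jd f d ≤ Rd K n d)

lemma fin_le (hD : T_DIMR.{u}) {K : Type u} [Field K] {n d : ℕ} {W : Submodule K (R K n)}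
    (h : W ≤ Rd K n d) : Module.Finite K W := by
  have := (hD K n d).1
  exact Submodule.finiteDimensional_of_le h

lemma grow_mono {K : Type u} [Field K] {n m : ℕ} {f : Fin m → R K n} {d v N N' : ℕ}
    (h : Grow f d v N) (hN : N' ≤ N) : Grow f d v N' := by
  intro W h1 h2 h3
  have := h W h1 h2 h3
  omega

/-- The growth inequality over an algebraically closed field. -/
theorem growU_alg (hD : T_DIMR.{u}) (hU : T_UPL.{u}) (hANN : T_ANN.{u}) (hUNI : T_UNI.{u})
    (hTRU : T_TRU.{u}) (K : Type u) [Field K] [hK : IsAlgClosed K] (n m : ℕ) (f : Fin m → R K n)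
    (a : Fin m → ℕ) (hf : CI f a) (hm : Monotone a) (d v : ℕ) :
    Grow f d v (∑ i ∈ Finset.range v, (n - (i + Pt a d (d + i)))) := by
  intro W h1 h2 h3
  have hup := hU K n m f a hf.hom d W h2
  have fup : Module.Finite K (up f d W) := fin_le hD hup.2.1
  rcases v with _ | v
  · simp only [Finset.range_zero, Finset.sum_empty, add_zero]
    exact Submodule.finrank_mono hup.1
  · obtain ⟨k, hk, e1, e2, hci, hP⟩ := hTRU K n m d f a hf hm
    have hm' : Monotone (a ∘ Fin.castLE hk) := fun i j hij => hm (by simpa using hij)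
    have h4 := hUNI K n k d v (P (a ∘ Fin.castLE hk) d) (f ∘ Fin.castLE hk)
      (a ∘ Fin.castLE hk) hci hm' W (by rw [e1]; exact h1) h2 (by rw [e1]; exact h3)
      (fun w hw hwJ => (hANN K n k (f ∘ Fin.castLE hk) (a ∘ Fin.castLE hk) hci hm' d w
        (h2 hw)).2 hK hwJ)
    have e3 : up (f ∘ Fin.castLE hk) d W = up f d W := by
      unfold up
      rw [e2]
    rw [e2, e3] at h4
    rw [Finset.sum_range_succ']
    simp only [hP] at h4
    have e4 : ∑ i ∈ Finset.range v, (n - (i + 1 + Pt a d (d + (i + 1)))) =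
        ∑ i ∈ Finset.range v, (n - (i + 1 + Pt a d (d + i + 1))) := by
      refine Finset.sum_congr rfl fun i _ => ?_
      rw [add_assoc d i 1]
    rw [e4]
    simp only [zero_add, add_zero]
    omega

/-- The growth inequality over any field. -/
theorem growU (hD : T_DIMR.{u}) (hU : T_UPL.{u}) (hANN : T_ANN.{u}) (hUNI : T_UNI.{u})
    (hTRU : T_TRU.{u}) (hBC1 : T_BC1.{u}) (hBC2 : T_BC2.{u}) (K : Type u) [Field K] (n m : ℕ)
    (f : Fin m → R K n) (a : Fin m → ℕ) (hf : CI f a) (hm : Monotone a) (d v : ℕ) :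
    Grow f d v (∑ i ∈ Finset.range v, (n - (i + Pt a d (d + i)))) := by
  refine hBC2 K (AlgebraicClosure K) n m f a hf d v _ ?_
  exact growU_alg hD hU hANN hUNI hTRU (AlgebraicClosure K) n m _ a
    (hBC1 K (AlgebraicClosure K) n m f a hf) hm d v

theorem growBV (hBV : T_BV.{u}) (hBC1 : T_BC1.{u}) (hBC2 : T_BC2.{u}) (K : Type u) [Field K]
    (n d p v : ℕ) (f : Fin n → R K n) (a : Fin n → ℕ) (hf : CI f a) (hm : Monotone a)
    (h2 : ∀ i, 2 ≤ a i) (hp : p < n) (h3 : S a p ≤ d) (h4 : d < S a (p + 1))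
    (h5 : d + v ≤ S a (p + 1) + 1) (h6 : v + p ≤ n) :
    Grow f d v (v * (n - p) - v.choose 2) := by
  refine hBC2 K (AlgebraicClosure K) n n f a hf d v _ ?_
  exact hBV (AlgebraicClosure K) n d p v _ a (hBC1 K (AlgebraicClosure K) n n f a hf) hm h2 hp h3
    h4 h5 h6

theorem growV2 (hV2 : T_V2.{u}) (hBC1 : T_BC1.{u}) (hBC2 : T_BC2.{u}) (K : Type u) [Field K]
    (n d p : ℕ) (f : Fin n → R K n) (a : Fin n → ℕ) (hf : CI f a) (hm : Monotone a)
    (h2 : ∀ i, 2 ≤ a i) (hp : p < n) (h3 : S a p ≤ d) (h4 : d < S a (p + 1)) :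
    Grow f d 2 (2 * (n - p) - 1) ∧
    ((d = S a p ∨ p + 1 = n) → d + 1 < S a (p + 1) → Grow f d 2 (2 * (n - p))) := by
  have h := hV2 (AlgebraicClosure K) n d p _ a (hBC1 K (AlgebraicClosure K) n n f a hf) hm h2 hp
    h3 h4
  exact ⟨hBC2 K (AlgebraicClosure K) n n f a hf d 2 _ h.1,
    fun h5 h6 => hBC2 K (AlgebraicClosure K) n n f a hf d 2 _ (h.2 h5 h6)⟩

lemma sum_eq (n p : ℕ) : ∀ v, v + p ≤ n →
    ∑ i ∈ Finset.range v, (n - (i + p)) + v.choose 2 = v * (n - p) := by
  intro v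
  induction v with
  | zero => intro _; simp
  | succ v ih =>
    intro h
    have h1 := ih (by omega)
    rw [Finset.sum_range_succ]
    have h2 : (v + 1).choose 2 = v.choose 2 + v := by
      rw [Nat.choose_succ_succ' v 1, Nat.choose_one_right]
      ring
    have h3 : (v + 1) * (n - p) = v * (n - p) + (n - p) := by ring
    rw [h2, h3]
    omega

lemma pt_le {n : ℕ} (a : Fin n → ℕ) (hm : Monotone a) (d x p : ℕ) (hp : p < n)
    (h : d + 2 ≤ a ⟨p, hp⟩) : Pt a d x ≤ p := by
  unfold Pt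
  have h1 : (Finset.univ.filter (fun j : Fin n => a j ≤ d + 1 ∧ S a (j + 1) ≤ x)) ⊆
      Finset.univ.filter (fun j : Fin n => (j : ℕ) < p) := by
    intro j hj
    simp only [Finset.mem_filter, Finset.mem_univ, true_and] at hj ⊢
    by_contra hcon
    push Not at hcon
    have h2 : a ⟨p, hp⟩ ≤ a j := hm (by rw [Fin.le_def]; exact hcon)
    omega
  refine (Finset.card_le_card h1).trans ?_
  have h3 : (Finset.univ.filter (fun j : Fin n => (j : ℕ) < p)).card ≤
      (Finset.range p).card := by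
    refine Finset.card_le_card_of_injOn (fun j => (j : ℕ)) ?_ ?_
    · intro j hj
      simp only [Finset.coe_filter, Finset.mem_univ, true_and, Set.mem_ofPred_eq] at hj
      simpa using hj
    · intro i _ j _ hij
      exact Fin.ext hij
  rwa [Finset.card_range] at h3

/-- The range where the inequality is sharp. -/
def Rng {n : ℕ} (a : Fin n → ℕ) (d v : ℕ) : Prop :=
  v ≤ 2 ∨ ∃ (p : ℕ) (hp : p < n), S a p < d ∧ d < S a (p + 1) ∧ v + p ≤ n ∧
    (d + v ≤ S a (p + 1) + 1 ∨ d + 2 ≤ a ⟨p, hp⟩)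

lemma sh_zero {n : ℕ} (a : Fin n → ℕ) (d G : ℕ) : Sh a d 0 G := by
  refine ⟨∅, ⟨Finset.empty_subset _, ?_⟩, rfl, ?_⟩
  · intro x hx
    exact absurd hx (Finset.notMem_empty x)
  · have : shadow a d (∅ : Finset (Fin n →₀ ℕ)) = ∅ := by
      unfold shadow
      rw [Finset.filter_eq_empty_iff]
      rintro x _ ⟨y, hy, _⟩
      exact absurd hy (Finset.notMem_empty y)
    rw [this]
    simp

lemma std_one (a : Fin 1 → ℕ) (d : ℕ) : (Std a d).card ≤ 1 := by
  rw [Finset.card_le_one]
  intro x hx y hy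
  unfold Std at hx hy
  simp only [Finset.mem_filter, Finset.mem_finsuppAntidiag, Finset.univ_unique,
    Finset.sum_singleton] at hx hy
  ext
  rw [hx.1.1, hy.1.1]

/-- In the range the growth inequality is the one of the lex segment. -/
theorem good (hD : T_DIMR.{u}) (hU : T_UPL.{u}) (hANN : T_ANN.{u}) (hUNI : T_UNI.{u})
    (hTRU : T_TRU.{u}) (hBC1 : T_BC1.{u}) (hBC2 : T_BC2.{u}) (hBV : T_BV.{u}) (hV2 : T_V2.{u})
    (hNUM : T_NUM) (hSTD : T_STD) (hSHB : T_SHB) (hSH1 : T_SH1) (hSH2 : T_SH2) (hSH3 : T_SH3)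
    (K : Type u) [Field K] (n : ℕ) (f : Fin n → R K n) (a : Fin n → ℕ) (hf : CI f a)
    (hm : Monotone a) (h2 : ∀ i, 2 ≤ a i) (d v : ℕ) (hv : v ≤ (Std a d).card)
    (hr : Rng a d v) : ∃ G, Sh a d v G ∧ Grow f d v G := by
  obtain ⟨n0, n1, n2, n3, n4, n5, n6, -, -⟩ := hNUM n a
  obtain ⟨s1, s2, s3, s4⟩ := hSTD n a (fun i => le_trans (by norm_num) (h2 i))
  have g0 : ∀ w, Grow f d w 0 := by
    intro w
    have h := growU hD hU hANN hUNI hTRU hBC1 hBC2 K n n f a hf hm d w
    exact grow_mono h (Nat.zero_le _)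
  have hrange : ∀ p (hp : p < n), S a p < d → d < S a (p + 1) → v + p ≤ n →
      (d + v ≤ S a (p + 1) + 1 ∨ d + 2 ≤ a ⟨p, hp⟩) → ∃ G, Sh a d v G ∧ Grow f d v G := by
    intro p hp h3 h4 h5 h6
    refine ⟨_, hSHB n a d p v h2 hm hp h3 h4 h5, ?_⟩
    rcases h6 with h6 | h6
    · exact growBV hBV hBC1 hBC2 K n d p v f a hf hm h2 hp h3.le h4 h6 h5
    · refine grow_mono (growU hD hU hANN hUNI hTRU hBC1 hBC2 K n n f a hf hm d v) ?_
      have h7 := sum_eq n p v h5
      have h8 : ∑ i ∈ Finset.range v, (n - (i + p)) ≤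
          ∑ i ∈ Finset.range v, (n - (i + Pt a d (d + i))) := by
        refine Finset.sum_le_sum fun i _ => ?_
        have := pt_le a hm d (d + i) p hp h6
        omega
      omega
  rcases hr with hr | ⟨p, hp, h3, h4, h5, h6⟩
  swap
  · exact hrange p hp h3 h4 h5 h6
  rcases Nat.eq_zero_or_pos v with hv0 | hvpos
  · subst hv0
    exact ⟨0, sh_zero a d 0, g0 0⟩
  have hds : d ≤ S a n := by
    by_contra hcon
    push Not at hcon
    rw [s4 d hcon, Finset.card_empty] at hv
    omega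
  have hpn := n4 d
  have hp1 := (n5 (P a d) d hpn).1 le_rfl
  have hcase : v = 1 ∨ v = 2 := by omega
  rcases hcase with hv1 | hv2
  · subst hv1
    rcases hpn.lt_or_eq with hlt | heq
    · have hp2 : d < S a (P a d + 1) := by
        by_contra hcon
        push Not at hcon
        have := (n5 (P a d + 1) d hlt).2 hcon
        omega
      rcases hp1.lt_or_eq with hlt' | heq'
      · exact hrange (P a d) hlt hlt' hp2 (by omega) (Or.inl (by omega))
      · refine ⟨n - P a d, ?_, ?_⟩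
        · have := hSH1 n a (P a d) h2 hpn
          rwa [heq'] at this
        · have := growBV hBV hBC1 hBC2 K n d (P a d) 1 f a hf hm h2 hlt hp1 hp2 (by omega)
            (by omega)
          simpa using this
    · have hd : d = S a n := by
        rw [heq] at hp1
        omega
      refine ⟨0, ?_, g0 1⟩
      have := hSH1 n a n h2 le_rfl
      rw [Nat.sub_self] at this
      rwa [← hd] at this
  · subst hv2
    have hdlt : d < S a n := by
      rcases hds.lt_or_eq with h | h
      · exact h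
      · rw [h, s3] at hv
        omega
    have hlt : P a d < n := by
      rcases hpn.lt_or_eq with h | h
      · exact h
      · rw [h] at hp1
        omega
    have hp2 : d < S a (P a d + 1) := by
      by_contra hcon
      push Not at hcon
      have := (n5 (P a d + 1) d hlt).2 hcon
      omega
    have hg := growV2 hV2 hBC1 hBC2 K n d (P a d) f a hf hm h2 hlt hp1 hp2
    set p := P a d with hpdef
    rcases hp1.lt_or_eq with hlt' | heq'
    · rcases Nat.lt_or_ge (p + 1) n with h7 | h7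
      · refine ⟨_, hSHB n a d p 2 h2 hm hlt hlt' hp2 (by omega), ?_⟩
        have h8 : 2 * (n - p) - Nat.choose 2 2 = 2 * (n - p) - 1 := by simp
        rw [h8]
        exact hg.1
      · have h8 : p + 1 = n := by omega
        have hp0 : 1 ≤ p := by
          by_contra hcon
          have hn1 : n = 1 := by omega
          subst hn1
          have := std_one a d
          omega
        have hsh := hSH3 n a p d h2 hp0 h8 hlt' hdlt
        have h9 : n - p = 1 := by omega
        by_cases h10 : d + 1 = S a n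
        · refine ⟨1, hsh.2 h10, ?_⟩
          have := hg.1
          rw [h9] at this
          exact this
        · refine ⟨2, hsh.1, ?_⟩
          have := hg.2 (Or.inr h8) (by rw [h8]; omega)
          rw [h9] at this
          exact this
    · have hp0 : 1 ≤ p := by
        by_contra hcon
        have hp00 : p = 0 := by omega
        rw [hp00, n0] at heq'
        rw [← heq', s2] at hv
        omega
      have hsh := hSH2 n a p hlt h2 hp0
      rw [heq'] at hsh
      have h8 := n1 p hlt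
      have h9 := h2 ⟨p, hlt⟩
      by_cases h10 : a ⟨p, hlt⟩ = 2
      · exact ⟨_, hsh.2 h10, hg.1⟩
      · refine ⟨_, hsh.1, hg.2 (Or.inl heq'.symm) ?_⟩
        rw [h8, heq']
        omega

/-! ### Hilbert functions of ideals -/

/-- `dim I_d` -/
def hI {K : Type u} [Field K] {n : ℕ} (I : Ideal (MvPolynomial (Fin n) K)) (d : ℕ) : ℕ :=
  Module.finrank K ↥(MvPolynomial.homogeneousSubmodule (Fin n) K d ⊓
    Submodule.restrictScalars K I)

/-- `dim I_d / (f)_d` -/
def vI {K : Type u} [Field K] {n : ℕ} (f : Fin n → MvPolynomial (Fin n) K)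
    (I : Ideal (MvPolynomial (Fin n) K)) (d : ℕ) : ℕ :=
  hI I d - hI (Ideal.span (Set.range f)) d

/-- `dim (R/I)_d` -/
def qI {K : Type u} [Field K] {n : ℕ} (I : Ideal (MvPolynomial (Fin n) K)) (d : ℕ) : ℕ :=
  Module.finrank K (MvPolynomial.homogeneousSubmodule (Fin n) K d) - hI I d

section
variable {K : Type u} [Field K] {n : ℕ}

lemma hI_J (f : Fin n → R K n) (d : ℕ) :
    hI (Ideal.span (Set.range f)) d = Module.finrank K (Jd f d) := rfl

/-- The basic facts on `I_d`. -/
lemma basic (hD : T_DIMR.{u}) (f : Fin n → R K n) (I : Ideal (R K n)) (hfI : ∀ i, f i ∈ I)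
    (d : ℕ) :
    Jd f d ≤ Rd K n d ⊓ I.restrictScalars K ∧
    hI I d = Module.finrank K (Jd f d) + vI f I d ∧
    hI I d + qI I d = Module.finrank K (Rd K n d) := by
  have hJ : J f ≤ I := by
    unfold J
    rw [Ideal.span_le]
    rintro _ ⟨i, rfl⟩
    exact hfI i
  have h1 : Jd f d ≤ Rd K n d ⊓ I.restrictScalars K := by
    intro x hx
    exact ⟨hx.1, hJ hx.2⟩
  have h2 : Rd K n d ⊓ I.restrictScalars K ≤ Rd K n d := inf_le_left
  have f1 := fin_le hD h2
  have f2 := (hD K n d).1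
  have h3 := Submodule.finrank_mono h1
  have h4 := Submodule.finrank_mono h2
  refine ⟨h1, ?_, ?_⟩
  · unfold vI
    rw [hI_J]
    have : hI I d = Module.finrank K ↥(Rd K n d ⊓ I.restrictScalars K) := rfl
    omega
  · unfold qI
    have : hI I d = Module.finrank K ↥(Rd K n d ⊓ I.restrictScalars K) := rfl
    have e2 : Module.finrank K (Rd K n d) =
      Module.finrank K (MvPolynomial.homogeneousSubmodule (Fin n) K d) := rfl
    omega

/-- `R_1 I_d ⊆ I_{d+1}`. -/
lemma up_sub (f : Fin n → R K n) (I : Ideal (R K n)) (hfI : ∀ i, f i ∈ I) (d : ℕ) :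
    up f d (Rd K n d ⊓ I.restrictScalars K) ≤ Rd K n (d + 1) ⊓ I.restrictScalars K := by
  have hJ : J f ≤ I := by
    unfold J
    rw [Ideal.span_le]
    rintro _ ⟨i, rfl⟩
    exact hfI i
  unfold up
  refine sup_le ?_ ?_
  · refine Submodule.mul_le.mpr fun p hp q hq => ?_
    refine ⟨?_, I.mul_mem_left p hq.2⟩
    have h1 : (p * q).IsHomogeneous (1 + d) := MvPolynomial.IsHomogeneous.mul hp hq.1
    rw [add_comm] at h1
    exact h1
  · intro x hx
    exact ⟨hx.1, hJ hx.2⟩

/-- growth of the ideal -/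
lemma v_grow (hD : T_DIMR.{u}) (f : Fin n → R K n) (I : Ideal (R K n)) (hfI : ∀ i, f i ∈ I)
    (d G : ℕ) (hG : Grow f d (vI f I d) G) : G ≤ vI f I (d + 1) := by
  obtain ⟨h1, h2, h3⟩ := basic hD f I hfI d
  obtain ⟨h4, h5, h6⟩ := basic hD f I hfI (d + 1)
  have h7 := hG _ h1 inf_le_left h2
  have f1 := fin_le hD (inf_le_left : Rd K n (d + 1) ⊓ I.restrictScalars K ≤ Rd K n (d + 1))
  have h8 := Submodule.finrank_mono (up_sub f I hfI d)
  have h9 : hI I (d + 1) = Module.finrank K ↥(Rd K n (d + 1) ⊓ I.restrictScalars K) := rfl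
  omega

/-- growth of the linked ideal -/
lemma q_grow (hD : T_DIMR.{u}) (hPERF : T_PERF.{u}) (f : Fin n → R K n) (a : Fin n → ℕ)
    (hf : CI f a) (hm : Monotone a) (hU : T_UPL.{u})
    (I : Ideal (R K n)) (hfI : ∀ i, f i ∈ I)
    (d d' G : ℕ) (hdd : d + d' + 1 = S a n) (hG : Grow f d' (qI I (d + 1)) G) :
    G ≤ qI I d := by
  obtain ⟨h1, h2, h3⟩ := basic hD f I hfI d
  obtain ⟨h4, h5, h6⟩ := basic hD f I hfI (d + 1)
  have p1 := hPERF K n f a hf hm (d + 1) d' (by omega) _ h4 inf_le_left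
  have p2 := hPERF K n f a hf hm d (d' + 1) (by omega) _ h1 inf_le_left
  have e1 : hI I d = Module.finrank K ↥(Rd K n d ⊓ I.restrictScalars K) := rfl
  have e2 : hI I (d + 1) = Module.finrank K ↥(Rd K n (d + 1) ⊓ I.restrictScalars K) := rfl
  have u1 := (hU K n n f a hf.hom (d + 1) (Rd K n (d + 1) ⊓ I.restrictScalars K)
    inf_le_left).2.2.2.2.2.2.1 d'
  have h7 := hG (orth f d' (Rd K n (d + 1) ⊓ I.restrictScalars K)) u1.1 u1.2 (by omega)
  have h8 : up f d' (orth f d' (Rd K n (d + 1) ⊓ I.restrictScalars K)) ≤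
      orth f (d' + 1) (Rd K n d ⊓ I.restrictScalars K) := by
    have hJ : J f ≤ I := by
      unfold J
      rw [Ideal.span_le]
      rintro _ ⟨i, rfl⟩
      exact hfI i
    unfold up
    refine sup_le ?_ ?_
    · refine Submodule.mul_le.mpr fun p hp q hq => ?_
      refine ⟨?_, fun w hw => ?_⟩
      · have h9 : (p * q).IsHomogeneous (1 + d') := MvPolynomial.IsHomogeneous.mul hp hq.1
        rw [add_comm] at h9
        exact h9
      · have h9 : q * (p * w) ∈ J f := by
          refine hq.2 _ ⟨?_, I.mul_mem_left p hw.2⟩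
          have h10 : (p * w).IsHomogeneous (1 + d) := MvPolynomial.IsHomogeneous.mul hp hw.1
          rw [add_comm] at h10
          exact h10
        have h10 : p * q * w = q * (p * w) := by ring
        rw [h10]
        exact h9
    · intro x hx
      exact ⟨hx.1, fun w _ => Ideal.mul_mem_right _ _ hx.2⟩
  have u2 := (hU K n n f a hf.hom d (Rd K n d ⊓ I.restrictScalars K)
    inf_le_left).2.2.2.2.2.2.1 (d' + 1)
  have f1 := fin_le hD u2.2
  have h9 := Submodule.finrank_mono h8
  omega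

end

/-- The statement `Sh` for the dimensions of `I`, from the range condition for `I` or for the
linked ideal. -/
theorem sh_of_rng (hD : T_DIMR.{u}) (hU : T_UPL.{u}) (hANN : T_ANN.{u}) (hUNI : T_UNI.{u})
    (hTRU : T_TRU.{u}) (hBC1 : T_BC1.{u}) (hBC2 : T_BC2.{u}) (hBV : T_BV.{u}) (hV2 : T_V2.{u})
    (hNUM : T_NUM) (hSTD : T_STD) (hSHB : T_SHB) (hSH1 : T_SH1) (hSH2 : T_SH2) (hSH3 : T_SH3)
    (hSHD : T_SHD) (hHF : T_HF.{u}) (hPERF : T_PERF.{u})
    (K : Type u) [Field K] (n : ℕ) (f : Fin n → R K n) (a : Fin n → ℕ) (hf : CI f a)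
    (hm : Monotone a) (h2 : ∀ i, 2 ≤ a i) (I : Ideal (R K n)) (hfI : ∀ i, f i ∈ I) (d : ℕ)
    (hr : Rng a d (vI f I d) ∨ ∃ d', d + d' + 1 = S a n ∧ Rng a d' (qI I (d + 1))) :
    Sh a d (vI f I d) (vI f I (d + 1)) := by
  have hs : ∀ e, vI f I e + qI I e = (Std a e).card := by
    intro e
    obtain ⟨h3, h4, h5⟩ := basic hD f I hfI e
    have := hHF K n f a hf e
    omega
  rcases hr with hr | ⟨d', hdd, hr⟩
  · have h3 := hs d
    obtain ⟨G, hG1, hG2⟩ := good hD hU hANN hUNI hTRU hBC1 hBC2 hBV hV2 hNUM hSTD hSHB hSH1 hSH2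
      hSH3 K n f a hf hm h2 d (vI f I d) (by omega) hr
    obtain ⟨M, hM1, hM2, hM3⟩ := hG1
    exact ⟨M, hM1, hM2, hM3.trans (v_grow hD f I hfI d G hG2)⟩
  · have h1 : ∀ i, 1 ≤ a i := fun i => le_trans (by norm_num) (h2 i)
    have h3 := hs d
    have h4 := hs (d + 1)
    have h5 := (hSTD n a h1).1 (d + 1) d' (by omega)
    obtain ⟨G, hG1, hG2⟩ := good hD hU hANN hUNI hTRU hBC1 hBC2 hBV hV2 hNUM hSTD hSHB hSH1 hSH2
      hSH3 K n f a hf hm h2 d' (qI I (d + 1)) (by omega) hr
    have h6 := q_grow hD hPERF f a hf hm hU I hfI d d' G hdd hG2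
    have h7 := hSHD n a d d' (vI f I d) (qI I (d + 1)) G h1 hdd hG1 (by omega)
    have h8 : (Std a (d + 1)).card - qI I (d + 1) = vI f I (d + 1) := by omega
    rwa [h8] at h7

/-- The lex-plus-powers ideal for an interval of degrees. -/
theorem egh_int (hD : T_DIMR.{u}) (hSEGA : T_SEGA) (hLEXN : T_LEXN.{u}) (hHF : T_HF.{u})
    (hHF1 : T_HF1.{u}) (hXCI : T_XCI.{u})
    (K : Type u) [Field K] (n : ℕ) (f : Fin n → R K n) (a : Fin n → ℕ) (hf : CI f a)
    (I : Ideal (R K n)) (hfI : ∀ i, f i ∈ I) (E : Set ℕ) (hE : E.OrdConnected)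
    (h : ∀ d, d ∈ E → d + 1 ∈ E → Sh a d (vI f I d) (vI f I (d + 1))) : EGHs a I E := by
  classical
  have hs : ∀ e, vI f I e + qI I e = (Std a e).card := by
    intro e
    obtain ⟨h3, h4, h5⟩ := basic hD f I hfI e
    have := hHF K n f a hf e
    omega
  have hbig : ∀ e N, N ≤ (Std a e).card → Sh a e N (Std a (e + 1)).card := by
    intro e N hN
    obtain ⟨M, hM1, hM2⟩ := (hSEGA n a e).2.2.2.1 N hN
    exact ⟨M, hM1, hM2, Finset.card_le_card (Finset.filter_subset _ _)⟩
  set w : ℕ → ℕ := fun e => if e ∈ E then vI f I e else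
    if ∃ x ∈ E, x < e then (Std a e).card else 0 with hw
  have hw1 : ∀ e, w e ≤ (Std a e).card := by
    intro e
    have := hs e
    simp only [hw]
    split_ifs
    · omega
    · exact le_rfl
    · exact Nat.zero_le _
  have hw2 : ∀ e, Sh a e (w e) (w (e + 1)) := by
    intro e
    by_cases h1 : e ∈ E
    · by_cases h2 : e + 1 ∈ E
      · have e1 : w e = vI f I e := by simp only [hw]; rw [if_pos h1]
        have e2 : w (e + 1) = vI f I (e + 1) := by simp only [hw]; rw [if_pos h2]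
        rw [e1, e2]
        exact h e h1 h2
      · have e2 : w (e + 1) = (Std a (e + 1)).card := by
          simp only [hw]
          rw [if_neg h2, if_pos ⟨e, h1, Nat.lt_succ_self e⟩]
        rw [e2]
        exact hbig e _ (hw1 e)
    · by_cases h3 : ∃ x ∈ E, x < e
      · obtain ⟨x, hx, hxe⟩ := h3
        have h2 : e + 1 ∉ E := fun h2 => h1 (hE.out hx h2 ⟨hxe.le, Nat.le_succ e⟩)
        have e2 : w (e + 1) = (Std a (e + 1)).card := by
          simp only [hw]
          rw [if_neg h2, if_pos ⟨x, hx, by omega⟩]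
        rw [e2]
        exact hbig e _ (hw1 e)
      · have e1 : w e = 0 := by simp only [hw]; rw [if_neg h1, if_neg h3]
        rw [e1]
        exact sh_zero a e _
  obtain ⟨J', hJ1, hJ2, hJ3⟩ := hLEXN K n a w hw1 hw2
  refine ⟨J', hJ1, hJ2, fun e he => ?_⟩
  rw [hJ3 e]
  have e1 : w e = vI f I e := by simp only [hw]; rw [if_pos he]
  rw [e1]
  obtain ⟨h3, h4, h5⟩ := basic hD f I hfI e
  rw [← hHF1 K n n f _ a hf (hXCI K n a hf.pos) e]
  exact h4

end

end Pool.Agent.EGU
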