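import Pool.Agent.EGU.Targets

set_option autoImplicit false
open MvPolynomial

namespace Pool.Agent.EGU

universe u

/-- Forms of degree zero are constants. -/
theorem KILL_const {K : Type u} [Field K] {n : ℕ} {g : R K n} (h : g ∈ Rd K n 0) :
    g = C (coeff 0 g) := by
  have h1 : g.IsHomogeneous 0 := h
  have h2 : g.totalDegree ≤ 0 := h1.totalDegree_le
  exact totalDegree_eq_zero_iff_eq_C.1 (Nat.le_zero.1 h2)

/-- The coboundary at the empty set is zero. -/
theorem KILL_cob_empty {K : Type u} [Field K] {n s : ℕ} (l : Fin s → R K n)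
    (b : Finset (Fin s) → R K n) : cob l b ∅ = 0 := by
  unfold cob
  exact Finset.sum_empty

/-- Value of the map which defines `L`. -/
theorem KILL_val {K : Type u} [Field K] {n v : ℕ} (p : Fin v → K) (x : Fin v → R K n) :
    (∑ k, p k • (LinearMap.proj k : (Fin v → R K n) →ₗ[K] R K n)) x = ∑ k, p k • x k := by
  rw [LinearMap.sum_apply]
  rfl

/-- `L` consists of linear forms. -/
theorem KILL_L_le {K : Type u} [Field K] {n m v : ℕ} (f : Fin m → R K n) (w : Fin v → R K n)
    (p : Fin v → K) : L f w p ≤ Rd K n 1 := by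
  rintro _ ⟨x, hx, rfl⟩
  rw [KILL_val]
  exact Submodule.sum_mem _ fun k _ => Submodule.smul_mem _ _ (hx.1 k)

theorem t_kill (h_EMB : T_EMB.{u}) (h_L3 : T_L3.{u}) (h_LCI : T_LCI.{u}) (h_JD : T_JD.{u})
    (h_DIMR : T_DIMR.{u}) : T_KILL.{u} := by
  intro K _ _ n m r f a hCI hmono l hl hli d v w hw hwn hlw hcond
  have : Module.Finite K (Rd K n 1) := (h_DIMR K n 1).1
  obtain ⟨hCIl, -, hPl⟩ := h_LCI K n r l hl hli
  obtain ⟨k0, hk0⟩ := hwn
  have hv : 0 < v := lt_of_le_of_lt (Nat.zero_le _) k0.2
  obtain ⟨e', g, hrm, he, hg, hgn, hX⟩ := h_EMB K n m r f a hCI hmono l hl hli 0 d v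
    (Nat.zero_le _) (by simpa using hcond) (fun k _ => w k) (fun k _ => hw k)
    (by
      intro k T _
      unfold cob
      exact Ideal.sum_mem _ fun t _ => Ideal.mul_mem_left _ _ (hlw t k))
    (by
      intro h
      obtain ⟨b, hb⟩ := h k0
      have h1 := hb ∅ Finset.card_empty
      rw [KILL_cob_empty, sub_zero] at h1
      exact hk0 h1)
    (Sig f w : Set (Fin v → R K n))
    (fun x hx k => hx.1 k)
    (by
      intro x hx
      refine ⟨fun _ => 0, fun T hT => ?_⟩
      rw [Finset.card_eq_zero.1 hT, KILL_cob_empty, sub_zero]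
      exact hx.2)
  rw [Nat.sub_zero] at hrm he
  refine ⟨hrm, le_trans (Nat.le_add_left _ _) he, ?_⟩
  by_cases hd : d = S a r
  · have he0 : e' = 0 := by omega
    subst he0
    have hc : ∀ k, g k = C (coeff 0 (g k)) := fun k => KILL_const (hg k)
    have hle : L f w (fun k => coeff 0 (g k)) ≤ Submodule.span K (Set.range l) := by
      rintro _ ⟨x, hx, rfl⟩
      rw [KILL_val]
      have h1 : ∑ k, coeff 0 (g k) • x k = ∑ k, x k * g k := by
        refine Finset.sum_congr rfl fun k _ => ?_
        conv_rhs => rw [hc k]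
        rw [mul_comm, C_mul']
      have h2 : ∑ k, coeff 0 (g k) • x k ∈ Jd l 1 := by
        refine ⟨Submodule.sum_mem _ fun k _ => Submodule.smul_mem _ _ (hx.1 k), ?_⟩
        show ∑ k, coeff 0 (g k) • x k ∈ J l
        rw [h1]
        exact hX x hx
      obtain ⟨y, hy, hxy⟩ := ((h_JD K n r l (fun _ => 1) hl).1 1 _).1 h2
      rw [hxy]
      refine Submodule.sum_mem _ fun k _ => ?_
      have h3 : y k ∈ Rd K n 0 := by
        have h4 := hy k
        unfold Rm at h4
        rw [if_pos le_rfl] at h4
        exact h4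
      rw [KILL_const h3, C_mul']
      exact Submodule.smul_mem _ _ (Submodule.subset_span ⟨k, rfl⟩)
    have : Module.Finite K (Submodule.span K (Set.range l)) :=
      FiniteDimensional.span_of_finite K (Set.finite_range l)
    have hfin : Module.finrank K (L f w (fun k => coeff 0 (g k))) ≤ r := by
      refine le_trans (Submodule.finrank_mono hle) ?_
      have h5 := finrank_range_le_card (R := K) l
      rw [Fintype.card_fin] at h5
      exact h5
    refine ⟨fun k => coeff 0 (g k), ?_, by omega, fun _ => hfin⟩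
    intro h0
    obtain ⟨k, hk⟩ := hgn
    apply hk
    have h6 : coeff 0 (g k) = 0 := congrFun h0 k
    rw [hc k, h6, C_0]
    exact Ideal.zero_mem _
  · obtain ⟨p, hp, hfin⟩ := h_L3 K n r v e' l (fun _ => 1) hCIl monotone_const g hg hgn
    refine ⟨p, hp, ?_, fun h => absurd h hd⟩
    rw [hPl] at hfin
    refine le_trans (Nat.add_le_add_right ?_ 1) hfin
    have : Module.Finite K (L l g p) :=
      Submodule.finiteDimensional_of_le (KILL_L_le l g p)
    refine Submodule.finrank_mono (Submodule.map_mono ?_)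
    intro x hx
    exact ⟨hx.1, hX x hx⟩

end Pool.Agent.EGU
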