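import Pool.Agent.EGU.Targets

set_option autoImplicit false
open MvPolynomial

/-!
Target SH3 of the project EGU: the first two monomials if only one coordinate is left.
-/

namespace Pool.Agent.EGU

universe u

noncomputable section

namespace SH3_

/-- The exponent with coordinates `a i - 1` below `q`, then `β`, then `γ`. -/
def mk {q : ℕ} (a : Fin (q + 2) → ℕ) (β γ : ℕ) : Fin (q + 2) →₀ ℕ :=
  Finsupp.equivFunOnFinite.symm
    (fun i => if (i : ℕ) < q then a i - 1 else if (i : ℕ) = q then β else γ)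

/-- the index `q` -/
def iq (q : ℕ) : Fin (q + 2) := ⟨q, by omega⟩

/-- the last index -/
def il (q : ℕ) : Fin (q + 2) := ⟨q + 1, by omega⟩

theorem mk_lt {q : ℕ} (a : Fin (q + 2) → ℕ) (β γ : ℕ) (i : Fin (q + 2)) (h : (i : ℕ) < q) :
    mk a β γ i = a i - 1 := by
  simp [mk, h]

theorem mk_q {q : ℕ} (a : Fin (q + 2) → ℕ) (β γ : ℕ) : mk a β γ (iq q) = β := by
  simp [mk, iq]

theorem mk_l {q : ℕ} (a : Fin (q + 2) → ℕ) (β γ : ℕ) : mk a β γ (il q) = γ := by
  simp [mk, il]

theorem cases3 {q : ℕ} (i : Fin (q + 2)) : (i : ℕ) < q ∨ i = iq q ∨ i = il q := by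
  rcases Nat.lt_trichotomy (i : ℕ) q with h | h | h
  · exact Or.inl h
  · exact Or.inr (Or.inl (Fin.ext h))
  · exact Or.inr (Or.inr (Fin.ext (by have := i.2; simp only [il]; omega)))

theorem eq_mk {q : ℕ} (a : Fin (q + 2) → ℕ) (β γ : ℕ) (w : Fin (q + 2) →₀ ℕ)
    (h1 : ∀ i : Fin (q + 2), (i : ℕ) < q → w i = a i - 1) (h2 : w (iq q) = β)
    (h3 : w (il q) = γ) : w = mk a β γ := by
  ext i
  rcases cases3 i with h | h | h
  · rw [h1 i h, mk_lt a β γ i h]
  · rw [h, h2, mk_q]
  · rw [h, h3, mk_l]

/-- the sum of the first part -/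
def A {q : ℕ} (a : Fin (q + 2) → ℕ) : ℕ := ∑ i : Fin q, (a i.castSucc.castSucc - 1)

theorem iq_eq (q : ℕ) : (Fin.last q).castSucc = iq q := Fin.ext (by simp [iq])

theorem il_eq (q : ℕ) : Fin.last (q + 1) = il q := Fin.ext (by simp [il])

theorem sum_w {q : ℕ} (a : Fin (q + 2) → ℕ) (w : Fin (q + 2) →₀ ℕ)
    (h1 : ∀ i : Fin (q + 2), (i : ℕ) < q → w i = a i - 1) :
    ∑ i, w i = A a + w (iq q) + w (il q) := by
  rw [Fin.sum_univ_castSucc, Fin.sum_univ_castSucc, iq_eq, il_eq]
  congr 2
  unfold A
  refine Finset.sum_congr rfl fun i _ => ?_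
  exact h1 _ (by simp)

theorem S_p {q : ℕ} (a : Fin (q + 2) → ℕ) : S a (q + 1) = A a + (a (iq q) - 1) := by
  unfold S
  rw [Finset.sum_filter, Fin.sum_univ_castSucc, Fin.sum_univ_castSucc, iq_eq, il_eq]
  have h2 : ¬ ((il q : Fin (q + 2)) : ℕ) < q + 1 := by simp [il]
  have h3 : ((iq q : Fin (q + 2)) : ℕ) < q + 1 := by simp [iq]
  rw [if_neg h2, if_pos h3, Nat.add_zero]
  congr 1
  unfold A
  refine Finset.sum_congr rfl fun i _ => ?_
  rw [if_pos]
  have := i.2
  simp only [Fin.val_castSucc]
  omega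

theorem S_n {q : ℕ} (a : Fin (q + 2) → ℕ) :
    S a (q + 2) = A a + (a (iq q) - 1) + (a (il q) - 1) := by
  unfold S
  rw [Finset.sum_filter, Fin.sum_univ_castSucc, Fin.sum_univ_castSucc, iq_eq, il_eq]
  have h2 : ((il q : Fin (q + 2)) : ℕ) < q + 2 := by simp [il]
  have h3 : ((iq q : Fin (q + 2)) : ℕ) < q + 2 := by simp [iq]
  rw [if_pos h2, if_pos h3]
  congr 2
  unfold A
  refine Finset.sum_congr rfl fun i _ => ?_
  rw [if_pos]
  have := i.2
  simp only [Fin.val_castSucc]
  omega

theorem mem_std {q : ℕ} (a : Fin (q + 2) → ℕ) (d : ℕ) (w : Fin (q + 2) →₀ ℕ) :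
    w ∈ Std a d ↔ ∑ i, w i = d ∧ ∀ i, w i < a i := by
  unfold Std
  rw [Finset.mem_filter, Finset.mem_finsuppAntidiag]
  constructor
  · rintro ⟨⟨h1, _⟩, h2⟩
    exact ⟨h1, h2⟩
  · rintro ⟨h1, h2⟩
    exact ⟨⟨h1, Finset.subset_univ _⟩, h2⟩

theorem main (q : ℕ) (a : Fin (q + 2) → ℕ) (d : ℕ) (ha : ∀ i, 2 ≤ a i)
    (h1 : S a (q + 1) < d) (h2 : d < S a (q + 2)) :
    Sh a d 2 2 ∧ (d + 1 = S a (q + 2) → Sh a d 2 1) := by
  rw [S_p] at h1
  rw [S_n] at h2 ⊢
  have hb := ha (iq q)
  have hc := ha (il q)
  obtain ⟨e, he⟩ : ∃ e, d = A a + (a (iq q) - 1) + e := ⟨d - (A a + (a (iq q) - 1)), by omega⟩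
  set x := mk a (a (iq q) - 1) e with hx
  set x' := mk a (a (iq q) - 2) (e + 1) with hx'
  set w1 := mk a (a (iq q) - 1) (e + 1) with hw1
  set w2 := mk a (a (iq q) - 2) (e + 2) with hw2
  have hxx : x ≠ x' := by
    intro h
    have := congrArg (fun w : Fin (q + 2) →₀ ℕ => w (il q)) h
    simp only [hx, hx', mk_l] at this
    omega
  have hxS : x ∈ Std a d := by
    rw [mem_std, sum_w a x (fun i hi => mk_lt _ _ _ i hi), hx, mk_q, mk_l]
    refine ⟨by omega, fun i => ?_⟩
    rcases cases3 i with h | h | h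
    · rw [mk_lt _ _ _ i h]
      have := ha i
      omega
    · rw [h, mk_q]; omega
    · rw [h, mk_l]; omega
  have hxS' : x' ∈ Std a d := by
    rw [mem_std, sum_w a x' (fun i hi => mk_lt _ _ _ i hi), hx', mk_q, mk_l]
    refine ⟨by omega, fun i => ?_⟩
    rcases cases3 i with h | h | h
    · rw [mk_lt _ _ _ i h]
      have := ha i
      omega
    · rw [h, mk_q]; omega
    · rw [h, mk_l]; omega
  have hseg : IsSeg a d {x, x'} := by
    refine ⟨?_, ?_⟩
    · intro z hz
      rcases Finset.mem_insert.1 hz with h | h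
      · rw [h]; exact hxS
      · rw [Finset.mem_singleton.1 h]; exact hxS'
    · intro y hy z hz hlt
      obtain ⟨hzs, hza⟩ := (mem_std a d z).1 hz
      obtain ⟨j, hj1, hj2⟩ := hlt
      rcases Finset.mem_insert.1 hy with h | h
      · -- `y = x`
        exfalso
        rw [h] at hj1 hj2
        rcases cases3 j with hj | hj | hj
        · rw [hx, mk_lt _ _ _ j hj] at hj2
          have := hza j
          omega
        · rw [hj, hx, mk_q] at hj2
          have := hza (iq q)
          omega
        · have e1 : ∀ i : Fin (q + 2), (i : ℕ) < q → z i = a i - 1 := by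
            intro i hi
            rw [← hj1 i (by rw [hj]; exact Fin.lt_def.2 (by simp only [il]; omega)), hx,
              mk_lt _ _ _ i hi]
          have e2 : z (iq q) = a (iq q) - 1 := by
            rw [← hj1 (iq q) (by rw [hj]; exact Fin.lt_def.2 (by simp only [il, iq]; omega)), hx,
              mk_q]
          have e3 := sum_w a z e1
          rw [hzs, e2] at e3
          rw [hj, hx, mk_l] at hj2
          omega
      · -- `y = x'`
        rw [Finset.mem_singleton.1 h] at hj1 hj2
        rcases cases3 j with hj | hj | hj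
        · exfalso
          rw [hx', mk_lt _ _ _ j hj] at hj2
          have := hza j
          omega
        · have e1 : ∀ i : Fin (q + 2), (i : ℕ) < q → z i = a i - 1 := by
            intro i hi
            rw [← hj1 i (by rw [hj]; exact Fin.lt_def.2 (by simp only [iq]; omega)), hx',
              mk_lt _ _ _ i hi]
          rw [hj, hx', mk_q] at hj2
          have e2 : z (iq q) = a (iq q) - 1 := by
            have := hza (iq q)
            omega
          have e3 := sum_w a z e1
          rw [hzs, e2] at e3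
          have e4 : z (il q) = e := by omega
          rw [eq_mk a _ _ z e1 e2 e4, ← hx]
          exact Finset.mem_insert_self _ _
        · exfalso
          have e1 : ∀ i : Fin (q + 2), (i : ℕ) < q → z i = a i - 1 := by
            intro i hi
            rw [← hj1 i (by rw [hj]; exact Fin.lt_def.2 (by simp only [il]; omega)), hx',
              mk_lt _ _ _ i hi]
          have e2 : z (iq q) = a (iq q) - 2 := by
            rw [← hj1 (iq q) (by rw [hj]; exact Fin.lt_def.2 (by simp only [il, iq]; omega)),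
              hx', mk_q]
          have e3 := sum_w a z e1
          rw [hzs, e2] at e3
          rw [hj, hx', mk_l] at hj2
          omega
  -- the shadow
  have hshad : ∀ w ∈ shadow a d {x, x'}, w = w1 ∨ (w = w2 ∧ e + 2 < a (il q)) := by
    intro w hw
    unfold shadow at hw
    obtain ⟨hwS, y, hy, hyw⟩ := Finset.mem_filter.1 hw
    obtain ⟨hws, hwa⟩ := (mem_std a (d + 1) w).1 hwS
    rcases Finset.mem_insert.1 hy with h | h
    · rw [h] at hyw
      left
      have e1 : ∀ i : Fin (q + 2), (i : ℕ) < q → w i = a i - 1 := by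
        intro i hi
        have g1 := hyw i
        rw [hx, mk_lt _ _ _ i hi] at g1
        have g2 := hwa i
        omega
      have e2 : w (iq q) = a (iq q) - 1 := by
        have g1 := hyw (iq q)
        rw [hx, mk_q] at g1
        have g2 := hwa (iq q)
        omega
      have e3 := sum_w a w e1
      rw [hws, e2] at e3
      exact eq_mk a _ _ w e1 e2 (by omega)
    · rw [Finset.mem_singleton.1 h] at hyw
      have e1 : ∀ i : Fin (q + 2), (i : ℕ) < q → w i = a i - 1 := by
        intro i hi
        have g1 := hyw i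
        rw [hx', mk_lt _ _ _ i hi] at g1
        have g2 := hwa i
        omega
      have e3 := sum_w a w e1
      rw [hws] at e3
      have g1 := hyw (iq q)
      rw [hx', mk_q] at g1
      have g2 := hwa (iq q)
      have g3 := hwa (il q)
      by_cases hq : w (iq q) = a (iq q) - 1
      · left
        exact eq_mk a _ _ w e1 hq (by omega)
      · right
        have e4 : w (iq q) = a (iq q) - 2 := by omega
        have e5 : w (il q) = e + 2 := by omega
        exact ⟨eq_mk a _ _ w e1 e4 e5, by omega⟩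
  have hcard : ({x, x'} : Finset (Fin (q + 2) →₀ ℕ)).card = 2 := Finset.card_pair hxx
  refine ⟨⟨{x, x'}, hseg, hcard, ?_⟩, fun hd => ⟨{x, x'}, hseg, hcard, ?_⟩⟩
  · have hsub : shadow a d {x, x'} ⊆ {w1, w2} := by
      intro w hw
      rcases hshad w hw with h | h
      · rw [h]; exact Finset.mem_insert_self _ _
      · rw [h.1]; exact Finset.mem_insert_of_mem (Finset.mem_singleton_self _)
    exact (Finset.card_le_card hsub).trans Finset.card_le_two
  · have hsub : shadow a d {x, x'} ⊆ {w1} := by
      intro w hw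
      rcases hshad w hw with h | h
      · rw [h]; exact Finset.mem_singleton_self _
      · exfalso
        have := h.2
        omega
    exact (Finset.card_le_card hsub).trans (Finset.card_singleton _).le

end SH3_

theorem t_sh3 : T_SH3 := by
  intro n a p d ha hp hpn h1 h2
  obtain ⟨q, rfl⟩ : ∃ q, p = q + 1 := ⟨p - 1, by omega⟩
  subst hpn
  exact SH3_.main q a d ha h1 h2

end

end Pool.Agent.EGU
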