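import Pool.Agent.EGU.Defs

set_option autoImplicit false
open MvPolynomial

/-!
Targets of the project EGU (MP_e5dae2_al). Every target has its proof in the docstring.
A job proves `theorem Pool.Agent.EGU.t_xxx (h1 : T_A) (h2 : T_B) ... : T_XXX`.
-/

namespace Pool.Agent.EGU

universe u

noncomputable section

/-! ## A. Basic facts -/

/-- NUM. The numbers `S_j` and `P (x)`. For `j < m` the filter of `S a (j+1)` is the filter of
`S a j` with `j` inserted. `{j : S a (j+1) ≤ x}` is an initial segment of `Fin m` (monotonicity),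
so its cardinality is at least `j` iff it contains `j - 1`. -/
def T_NUM : Prop := ∀ (m : ℕ) (a : Fin m → ℕ), S a 0 = 0 ∧
  (∀ (j : ℕ) (h : j < m), S a (j + 1) = S a j + (a ⟨j, h⟩ - 1)) ∧
  (∀ i j, i ≤ j → S a i ≤ S a j) ∧ (∀ j, m ≤ j → S a j = S a m) ∧ (∀ x, P a x ≤ m) ∧
  (∀ j x, j ≤ m → (j ≤ P a x ↔ S a j ≤ x)) ∧ Monotone (P a) ∧
  (∀ (k : ℕ) (hk : k ≤ m) (j : ℕ), j ≤ k → S (a ∘ Fin.castLE hk) j = S a j) ∧
  (∀ (k : ℕ) (hk : k ≤ m) (x : ℕ), P (a ∘ Fin.castLE hk) x = min k (P a x))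

/-- DIMR. Dimension of `R_d` (compare `Pool/Agent/EGH/PDIMR.lean`, the same for three variables:
basis of monomials; `finsuppAntidiag` of `univ`). For `d = 1`: `n` monomials. -/
def T_DIMR : Prop := ∀ (K : Type u) [Field K] (n d : ℕ), Module.Finite K (Rd K n d) ∧
  Module.finrank K (Rd K n d) = (Finset.finsuppAntidiag (Finset.univ : Finset (Fin n)) d).card ∧
  Module.finrank K (Rd K n 1) = n

/-- CIR. Removing the last element of a regular sequence, and the converse. The image of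
`{i | i < Fin.last m}` under `f` is the range of `f ∘ Fin.castSucc`; for `j = castSucc i` the image
of `{k | k < j}` under `f` is the image of `{k | k < i}` under `f ∘ castSucc`. -/
def T_CIR : Prop := ∀ (K : Type u) [Field K] (n m : ℕ) (f : Fin (m + 1) → R K n)
  (a : Fin (m + 1) → ℕ),
  J f = J (f ∘ Fin.castSucc) ⊔ Ideal.span {f (Fin.last m)} ∧
  (CI f a ↔ (CI (f ∘ Fin.castSucc) (a ∘ Fin.castSucc) ∧ 1 ≤ a (Fin.last m) ∧
    (f (Fin.last m)).IsHomogeneous (a (Fin.last m)) ∧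
    ∀ p, p * f (Fin.last m) ∈ J (f ∘ Fin.castSucc) → p ∈ J (f ∘ Fin.castSucc)))

/-- JD. The degree `d` part of `J` (compare EGH: `T_JD`, three variables), and homogeneity of `J`.
If `p = ∑ c k * f k` take the component of degree `d` (`a k`-shifted) of `c k`. -/
def T_JD : Prop := ∀ (K : Type u) [Field K] (n m : ℕ) (f : Fin m → R K n) (a : Fin m → ℕ),
  (∀ i, (f i).IsHomogeneous (a i)) →
  (∀ (d : ℕ) (p : R K n), p ∈ Jd f d ↔
    ∃ y : Fin m → R K n, (∀ k, y k ∈ Rm K n d (a k)) ∧ p = ∑ k, y k * f k) ∧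
  ∀ p ∈ J f, ∀ d, homogeneousComponent d p ∈ J f

/-- REG. Translation of the regular sequences of Mathlib (compare `Pool/Agent/EGH/PREG.lean`). -/
def T_REG : Prop := ∀ (K : Type u) [Field K] (n : ℕ) (f : Fin n → R K n) (a : Fin n → ℕ),
  (∀ i, 1 ≤ a i) → (∀ i, (f i).IsHomogeneous (a i)) →
  RingTheory.Sequence.IsRegular (R K n) (List.ofFn f) → CI f a

/-- UPL. Trivial inclusions (all forms `f i` homogeneous): `J_{d+1} ≤ up f d W ≤ R_{d+1}`,
monotonicity, `up f d J_d = J_{d+1}`; `mulW`, `kerW`, `orth` lie where they should. -/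
def T_UPL : Prop := ∀ (K : Type u) [Field K] (n m : ℕ) (f : Fin m → R K n) (a : Fin m → ℕ),
  (∀ i, (f i).IsHomogeneous (a i)) → ∀ (d : ℕ) (W : Submodule K (R K n)), W ≤ Rd K n d →
  Jd f (d + 1) ≤ up f d W ∧ up f d W ≤ Rd K n (d + 1) ∧ up f d (Jd f d) = Jd f (d + 1) ∧
  (∀ W' : Submodule K (R K n), W' ≤ W → up f d W' ≤ up f d W) ∧
  (∀ l ∈ Rd K n 1, mulW f d l W ≤ up f d W ∧ mulW f d l W ≤ Rd K n (d + 1)) ∧
  (∀ l ∈ Rd K n 1, Jd f d ≤ W → Jd f d ≤ kerW f l W) ∧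
  (∀ e, Jd f e ≤ orth f e W ∧ orth f e W ≤ Rd K n e) ∧
  (∀ p, p ∈ Jd f d → ∀ l ∈ Rd K n 1, l * p ∈ Jd f (d + 1))

/-- BASIS. A subspace `W` between `J_d` and `R_d` with `dim W = dim J_d + v` has a basis modulo
`J_d`, and conversely; the hyperplane `Wp` (compare `Pool/Agent/EGH/PBAS.lean`). -/
def T_BASIS : Prop := ∀ (K : Type u) [Field K] (n m : ℕ) (f : Fin m → R K n) (d v : ℕ),
  (∀ W : Submodule K (R K n), Jd f d ≤ W → W ≤ Rd K n d →
    Module.finrank K W = Module.finrank K (Jd f d) + v →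
    ∃ w : Fin v → R K n, (∀ k, w k ∈ Rd K n d) ∧
      (∀ c : Fin v → K, ∑ k, c k • w k ∈ J f → c = 0) ∧ W = Wf f d w) ∧
  (∀ w : Fin v → R K n, (∀ k, w k ∈ Rd K n d) →
    (∀ c : Fin v → K, ∑ k, c k • w k ∈ J f → c = 0) →
    Jd f d ≤ Wf f d w ∧ Wf f d w ≤ Rd K n d ∧
    Module.finrank K (Wf f d w) = Module.finrank K (Jd f d) + v ∧
    ∀ p : Fin v → K, p ≠ 0 → Jd f d ≤ Wp f d w p ∧ Wp f d w p ≤ Wf f d w ∧
      Module.finrank K (Wp f d w p) + 1 = Module.finrank K (Jd f d) + v)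

/-! ## B. Koszul cohomology -/

/-- COB. Rules for the coboundary. `cob (cob c) = 0` as in `cob_cob` of
`Pool/Agent/REG/KoszA.lean` (pairs `(t, u)`, `t ≠ u`, cancel in pairs). Last part: for `t0 ∉ T` and
`e = (-1) ^ #{u ∈ T : u < t0}`: `cob c (insert t0 T) = e * (l t0 * c T - cob c1 T)` where
`c1 T' = (-1) ^ #{u ∈ T' : u < t0} * c (insert t0 T')`: for `t ∈ T` the sign of `t` in
`insert t0 T` is `(-1)^(#{u ∈ T : u < t} + [t0 < t])`, and
`#{u ∈ T \ {t} : u < t0} = #{u ∈ T : u < t0} - [t < t0]`. -/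
def T_COB : Prop := ∀ (K : Type u) [Field K] (n s : ℕ) (l : Fin s → R K n),
  (∀ (c : Finset (Fin s) → R K n) (T : Finset (Fin s)), cob l (cob l c) T = 0) ∧
  (∀ (c c' : Finset (Fin s) → R K n) (T : Finset (Fin s)),
    cob l (fun U => c U - c' U) T = cob l c T - cob l c' T) ∧
  (∀ (c : Finset (Fin s) → R K n) (g : R K n) (T : Finset (Fin s)),
    cob l (fun U => g * c U) T = g * cob l c T) ∧
  (∀ (I : Ideal (R K n)) (c : Finset (Fin s) → R K n) (T : Finset (Fin s)),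
    (∀ t ∈ T, c (T.erase t) ∈ I) → cob l c T ∈ I) ∧
  (∀ (c : Finset (Fin s) → R K n) (t0 : Fin s) (T : Finset (Fin s)), t0 ∉ T →
    cob l c (insert t0 T) = (-1) ^ (T.filter (· < t0)).card *
      (l t0 * c T - cob l (fun U => (-1) ^ (U.filter (· < t0)).card * c (insert t0 U)) T))

/-- CONE. The mapping cone. Let `t0 ∉ U` and `c` a cocycle of level `i` on `insert t0 U` modulo `I`
(`cob c T ∈ I` for `T ⊆ insert t0 U`, `#T = i+1`). (1) On `U` it is a cocycle, and for `T ⊆ U`,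
`#T = i`, the rule in T_COB for `cob c (insert t0 T) ∈ I` shows `l t0 * c T - cob c1 T ∈ I`. By the
hypothesis (B) `c T ≡ cob b' T` for `T ⊆ U`, `#T = i`. Put `b'' T = b' T` if `t0 ∉ T`, else `0`,
and `c' = c - cob b''`; `c'` is still a cocycle on `insert t0 U` (`cob cob = 0`), and `c' T ∈ I`
for `T ⊆ U`, `#T = i`. (2) If `i = 0`, we are done. If `i = i' + 1`: the rule gives
`cob c1' T ∈ I` for `T ⊆ U`, `#T = i`, where
`c1' T = (-1)^#{u ∈ T : u < t0} * c' (insert t0 T)` is a cochain of level `i'`; by (A) there is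
`b1` with `c1' T ≡ cob b1 T` for `T ⊆ U`, `#T = i'`. Put `b2 T = 0` if `t0 ∉ T` and
`b2 T = - (-1)^#{u ∈ T.erase t0 : u < t0} * b1 (T.erase t0)` if `t0 ∈ T`. The rule shows
`cob b2 (insert t0 T) = (-1)^.. * cob b1 T ≡ (-1)^.. c1' T = c' (insert t0 T)` for `T ⊆ U`,
`#T = i'`, and `cob b2 T = 0` for `T ⊆ U`. So `c ≡ cob (b'' + b2)`. -/
def T_CONE : Prop := ∀ (K : Type u) [Field K] (n s : ℕ) (l : Fin s → R K n)
  (I : Ideal (R K n)) (U : Finset (Fin s)) (t0 : Fin s) (i : ℕ), t0 ∉ U →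
  (∀ i', i' + 1 = i → Ex I l U i') →
  (∀ c : Finset (Fin s) → R K n, (∀ T ⊆ U, T.card = i + 1 → cob l c T ∈ I) →
    (∃ b : Finset (Fin s) → R K n, ∀ T ⊆ U, T.card = i → l t0 * c T - cob l b T ∈ I) →
    ∃ b : Finset (Fin s) → R K n, ∀ T ⊆ U, T.card = i → c T - cob l b T ∈ I) →
  Ex I l (insert t0 U) i

/-- NZD. Independent linear forms: the last one is a nonzerodivisor modulo the others. PROOF. Extend
to a basis of `R_1`; the linear substitution sending `X i` to this basis is an automorphism of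
`R`; so one may take `l t = X (σ t)` with `σ` injective; then
`MvPolynomial.mem_ideal_span_X_image` (or the ideal generated by some variables is prime and does
not contain another variable). -/
def T_NZD : Prop := ∀ (K : Type u) [Field K] (n s : ℕ) (l : Fin s → R K n),
  (∀ t, l t ∈ Rd K n 1) → ∀ (U : Finset (Fin s)) (t0 : Fin s), t0 ∉ U →
  LinearIndepOn K l (insert t0 U : Finset (Fin s)) →
  ∀ p : R K n, p * l t0 ∈ Ideal.span (l '' (U : Set (Fin s))) →
    p ∈ Ideal.span (l '' (U : Set (Fin s)))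

/-- LCI. Independent linear forms are a regular sequence of degrees `1`; `S = 0`, `P = r`. From
T_NZD (and the definitions). -/
def T_LCI : Prop := ∀ (K : Type u) [Field K] (n r : ℕ) (l : Fin r → R K n),
  (∀ t, l t ∈ Rd K n 1) → LinearIndependent K l → CI l (fun _ => 1) ∧
  (∀ j, S (fun _ : Fin r => 1) j = 0) ∧ ∀ x, P (fun _ : Fin r => 1) x = r

/-- BASE. Vanishing of the Koszul cohomology of `R` below the rank. PROOF. Let `r = rk l`, choose
`U0` of cardinality `r` with `l` independent on `U0`. (1) For `U ⊆ U0` and `i < #U`: `Ex ⊥ l U i`;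
induction on `U`, T_CONE for `insert t0 U`: (A) is the induction hypothesis (`i - 1 < #U`); (B) if
`i < #U` it follows from `Ex ⊥ l U i` (drop the extra hypothesis); if `i = #U` then `T = U` is the
only set, `cob b U` runs through the ideal generated by the `l t`, `t ∈ U`, so (B) is T_NZD (if
`#U = 0`: `cob b ∅ = 0`, `R` is a domain and `l t0 ≠ 0`). (2) For `U ⊇ U0`: induction, T_CONE,
`i < r`, both hypotheses from `Ex`. -/
def T_BASE : Prop := ∀ (K : Type u) [Field K] (n s : ℕ) (l : Fin s → R K n),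
  (∀ t, l t ∈ Rd K n 1) → ∀ i, i < rk l → Ex (⊥ : Ideal (R K n)) l Finset.univ i

/-- L1. Vanishing of the Koszul cohomology of `R/J` (`r = rk l`): `H^i (l; R/J)_D = 0` for `i < r`
if `m < r - i` or `D < S_{r-i}`. PROOF by induction on `m` (for all `i`, `D`). `m = 0`: T_BASE,
then take components of degree `D - 1` of `b` (zero if `D = 0`; the `l t` are forms of degree `1`).
`m + 1`: `f' = f ∘ castSucc`, `g = f (last)`, `α = a (last)`. For `#T = i+1` write
`cob c T ≡ g * b T` mod `J f'` with `b T ∈ Rm (D+1) α` (T_CIR, T_JD; `cob c T` has degree `D+1`).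
Then `0 = cob (cob c) ≡ g * cob b` so `cob b T ∈ J f'` for `#T = i+2` (T_CIR). If `α > D + 1`,
`b = 0`. Otherwise `b` is a cocycle of level `i+1` and degree `D+1-α`. If `i + 1 < r`: the induction
hypothesis applies to `(i+1, D+1-α)`: if not `m < r-i-1`, then `r - i ≤ m + 1` and
`D < S_{r-i}`, `S_{r-i} - S_{r-i-1} = a_{r-i} - 1 ≤ α - 1`, so `D+1-α < S_{r-i-1}`; hence
`b ≡ cob b'`, `b'` of degree `D-α` (zero if `D < α`), and `c - g b'` is a cocycle modulo `J f'` of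
degree `D`. If `i + 1 = r` then `r - i = 1`, so `D < S_1 = a_1 - 1 ≤ α - 1`, against
`α ≤ D+1`. Now apply the induction hypothesis to `(i, D)` and `c - g b'` (or `c`): its condition
holds (`m < r - i` or `r - i ≤ m`, and `S_{r-i}` does not see the last entry). -/
def T_L1 : Prop := ∀ (K : Type u) [Field K] (n m s : ℕ) (f : Fin m → R K n) (a : Fin m → ℕ),
  CI f a → Monotone a → ∀ l : Fin s → R K n, (∀ t, l t ∈ Rd K n 1) →
  ∀ i D : ℕ, i < rk l → (m < rk l - i ∨ D < S a (rk l - i)) →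
  ∀ c : Finset (Fin s) → R K n, (∀ T, c T ∈ Rd K n D) →
    (∀ T, T.card = i + 1 → cob l c T ∈ J f) →
    ∃ b : Finset (Fin s) → R K n, (∀ T, b T ∈ Rm K n D 1) ∧
      ∀ T, T.card = i → c T - cob l b T ∈ J f

/-- SOC. The socle of a complete intersection. PROOF. T_L1 with `s = n`, `l = X`, `rk = n`,
`i = 0`, `c T = p`: `cob c {k} = X k * p`. (`n = 0`: `S a 0 = 0`, nothing to prove.) -/
def T_SOC : Prop := ∀ (K : Type u) [Field K] (n : ℕ) (f : Fin n → R K n) (a : Fin n → ℕ),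
  CI f a → Monotone a → ∀ (e : ℕ) (p : R K n), p ∈ Rd K n e → e < S a n →
    (∀ k, X k * p ∈ J f) → p ∈ J f

/-! ## C. Linear algebra -/

/-- EIG. A pencil of isomorphisms over an algebraically closed field. `A2`, `A1` finite
dimensional, `B2 ≤ A2`, `B1 ≤ A1`. If all `S0 + y S1` are injective and `S1` is bijective from
`A2/B2` to `A1/B1` then both are zero. PROOF. If `A1/B1 ≠ 0` then `A2/B2 ≠ 0` (`S1` surjective),
the endomorphism `S1⁻¹ S0` of `A2/B2` has an eigenvalue `λ` (`Module.End.exists_eigenvalue`); an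
eigenvector is killed by `S0 - λ S1`. -/
def T_EIG : Prop := ∀ (K : Type u) [Field K] [IsAlgClosed K] (E2 E1 : Type u)
  [AddCommGroup E2] [Module K E2] [AddCommGroup E1] [Module K E1] [Module.Finite K E2]
  [Module.Finite K E1] (A2 B2 : Submodule K E2) (A1 B1 : Submodule K E1) (S0 S1 : E2 →ₗ[K] E1),
  B2 ≤ A2 → B1 ≤ A1 → (∀ x ∈ A2, S0 x ∈ A1 ∧ S1 x ∈ A1) → (∀ x ∈ B2, S0 x ∈ B1 ∧ S1 x ∈ B1) →
  (∀ (y : K), ∀ x ∈ A2, S0 x + y • S1 x ∈ B1 → x ∈ B2) → (∀ x ∈ A2, S1 x ∈ B1 → x ∈ B2) →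
  (∀ z ∈ A1, ∃ x ∈ A2, S1 x - z ∈ B1) → A2 = B2 ∧ A1 = B1

/-- Cycles of level `e`: functions `Φ` on multi-indices with `∑ k, D k (Φ (β + e_k)) = 0` for
`|β| = e - 1`. -/
def Cyc {K : Type u} [Field K] {v : ℕ} {V V' : Type u} [AddCommGroup V] [Module K V]
    [AddCommGroup V'] [Module K V'] (D : Fin v → (V →ₗ[K] V')) (e : ℕ)
    (Φ : (Fin v → ℕ) → V) : Prop :=
  ∀ β : Fin v → ℕ, ∑ k, β k + 1 = e → ∑ k, D k (Φ (β + Pi.single k 1)) = 0

/-- Boundaries of level `e`. -/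
def Bdy {K : Type u} [Field K] {v : ℕ} {V V' : Type u} [AddCommGroup V] [Module K V]
    [AddCommGroup V'] [Module K V'] (D : Fin v → (V →ₗ[K] V')) (e : ℕ)
    (Φ : (Fin v → ℕ) → V') : Prop :=
  ∃ Ψ : (Fin v → ℕ) → V, ∀ β : Fin v → ℕ, ∑ k, β k = e →
    Φ β = ∑ k, D k (Ψ (β + Pi.single k 1))

/-- A system: spaces `V 0 = 0, V 1, V 2, ...`, operators `D i k : V i → V (i+1)`, `k < v`, with
`D(p) D(p) = 0` and `D(p)` exact at `V 1, ..., V j` for all `p ≠ 0`. -/
structure Sys (K : Type u) [Field K] (V : ℕ → Type u) [∀ i, AddCommGroup (V i)]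
    [∀ i, Module K (V i)] (v j : ℕ) (D : ∀ i, Fin v → (V i →ₗ[K] V (i + 1))) : Prop where
  zero : ∀ x : V 0, x = 0
  sq : ∀ (p : Fin v → K) (i : ℕ) (x : V i), ∑ k, p k • D (i + 1) k (∑ k, p k • D i k x) = 0
  ex : ∀ p : Fin v → K, p ≠ 0 → ∀ i, i < j → ∀ x : V (i + 1), ∑ k, p k • D (i + 1) k x = 0 →
    ∃ y : V i, ∑ k, p k • D i k y = x

/-- The vanishing statement with `v` operators. -/
def LinV (K : Type u) [Field K] (v : ℕ) : Prop :=
  ∀ (V : ℕ → Type u) [∀ i, AddCommGroup (V i)] [∀ i, Module K (V i)]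
    [∀ i, Module.Finite K (V i)] (j : ℕ) (D : ∀ i, Fin v → (V i →ₗ[K] V (i + 1))),
    Sys K V v j D → ∀ i, i + v ≤ j → ∀ e, (e = 1 ∨ e = 2) → ∀ Φ : (Fin v → ℕ) → V (i + 1),
    Cyc (D (i + 1)) e Φ → Bdy (D i) e Φ

/-- PENC. The pencil step. Let `(α Φ) β = Φ (β + e_0) + y Φ (β + e_1)`, `∂ Φ β = ∑ D k (Φ(β+e_k))`.
`∂ ∂ = 0` (from `sq` for `p = e_k` and `p = e_k + e_l`: `D_k D_k = 0`, `D_k D_l + D_l D_k = 0`),
`α ∂ = ∂ α`. Put `E i 0 = D i 1 - y D i 0`, `E i k = D i (k+1)` for `k ≥ 1` (`v` operators);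
`∑ q_k E_k = D(p)` with `p = (-y q_0, q_0, q_1, ...)`, so `E` is a system with the same `j`. For
`Φ' : (Fin v → ℕ) → V` put `(ext Φ') γ = (-y)^(γ 0) Φ' (δ γ)`,
`δ γ 0 = γ 0 + γ 1`, `δ γ k = γ (k+1)`.
Then `α (ext Φ') = 0` and `∂ (ext Φ') = ext (∂_E Φ')` (direct). Conversely if `α Φ = 0` at level
`e - 1` then `Φ = ext Φ'` at level `e` with `Φ' δ = Φ (0, δ)` (induction on `γ 0`). `α` is
surjective: for `Ψ` of level `e - 1` put `Φ γ = ∑_{i < γ 0} (-y)^i Ψ (γ - (i+1) e_0 + i e_1)`.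
(a) `Φ` a cycle of level 2, `α Φ = ∂ Ψ` at level 1, `Ψ = α Ψ'` at level 2 (`Ψ'` of level 3, in
`V i`). Then `α (Φ - ∂ Ψ') = 0` at level 1, so `Φ - ∂ Ψ' = ext Φ'` at level 2, `Φ'` is an
`E`-cycle of level 2 (evaluate at `γ = (0, δ)`), so `Φ' = ∂_E Θ'` (hypothesis `LinV K v`), and
`Φ = ∂ (Ψ' + ext Θ')`. (b) `Ψ` a cycle of level 1 in `V (i+1)`; `Ψ = α Φ0`, `Φ0` of level 2.
`α ∂ Φ0 = ∂ Ψ = 0` at level 0, so `∂ Φ0 = ext Φ'` at level 1 in `V (i+2)`, `Φ'` an `E`-cycle of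
level 1 (`∂ ∂ Φ0 = 0`), `Φ' = ∂_E Θ'` by `LinV K v` for `i + 1`; `Φ = Φ0 - ext Θ'`. -/
def T_PENC : Prop := ∀ (K : Type u) [Field K] (v : ℕ), 1 ≤ v → LinV K v →
  ∀ (V : ℕ → Type u) [∀ i, AddCommGroup (V i)] [∀ i, Module K (V i)]
    [∀ i, Module.Finite K (V i)] (j : ℕ) (D : ∀ i, Fin (v + 1) → (V i →ₗ[K] V (i + 1))),
    Sys K V (v + 1) j D → ∀ i, i + v + 1 ≤ j → ∀ (y : K) (z1 : Fin (v + 1)), (z1 : ℕ) = 1 →
    (∀ Φ : (Fin (v + 1) → ℕ) → V (i + 1), Cyc (D (i + 1)) 2 Φ →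
      Bdy (D i) 1 (fun β => Φ (β + Pi.single 0 1) + y • Φ (β + Pi.single z1 1)) →
      Bdy (D i) 2 Φ) ∧
    (∀ Ψ : (Fin (v + 1) → ℕ) → V (i + 1), Cyc (D (i + 1)) 1 Ψ →
      ∃ Φ : (Fin (v + 1) → ℕ) → V (i + 1), Cyc (D (i + 1)) 2 Φ ∧
        ∀ β : Fin (v + 1) → ℕ, ∑ k, β k = 1 →
          Φ (β + Pi.single 0 1) + y • Φ (β + Pi.single z1 1) = Ψ β)

/-- LINV. Induction on `v ≥ 1`. `v = 1`: a multi-index is a number, exactness of `D 0` (`p = 1`).
Step: let `A_e`, `B_e` be the cycles and boundaries of level `e = 2, 1` in the finite dimensional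
spaces of functions on the multi-indices with `|β| = e` with values in `V (i+1)` (a function on
these extends by zero to all multi-indices; `Finset.piAntidiag`), `S0`, `S1` the shifts
`Φ ↦ Φ (· + e_0)`, `Φ (· + e_1)`; apply T_EIG: the injectivity of `S0 + y S1` is T_PENC (a); the
injectivity and surjectivity of `S1` is T_PENC with `y = 0` for the operators with the indices `0`
and `1` exchanged. -/
def T_LINV : Prop := ∀ (K : Type u) [Field K] [IsAlgClosed K] (v : ℕ), 1 ≤ v → LinV K v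

/-- LIN. The consequence used: T_LINV with `j = v`, `i = 0`, `e = 1`, `Φ (e_k) = w k`; `V 0 = 0`. -/
def T_LIN : Prop := ∀ (K : Type u) [Field K] [IsAlgClosed K] (V : ℕ → Type u)
  [∀ i, AddCommGroup (V i)] [∀ i, Module K (V i)] [∀ i, Module.Finite K (V i)] (v : ℕ)
  (D : ∀ i, Fin v → (V i →ₗ[K] V (i + 1))), Sys K V v v D →
  ∀ w : Fin v → V 1, ∑ k, D 1 k (w k) = 0 → w = 0

/-! ## D. Linear syzygies -/

/-- L3. Some `L_p` is small. PROOF. `v ≥ 1`. Suppose `dim L_p ≥ v + P a (d + v - 1)` for all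
`p ≠ 0`. Let `x_1, ..., x_s` (elements of `Sig f w`) be a basis of `Sig`, a finite dimensional
space. `V 0 = 0` (`PUnit`), `V (i+1)` = functions on `{T : Finset (Fin s) // T.card = i}` with
values in `R_{d+i} / J_{d+i}`. `D 0 = 0`; `D (i+1) k` = the Koszul coboundary with the elements
`t ↦ x_t k` (well defined modulo `J`). Then `∑ p_k D_k` is the coboundary with the linear forms
`l_t = ∑_k p_k x_t k`, which span `L_p`. `sq` is T_COB. Exactness at `V (i+1)`, `i < v`, `p ≠ 0`: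
T_L1 with `r = rk l = dim L_p ≥ v > i`: if `r - i ≤ m` then `r - i ≥ 1 + P a (d+v-1)`, so
`S a (r-i) > d + v - 1 ≥ d + i` (T_NUM). For `i = 0` T_L1 gives `c ∅ ∈ J`. The vector `(w_k)`,
viewed in `V 1` (functions on `{∅}`), satisfies `∑_k D 1 k (w_k) = 0`, since
`∑_k x_t k * w_k ∈ J`. By T_LIN all `w_k ∈ J`. (Values for larger `i` do not matter: exactness is
only needed for `i < v`.) -/
def T_L3 : Prop := ∀ (K : Type u) [Field K] [IsAlgClosed K] (n m v d : ℕ) (f : Fin m → R K n)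
  (a : Fin m → ℕ), CI f a → Monotone a → ∀ w : Fin v → R K n, (∀ k, w k ∈ Rd K n d) →
  (∃ k, w k ∉ J f) →
  ∃ p : Fin v → K, p ≠ 0 ∧ Module.finrank K (L f w p) + 1 ≤ v + P a (d + v - 1)

/-- HYP. Growth of a hyperplane. PROOF. Choose `b` with `∑ b k * p k = 1`, `w' = ∑ b k • w k`. Then
`w k - p k • w' ∈ Wp` so `up (Wf) = up (Wp) + R_1 w'`. The map `R_1 → up (Wf) / up (Wp)`,
`l ↦ l w'`, is surjective with kernel `L f w p`: if `x ∈ Sig`, then
`0 ≡ ∑ x_k w_k = ∑ x_k (w_k - p_k w') + (∑ p_k x_k) w'`, so `(∑ p_k x_k) w' ∈ up (Wp)`. If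
`l w' ∈ up (Wp)`, then `l w' ≡ ∑_j l_j ∑_k c_{jk} w_k` mod `J` with `∑_k c_{jk} p_k = 0`, and
`x_k = b_k l - ∑_j c_{jk} l_j` is in `Sig` with `∑ p_k x_k = l`. -/
def T_HYP : Prop := ∀ (K : Type u) [Field K] (n m : ℕ) (f : Fin m → R K n) (a : Fin m → ℕ),
  (∀ i, (f i).IsHomogeneous (a i)) → ∀ (d v : ℕ) (w : Fin v → R K n), (∀ k, w k ∈ Rd K n d) →
  ∀ p : Fin v → K, p ≠ 0 →
  Module.finrank K (up f d (Wf f d w)) + Module.finrank K (L f w p) =
    Module.finrank K (up f d (Wp f d w p)) + n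

/-- ANN. The annihilator of one element. `dim (R_1 w) = n - dim Ann1 w` modulo `J` (T_HYP with
`v = 1`, `p = 1`: `Wp = J_d`, `L` is isomorphic to `Ann1`; or directly). Second part: T_L3 with
`v = 1`. -/
def T_ANN : Prop := ∀ (K : Type u) [Field K] (n m : ℕ) (f : Fin m → R K n) (a : Fin m → ℕ),
  CI f a → Monotone a → ∀ (d : ℕ), ∀ w ∈ Rd K n d,
  Module.finrank K (up f d (Wf f d (fun _ : Fin 1 => w))) + Module.finrank K (Ann1 f w) =
    Module.finrank K (Jd f (d + 1)) + n ∧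
  (IsAlgClosed K → w ∉ J f → Module.finrank K (Ann1 f w) ≤ P a d)

/-- UNI. The growth inequality. PROOF. Induction on `v`. `v = 0`: T_BASIS, T_ANN. Step `v + 1`
(`dim W = dim J_d + v + 2`): basis `w : Fin (v+2) → R` (T_BASIS), T_L3 gives `p ≠ 0` with
`dim L_p ≤ v + 1 + P a (d + v + 1)`; the induction hypothesis for `Wp f d w p` and T_HYP. -/
def T_UNI : Prop := ∀ (K : Type u) [Field K] [IsAlgClosed K] (n m d v t : ℕ)
  (f : Fin m → R K n) (a : Fin m → ℕ), CI f a → Monotone a → ∀ W : Submodule K (R K n),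
  Jd f d ≤ W → W ≤ Rd K n d → Module.finrank K W = Module.finrank K (Jd f d) + (v + 1) →
  (∀ w ∈ W, w ∉ J f → Module.finrank K (Ann1 f w) ≤ t) →
  Module.finrank K (Jd f (d + 1)) + (n - t) + ∑ i ∈ Finset.range v, (n - (i + 1 + P a (d + i + 1)))
    ≤ Module.finrank K (up f d W)

/-- SPLIT. Splitting by a linear form `l`. PROOF. Rank-nullity for `W → mulW / J_{d+1}`, `w ↦ l w`
(kernel `kerW`, surjective) and for `up f d W → up f (d+1) (mulW) / J_{d+2}` (surjective since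
`R_1 (l W) = l (R_1 W)`; the kernel contains `up f d (kerW)`). -/
def T_SPLIT : Prop := ∀ (K : Type u) [Field K] (n m : ℕ) (f : Fin m → R K n) (a : Fin m → ℕ),
  (∀ i, (f i).IsHomogeneous (a i)) → ∀ (d : ℕ) (W : Submodule K (R K n)), Jd f d ≤ W →
  W ≤ Rd K n d → ∀ l ∈ Rd K n 1,
  Module.finrank K W + Module.finrank K (Jd f (d + 1)) =
    Module.finrank K (kerW f l W) + Module.finrank K (mulW f d l W) ∧
  Module.finrank K (up f d (kerW f l W)) + Module.finrank K (up f (d + 1) (mulW f d l W)) ≤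
    Module.finrank K (up f d W) + Module.finrank K (Jd f (d + 2))

/-- EMB. Linear syzygies of elements killed by `r` independent linear forms `l` lift to
syzygies of polynomials modulo `(l)`. PROOF by induction on `m`, all `i`, `D`. CASE `i = r`: then
`D + 1 ≤ S a 1 = a_1 - 1` or `m = 0`, so `J f` has no nonzero form of degree `≤ D + 1`; take
`g k = c k univ`, `e' = D`; a cochain of level `r` modulo coboundaries is an element of `R/(l)`
(`cob b univ` runs through `J l`); the relation in degree `D+1` loses its `J f` part (homogeneous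
components). CASE `m = 0`, `i < r`: every cocycle is a coboundary (T_BASE; `rk l = r`), so the
nontriviality hypothesis fails. CASE `m + 1`, `i < r`: `f' = f ∘ castSucc`, `g0 = f (last)`,
`α = a (last)`. `cob (c k) T ≡ g0 * b_k T` mod `J f'` for `#T = i+1`, `b_k T ∈ Rm (D+1) α`; `b_k` is
a cocycle of level `i+1` modulo `J f'` (as in T_L1). For `x ∈ X`: `∑ x_k c_k - cob B ≡ g0 h` mod
`J f'` at level `i`; applying `cob` and cancelling `g0`: `∑ x_k b_k - cob h ∈ J f'` at level `i+1`.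
(1) If `α ≤ D+1` and not all `b_k` are coboundaries mod `J f'`: induction hypothesis for
`(i+1, D+1-α)`; its condition: `D+2-α ≤ S_{r-i}` since `D+1 ≤ S_{r-i+1}` and
`S_{r-i+1} - S_{r-i} = a_{r-i+1} - 1 ≤ α - 1` (if `r-i+1 ≤ m+1`, otherwise `m < r - i`). The result
`e' + S_{r-i-1} ≤ D+1-α` gives `e' + S_{r-i} ≤ D` as `a_{r-i} ≤ α`. (2) Otherwise
`b_k ≡ cob b'_k` (`b'_k T` of degree `D - α`, take components; `0` if `b_k = 0`). Put
`c'_k = c_k - g0 b'_k`, cocycles mod `J f'`, not all coboundaries (else the `c_k` would be mod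
`J f`). The relation is `∑ x_k c'_k - cob B ≡ g0 h'` mod `J f'`, `h' = h - ∑ x_k b'_k`, which one
may take of degree `D+1-α`; `cob h' ∈ J f'` at level `i+1`, so by T_L1 (`i < r`; `m < r - i` or
`D+1-α < S_{r-i}`) `h' ≡ cob h''` and `∑ x_k c'_k - cob (B + g0 h'') ∈ J f'`. Induction hypothesis
for `(i, D)`. -/
def T_EMB : Prop := ∀ (K : Type u) [Field K] (n m r : ℕ) (f : Fin m → R K n) (a : Fin m → ℕ),
  CI f a → Monotone a → ∀ l : Fin r → R K n, (∀ t, l t ∈ Rd K n 1) → LinearIndependent K l →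
  ∀ i D v : ℕ, i ≤ r → (m < r - i + 1 ∨ D + 1 ≤ S a (r - i + 1)) →
  ∀ c : Fin v → Finset (Fin r) → R K n, (∀ k T, c k T ∈ Rd K n D) →
  (∀ k T, T.card = i + 1 → cob l (c k) T ∈ J f) →
  (¬ ∀ k, ∃ b : Finset (Fin r) → R K n, ∀ T, T.card = i → c k T - cob l b T ∈ J f) →
  ∀ X' : Set (Fin v → R K n), (∀ x ∈ X', ∀ k, x k ∈ Rd K n 1) →
  (∀ x ∈ X', ∃ B : Finset (Fin r) → R K n, ∀ T, T.card = i →
    ∑ k, x k * c k T - cob l B T ∈ J f) →
  ∃ (e' : ℕ) (g : Fin v → R K n), r - i ≤ m ∧ e' + S a (r - i) ≤ D ∧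
    (∀ k, g k ∈ Rd K n e') ∧ (∃ k, g k ∉ J l) ∧ ∀ x ∈ X', ∑ k, x k * g k ∈ J l

/-- KILL. If `W` is killed by `r` independent linear forms. PROOF. T_EMB with `i = 0`,
`c k T = w k` (`cob l (c k) {t} = l t * w k ∈ J`; `cob b ∅ = 0`), `X' = Sig f w`: polynomials
`g k` of degree `e' ≤ d - S_r`, not all in `J l`, and every `x ∈ Sig f w` is in `Sig l g`. So
`L f w p ≤ L l g p` for all `p`. T_L3 for the regular sequence `l` (T_LCI, `P = r`): some `p ≠ 0`
has `dim (L l g p) + 1 ≤ v + r`. If `d = S_r` then `e' = 0`, `g k = C (p k)`, `p ≠ 0`, and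
`∑ x_k p_k ∈ J l` of degree `1`, so `L f w p ≤ span l`, of dimension `r` (`J l` in degree `1` is
the span of the `l t`, T_JD); `v ≥ 1`. -/
def T_KILL : Prop := ∀ (K : Type u) [Field K] [IsAlgClosed K] (n m r : ℕ) (f : Fin m → R K n)
  (a : Fin m → ℕ), CI f a → Monotone a → ∀ l : Fin r → R K n, (∀ t, l t ∈ Rd K n 1) →
  LinearIndependent K l → ∀ (d v : ℕ) (w : Fin v → R K n), (∀ k, w k ∈ Rd K n d) →
  (∃ k, w k ∉ J f) → (∀ t k, l t * w k ∈ J f) → (m < r + 1 ∨ d + 1 ≤ S a (r + 1)) →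
  r ≤ m ∧ S a r ≤ d ∧ ∃ p : Fin v → K, p ≠ 0 ∧ Module.finrank K (L f w p) + 1 ≤ v + r ∧
    (d = S a r → Module.finrank K (L f w p) ≤ r)

/-- V2. Growth of two-dimensional spaces. PROOF. `P a d = p`, `P a (d+1) ≤ p + 1` and `= p` if
`d + 1 < S_{p+1}` (`a_i ≥ 2`, T_NUM). Let `W` have dimension `2` modulo `J_d`,
`T = AnnW f W`, `t = dim T ≤ p` (T_ANN). CASE 1: there are `l ∈ R_1`, `l ∉ T`, and `w ∈ W`,
`w ∉ J`, `l w ∈ J`. T_SPLIT: `kerW` and `mulW` have dimension `1`, T_UNI (`v = 0`) (T_ANN) for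
both: growth at least `(n - P a d) + (n - P a (d+1))`, which is at least `2(n-p) - 1`, and
`2(n-p)` if `d+1 < S_{p+1}`. CASE 2: no such pair. Then `dim Ann1 w = t` for all `w ∈ W`,
`w ∉ J`. With a basis `w` of `W` and `q ≠ 0`: growth `= (n - t) + (n - dim L_q)` (T_HYP, T_ANN).
(i) `t = p`: T_KILL for a basis of `T` (`d + 1 ≤ S_{p+1}`) gives `q` with `dim L_q ≤ p + 1`, and
`≤ p` if `d = S_p`: growth at least `2(n-p) - 1`, `2 (n-p)` if `d = S_p`. If moreover `p + 1 = n`,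
`d + 1 < S_n`: `t = n - 1 < n`, choose `x ∈ R_1`, `x ∉ T`; `kerW f x W = J_d` so
`dim (mulW) = 2` modulo `J`, `mulW ≤ up`, growth at least `2 = 2 (n-p)`. (ii) `t ≤ p - 1`: T_L3
gives `q` with `dim L_q ≤ 1 + P a (d+1)`, growth at least `2n - (p-1) - 1 - P a (d+1)`. -/
def T_V2 : Prop := ∀ (K : Type u) [Field K] [IsAlgClosed K] (n d p : ℕ) (f : Fin n → R K n)
  (a : Fin n → ℕ), CI f a → Monotone a → (∀ i, 2 ≤ a i) → p < n → S a p ≤ d → d < S a (p + 1) →
  Grow f d 2 (2 * (n - p) - 1) ∧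
  ((d = S a p ∨ p + 1 = n) → d + 1 < S a (p + 1) → Grow f d 2 (2 * (n - p)))

/-- BV. Growth of spaces of dimension `v ≤ n - p`. PROOF. `G v = v (n-p) - v(v-1)/2`, natural
numbers, `G v = G (v-1) + (n - p - (v - 1))`. Induction on `v` for all `d`. `v = 0`: `J_{d+1} ≤ up`.
`v ≥ 1`: `P a d = p`. `W` of dimension `v` modulo `J_d`, `T = AnnW f W`, `t = dim T ≤ p` (T_ANN for
some `w ∈ W`, `w ∉ J`). `v = 1`: T_UNI with `t = p`. `v ≥ 2`. (i) `t = p`: T_KILL for a basis of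
`T` (`d + 1 ≤ S_{p+1}`) and a basis `w` of `W` gives `q ≠ 0`, `dim L_q + 1 ≤ v + p`;
T_HYP and the induction hypothesis for `Wp f d w q`. (ii) there are `l ∈ R_1`, `l ∉ T`, `w ∈ W`,
`w ∉ J`, `l w ∈ J`: T_SPLIT; `v1 = dim kerW`, `v2 = dim mulW` (modulo `J`), `v1 + v2 = v`,
`v1, v2 ≥ 1`. Induction for `kerW` in degree `d`: `≥ G v1`. If `d + 1 < S_{p+1}`: induction for
`mulW` in degree `d+1`: `≥ G v2`, and `G v1 + G v2 ≥ G v`. If `d + 1 = S_{p+1}`, then `v = 2`,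
`v1 = v2 = 1`, and T_UNI, T_ANN (`P a (d+1) ≤ p+1`) give `(n-p) + (n-p-1) = G 2`. (iii) neither:
`t ≤ p - 1` and `dim Ann1 w = t` for all `w ∈ W`, `w ∉ J`: T_UNI with `t`; `P a (d+i) = p` for
`i ≤ v - 2` and `P a (d + v - 1) ≤ p + 1` (`d + v - 1 ≤ S_{p+1} < S_{p+2}` if `p + 2 ≤ n`,
`P ≤ n` if `p + 1 = n`). -/
def T_BV : Prop := ∀ (K : Type u) [Field K] [IsAlgClosed K] (n d p v : ℕ) (f : Fin n → R K n)
  (a : Fin n → ℕ), CI f a → Monotone a → (∀ i, 2 ≤ a i) → p < n → S a p ≤ d → d < S a (p + 1) →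
  d + v ≤ S a (p + 1) + 1 → v + p ≤ n → Grow f d v (v * (n - p) - v.choose 2)

/-- The number of `j` with `a_j ≤ d + 1` and `S_j ≤ x`. -/
def Pt {m : ℕ} (a : Fin m → ℕ) (d x : ℕ) : ℕ :=
  (Finset.univ.filter (fun j : Fin m => a j ≤ d + 1 ∧ S a (j + 1) ≤ x)).card

/-- TRU. The forms of degree `≥ d + 2` do not matter. `k = #{j : a j ≤ d + 1}` (an initial
segment, `a` monotone). T_JD for the first part, T_CIR or the definition for the second. -/
def T_TRU : Prop := ∀ (K : Type u) [Field K] (n m d : ℕ) (f : Fin m → R K n) (a : Fin m → ℕ),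
  CI f a → Monotone a → ∃ (k : ℕ) (hk : k ≤ m), Jd (f ∘ Fin.castLE hk) d = Jd f d ∧
    Jd (f ∘ Fin.castLE hk) (d + 1) = Jd f (d + 1) ∧
    CI (f ∘ Fin.castLE hk) (a ∘ Fin.castLE hk) ∧ ∀ x, P (a ∘ Fin.castLE hk) x = Pt a d x

/-! ## E. Base change -/

/-- BC1. Base change of a regular sequence (compare `Pool/Agent/EGH/PBC1.lean`, three variables:
write a polynomial over `L` as `∑ C (B i) * map (cf_i p)` for a basis `B` of `L` over `K`). -/
def T_BC1 : Prop := ∀ (K E : Type u) [Field K] [Field E] [Algebra K E] (n m : ℕ)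
  (f : Fin m → R K n) (a : Fin m → ℕ), CI f a →
  CI (fun i => MvPolynomial.map (algebraMap K E) (f i)) a

/-- BC2. Base change of growth (compare `Pool/Agent/EGH/PBC2.lean`, three variables). -/
def T_BC2 : Prop := ∀ (K E : Type u) [Field K] [Field E] [Algebra K E] (n m : ℕ)
  (f : Fin m → R K n) (a : Fin m → ℕ), CI f a → ∀ d v N : ℕ,
  Grow (fun i => MvPolynomial.map (algebraMap K E) (f i)) d v N → Grow f d v N

/-! ## F. Hilbert functions -/

/-- HF1. The Hilbert function of a complete intersection depends on the degrees only. PROOF.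
Induction on `m`, for all `d`: with `f' = f ∘ castSucc`, `g = f (last)`, `α = a (last)`:
`J_d = J'_d + g R_{d-α}` if `α ≤ d`, `J_d = J'_d` otherwise (T_JD), and `g h ∈ J'` iff `h ∈ J'`
(T_CIR), so `dim J_d = dim J'_d + dim R_{d-α} - dim J'_{d-α}`. -/
def T_HF1 : Prop := ∀ (K : Type u) [Field K] (n m : ℕ) (f g : Fin m → R K n) (a : Fin m → ℕ),
  CI f a → CI g a → ∀ d, Module.finrank K (Jd f d) = Module.finrank K (Jd g d)

/-- XCI. Powers of the variables (compare `Pool/Agent/EGH/PMONCI.lean`): the ideal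
`(X_i ^ a_i : i < j)` is a monomial ideal, `mem_ideal_span_monomial_image`. -/
def T_XCI : Prop := ∀ (K : Type u) [Field K] (n : ℕ) (a : Fin n → ℕ), (∀ i, 1 ≤ a i) →
  CI (fun i => (X i : R K n) ^ a i) a

/-- MONDIM. Compare `Pool/Agent/EGH/PMONDIM.lean` and `Pool/Agent/EGH/PASM.lean`: a monomial ideal
in degree `d` has the basis of its monomials. -/
def T_MONDIM : Prop := ∀ (K : Type u) [Field K] (n : ℕ) (a : Fin n → ℕ) (d : ℕ),
  Module.finrank K (Jd (fun i => (X i : R K n) ^ a i) d) + (Std a d).card =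
    Module.finrank K (Rd K n d)

/-- STD. Counting standard monomials, `s = S a n = ∑ (a_i - 1)`: the involution
`x ↦ (a_i - 1 - x_i)_i`. -/
def T_STD : Prop := ∀ (n : ℕ) (a : Fin n → ℕ), (∀ i, 1 ≤ a i) →
  (∀ d d', d + d' = S a n → (Std a d).card = (Std a d').card) ∧ (Std a 0).card = 1 ∧
  (Std a (S a n)).card = 1 ∧ ∀ d, S a n < d → Std a d = ∅

/-- PERF. The perfect pairing (compare `Pool/Agent/EGH/PPERF.lean`, three variables, same proof
with T_SOC; `T_HF` is the hypothesis). -/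
def T_PERF : Prop := ∀ (K : Type u) [Field K] (n : ℕ) (f : Fin n → R K n) (a : Fin n → ℕ),
  CI f a → Monotone a → ∀ (e e' : ℕ), e + e' = S a n → ∀ U : Submodule K (R K n), Jd f e ≤ U →
    U ≤ Rd K n e →
    Module.finrank K (orth f e' U) + Module.finrank K U =
      Module.finrank K (Jd f e') + Module.finrank K (Rd K n e)

/-- HF. From T_HF1, T_XCI, T_MONDIM. -/
def T_HF : Prop := ∀ (K : Type u) [Field K] (n : ℕ) (f : Fin n → R K n) (a : Fin n → ℕ),
  CI f a → ∀ d : ℕ, Module.finrank K (Jd f d) + (Std a d).card = Module.finrank K (Rd K n d)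

/-! ## G. Lex segments -/

/-- SEGA. `lexgt` is a strict linear order; initial segments of `Std a d` of every size exist
(induction on `N`: remove the smallest element of a nonempty initial segment, or sort); two initial
segments are nested. -/
def T_SEGA : Prop := ∀ (n : ℕ) (a : Fin n → ℕ) (d : ℕ),
  (∀ x y : Fin n →₀ ℕ, x ≠ y → lexgt x y ∨ lexgt y x) ∧ (∀ x : Fin n →₀ ℕ, ¬ lexgt x x) ∧
  (∀ x y z : Fin n →₀ ℕ, lexgt x y → lexgt y z → lexgt x z) ∧
  (∀ N, N ≤ (Std a d).card → ∃ M, IsSeg a d M ∧ M.card = N) ∧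
  (∀ M M', IsSeg a d M → IsSeg a d M' → M.card ≤ M'.card → M ⊆ M')

/-- SEGB. The last unit. For every `x ≠ 0` let `x⁻` be `x` with one unit removed at its last nonzero
coordinate. (1) `x⁻ + e_q = x` for the last nonzero coordinate `q`; if `x = y + e_k` then `x⁻ = y`
or `lexgt x⁻ y` (if `k < q`: first difference at `k`). (2) If `|x| = |x'|` and `lexgt x' x` then
`x'⁻ = x⁻` or `lexgt x'⁻ x⁻`: let `j` be the first coordinate where `x'` and `x` differ,
`x' j > x j`, `q` the last nonzero coordinate of `x'` (`q ≥ j`). If `q > j` then `x'⁻` agrees with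
`x'` up to `j`, the first difference to `x⁻` is at `j` (or earlier, larger). If `q = j`, then
`∑_{i > j} x_i = x'_j - x_j ≥ 1`, so the last nonzero coordinate of `x` is `> j`;
`x'⁻ j = x'_j - 1` is `> x_j` (then `lexgt x'⁻ x⁻`) or `= x_j` (then `∑_{i>j} x⁻_i = 0` and
`x'⁻ = x⁻`). (3) The shadow of an initial segment is an initial segment: `x ∈ shadow M`, `y ∈ M`,
`x = y + e_k`, `x' ∈ Std a (d+1)`, `lexgt x' x`: `x'⁻ ≥ x⁻ ≥ y`, `x'⁻` is standard, so in `M`. -/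
def T_SEGB : Prop := ∀ (n : ℕ), ∃ mi : (Fin n →₀ ℕ) → (Fin n →₀ ℕ),
  (∀ x, x ≠ 0 → ∃ q, mi x + Finsupp.single q 1 = x) ∧
  (∀ y k, mi (y + Finsupp.single k 1) = y ∨ lexgt (mi (y + Finsupp.single k 1)) y) ∧
  (∀ x x' : Fin n →₀ ℕ, x ≠ 0 → (∑ i, x i) = ∑ i, x' i → lexgt x' x →
    mi x' = mi x ∨ lexgt (mi x') (mi x)) ∧
  ∀ (a : Fin n → ℕ) (d : ℕ) (M : Finset (Fin n →₀ ℕ)), IsSeg a d M →
    IsSeg a (d + 1) (shadow a d M)

/-- There is an initial segment of `Std a d` of size `v` whose shadow has at most `G` elements. -/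
def Sh {n : ℕ} (a : Fin n → ℕ) (d v G : ℕ) : Prop :=
  ∃ M, IsSeg a d M ∧ M.card = v ∧ (shadow a d M).card ≤ G

/-- SHB. `p < n`, `S_p < d < S_{p+1}`, `v ≤ n - p`. PROOF. Coordinates are numbered `0, ..., n-1`.
Let `e = d - S_p ≥ 1`. For `j = p, ..., p+v-1` let `x^j` have the coordinates `a_i - 1` for `i < p`,
plus `e - 1` at `p`, plus one unit at `j`. `M = {x^p, ..., x^(p+v-1)}`. Standard: `e ≤ a_p - 1`.
Initial segment: `y ∈ Std`, `y > x^j`, first difference at `i`; `i < p` is impossible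
(`x^j_i = a_i - 1`); so `y_k = a_k - 1` for `k < p` and the other coordinates of `y` sum up to
`e`, `y_p ≥ x^j_p ≥ e - 1`: `y = x^{j'}` and `j' < j`. Shadow: elements are `x^j + e_k`,
`k ≥ p` (for `k < p` not standard), determined by the multiset `{j, k}` with `p ≤ j ≤ p+v-1`,
`p ≤ k ≤ n-1`; the number of such multisets is `v (n-p) - v(v-1)/2` (for `j' < j ≤ p+v-1` the pairs
`(j, j')` and `(j', j)` give the same, so one can restrict to pairs `(j, k)` with `j ≤ k`: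
`∑_{j=p}^{p+v-1} (n - j)`). -/
def T_SHB : Prop := ∀ (n : ℕ) (a : Fin n → ℕ) (d p v : ℕ), (∀ i, 2 ≤ a i) → Monotone a → p < n →
  S a p < d → d < S a (p + 1) → v + p ≤ n → Sh a d v (v * (n - p) - v.choose 2)

/-- SH1. `d = S_p`: `M = {u}`, `u_i = a_i - 1` for `i < p`, `u_i = 0` otherwise; the shadow is
`{u + e_k : k ≥ p}`. -/
def T_SH1 : Prop := ∀ (n : ℕ) (a : Fin n → ℕ) (p : ℕ), (∀ i, 2 ≤ a i) → p ≤ n →
  Sh a (S a p) 1 (n - p)

/-- SH2. `d = S_p`, `1 ≤ p < n` (coordinates numbered from `0`): `M = {u, u'}`, `u` as in SH1, `u'` is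
`u` with one unit moved from the coordinate `p - 1` to the coordinate `p`. Initial segment: if
`y ∈ Std`, `y > u'`, first difference at `i`: `i < p - 1` impossible, `i = p - 1` gives `y = u`,
`i ≥ p` impossible since the coordinates `≥ p` of `y` sum up to `1`. Shadow: `u + e_k`, `u' + e_k`
with `k ≥ p` (`u' + e_{p-1} = u + e_p`), and `u' + e_p` is not standard if `a_p = 2`. -/
def T_SH2 : Prop := ∀ (n : ℕ) (a : Fin n → ℕ) (p : ℕ) (hp : p < n), (∀ i, 2 ≤ a i) → 1 ≤ p →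
  Sh a (S a p) 2 (2 * (n - p)) ∧ (a ⟨p, hp⟩ = 2 → Sh a (S a p) 2 (2 * (n - p) - 1))

/-- SH3. `p + 1 = n ≥ 2`, `S_p < d < S_n`, `e = d - S_p`: `M = {x, x'}`, `x = (a_i - 1 (i < p), e)`,
`x'` is `x` with one unit moved from the coordinate `p - 1` to the last coordinate `p`. Shadow:
`x + e_p`, and `x' + e_p` if `e + 2 ≤ a_p - 1`; `x' + e_{p-1} = x + e_p`. -/
def T_SH3 : Prop := ∀ (n : ℕ) (a : Fin n → ℕ) (p d : ℕ), (∀ i, 2 ≤ a i) → 1 ≤ p → p + 1 = n →
  S a p < d → d < S a n → Sh a d 2 2 ∧ (d + 1 = S a n → Sh a d 2 1)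

/-- SHD. Duality. PROOF. `x* = (a_i - 1 - x_i)`; `Std a d' → Std a (d+1)`,
`Std a (d'+1) → Std a d` bijections reversing the lex order. `M'` initial segment of `Std a d'`
of size `v'`, its shadow `N'`, `#N' ≤ G`, an initial segment (T_SEGB). `(N')*` is a final segment of
`Std a d` of size `≤ G`. Let `M` be the initial segment of size `v` (T_SEGA); it is disjoint from
`(N')*` (sizes). If `x ∈ shadow M`, `y ∈ M`, `y ≤ x` and `x* ∈ M'`, then `x* ≤ y*`,
`y* ∈ Std a (d'+1)`, so `y* ∈ N'`, contradiction. So the shadow of `M` is disjoint from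
`(M')*`. -/
def T_SHD : Prop := ∀ (n : ℕ) (a : Fin n → ℕ) (d d' v v' G : ℕ), (∀ i, 1 ≤ a i) →
  d + d' + 1 = S a n → Sh a d' v' G → v + G ≤ (Std a d).card →
  Sh a d v ((Std a (d + 1)).card - v')

/-- LEXN. The lex-plus-powers ideal (compare `Pool/Agent/EGH/PASM.lean`, the same construction for
three variables). PROOF. `M d` initial segment of `Std a d` of size `v d` whose shadow has at most
`v (d+1)` elements, so `shadow a d (M d) ⊆ M (d+1)` (T_SEGA, T_SEGB; initial segments of the same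
size agree). `X'` = all exponents `x` such that every `y ∈ Std a |x|` with `y = x` or `lexgt y x` is
in `M |x|`. (i) A standard `x` is in `X'` iff `x ∈ M |x|`. (ii) `X'` is lex closed (transitivity).
(iii) `x ∈ X'` implies `x + e_k ∈ X'`: let `y ∈ Std a (|x|+1)`, `y = x + e_k` or
`lexgt y (x + e_k)`; let `y⁻ = mi y` be `y` with one unit removed at its last nonzero coordinate;
then `y⁻ ≥ (x + e_k)⁻ ≥ x` in the lex order (T_SEGB), so `y⁻ ∈ M |x|` and `y` is in its shadow. So the monomials in `J' = (X')` are exactly those of `X'`, and in degree `d` the monomial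
ideal `(X_i^{a_i}) + J'` has the basis of its monomials: the nonstandard ones and `M d`
(see MONDIM, `mem_ideal_span_monomial_image`). -/
def T_LEXN : Prop := ∀ (K : Type u) [Field K] (n : ℕ) (a : Fin n → ℕ) (v : ℕ → ℕ),
  (∀ d, v d ≤ (Std a d).card) → (∀ d, Sh a d (v d) (v (d + 1))) →
  ∃ J' : Ideal (MvPolynomial (Fin n) K),
    (∃ X' : Set (Fin n →₀ ℕ),
      J' = Ideal.span ((fun x => (MvPolynomial.monomial x (1 : K))) '' X')) ∧
    (∀ x y : Fin n →₀ ℕ, (∑ i, x i) = (∑ i, y i) →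
      (∃ j : Fin n, (∀ k, k < j → x k = y k) ∧ x j < y j) →
      MvPolynomial.monomial x (1 : K) ∈ J' → MvPolynomial.monomial y (1 : K) ∈ J') ∧
    ∀ d, Module.finrank K ↥(MvPolynomial.homogeneousSubmodule (Fin n) K d ⊓
          Submodule.restrictScalars K (Ideal.span (Set.range fun i : Fin n =>
            (MvPolynomial.X i : MvPolynomial (Fin n) K) ^ a i) ⊔ J')) =
      Module.finrank K (Jd (fun i => (X i : R K n) ^ a i) d) + v d

end

end Pool.Agent.EGU
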